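import Pool.Agent.Lib.MP_c77da8_nt.CG.Defs

/-!
# CG-Basic: elementary lemmas on averages, `mix` and `Ind`
-/

set_option autoImplicit false

namespace Pool.CG

open Finset

section Av

variable {Ω Ω' : Type} [Fintype Ω] [Fintype Ω']

theorem av_congr {F G : Ω → ℝ} (h : ∀ x, F x = G x) : av F = av G := by
  have : F = G := funext h
  rw [this]

theorem av_const [Nonempty Ω] (c : ℝ) : av (fun _ : Ω => c) = c := by
  unfold av
  have h : (Fintype.card Ω : ℝ) ≠ 0 := by exact_mod_cast Fintype.card_ne_zero
  rw [sum_const, card_univ, nsmul_eq_mul]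
  field_simp

theorem av_zero : av (fun _ : Ω => (0 : ℝ)) = 0 := by simp [av]

theorem av_add (F G : Ω → ℝ) : av (fun x => F x + G x) = av F + av G := by
  unfold av; rw [sum_add_distrib, add_div]

theorem av_sub (F G : Ω → ℝ) : av (fun x => F x - G x) = av F - av G := by
  unfold av; rw [sum_sub_distrib, sub_div]

theorem av_neg (F : Ω → ℝ) : av (fun x => -F x) = -av F := by
  unfold av; rw [sum_neg_distrib, neg_div]

theorem av_const_mul (c : ℝ) (F : Ω → ℝ) : av (fun x => c * F x) = c * av F := by
  unfold av; rw [← mul_sum, mul_div_assoc]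

theorem av_mul_const (c : ℝ) (F : Ω → ℝ) : av (fun x => F x * c) = av F * c := by
  unfold av; rw [← sum_mul]; ring

theorem av_sum {ι : Type} (s : Finset ι) (F : ι → Ω → ℝ) :
    av (fun x => ∑ i ∈ s, F i x) = ∑ i ∈ s, av (F i) := by
  unfold av
  rw [sum_comm, sum_div]

theorem av_nonneg {F : Ω → ℝ} (h : ∀ x, 0 ≤ F x) : 0 ≤ av F :=
  div_nonneg (sum_nonneg fun x _ => h x) (Nat.cast_nonneg _)

theorem av_mono {F G : Ω → ℝ} (h : ∀ x, F x ≤ G x) : av F ≤ av G :=
  div_le_div_of_nonneg_right (sum_le_sum fun x _ => h x) (Nat.cast_nonneg _)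

theorem abs_av_le (F : Ω → ℝ) : |av F| ≤ av (fun x => |F x|) := by
  unfold av
  rw [abs_div, Nat.abs_cast]
  exact div_le_div_of_nonneg_right (abs_sum_le_sum_abs _ _) (Nat.cast_nonneg _)

theorem abs_av_le_of {F G : Ω → ℝ} (h : ∀ x, |F x| ≤ G x) : |av F| ≤ av G :=
  (abs_av_le F).trans (av_mono h)

theorem av_le_of_le [Nonempty Ω] {F : Ω → ℝ} {c : ℝ} (h : ∀ x, F x ≤ c) : av F ≤ c := by
  have := av_mono (Ω := Ω) (F := F) (G := fun _ => c) h
  rwa [av_const] at this

/-- change of variables -/
theorem av_equiv (e : Ω ≃ Ω') (F : Ω' → ℝ) : av (fun x => F (e x)) = av F := by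
  unfold av
  rw [Equiv.sum_comp e F, Fintype.card_congr e]

/-- Fubini -/
theorem av_prod (F : Ω × Ω' → ℝ) : av F = av (fun x => av (fun y => F (x, y))) := by
  unfold av
  rw [Fintype.sum_prod_type, Fintype.card_prod, Nat.cast_mul, ← sum_div, div_div]
  ring_nf

theorem av_comm (F : Ω → Ω' → ℝ) :
    av (fun x => av (fun y => F x y)) = av (fun y => av (fun x => F x y)) := by
  have h1 := av_prod (fun z : Ω × Ω' => F z.1 z.2)
  have h2 := av_prod (fun z : Ω' × Ω => F z.2 z.1)
  have h3 := av_equiv (Equiv.prodComm Ω Ω') (fun z : Ω' × Ω => F z.2 z.1)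
  simp only [Equiv.prodComm_apply, Prod.fst_swap, Prod.snd_swap] at h3
  simp only at h1 h2
  rw [← h1, ← h2, h3]

/-- an average over a product of a function of the first variable -/
theorem av_fst [Nonempty Ω'] (F : Ω → ℝ) : av (fun z : Ω × Ω' => F z.1) = av F := by
  rw [av_prod]
  exact av_congr fun x => av_const (Ω := Ω') (F x)

theorem av_snd [Nonempty Ω] (F : Ω' → ℝ) : av (fun z : Ω × Ω' => F z.2) = av F := by
  rw [av_prod]
  exact av_const (Ω := Ω) (av F)

theorem av_weight_cs {w F : Ω → ℝ} (hw : ∀ x, 0 ≤ w x) :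
    (av (fun x => w x * F x)) ^ 2 ≤ av w * av (fun x => w x * F x ^ 2) := by
  unfold av
  rw [div_pow, div_mul_div_comm, ← sq]
  refine div_le_div_of_nonneg_right ?_ (by positivity)
  have h := Finset.sum_mul_sq_le_sq_mul_sq univ (fun x => Real.sqrt (w x)) (fun x => Real.sqrt (w x) * F x)
  have e1 : ∀ x : Ω, Real.sqrt (w x) * (Real.sqrt (w x) * F x) = w x * F x := by
    intro x
    rw [← mul_assoc, Real.mul_self_sqrt (hw x)]
  have e2 : ∀ x : Ω, Real.sqrt (w x) ^ 2 = w x := fun x => Real.sq_sqrt (hw x)
  have e3 : ∀ x : Ω, (Real.sqrt (w x) * F x) ^ 2 = w x * F x ^ 2 := by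
    intro x
    rw [mul_pow, Real.sq_sqrt (hw x)]
  simp only [e1, e2, e3] at h
  exact h

theorem av_sq_le (F : Ω → ℝ) : (av F) ^ 2 ≤ av (fun x => F x ^ 2) := by
  rcases isEmpty_or_nonempty Ω with h | h
  · simp [av]
  · have h1 := av_weight_cs (Ω := Ω) (w := fun _ => 1) (F := F) (fun _ => zero_le_one)
    simpa [av_const] using h1

/-- `av |F| ≤ √(av F²)` -/
theorem av_abs_sq_le (F : Ω → ℝ) : (av (fun x => |F x|)) ^ 2 ≤ av (fun x => F x ^ 2) := by
  have h := av_sq_le (fun x => |F x|)
  simpa [sq_abs] using h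

end Av

section Hyper

variable {K X : Type} [Fintype K] [DecidableEq K] [Fintype X]

/-- exchange of the coordinate `i` with an additional variable -/
def swapEquiv (i : K) : (K → X) × X ≃ (K → X) × X where
  toFun z := (Function.update z.1 i z.2, z.1 i)
  invFun z := (Function.update z.1 i z.2, z.1 i)
  left_inv z := by simp
  right_inv z := by simp

theorem av_swap (i : K) (F : (K → X) × X → ℝ) :
    av (fun z : (K → X) × X => F (Function.update z.1 i z.2, z.1 i)) = av F :=
  av_equiv (swapEquiv i) F

/-- the coordinate `i` may be replaced by an independent variable -/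
theorem av_update (i : K) (F : (K → X) → ℝ) :
    av F = av (fun x => av (fun u : X => F (Function.update x i u))) := by
  rcases isEmpty_or_nonempty X with h | h
  · have : IsEmpty (K → X) := ⟨fun x => h.elim (x i)⟩
    simp [av]
  · rw [← av_prod (fun z : (K → X) × X => F (Function.update z.1 i z.2)),
      av_swap i (fun z : (K → X) × X => F z.1), av_fst]

theorem Ind.mul {i : K} {F G : (K → X) → ℝ} (hF : Ind i F) (hG : Ind i G) :
    Ind i (fun x => F x * G x) := fun x v => by
  show F _ * G _ = _
  rw [hF x v, hG x v]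

theorem Ind.add {i : K} {F G : (K → X) → ℝ} (hF : Ind i F) (hG : Ind i G) :
    Ind i (fun x => F x + G x) := fun x v => by
  show F _ + G _ = _
  rw [hF x v, hG x v]

theorem Ind.sub {i : K} {F G : (K → X) → ℝ} (hF : Ind i F) (hG : Ind i G) :
    Ind i (fun x => F x - G x) := fun x v => by
  show F _ - G _ = _
  rw [hF x v, hG x v]

theorem Ind.const (i : K) (c : ℝ) : Ind i (fun _ : K → X => c) := fun _ _ => rfl

theorem Ind.comp {i : K} {F : (K → X) → ℝ} (hF : Ind i F) (g : ℝ → ℝ) :
    Ind i (fun x => g (F x)) := fun x v => by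
  show g (F _) = _
  rw [hF x v]

theorem Ind.prod {i : K} {ι : Type} (s : Finset ι) {F : ι → (K → X) → ℝ} (h : ∀ l ∈ s, Ind i (F l)) :
    Ind i (fun x => ∏ l ∈ s, F l x) := fun x v => prod_congr rfl fun l hl => h l hl x v

/-- `update` at another coordinate keeps `Ind` -/
theorem Ind.update {i j : K} (hij : i ≠ j) {F : (K → X) → ℝ} (hF : Ind i F) (y : X) :
    Ind i (fun x => F (Function.update x j y)) := fun x v => by
  show F _ = F _
  rw [Function.update_comm hij v y x, hF]

theorem mix_empty (x x' : K → X) : mix ∅ x x' = x := by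
  funext l; simp [mix]

theorem mix_apply_mem {T : Finset K} {l : K} (h : l ∈ T) (x x' : K → X) : mix T x x' l = x' l := by
  simp [mix, h]

theorem mix_apply_not_mem {T : Finset K} {l : K} (h : l ∉ T) (x x' : K → X) : mix T x x' l = x l := by
  simp [mix, h]

theorem mix_update_left {T : Finset K} {i : K} (h : i ∉ T) (x x' : K → X) (v : X) :
    mix T (Function.update x i v) x' = Function.update (mix T x x') i v := by
  funext l
  by_cases hl : l = i
  · subst hl; simp [mix, h]
  · simp [mix, Function.update_of_ne hl]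

theorem mix_update_left_mem {T : Finset K} {i : K} (h : i ∈ T) (x x' : K → X) (v : X) :
    mix T (Function.update x i v) x' = mix T x x' := by
  funext l
  by_cases hl : l = i
  · subst hl; simp [mix, h]
  · simp [mix, Function.update_of_ne hl]

theorem mix_update_right {T : Finset K} {i : K} (h : i ∈ T) (x x' : K → X) (v : X) :
    mix T x (Function.update x' i v) = Function.update (mix T x x') i v := by
  funext l
  by_cases hl : l = i
  · subst hl; simp [mix, h]
  · simp [mix, Function.update_of_ne hl]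

theorem mix_update_right_not_mem {T : Finset K} {i : K} (h : i ∉ T) (x x' : K → X) (v : X) :
    mix T x (Function.update x' i v) = mix T x x' := by
  funext l
  by_cases hl : l = i
  · subst hl; simp [mix, h]
  · simp [mix, Function.update_of_ne hl]

theorem mix_insert {T : Finset K} {i : K} (x x' : K → X) :
    mix (insert i T) x x' = Function.update (mix T x x') i (x' i) := by
  funext l
  by_cases hl : l = i
  · subst hl; simp [mix]
  · simp [mix, Function.update_of_ne hl, hl]

/-- the doubling step: for `i ∉ T` -/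
theorem mix_double {T : Finset K} {i : K} (h : i ∉ T) (x x' : K → X) :
    mix T (Function.update x i (x' i)) x' = mix (insert i T) x x' := by
  rw [mix_insert, mix_update_left h]

/-- a function which does not depend on the coordinate `i`, at `mix T x x'`, does not depend on `x i` -/
theorem Ind.mix_left {i : K} {F : (K → X) → ℝ} (hF : Ind i F) (T : Finset K) (x x' : K → X) (v : X) :
    F (mix T (Function.update x i v) x') = F (mix T x x') := by
  by_cases h : i ∈ T
  · rw [mix_update_left_mem h]
  · rw [mix_update_left h, hF]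

/-- a function which does not depend on the coordinate `i`, at `mix T x x'`, does not depend on `x' i` -/
theorem Ind.mix_right {i : K} {F : (K → X) → ℝ} (hF : Ind i F) (T : Finset K) (x x' : K → X) (v : X) :
    F (mix T x (Function.update x' i v)) = F (mix T x x') := by
  by_cases h : i ∈ T
  · rw [mix_update_right h, hF]
  · rw [mix_update_right_not_mem h]

/-- an additional variable may be called `x' j` -/
theorem av_rename (j : K) (G : (K → X) → (K → X) → X → ℝ)
    (hG : ∀ x x' v y, G x (Function.update x' j v) y = G x x' y) :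
    av (fun z : (K → X) × (K → X) × X => G z.1 z.2.1 z.2.2) =
      av (fun z : (K → X) × (K → X) => G z.1 z.2 (z.2 j)) := by
  rw [av_prod, av_prod]
  refine av_congr fun x => ?_
  rw [av_prod]
  rw [av_update j (fun x' : K → X => G x x' (x' j))]
  refine av_congr fun x' => av_congr fun y => ?_
  simp [hG]

theorem LF.mono {η η' : ℝ} {ν : K → (K → X) → ℝ} (h : LF η ν) (hη : η ≤ η') : LF η' ν :=
  fun S hS => (h S hS).trans hη

theorem LF.nonneg {η : ℝ} {ν : K → (K → X) → ℝ} (h : LF η ν) : 0 ≤ η :=
  (abs_nonneg _).trans (h ∅ (by simp))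

theorem Cut.mono {j : K} {F : (K → X) → ℝ} {ε ε' : ℝ} (h : Cut j F ε) (hε : ε ≤ ε') : Cut j F ε' :=
  fun u hu hi => (h u hu hi).trans hε

/-- `ν_i` for `i ∈ A`, and `1` otherwise -/
noncomputable def nuA (ν : K → (K → X) → ℝ) (A : Finset K) (i : K) (x : K → X) : ℝ := if i ∈ A then ν i x else 1

theorem nuA_ind {ν : K → (K → X) → ℝ} (h : ∀ i, Ind i (ν i)) (A : Finset K) (i : K) :
    Ind i (nuA ν A i) := by
  intro x v
  unfold nuA
  split_ifs
  · exact h i x v
  · rfl

theorem nuA_nonneg {ν : K → (K → X) → ℝ} (h : ∀ i x, 0 ≤ ν i x) (A : Finset K) (i : K) (x : K → X) :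
    0 ≤ nuA ν A i x := by
  unfold nuA
  split_ifs
  · exact h i x
  · exact zero_le_one

/-- the average of `∏_{i ≠ j} f_i` over the coordinate `j` -/
noncomputable def prim (f : K → (K → X) → ℝ) (j : K) (x : K → X) : ℝ :=
  av (fun y : X => ∏ i ∈ univ.erase j, f i (Function.update x j y))

theorem prim_ind (f : K → (K → X) → ℝ) (j : K) : Ind j (prim f j) := by
  intro x v
  unfold prim
  simp

end Hyper

end Pool.CG
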