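import Pool.Agent.Lib.MP_c77da8_nt.CG.OrdA

/-!
# CG-N-MZ: the multipliers `m(z)`

`mz_inj`: the exponent of `q_l` in `m(z)` is `M z_0 + z_(l+1)` (distinct primes, `Nat.factorization`), and `0 ≤ z_i < M`, so it
determines `z_0` and `z_(l+1)`. `mz_le`: all exponents are at most `M (M - 1) + M - 1 ≤ M^2`.
`pair_div`: by the second part of `PairOK` (with `F u v = 1` if `m(u) ≡ m(v) (mod p)`, `0` otherwise, and the average over
`c : ZMod M`) the left hand side is at most the average over `ω` of `(1/M) #{c : m(y ω + c e_1) ≡ m(y' ω) (mod p)}`. For fixed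
`ω` the numbers `(y ω 1 + c).val` run once through `0, …, M - 1`, and `m(y ω + c e_1) = K q_0^((y ω 1 + c).val)` with `K` prime to
`p` which does not depend on `c`; so the number of the `c` is at most `M/ord_p(q_0) + 1` by `pow_count`.
-/

set_option autoImplicit false

namespace Pool.CG

open Finset

variable {r M : ℕ} [NeZero M]

theorem mz_pos (q : Fin (r + 1) → ℕ) (hq : ∀ l, (q l).Prime) (z : Fin (r + 2) → ZMod M) : 1 ≤ mz q M z := by
  rw [mz]
  exact Nat.one_le_iff_ne_zero.2 (prod_ne_zero_iff.2 fun l _ => pow_ne_zero _ (hq l).ne_zero)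

private theorem MZ_fact (q : Fin (r + 1) → ℕ) (hq : ∀ l, (q l).Prime) (hinj : Function.Injective q)
    (z : Fin (r + 2) → ZMod M) (i : Fin (r + 1)) :
    (mz q M z).factorization (q i) = M * (z 0).val + (z i.succ).val := by
  rw [mz, Nat.factorization_prod (fun l _ => pow_ne_zero _ (hq l).ne_zero), Finsupp.finsetSum_apply,
    sum_eq_single i]
  · rw [(hq i).factorization_pow, Finsupp.single_eq_same]
  · intro l _ hl
    rw [(hq l).factorization_pow, Finsupp.single_apply, if_neg]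
    intro h
    exact hl (hinj h)
  · intro h
    exact absurd (mem_univ i) h

theorem mz_inj (q : Fin (r + 1) → ℕ) (hq : ∀ l, (q l).Prime) (hinj : Function.Injective q) :
    Function.Injective (mz q M : (Fin (r + 2) → ZMod M) → ℕ) := by
  intro z z' h
  have hM : 0 < M := Nat.pos_of_neZero M
  have key : ∀ i : Fin (r + 1), M * (z 0).val + (z i.succ).val = M * (z' 0).val + (z' i.succ).val := by
    intro i
    rw [← MZ_fact q hq hinj z i, ← MZ_fact q hq hinj z' i, h]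
  have h0 : ∀ i : Fin (r + 1), (z 0).val = (z' 0).val ∧ (z i.succ).val = (z' i.succ).val := by
    intro i
    have h1 := key i
    have h2 : (z i.succ).val < M := ZMod.val_lt _
    have h3 : (z' i.succ).val < M := ZMod.val_lt _
    have h4 := congrArg (fun x => x / M) h1
    have h5 := congrArg (fun x => x % M) h1
    simp only [Nat.mul_add_div hM, Nat.div_eq_of_lt h2, Nat.div_eq_of_lt h3, add_zero,
      Nat.mul_add_mod, Nat.mod_eq_of_lt h2, Nat.mod_eq_of_lt h3] at h4 h5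
    exact ⟨h4, h5⟩
  funext j
  refine Fin.cases ?_ (fun i => ?_) j
  · exact ZMod.val_injective M (h0 0).1
  · exact ZMod.val_injective M (h0 i).2

theorem mz_le (q : Fin (r + 1) → ℕ) (hq : ∀ l, (q l).Prime) (z : Fin (r + 2) → ZMod M) :
    mz q M z ≤ (∏ l, q l) ^ (M ^ 2) := by
  rw [mz, ← prod_pow]
  apply prod_le_prod'
  intro l _
  apply Nat.pow_le_pow_right (hq l).pos
  have hM : 0 < M := Nat.pos_of_neZero M
  have h2 : (z 0).val < M := ZMod.val_lt _
  have h3 : (z l.succ).val < M := ZMod.val_lt _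
  nlinarith

theorem mz_prime_dvd (q : Fin (r + 1) → ℕ) (hq : ∀ l, (q l).Prime) (z : Fin (r + 2) → ZMod M) (p : ℕ)
    (hp : p.Prime) (h : p ∣ mz q M z) : ∃ l, p = q l := by
  rw [mz] at h
  obtain ⟨l, _, hl⟩ := (hp.prime.dvd_finsetProd_iff _).1 h
  exact ⟨l, (Nat.prime_dvd_prime_iff_eq hp (hq l)).1 (hp.dvd_of_dvd_pow hl)⟩

/-- the part of `mz` which does not depend on the coordinate `1` -/
private theorem MZ_shift (q : Fin (r + 1) → ℕ) (z : Fin (r + 2) → ZMod M) (c : ZMod M) :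
    mz q M (z + Pi.single 1 c) = (q 0 ^ (M * (z 0).val) *
      ∏ l : Fin r, q l.succ ^ (M * (z 0).val + (z l.succ.succ).val)) * q 0 ^ (z 1 + c).val := by
  rw [mz, Fin.prod_univ_succ]
  have h0 : (z + Pi.single 1 c : Fin (r + 2) → ZMod M) 0 = z 0 := by
    rw [Pi.add_apply, Pi.single_eq_of_ne (by exact Fin.zero_ne_one), add_zero]
  have h1 : (z + Pi.single 1 c : Fin (r + 2) → ZMod M) (0 : Fin (r + 1)).succ = z 1 + c := by
    rw [Fin.succ_zero_eq_one, Pi.add_apply, Pi.single_eq_same]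
  have h2 : ∀ l : Fin r, (z + Pi.single 1 c : Fin (r + 2) → ZMod M) l.succ.succ = z l.succ.succ := by
    intro l
    rw [Pi.add_apply, Pi.single_eq_of_ne, add_zero]
    intro h
    have := congrArg Fin.val h
    simp at this
  rw [h0, h1, pow_add]
  simp only [h2]
  ring

/-- the number of the `c` with `m(u + c e_1) ≡ m(v)` -/
private theorem MZ_fix (q : Fin (r + 1) → ℕ) (p : ℕ) (hp : p.Prime) (hpd : ∀ l, ¬ p ∣ q l)
    (u v : Fin (r + 2) → ZMod M) :
    ((univ.filter fun c : ZMod M => mz q M (u + Pi.single 1 c) ≡ mz q M v [MOD p]).card : ℝ) ≤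
      (M : ℝ) / (orderOf (q 0 : ZMod p) : ℝ) + 1 := by
  have hpF := Fact.mk hp
  obtain ⟨K, hK⟩ : ∃ K : ℕ, K = q 0 ^ (M * (u 0).val) *
    ∏ l : Fin r, q l.succ ^ (M * (u 0).val + (u l.succ.succ).val) := ⟨_, rfl⟩
  have hKp : (K : ZMod p) ≠ 0 := by
    rw [Ne, ZMod.natCast_eq_zero_iff, hK]
    intro hd
    rcases (hp.dvd_mul).1 hd with h1 | h1
    · exact hpd 0 (hp.dvd_of_dvd_pow h1)
    · obtain ⟨l, _, hl⟩ := (hp.prime.dvd_finsetProd_iff _).1 h1
      exact hpd _ (hp.dvd_of_dvd_pow hl)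
  refine le_trans ?_ (pow_count p (q 0) M hp (hpd 0) ((mz q M v : ZMod p) / (K : ZMod p)))
  have h4 : (univ.filter fun c : ZMod M => mz q M (u + Pi.single 1 c) ≡ mz q M v [MOD p]).card ≤
      ((range M).filter fun n => (q 0 : ZMod p) ^ n =
      (mz q M v : ZMod p) / (K : ZMod p)).card := by
    apply card_le_card_of_injOn (fun c : ZMod M => (u 1 + c).val)
    · intro c hc
      rw [coe_filter] at hc ⊢
      refine ⟨mem_range.2 (ZMod.val_lt _), ?_⟩
      have hc2 := hc.2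
      rw [← ZMod.natCast_eq_natCast_iff, MZ_shift q u c, ← hK, Nat.cast_mul, Nat.cast_pow] at hc2
      rw [eq_div_iff hKp, mul_comm]
      exact hc2
    · intro c _ c' _ hcc
      exact add_left_cancel (ZMod.val_injective M hcc)
  exact_mod_cast h4

private theorem MZ_avg {Ω : Type} [Fintype Ω] [Nonempty Ω] (M : ℕ) (hM : 0 < M) {C : Type} [Fintype C]
    (hC : Fintype.card C = M) (G : Ω → ℝ) (H : C → Ω → ℝ) (h : ∀ c, av (H c) = av G) (B : ℝ)
    (hB : ∀ ω, ∑ c, H c ω ≤ B) : av G ≤ B / (M : ℝ) := by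
  have hM' : (0 : ℝ) < (M : ℝ) := by exact_mod_cast hM
  have hΩ : (0 : ℝ) < (Fintype.card Ω : ℝ) := by exact_mod_cast Fintype.card_pos
  have h1 : ∑ c : C, av (H c) = (M : ℝ) * av G := by
    rw [sum_congr rfl fun c _ => h c, sum_const, card_univ, hC, nsmul_eq_mul]
  have h2 : ∑ c : C, av (H c) = (∑ ω, ∑ c : C, H c ω) / (Fintype.card Ω : ℝ) := by
    simp only [av]
    rw [← sum_div, sum_comm]
  have h3 : (∑ ω, ∑ c : C, H c ω) ≤ (Fintype.card Ω : ℝ) * B := by
    calc (∑ ω, ∑ c : C, H c ω) ≤ ∑ _ω : Ω, B := sum_le_sum fun ω _ => hB ω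
      _ = _ := by rw [sum_const, card_univ, nsmul_eq_mul]
  rw [le_div_iff₀ hM', mul_comm, ← h1, h2, div_le_iff₀ hΩ, mul_comm B]
  exact h3

private theorem MZ_pd (q : Fin (r + 1) → ℕ) {Ω : Type} [Fintype Ω] [Nonempty Ω]
    (y y' : Ω → Fin (r + 2) → ZMod M) (h : PairOK y y') (p : ℕ) (o : ℝ)
    (hfix : ∀ u v : Fin (r + 2) → ZMod M,
      ((univ.filter fun c : ZMod M => mz q M (u + Pi.single 1 c) ≡ mz q M v [MOD p]).card : ℝ) ≤ o) :
    av (fun ω => if mz q M (y ω) ≡ mz q M (y' ω) [MOD p] then (1 : ℝ) else 0) ≤ o / (M : ℝ) := by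
  have hM : 0 < M := Nat.pos_of_neZero M
  refine MZ_avg (Ω := Ω) M hM (C := ZMod M) (ZMod.card M)
    (fun ω => if mz q M (y ω) ≡ mz q M (y' ω) [MOD p] then (1 : ℝ) else 0)
    (fun c ω => if mz q M (y ω + Pi.single 1 c) ≡ mz q M (y' ω) [MOD p] then (1 : ℝ) else 0)
    ?_ o ?_
  · intro c
    exact h.2 c (fun u v => if mz q M u ≡ mz q M v [MOD p] then (1 : ℝ) else 0)
  · intro ω
    have := hfix (y ω) (y' ω)
    rw [← sum_filter, sum_const, nsmul_eq_mul, mul_one]
    exact this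

private theorem MZ_cnt {Ω : Type} [Fintype Ω] [Nonempty Ω] (A B : Ω → Prop) [DecidablePred A]
    [DecidablePred B] (hAB : ∀ ω, A ω → B ω) :
    ((univ.filter A).card : ℝ) / Fintype.card Ω ≤ av (fun ω => if B ω then (1 : ℝ) else 0) := by
  have hΩ : (0 : ℝ) < (Fintype.card Ω : ℝ) := by exact_mod_cast Fintype.card_pos
  rw [av, ← sum_filter, sum_const, nsmul_eq_mul, mul_one]
  apply div_le_div_of_nonneg_right _ hΩ.le
  have h6 : (univ.filter A).card ≤ (univ.filter B).card := by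
    apply card_le_card
    intro ω hω
    rw [mem_filter] at hω ⊢
    exact ⟨hω.1, hAB ω hω.2⟩
  exact_mod_cast h6

private theorem MZ_ar (M : ℕ) (hM : 0 < M) (o : ℝ) :
    ((M : ℝ) / o + 1) / (M : ℝ) = 1 / o + 1 / (M : ℝ) := by
  have hM' : (0 : ℝ) < (M : ℝ) := by exact_mod_cast hM
  rw [add_div, div_div, mul_comm o (M : ℝ), ← div_div, div_self hM'.ne']

theorem pair_div (q : Fin (r + 1) → ℕ) (hq : ∀ l, (q l).Prime) {Ω : Type} [Fintype Ω] [Nonempty Ω]
    (y y' : Ω → Fin (r + 2) → ZMod M) (h : PairOK y y') (p : ℕ) (hp : p.Prime) (hpq : ∀ l, p ≠ q l) :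
    ((univ.filter fun ω => y ω ≠ y' ω ∧ mz q M (y ω) ≡ mz q M (y' ω) [MOD p]).card : ℝ) / Fintype.card Ω ≤
      1 / (orderOf (q 0 : ZMod p) : ℝ) + 1 / (M : ℝ) := by
  have hM : 0 < M := Nat.pos_of_neZero M
  have hpd : ∀ l, ¬ p ∣ q l := fun l hl => hpq l ((Nat.prime_dvd_prime_iff_eq hp (hq l)).1 hl)
  have hav := MZ_pd q y y' h p ((M : ℝ) / (orderOf (q 0 : ZMod p) : ℝ) + 1) (MZ_fix q p hp hpd)
  rw [MZ_ar M hM] at hav
  exact le_trans (MZ_cnt (fun ω => y ω ≠ y' ω ∧ mz q M (y ω) ≡ mz q M (y' ω) [MOD p])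
    (fun ω => mz q M (y ω) ≡ mz q M (y' ω) [MOD p]) (fun ω hω => hω.2)) hav

end Pool.CG
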