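import Pool.Agent.Lib.MP_c77da8_nt.CG.SDefs

/-!
# CG-N-RtF: elementary facts about `R = ⌊N^(1/(16 t))⌋`

`R ≤ N^(1/(16t))`, so `R^(8t) ≤ N^(1/2)` and `R^(2t) ≤ N`; `R ≥ N^(1/(16t)) - 1 ≥ N^(1/(32t))` for large `N`.
-/

set_option autoImplicit false

namespace Pool.CG

open Finset

theorem Rt_facts (t : ℕ) (ht : 1 ≤ t) : ∃ N0 : ℕ, ∀ N ≥ N0, 3 ≤ Rt t N ∧
    ((Rt t N : ℕ) : ℝ) ^ (8 * t) ≤ (N : ℝ) ^ (1 / 2 : ℝ) ∧ Rt t N ^ (2 * t) ≤ N ∧ 2 * Rt t N + 2 ≤ N ∧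
    Real.log (Rt t N) ≤ Real.log N ∧ Real.log N / (32 * t) ≤ Real.log (Rt t N) := by
  refine ⟨2 ^ (32 * t), fun N hN => ?_⟩
  have ht0 : (0 : ℝ) < t := by exact_mod_cast ht
  have hN0 : (0 : ℝ) ≤ N := Nat.cast_nonneg N
  have hN' : ((2 : ℝ)) ^ (32 * t) ≤ N := by exact_mod_cast hN
  have hN1 : (1 : ℝ) ≤ N := le_trans (one_le_pow₀ (by norm_num)) hN'
  have hNpos : (0 : ℝ) < N := by linarith
  obtain ⟨s, hs⟩ : ∃ s : ℝ, s = (N : ℝ) ^ (1 / (32 * (t : ℝ))) := ⟨_, rfl⟩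
  obtain ⟨u, hu⟩ : ∃ u : ℝ, u = (N : ℝ) ^ (1 / (16 * (t : ℝ))) := ⟨_, rfl⟩
  obtain ⟨R, hR⟩ : ∃ R : ℕ, R = Rt t N := ⟨_, rfl⟩
  have hs2 : 2 ≤ s := by
    have h1 : ((2 : ℝ) ^ (32 * t)) ^ (1 / (32 * (t : ℝ))) ≤ s := by
      rw [hs]; exact Real.rpow_le_rpow (by positivity) hN' (by positivity)
    have e : ((2 : ℝ) ^ (32 * t)) ^ (1 / (32 * (t : ℝ))) = 2 := by
      rw [← Real.rpow_natCast, ← Real.rpow_mul (by norm_num)]
      have h2 : ((32 * t : ℕ) : ℝ) * (1 / (32 * (t : ℝ))) = 1 := by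
        push_cast
        field_simp
      rw [h2, Real.rpow_one]
    linarith
  have hus : u = s ^ 2 := by
    rw [hu, hs, ← Real.rpow_natCast, ← Real.rpow_mul hN0]
    congr 1
    push_cast
    field_simp
    norm_num
  have hu0 : 0 ≤ u := by rw [hus]; positivity
  have hRu : (R : ℝ) ≤ u := by
    rw [hR, hu]; unfold Rt; rw [hu] at hu0
    exact Nat.floor_le hu0
  have hRu1 : u - 1 < R := by
    rw [hR, hu]; unfold Rt
    exact Nat.sub_one_lt_floor _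
  have hsR : s ≤ R := by nlinarith
  have hR3 : 3 ≤ R := by
    have : (2 : ℝ) < R := by nlinarith
    have h3 : 2 < R := by exact_mod_cast this
    omega
  have h8 : (R : ℝ) ^ (8 * t) ≤ (N : ℝ) ^ (1 / 2 : ℝ) := by
    calc (R : ℝ) ^ (8 * t) ≤ u ^ (8 * t) := pow_le_pow_left₀ (Nat.cast_nonneg _) hRu _
      _ = (N : ℝ) ^ (1 / 2 : ℝ) := by
        rw [hu, ← Real.rpow_natCast, ← Real.rpow_mul hN0]
        congr 1
        push_cast
        field_simp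
        norm_num
  have h2 : R ^ (2 * t) ≤ N := by
    have h1R : (1 : ℝ) ≤ R := by exact_mod_cast (by omega : 1 ≤ R)
    have : (R : ℝ) ^ (2 * t) ≤ N := by
      calc (R : ℝ) ^ (2 * t) ≤ (R : ℝ) ^ (8 * t) := pow_le_pow_right₀ h1R (by omega)
        _ ≤ (N : ℝ) ^ (1 / 2 : ℝ) := h8
        _ ≤ (N : ℝ) ^ (1 : ℝ) := Real.rpow_le_rpow_of_exponent_le hN1 (by norm_num)
        _ = N := Real.rpow_one _
    exact_mod_cast this
  have hRR : R ^ 2 ≤ N := le_trans (Nat.pow_le_pow_right (by omega) (by omega)) h2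
  rw [← hR]
  refine ⟨hR3, h8, h2, by nlinarith, ?_, ?_⟩
  · apply Real.log_le_log (by exact_mod_cast (by omega : 0 < R))
    have : R ≤ N := by nlinarith
    exact_mod_cast this
  · have h1 : Real.log s = Real.log N / (32 * t) := by
      rw [hs, Real.log_rpow hNpos]
      ring
    rw [← h1]
    exact Real.log_le_log (by linarith) hsR

end Pool.CG
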