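import Pool.Agent.Lib.MP_c77da8_nt.CG.SDefs
import Pool.Agent.Lib.MP_c77da8_nt.Mert

/-!
# CG-N-VBd: bounds of Mertens type for `V`

`VV_le`: `V ≤ ∏_{w < p ≤ R} (1 + 1/(p-1)) ≤ ∏_{p ≤ R} (1 - 1/p)⁻¹ ≤ C log R` (from `∑_{p ≤ R} 1/p ≤ log log R + C`,
`Mert.lean`: `R_le`, and `-log(1 - 1/p) ≤ 1/p + 1/p^2·…`; a bound `C log R` with any absolute constant is enough).
`prodPr_le`: `∏_{w < p ≤ R} (1 + a/p) ≤ exp(a ∑_{p ≤ R} 1/p) ≤ (C log R)^a`.
`VV_ge`: `V ≥ (φ(W)/W) log R`, `W = Wp w`: `∑_{n ≤ R} 1/n ≤ ∏_{p ≤ w} (1 - 1/p)⁻¹ ∑_{a} ∏_{p ∈ a} 1/(p-1)`, since every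
`n ≤ R` is (a number composed of primes `≤ w`) times (a number with the primes in `a`, all exponents `≥ 1`, `nm a ≤ R`), and
`∑_{e ≥ 1} p^(-e) = 1/(p-1)`. The library `DL/VLow.lean` (namespace `Pool.DL`, `vlF`, …) has a lower bound of this kind for the
weight `1/(p-2)`; adapt it or reuse it (`1/(p-1)` against `1/(p-2)`: careful, it is smaller). `φ(W)/W = ∏_{p ≤ w} (1 - 1/p)`.
-/

set_option autoImplicit false

namespace Pool.CG

open Finset

/-- sum of `1/n` over the `n ≤ x` with all prime factors in `S` -/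
private noncomputable def vbdF (S : Finset ℕ) (x : ℕ) : ℝ :=
  ∑ n ∈ (Icc 1 x).filter (fun n => n.primeFactors ⊆ S), (1 : ℝ) / n

private theorem vbdF_nonneg (S : Finset ℕ) (x : ℕ) : 0 ≤ vbdF S x := by
  unfold vbdF
  exact sum_nonneg fun n _ => by positivity

private theorem vbdF_mono (S : Finset ℕ) {x y : ℕ} (h : x ≤ y) : vbdF S x ≤ vbdF S y := by
  unfold vbdF
  apply sum_le_sum_of_subset_of_nonneg
  · intro n hn
    rw [mem_filter, mem_Icc] at hn ⊢
    exact ⟨⟨hn.1.1, hn.1.2.trans h⟩, hn.2⟩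
  · intro n _ _
    positivity

private theorem vbdF_zero (S : Finset ℕ) : vbdF S 0 = 0 := by
  unfold vbdF
  simp

private theorem vbdF_step (S : Finset ℕ) (p : ℕ) (hp : p.Prime) (x : ℕ) :
    vbdF (insert p S) x ≤ vbdF S x + 1 / (p : ℝ) * vbdF (insert p S) (x / p) := by
  unfold vbdF
  rw [← sum_filter_add_sum_filter_not ((Icc 1 x).filter fun n => n.primeFactors ⊆ insert p S)
    (fun n => ¬ p ∣ n) (fun n => (1 : ℝ) / n)]
  apply add_le_add
  · apply sum_le_sum_of_subset_of_nonneg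
    · intro n hn
      rw [mem_filter, mem_filter, mem_Icc] at hn
      rw [mem_filter, mem_Icc]
      refine ⟨hn.1.1, fun q hq => ?_⟩
      rcases mem_insert.1 (hn.1.2 hq) with h | h
      · subst h
        exact absurd (Nat.dvd_of_mem_primeFactors hq) hn.2
      · exact h
    · intro n _ _
      positivity
  · have hp0 : 0 < p := hp.pos
    have hinj : Set.InjOn (fun m : ℕ => m * p)
        (((Icc 1 (x / p)).filter fun n => n.primeFactors ⊆ insert p S : Finset ℕ) : Set ℕ) := by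
      intro a _ b _ hab
      exact Nat.eq_of_mul_eq_mul_right hp0 hab
    have hsub : (((Icc 1 x).filter fun n => n.primeFactors ⊆ insert p S).filter fun n => ¬ ¬ p ∣ n) ⊆
        ((Icc 1 (x / p)).filter fun n => n.primeFactors ⊆ insert p S).image (fun m => m * p) := by
      intro n hn
      rw [mem_filter, mem_filter, mem_Icc, not_not] at hn
      obtain ⟨⟨⟨h1, h2⟩, h3⟩, m, rfl⟩ := hn
      rw [mem_image]
      refine ⟨m, ?_, mul_comm _ _⟩
      have hm : 0 < m := Nat.pos_of_mul_pos_left h1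
      rw [mem_filter, mem_Icc]
      refine ⟨⟨hm, ?_⟩, ?_⟩
      · rw [Nat.le_div_iff_mul_le hp0, mul_comm]
        exact h2
      · refine subset_trans ?_ h3
        exact Nat.primeFactors_mono (Dvd.intro_left p rfl) (by positivity)
    refine (sum_le_sum_of_subset_of_nonneg hsub fun n _ _ => by positivity).trans ?_
    rw [sum_image hinj, mul_sum]
    apply le_of_eq
    apply sum_congr rfl
    intro m _
    push_cast
    rw [one_div_mul_one_div, mul_comm]

private theorem vbdF_small (S : Finset ℕ) (p : ℕ) (hp : p.Prime) :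
    ∀ x : ℕ, vbdF (insert p S) x ≤ (1 - 1 / (p : ℝ))⁻¹ * vbdF S x := by
  intro x
  induction x using Nat.strong_induction_on with
  | _ x ih =>
    rcases Nat.eq_zero_or_pos x with h0 | h0
    · subst h0
      rw [vbdF_zero, vbdF_zero, mul_zero]
    · have hp2 : (2 : ℝ) ≤ p := by exact_mod_cast hp.two_le
      have h1 : (1 : ℝ) / p ≤ 1 / 2 := by
        apply one_div_le_one_div_of_le <;> linarith
      have h2 : (0 : ℝ) < 1 / p := by positivity
      have hlt : x / p < x := Nat.div_lt_self h0 hp.one_lt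
      have hs := vbdF_step S p hp x
      have hi := ih (x / p) hlt
      have hm := vbdF_mono S (Nat.div_le_self x p)
      have hn := vbdF_nonneg S x
      set c : ℝ := (1 - 1 / (p : ℝ))⁻¹ with hc
      have hcp : 0 < c := by
        rw [hc]
        apply inv_pos.2
        linarith
      have hc1 : c * (1 - 1 / (p : ℝ)) = 1 := by
        rw [hc]
        apply inv_mul_cancel₀
        linarith
      have h3 : 1 / (p : ℝ) * vbdF (insert p S) (x / p) ≤ 1 / (p : ℝ) * (c * vbdF S x) :=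
        mul_le_mul_of_nonneg_left (hi.trans (mul_le_mul_of_nonneg_left hm hcp.le)) h2.le
      have h4 : vbdF S x + 1 / (p : ℝ) * (c * vbdF S x) = c * vbdF S x := by
        have : 1 + 1 / (p : ℝ) * c = c := by linear_combination (-1 : ℝ) * hc1
        calc vbdF S x + 1 / (p : ℝ) * (c * vbdF S x) = (1 + 1 / (p : ℝ) * c) * vbdF S x := by ring
          _ = c * vbdF S x := by rw [this]
      linarith

section Big

set_option linter.unusedSectionVars false

variable {P : Type} [Fintype P] [DecidableEq P]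

/-- the sum `V` over the subsets of `a` -/
private noncomputable def vbdV (v : P → ℕ) (g : P → ℝ) (a : Finset P) (x : ℕ) : ℝ :=
  ∑ b ∈ a.powerset, if nm v b ≤ x then ∏ p ∈ b, g p else 0

private theorem vbdV_nonneg (v : P → ℕ) (g : P → ℝ) (hg : ∀ p, 0 ≤ g p) (a : Finset P) (x : ℕ) :
    0 ≤ vbdV v g a x := by
  unfold vbdV
  apply sum_nonneg
  intro b _
  split_ifs
  · exact prod_nonneg fun p _ => hg p
  · exact le_rfl

private theorem vbdV_mono (v : P → ℕ) (g : P → ℝ) (hg : ∀ p, 0 ≤ g p) (a : Finset P) {x y : ℕ} (h : x ≤ y) :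
    vbdV v g a x ≤ vbdV v g a y := by
  unfold vbdV
  apply sum_le_sum
  intro b _
  split_ifs with h1 h2
  · exact le_rfl
  · exact absurd (h1.trans h) h2
  · exact prod_nonneg fun p _ => hg p
  · exact le_rfl

private theorem vbdV_insert (v : P → ℕ) (g : P → ℝ) (a : Finset P) (p : P) (hp : p ∉ a) (hv : 0 < v p)
    (x : ℕ) : vbdV v g (insert p a) x = vbdV v g a x + g p * vbdV v g a (x / v p) := by
  unfold vbdV
  rw [sum_powerset_insert hp, mul_sum]
  congr 1
  apply sum_congr rfl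
  intro b hb
  have hpb : p ∉ b := fun h => hp (mem_powerset.1 hb h)
  have h1 : nm v (insert p b) = v p * nm v b := by
    unfold nm
    rw [prod_insert hpb]
  have h2 : (nm v (insert p b) ≤ x) ↔ nm v b ≤ x / v p := by
    rw [h1, Nat.le_div_iff_mul_le hv, mul_comm]
  rw [prod_insert hpb]
  by_cases h : nm v b ≤ x / v p
  · rw [if_pos h, if_pos (h2.2 h)]
  · rw [if_neg h, if_neg (fun h' => h (h2.1 h')), mul_zero]

private theorem vbdF_big (v : P → ℕ) (g : P → ℝ) (hpr : ∀ p, (v p).Prime)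
    (hg : ∀ p, 1 / ((v p : ℝ) - 1) ≤ g p) (a : Finset P) :
    ∀ x, vbdF (a.image v) x ≤ vbdV v g a x := by
  have hg0 : ∀ p, 0 ≤ g p := by
    intro p
    have h2 : (2 : ℝ) ≤ v p := by exact_mod_cast (hpr p).two_le
    refine le_trans ?_ (hg p)
    apply one_div_nonneg.2
    linarith
  induction a using Finset.induction_on with
  | empty =>
    intro x
    unfold vbdF vbdV
    rw [image_empty, powerset_empty, sum_singleton]
    rcases Nat.eq_zero_or_pos x with h0 | h0
    · subst h0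
      have : nm v (∅ : Finset P) = 1 := by simp [nm]
      rw [this]
      simp
    · have h1 : nm v (∅ : Finset P) ≤ x := by
        have : nm v (∅ : Finset P) = 1 := by simp [nm]
        omega
      rw [if_pos h1, prod_empty]
      have hsub : ((Icc 1 x).filter fun n => n.primeFactors ⊆ (∅ : Finset ℕ)) ⊆ {1} := by
        intro n hn
        rw [mem_filter, mem_Icc, subset_empty, Nat.primeFactors_eq_empty] at hn
        rw [mem_singleton]
        rcases hn.2 with h | h
        · omega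
        · exact h
      refine (sum_le_sum_of_subset_of_nonneg hsub fun n _ _ => by positivity).trans ?_
      simp
  | insert p a hpa ih =>
    intro x
    induction x using Nat.strong_induction_on with
    | _ x ihx =>
      rcases Nat.eq_zero_or_pos x with h0 | h0
      · subst h0
        rw [vbdF_zero]
        exact vbdV_nonneg v g hg0 _ _
      · rw [image_insert] at ihx ⊢
        have hp2 : (2 : ℝ) ≤ v p := by exact_mod_cast (hpr p).two_le
        have hvp : 0 < v p := (hpr p).pos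
        have hlt : x / v p < x := Nat.div_lt_self h0 (hpr p).one_lt
        have hs := vbdF_step (a.image v) (v p) (hpr p) x
        have hi := ihx (x / v p) hlt
        rw [vbdV_insert v g a p hpa hvp] at hi
        have hm := vbdV_mono v g hg0 a (Nat.div_le_self (x / v p) (v p))
        have hn := vbdV_nonneg v g hg0 a (x / v p)
        have hx := ih x
        rw [vbdV_insert v g a p hpa hvp]
        have h2 : (0 : ℝ) < 1 / (v p : ℝ) := by positivity
        have hgp := hg0 p
        have h3 : vbdF (insert (v p) (a.image v)) (x / v p) ≤ (1 + g p) * vbdV v g a (x / v p) := by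
          have := mul_le_mul_of_nonneg_left hm hgp
          linarith
        have h4 : 1 / (v p : ℝ) * (1 + g p) ≤ g p := by
          have h5 := hg p
          rw [div_le_iff₀ (by linarith)] at h5
          rw [one_div, ← div_eq_inv_mul, div_le_iff₀ (by linarith)]
          linarith
        have h6 : 1 / (v p : ℝ) * vbdF (insert (v p) (a.image v)) (x / v p)
            ≤ g p * vbdV v g a (x / v p) := by
          calc 1 / (v p : ℝ) * vbdF (insert (v p) (a.image v)) (x / v p)
              ≤ 1 / (v p : ℝ) * ((1 + g p) * vbdV v g a (x / v p)) :=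
                mul_le_mul_of_nonneg_left h3 h2.le
            _ = (1 / (v p : ℝ) * (1 + g p)) * vbdV v g a (x / v p) := by ring
            _ ≤ g p * vbdV v g a (x / v p) := mul_le_mul_of_nonneg_right h4 hn
        linarith

end Big

private theorem vbdF_union (S T : Finset ℕ) (hT : ∀ p ∈ T, p.Prime) (x : ℕ) :
    vbdF (T ∪ S) x ≤ (∏ p ∈ T, (1 - 1 / (p : ℝ))⁻¹) * vbdF S x := by
  induction T using Finset.induction_on with
  | empty => simp
  | insert p T hp ih =>
    rw [insert_union, prod_insert hp]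
    have h1 := vbdF_small (T ∪ S) p (hT p (mem_insert_self _ _)) x
    have h2 := ih fun q hq => hT q (mem_insert_of_mem hq)
    have hp2 : (2 : ℝ) ≤ p := by exact_mod_cast (hT p (mem_insert_self _ _)).two_le
    have h3 : (1 : ℝ) / p ≤ 1 / 2 := by
      apply one_div_le_one_div_of_le <;> linarith
    have h4 : 0 ≤ (1 - 1 / (p : ℝ))⁻¹ := by
      apply inv_nonneg.2
      linarith
    calc vbdF (insert p (T ∪ S)) x ≤ (1 - 1 / (p : ℝ))⁻¹ * vbdF (T ∪ S) x := h1
      _ ≤ (1 - 1 / (p : ℝ))⁻¹ * ((∏ p ∈ T, (1 - 1 / (p : ℝ))⁻¹) * vbdF S x) :=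
        mul_le_mul_of_nonneg_left h2 h4
      _ = _ := by ring


private theorem vbd_S1 (R : ℕ) (hR : 2 ≤ R) :
    ∑ p ∈ Nat.primesLE R, (1 : ℝ) / p ≤ Real.log (3 * Real.log R) + 6 := by
  have hR' : (2 : ℝ) ≤ R := by exact_mod_cast hR
  have hl2 : 0 < Real.log 2 := Real.log_pos (by norm_num)
  have hl2' : (0.6931471803 : ℝ) < Real.log 2 := Real.log_two_gt_d9
  have hlR : Real.log 2 ≤ Real.log R := Real.log_le_log (by norm_num) hR'
  set J := Nat.log 2 R + 1 with hJ
  have hJ1 : 1 ≤ J := by omega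
  have h1 := Pool.Agent.Lib.MP_c77da8_nt.Mert.R_le J hJ1
  have h2 : ∑ p ∈ Nat.primesLE R, (1 : ℝ) / p ≤ Pool.Agent.Lib.MP_c77da8_nt.Mert.R J := by
    unfold Pool.Agent.Lib.MP_c77da8_nt.Mert.R
    apply sum_le_sum_of_subset_of_nonneg
    · intro p hp
      rw [Nat.mem_primesLE] at hp ⊢
      refine ⟨hp.1.trans ?_, hp.2⟩
      exact (Nat.lt_pow_succ_log_self (by norm_num) R).le
    · intro p _ _
      positivity
  have h3 : (Nat.log 2 R : ℝ) * Real.log 2 ≤ Real.log R := by
    rw [← Real.log_pow]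
    apply Real.log_le_log (by positivity)
    exact_mod_cast Nat.pow_log_le_self 2 (by omega)
  have h4 : (J : ℝ) ≤ 3 * Real.log R := by
    rw [hJ]
    push_cast
    have h5 : (Nat.log 2 R : ℝ) ≤ Real.log R / Real.log 2 := by
      rw [le_div_iff₀ hl2]; exact h3
    have h6 : (Nat.log 2 R : ℝ) + 1 ≤ 2 * (Real.log R / Real.log 2) := by
      have : 1 ≤ Real.log R / Real.log 2 := by
        rw [le_div_iff₀ hl2]; linarith
      linarith
    refine h6.trans ?_
    rw [← mul_div_assoc, div_le_iff₀ hl2]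
    nlinarith
  have h5 : Real.log J ≤ Real.log (3 * Real.log R) :=
    Real.log_le_log (by exact_mod_cast hJ1) h4
  linarith

private theorem vbd_Pr_sub (w R : ℕ) : Pr w R ⊆ Nat.primesLE R := by
  intro p hp
  unfold Pr at hp
  rw [mem_filter, mem_Icc] at hp
  rw [Nat.mem_primesLE]
  exact ⟨hp.1.2, hp.2.1⟩

private theorem vbd_sumPr (w R : ℕ) (hR : 2 ≤ R) :
    ∑ p ∈ Pr w R, (1 : ℝ) / p ≤ Real.log (3 * Real.log R) + 6 :=
  (sum_le_sum_of_subset_of_nonneg (vbd_Pr_sub w R) fun p _ _ => by positivity).trans (vbd_S1 R hR)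

private theorem vbd_tail (w R : ℕ) :
    ∑ p ∈ Pr w R, (1 : ℝ) / ((p : ℝ) * ((p : ℝ) - 1)) ≤ 1 := by
  have h6 : ∑ p ∈ Pr w R, (1 : ℝ) / ((p : ℝ) * ((p : ℝ) - 1)) ≤
      ∑ k ∈ Ico 2 (R + 2), (1 : ℝ) / (k * (k - 1)) := by
    refine sum_le_sum_of_subset_of_nonneg ?_ ?_
    · intro p hp
      unfold Pr at hp
      rw [mem_filter, mem_Icc] at hp
      rw [mem_Ico]
      have := hp.2.1.two_le
      omega
    · intro k hk _
      have h7 : (2 : ℝ) ≤ k := by exact_mod_cast (mem_Ico.1 hk).1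
      have h8 : (0 : ℝ) ≤ k - 1 := by linarith
      positivity
  refine h6.trans ((Pool.Agent.Lib.MP_c77da8_nt.Mert.sum_tail R).trans ?_)
  have : (0 : ℝ) ≤ 1 / ((R : ℝ) + 1) := by positivity
  linarith

private theorem vbd_two_le (w R p : ℕ) (hp : p ∈ Pr w R) : (2 : ℝ) ≤ p := by
  unfold Pr at hp
  rw [mem_filter] at hp
  exact_mod_cast hp.2.1.two_le

private theorem vbd_VV_prod (w R : ℕ) :
    VV (vp w R) R ≤ ∏ p ∈ Pr w R, (1 + 1 / ((p : ℝ) - 1)) := by
  have hx : ∀ p : {p // p ∈ Pr w R}, 0 ≤ xw (vp w R) p := by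
    intro p
    unfold xw vp
    have := vbd_two_le w R p.1 p.2
    apply one_div_nonneg.2
    linarith
  have h1 : VV (vp w R) R ≤ ∑ a : Finset {p // p ∈ Pr w R}, ∏ p ∈ a, xw (vp w R) p := by
    unfold VV
    apply sum_le_sum_of_subset_of_nonneg (filter_subset _ _)
    intro a _ _
    exact prod_nonneg fun p _ => hx p
  have h2 : ∑ a : Finset {p // p ∈ Pr w R}, ∏ p ∈ a, xw (vp w R) p =
      ∏ p : {p // p ∈ Pr w R}, (1 + xw (vp w R) p) := by
    rw [prod_one_add, powerset_univ]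
  rw [h2] at h1
  refine h1.trans (le_of_eq ?_)
  rw [← Finset.prod_coe_sort (Pr w R) (fun n => (1 + 1 / ((n : ℝ) - 1)))]
  rfl

theorem VV_le : ∃ C : ℝ, 1 ≤ C ∧ ∀ w R : ℕ, 1 ≤ w → 2 ≤ R → VV (vp w R) R ≤ C * Real.log R := by
  refine ⟨3 * Real.exp 7, ?_, ?_⟩
  · have := Real.one_le_exp (show (0 : ℝ) ≤ 7 by norm_num)
    linarith
  · intro w R _ hR
    have hR' : (2 : ℝ) ≤ R := by exact_mod_cast hR
    have hlR : 0 < Real.log R := Real.log_pos (by linarith)
    refine (vbd_VV_prod w R).trans ?_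
    have h1 : ∏ p ∈ Pr w R, (1 + 1 / ((p : ℝ) - 1)) ≤
        ∏ p ∈ Pr w R, Real.exp (1 / (p : ℝ) + 1 / ((p : ℝ) * ((p : ℝ) - 1))) := by
      apply prod_le_prod
      · intro p hp
        have h2 := vbd_two_le w R p hp
        have : (0 : ℝ) ≤ 1 / ((p : ℝ) - 1) := one_div_nonneg.2 (by linarith)
        linarith
      · intro p hp
        have h2 := vbd_two_le w R p hp
        have h3 : 1 / (p : ℝ) + 1 / ((p : ℝ) * ((p : ℝ) - 1)) = 1 / ((p : ℝ) - 1) := by
          have h4 : (p : ℝ) ≠ 0 := by linarith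
          have h5 : (p : ℝ) - 1 ≠ 0 := by linarith
          field_simp
          ring
        rw [h3]
        have := Real.add_one_le_exp (1 / ((p : ℝ) - 1))
        linarith
    refine h1.trans ?_
    rw [← Real.exp_sum, sum_add_distrib]
    have h2 := vbd_sumPr w R hR
    have h3 := vbd_tail w R
    calc Real.exp (∑ p ∈ Pr w R, 1 / (p : ℝ) + ∑ p ∈ Pr w R, 1 / ((p : ℝ) * ((p : ℝ) - 1)))
        ≤ Real.exp (Real.log (3 * Real.log R) + 7) := Real.exp_le_exp.2 (by linarith)
      _ = 3 * Real.exp 7 * Real.log R := by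
        rw [Real.exp_add, Real.exp_log (by positivity)]
        ring

theorem prodPr_le : ∃ C : ℝ, 1 ≤ C ∧ ∀ (w R a : ℕ), 1 ≤ w → 3 ≤ R →
    ∏ p ∈ Pr w R, (1 + (a : ℝ) / (p : ℝ)) ≤ (C * Real.log R) ^ a := by
  refine ⟨3 * Real.exp 6, ?_, ?_⟩
  · have := Real.one_le_exp (show (0 : ℝ) ≤ 6 by norm_num)
    linarith
  · intro w R a _ hR
    have hR' : (3 : ℝ) ≤ R := by exact_mod_cast hR
    have hlR : 0 < Real.log R := Real.log_pos (by linarith)
    have h1 : ∏ p ∈ Pr w R, (1 + (a : ℝ) / (p : ℝ)) ≤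
        ∏ p ∈ Pr w R, Real.exp ((a : ℝ) * (1 / (p : ℝ))) := by
      apply prod_le_prod
      · intro p _
        positivity
      · intro p _
        have := Real.add_one_le_exp ((a : ℝ) * (1 / (p : ℝ)))
        have h2 : (a : ℝ) / (p : ℝ) = (a : ℝ) * (1 / (p : ℝ)) := by ring
        rw [h2]
        linarith
    refine h1.trans ?_
    rw [← Real.exp_sum, ← mul_sum]
    have h2 := vbd_sumPr w R (by omega)
    have ha : (0 : ℝ) ≤ a := Nat.cast_nonneg a
    calc Real.exp ((a : ℝ) * ∑ p ∈ Pr w R, 1 / (p : ℝ))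
        ≤ Real.exp ((a : ℝ) * (Real.log (3 * Real.log R) + 6)) :=
          Real.exp_le_exp.2 (mul_le_mul_of_nonneg_left h2 ha)
      _ = (3 * Real.exp 6 * Real.log R) ^ a := by
        rw [Real.exp_nat_mul, Real.exp_add, Real.exp_log (by positivity)]
        congr 1
        ring


private theorem vbd_totient (w : ℕ) :
    ((Wp w).totient : ℝ) / (Wp w : ℝ) = ∏ p ∈ (Icc 1 w).filter Nat.Prime, (1 - 1 / (p : ℝ)) := by
  have hA : Wp w ≠ 0 := by
    unfold Wp
    rw [prod_ne_zero_iff]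
    intro p hp
    exact (mem_filter.1 hp).2.ne_zero
  have h1 : (Wp w).primeFactors = (Icc 1 w).filter Nat.Prime := by
    unfold Wp
    exact Nat.primeFactors_prod fun p hp => (mem_filter.1 hp).2
  have h2 := Nat.totient_eq_mul_prod_factors (Wp w)
  rw [h1] at h2
  have h3 : ((Wp w).totient : ℝ) = (Wp w : ℝ) * ∏ p ∈ (Icc 1 w).filter Nat.Prime, (1 - (p : ℝ)⁻¹) := by
    have := congrArg (fun q : ℚ => (q : ℝ)) h2
    push_cast at this
    exact this
  have h4 : (Wp w : ℝ) ≠ 0 := by exact_mod_cast hA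
  rw [h3, mul_div_cancel_left₀ _ h4]
  apply prod_congr rfl
  intro p _
  rw [one_div]

theorem VV_ge (w R : ℕ) (hw : 1 ≤ w) (hR : 1 ≤ R) :
    ((Wp w).totient : ℝ) / (Wp w : ℝ) * Real.log R ≤ VV (vp w R) R := by
  have hsm : ∀ p ∈ (Icc 1 w).filter Nat.Prime, (0 : ℝ) < 1 - 1 / (p : ℝ) := by
    intro p hp
    have hp2 : (2 : ℝ) ≤ p := by exact_mod_cast (mem_filter.1 hp).2.two_le
    have h5 : (1 : ℝ) / p ≤ 1 / 2 := by
      apply one_div_le_one_div_of_le <;> linarith
    linarith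
  have hV : VV (vp w R) R = vbdV (vp w R) (xw (vp w R)) univ R := by
    unfold VV vbdV
    rw [sum_filter, powerset_univ]
  have hmem : ∀ p : {p // p ∈ Pr w R}, p.1.Prime ∧ w < p.1 ∧ p.1 ≤ R := by
    intro p
    have h := p.2
    unfold Pr at h
    rw [mem_filter, mem_Icc] at h
    exact ⟨h.2.1, h.2.2, h.1.2⟩
  have hbig : vbdF (univ.image (vp w R)) R ≤ vbdV (vp w R) (xw (vp w R)) univ R := by
    apply vbdF_big
    · intro p
      exact (hmem p).1
    · intro p
      exact le_rfl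
  have hun := vbdF_union (univ.image (vp w R)) ((Icc 1 w).filter Nat.Prime)
    (fun p hp => (mem_filter.1 hp).2) R
  have hall : vbdF ((Icc 1 w).filter Nat.Prime ∪ univ.image (vp w R)) R =
      ∑ n ∈ Icc 1 R, (1 : ℝ) / n := by
    unfold vbdF
    rw [filter_true_of_mem]
    intro n hn q hq
    rw [mem_Icc] at hn
    have hqp := Nat.prime_of_mem_primeFactors hq
    have hqx : q ≤ R := (Nat.le_of_dvd (by omega) (Nat.dvd_of_mem_primeFactors hq)).trans hn.2
    rw [mem_union]
    by_cases h : q ≤ w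
    · left
      rw [mem_filter, mem_Icc]
      exact ⟨⟨hqp.one_le, h⟩, hqp⟩
    · right
      rw [mem_image]
      have hq' : q ∈ Pr w R := by
        unfold Pr
        rw [mem_filter, mem_Icc]
        exact ⟨⟨hqp.one_le, hqx⟩, hqp, by omega⟩
      exact ⟨⟨q, hq'⟩, mem_univ _, rfl⟩
  have hlog : Real.log R ≤ ∑ n ∈ Icc 1 R, (1 : ℝ) / n := by
    have h1 := log_add_one_le_harmonic R
    have h2 : ((harmonic R : ℚ) : ℝ) = ∑ n ∈ Icc 1 R, (1 : ℝ) / n := by
      rw [harmonic_eq_sum_Icc]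
      push_cast
      apply sum_congr rfl
      intro n _
      rw [one_div]
    rw [← h2]
    refine le_trans ?_ h1
    apply Real.log_le_log
    · exact_mod_cast hR
    · push_cast
      linarith
  rw [hall] at hun
  rw [vbd_totient, hV]
  have hpos : 0 < ∏ p ∈ (Icc 1 w).filter Nat.Prime, (1 - 1 / (p : ℝ)) := prod_pos hsm
  rw [prod_inv_distrib] at hun
  calc (∏ p ∈ (Icc 1 w).filter Nat.Prime, (1 - 1 / (p : ℝ))) * Real.log R
      ≤ (∏ p ∈ (Icc 1 w).filter Nat.Prime, (1 - 1 / (p : ℝ))) *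
        ((∏ p ∈ (Icc 1 w).filter Nat.Prime, (1 - 1 / (p : ℝ)))⁻¹ * vbdF (univ.image (vp w R)) R) :=
        mul_le_mul_of_nonneg_left (hlog.trans hun) hpos.le
    _ = vbdF (univ.image (vp w R)) R := mul_inv_cancel_left₀ hpos.ne' _
    _ ≤ _ := hbig

end Pool.CG
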