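import Pool.Agent.Lib.MP_c77da8_nt.CG.LfG
import Pool.Agent.Lib.MP_c77da8_nt.CG.LfC
import Pool.Agent.Lib.MP_c77da8_nt.CG.Basic

/-!
# CG-N-LfGen: the linear forms estimate

Sum of `lf_dist` and `lf_coin` (with `η/2`): `|x - 1| ≤ [inj] |x - 1| + [not inj] (x + 1)` for `x ≥ 0` (`nu ≥ 0`), and
`|av F - 1| ≤ av |F - 1|`.
-/

set_option autoImplicit false

namespace Pool.CG

open Finset

theorem nuw_nonneg (w R a : ℕ) : 0 ≤ nuw w R a := by
  unfold nuw
  refine mul_nonneg ?_ (sq_nonneg _)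
  unfold VV
  refine Finset.sum_nonneg fun a _ => Finset.prod_nonneg fun p _ => ?_
  unfold xw vp
  have hp : (p.1).Prime := (Finset.mem_filter.mp p.2).2.1
  have : (1 : ℝ) ≤ p.1 := by exact_mod_cast hp.one_le
  exact div_nonneg zero_le_one (by linarith)

theorem lf_gen {r : ℕ} (t : ℕ) (ht : 1 ≤ t) (κ : ℝ) (hκ : 0 < κ)
    (hr : (9 : ℝ) ^ t + t + 1 ≤ κ * (r + 1)) (q : Fin (r + 1) → ℕ)
    (hq : ∀ l, (q l).Prime) (hinj : Function.Injective q) (η : ℝ) (hη : 0 < η) :
    ∃ w0 : ℕ, ∀ w ≥ w0, ∃ N0 : ℕ, ∀ N ≥ N0, ∀ (M : ℕ) [NeZero M], Real.log N ^ κ ≤ M →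
      ∀ (Ω : Type) [Fintype Ω] [Nonempty Ω] (I : Type) [Fintype I] [DecidableEq I], Fintype.card I ≤ t →
      ∀ z : I → Ω → (Fin (r + 2) → ZMod M), (∀ i j, i ≠ j → PairOK (z i) (z j)) →
      |av (fun ω => (∑ n ∈ Ico N (2 * N), ∏ i, nu q M w (Rt t N) n (z i ω)) / N) - 1| ≤ η := by
  obtain ⟨w1, h1⟩ := lf_dist t ht κ hκ q hq hinj (η / 2) (by positivity)
  obtain ⟨w2, h2⟩ := lf_coin t ht κ hκ hr q hq hinj (η / 2) (by positivity)
  refine ⟨max w1 w2, fun w hw => ?_⟩
  obtain ⟨N1, h1⟩ := h1 w ((le_max_left _ _).trans hw)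
  obtain ⟨N2, h2⟩ := h2 w ((le_max_right _ _).trans hw)
  refine ⟨max N1 N2, fun N hN M _ hM Ω _ _ I _ _ hI z hz => ?_⟩
  have e1 := h1 N ((le_max_left _ _).trans hN) M hM Ω I hI z hz
  have e2 := h2 N ((le_max_right _ _).trans hN) M hM Ω I hI z hz
  set X : Ω → ℝ := fun ω => (∑ n ∈ Ico N (2 * N), ∏ i, nu q M w (Rt t N) n (z i ω)) / N with hX
  have hX0 : ∀ ω, 0 ≤ X ω := fun ω => div_nonneg
    (Finset.sum_nonneg fun n _ => Finset.prod_nonneg fun i _ => nuw_nonneg _ _ _) (Nat.cast_nonneg _)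
  have e3 : av X - 1 = av (fun ω => X ω - 1) := by
    rw [av_sub, av_const]
  rw [e3]
  classical
  calc |av (fun ω => X ω - 1)| ≤ av (fun ω =>
        (if Function.Injective (fun i => z i ω) then |X ω - 1| else 0) +
          (if Function.Injective (fun i => z i ω) then 0 else X ω + 1)) := by
        refine abs_av_le_of fun ω => ?_
        split_ifs
        · rw [add_zero]
        · rw [zero_add, abs_le]
          have := hX0 ω
          constructor <;> linarith
    _ = av (fun ω => if Function.Injective (fun i => z i ω) then |X ω - 1| else 0) +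
        av (fun ω => if Function.Injective (fun i => z i ω) then 0 else X ω + 1) := av_add _ _
    _ ≤ η / 2 + η / 2 := by
        refine add_le_add ?_ ?_
        · convert e1 using 3
        · convert e2 using 3
    _ = η := by ring

end Pool.CG
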