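import Pool.Agent.Lib.MP_c77da8_nt.CG.PairJ

/-!
# CG-N-PairF: the forms `psi j (mix T x x')` are pairwise jointly uniform

`k + 2` indices, `G = Fin (r+2) → ZMod M`, `M` prime, `M > k + 2`: every integer `i - j`, `i ≠ j` in `Fin (k+2)`, is invertible modulo
`M`, so multiplication by it is bijective on `G` (`u` with `u * (i - j) ≡ 1`).
`ju_forms`, `(j, T) ≠ (j', T')`, `j ∉ T`, `j' ∉ T'`. It is enough to find a variable (`x_l` or `x'_l`) which occurs in the first
form with the coefficient `l - j ≠ 0` and does not occur in the second one; `σ` adds `u e` (`u (l - j) = 1`) to it.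
Case `j ≠ j'`: the index `l = j'` occurs in the first form (as `x'_l` if `j' ∈ T`, as `x_l` otherwise) with the coefficient
`j' - j`; in the second form the coefficient of the index `j'` is `0`. Case `j = j'`, `T ≠ T'`: take `l` in one of `T`, `T'`
and not in the other; `l ≠ j`; the first form contains one of `x_l`, `x'_l`, the second one the other.
`ju_self`: the form itself, with the second point constant: any index `l ≠ j` (there are at least two indices).
-/

set_option autoImplicit false

namespace Pool.CG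

open Finset

private theorem pairF_div {r M : ℕ} (hM : M.Prime) (d : ℤ) (hd : d ≠ 0) (hd' : |d| < M)
    (e : Fin (r + 2) → ZMod M) : ∃ f : Fin (r + 2) → ZMod M, d • f = e := by
  have : Fact M.Prime := ⟨hM⟩
  have h0 : (d : ZMod M) ≠ 0 := by
    intro h
    rw [ZMod.intCast_zmod_eq_zero_iff_dvd] at h
    exact hd (Int.eq_zero_of_abs_lt_dvd h hd')
  refine ⟨fun i => (d : ZMod M)⁻¹ * e i, ?_⟩
  ext i
  rw [Pi.smul_apply, zsmul_eq_mul, ← mul_assoc, mul_inv_cancel₀ h0, one_mul]

private theorem pairF_mix_add {K G : Type} [DecidableEq K] [AddCommGroup G] (T : Finset K)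
    (x x' a a' : K → G) : mix T (x + a) (x' + a') = mix T x x' + mix T a a' := by
  funext l
  unfold mix
  rw [Pi.add_apply, Pi.add_apply, Pi.add_apply]
  split_ifs <;> rfl

private theorem pairF_psi_add {k : ℕ} {G : Type} [AddCommGroup G] (j : Fin k) (x a : Fin k → G) :
    psi j (x + a) = psi j x + psi j a := by
  unfold psi
  rw [← sum_add_distrib]
  apply sum_congr rfl
  intro i _
  rw [Pi.add_apply, smul_add]

private theorem pairF_psi_one {k : ℕ} {G : Type} [AddCommGroup G] (j l : Fin k) (f : G)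
    (a : Fin k → G) (ha : ∀ i, a i = if i = l then f else 0) :
    psi j a = (((l : ℕ) : ℤ) - ((j : ℕ) : ℤ)) • f := by
  unfold psi
  rw [sum_eq_single l]
  · rw [ha, if_pos rfl]
  · intro i _ hi
    rw [ha, if_neg hi, smul_zero]
  · intro h
    exact absurd (mem_univ l) h

private theorem pairF_psi_zero {k : ℕ} {G : Type} [AddCommGroup G] (j : Fin k)
    (a : Fin k → G) (ha : ∀ i, i ≠ j → a i = 0) : psi j a = 0 := by
  unfold psi
  apply sum_eq_zero
  intro i _
  by_cases h : i = j
  · rw [h, sub_self, zero_smul]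
  · rw [ha i h, smul_zero]

/-- a variable of index `l ≠ j` -/
private theorem pairF_step {k r M : ℕ} (hM : M.Prime) (hk : k + 2 < M) (j : Fin (k + 2))
    (T : Finset (Fin (k + 2))) (l : Fin (k + 2)) (hl : l ≠ j)
    (y' : (Fin (k + 2) → Fin (r + 2) → ZMod M) × (Fin (k + 2) → Fin (r + 2) → ZMod M) → Fin (r + 2) → ZMod M)
    (hy : ∀ (z a : (Fin (k + 2) → Fin (r + 2) → ZMod M) × (Fin (k + 2) → Fin (r + 2) → ZMod M)),
      (∀ i, i ≠ l → a.1 i = 0) → (∀ i, i ≠ l → a.2 i = 0) → (l ∈ T → a.1 l = 0) → (l ∉ T → a.2 l = 0) →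
      y' (z + a) = y' z) :
    JU (fun z : (Fin (k + 2) → Fin (r + 2) → ZMod M) × (Fin (k + 2) → Fin (r + 2) → ZMod M) =>
      psi j (mix T z.1 z.2)) y' := by
  intro e
  have hd : (((l : ℕ) : ℤ) - ((j : ℕ) : ℤ)) ≠ 0 := by
    intro h
    apply hl
    apply Fin.ext
    omega
  have hd' : |(((l : ℕ) : ℤ) - ((j : ℕ) : ℤ))| < (M : ℤ) := by
    have h1 := l.2
    have h2 := j.2
    rw [abs_lt]
    constructor <;> omega
  obtain ⟨f, hf⟩ := pairF_div hM _ hd hd' e
  by_cases hT : l ∈ T
  · refine ⟨Equiv.addRight ((0, Pi.single l f) :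
      (Fin (k + 2) → Fin (r + 2) → ZMod M) × (Fin (k + 2) → Fin (r + 2) → ZMod M)), fun z => ⟨?_, ?_⟩⟩
    · change psi j (mix T (z.1 + 0) (z.2 + Pi.single l f)) = _
      rw [pairF_mix_add, pairF_psi_add, pairF_psi_one j l f (mix T 0 (Pi.single l f)) ?_, hf]
      intro i
      unfold mix
      by_cases hi : i = l
      · subst hi
        rw [if_pos hT, if_pos rfl, Pi.single_eq_same]
      · rw [if_neg hi, Pi.single_eq_of_ne hi]
        split_ifs <;> rfl
    · apply hy
      · intro i _
        rfl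
      · intro i hi
        exact Pi.single_eq_of_ne hi _
      · intro _
        rfl
      · intro h
        exact absurd hT h
  · refine ⟨Equiv.addRight ((Pi.single l f, 0) :
      (Fin (k + 2) → Fin (r + 2) → ZMod M) × (Fin (k + 2) → Fin (r + 2) → ZMod M)), fun z => ⟨?_, ?_⟩⟩
    · change psi j (mix T (z.1 + Pi.single l f) (z.2 + 0)) = _
      rw [pairF_mix_add, pairF_psi_add, pairF_psi_one j l f (mix T (Pi.single l f) 0) ?_, hf]
      intro i
      unfold mix
      by_cases hi : i = l
      · subst hi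
        rw [if_neg hT, if_pos rfl, Pi.single_eq_same]
      · rw [if_neg hi, Pi.single_eq_of_ne hi]
        split_ifs <;> rfl
    · apply hy
      · intro i hi
        exact Pi.single_eq_of_ne hi _
      · intro i _
        rfl
      · intro h
        exact absurd h hT
      · intro _
        rfl

theorem ju_forms {k r M : ℕ} (hM : M.Prime) (hk : k + 2 < M) (p p' : Fin (k + 2) × Finset (Fin (k + 2)))
    (hp : p.1 ∉ p.2) (hp' : p'.1 ∉ p'.2) (hne : p ≠ p') :
    JU (fun z : (Fin (k + 2) → Fin (r + 2) → ZMod M) × (Fin (k + 2) → Fin (r + 2) → ZMod M) =>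
      psi p.1 (mix p.2 z.1 z.2)) (fun z => psi p'.1 (mix p'.2 z.1 z.2)) := by
  obtain ⟨j, T⟩ := p
  obtain ⟨j', T'⟩ := p'
  dsimp only at hp hp' ⊢
  -- it is enough that the second form does not see the variable
  have key : ∀ l : Fin (k + 2), l ≠ j → (l = j' ∨ (l ∈ T ∧ l ∉ T') ∨ (l ∉ T ∧ l ∈ T')) →
      JU (fun z : (Fin (k + 2) → Fin (r + 2) → ZMod M) × (Fin (k + 2) → Fin (r + 2) → ZMod M) =>
        psi j (mix T z.1 z.2)) (fun z => psi j' (mix T' z.1 z.2)) := by
    intro l hl h
    apply pairF_step hM hk j T l hl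
    intro z a h1 h2 h3 h4
    change psi j' (mix T' (z.1 + a.1) (z.2 + a.2)) = _
    rw [pairF_mix_add, pairF_psi_add]
    have h5 : psi j' (mix T' a.1 a.2) = 0 := by
      apply pairF_psi_zero
      intro i hi
      unfold mix
      by_cases hil : i = l
      · subst hil
        rcases h with h | ⟨h, h'⟩ | ⟨h, h'⟩
        · exact absurd h hi
        · rw [if_neg h']
          exact h3 h
        · rw [if_pos h']
          exact h4 h
      · split_ifs
        · exact h2 i hil
        · exact h1 i hil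
    rw [h5, add_zero]
  by_cases hj : j = j'
  · subst hj
    have hT : T ≠ T' := fun h => hne (by rw [h])
    have : ∃ l, (l ∈ T ∧ l ∉ T') ∨ (l ∉ T ∧ l ∈ T') := by
      by_contra hcon
      push Not at hcon
      apply hT
      ext l
      constructor
      · intro h
        exact (hcon l).1 h
      · intro h
        by_contra h'
        exact (hcon l).2 h' h
    obtain ⟨l, hl⟩ := this
    refine key l ?_ (Or.inr hl)
    rintro rfl
    rcases hl with h | h
    · exact hp h.1
    · exact hp' h.2
  · exact key j' (fun h => hj h.symm) (Or.inl rfl)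

theorem ju_self {k r M : ℕ} (hM : M.Prime) (hk : k + 2 < M) (p : Fin (k + 2) × Finset (Fin (k + 2)))
    (hp : p.1 ∉ p.2) :
    JU (fun z : (Fin (k + 2) → Fin (r + 2) → ZMod M) × (Fin (k + 2) → Fin (r + 2) → ZMod M) =>
      psi p.1 (mix p.2 z.1 z.2)) (fun _ => 0) := by
  obtain ⟨l, hl⟩ : ∃ l : Fin (k + 2), l ≠ p.1 := by
    by_cases h : p.1 = 0
    · refine ⟨1, ?_⟩
      rw [h]
      intro h'
      have := congrArg Fin.val h'
      simp at this
    · exact ⟨0, fun h' => h h'.symm⟩
  apply pairF_step hM hk p.1 p.2 l hl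
  intro z a _ _ _ _
  rfl

/-- one uniform point -/
theorem ju_id {G : Type} [AddCommGroup G] : JU (fun z : G => z) (fun _ => 0) :=
  fun e => ⟨Equiv.addRight e, fun _ => ⟨rfl, rfl⟩⟩

end Pool.CG
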