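import Pool.Agent.Lib.MP_c77da8_nt.CG.Basic

/-!
# CG-VarC: second moment and Markov inequality for averages over `n ∈ [N, 2N)`
-/

set_option autoImplicit false

namespace Pool.CG

open Finset

variable {Ω : Type} [Fintype Ω]

/-- `∑_n av P_n = N · av (avg_n P_n)` -/
theorem sum_av_eq (N : ℕ) (hN : 1 ≤ N) (P : ℕ → Ω → ℝ) :
    ∑ n ∈ Ico N (2 * N), av (P n) = N * av (fun z => (∑ n ∈ Ico N (2 * N), P n z) / N) := by
  have hN' : (N : ℝ) ≠ 0 := by
    have : (0 : ℝ) < N := by exact_mod_cast hN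
    exact this.ne'
  rw [← av_sum, ← av_const_mul]
  refine av_congr fun z => ?_
  field_simp

theorem var_count (N : ℕ) (hN : 1 ≤ N) (P : ℕ → Ω → ℝ) (η η₁ : ℝ) (hη : 0 < η)
    (h1 : |av (fun z => (∑ n ∈ Ico N (2 * N), P n z) / N) - 1| ≤ η₁)
    (h2 : |av (fun z : Ω × Ω => (∑ n ∈ Ico N (2 * N), P n z.1 * P n z.2) / N) - 1| ≤ η₁) :
    (((Ico N (2 * N)).filter fun n => η < |av (P n) - 1|).card : ℝ) ≤ 3 * η₁ / η ^ 2 * N := by
  have hN0 : (0 : ℝ) < N := by exact_mod_cast hN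
  have e1 := sum_av_eq N hN P
  have e2 := sum_av_eq N hN (fun n (z : Ω × Ω) => P n z.1 * P n z.2)
  have e3 : ∀ n, av (fun z : Ω × Ω => P n z.1 * P n z.2) = (av (P n)) ^ 2 := by
    intro n
    rw [av_prod, sq, ← av_mul_const]
    exact av_congr fun x => av_const_mul (P n x) (P n)
  simp only [e3] at e2
  have hcard : ((Ico N (2 * N)).card : ℝ) = N := by
    rw [Nat.card_Ico]
    congr 1
    omega
  have hvar : ∑ n ∈ Ico N (2 * N), (av (P n) - 1) ^ 2 ≤ 3 * η₁ * N := by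
    have : ∀ n, (av (P n) - 1) ^ 2 = (av (P n)) ^ 2 - 2 * av (P n) + 1 := fun n => by ring
    simp only [this]
    rw [sum_add_distrib, sum_sub_distrib, ← mul_sum, e1, e2, sum_const, nsmul_eq_mul, mul_one, hcard]
    have a1 := (abs_le.mp h1).1
    have a2 := (abs_le.mp h2).2
    nlinarith
  have hle : ((Ico N (2 * N)).filter fun n => η < |av (P n) - 1|).card * η ^ 2 ≤
      ∑ n ∈ Ico N (2 * N), (av (P n) - 1) ^ 2 := by
    calc (((Ico N (2 * N)).filter fun n => η < |av (P n) - 1|).card : ℝ) * η ^ 2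
        = ∑ n ∈ (Ico N (2 * N)).filter (fun n => η < |av (P n) - 1|), η ^ 2 := by
          rw [sum_const, nsmul_eq_mul]
      _ ≤ ∑ n ∈ (Ico N (2 * N)).filter (fun n => η < |av (P n) - 1|), (av (P n) - 1) ^ 2 := by
          refine sum_le_sum fun n hn => ?_
          rw [mem_filter] at hn
          rw [← sq_abs (av (P n) - 1)]
          exact pow_le_pow_left₀ hη.le hn.2.le 2
      _ ≤ ∑ n ∈ Ico N (2 * N), (av (P n) - 1) ^ 2 :=
          sum_le_sum_of_subset_of_nonneg (filter_subset _ _) fun n _ _ => sq_nonneg _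
  rw [div_mul_eq_mul_div, le_div_iff₀ (by positivity)]
  linarith

end Pool.CG
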