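import Pool.Agent.Lib.MP_c77da8_nt.CG.As0
import Pool.Agent.Lib.MP_c77da8_nt.CG.PnN
import Pool.Agent.Lib.MP_c77da8_nt.CG.VBd
import Pool.Agent.Lib.MP_c77da8_nt.CG.MZ
import Pool.Agent.Lib.MP_c77da8_nt.CG.RtF

/-!
# CG-N-As2: the first moment of `fw`

`W = Wp w`, `w ≥ q_l` for all `l` and `w ≥ 2`. For `z` in the box (`2 z_i < M`) put `A = W m(z)`: the primes which divide `A` are exactly
the primes `≤ w`, so `A/φ(A) = W/φ(W)`, and `A ≤ W (∏ q_l)^(M^2) ≤ exp((log N)^(1/100))` for large `N` (`2κ < 1/100`). By `count_primes`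
`∑_n [A n - 1 prime] ≥ (W/φ(W)) N/(8 log N)`. By `VV_ge` and `Rt_facts`, `VV ≥ (φ(W)/W) log R ≥ (φ(W)/W) log N/(32 t)`.
The box has at least `(M/2)^(r+2)` of the `M^(r+2)` points. Product: `∑_n av fw ≥ 2^(-(r+2)) N/(256 t) = del r t * N`.
-/

set_option autoImplicit false

namespace Pool.CG

open Finset

private lemma As2_ratio (A W : ℕ) (hA : 0 < A) (hW : 0 < W) (h : A.primeFactors = W.primeFactors) :
    (A : ℝ) / (Nat.totient A : ℝ) = (W : ℝ) / (Nat.totient W : ℝ) := by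
  have h1 := Nat.totient_mul_prod_primeFactors A
  have h2 := Nat.totient_mul_prod_primeFactors W
  rw [h] at h1
  have hφA : 0 < Nat.totient A := Nat.totient_pos.2 hA
  have hφW : 0 < Nat.totient W := Nat.totient_pos.2 hW
  have hP : 0 < ∏ p ∈ W.primeFactors, p := Finset.prod_pos fun p hp => (Nat.prime_of_mem_primeFactors hp).pos
  have h3 : (A * Nat.totient W) * ∏ p ∈ W.primeFactors, p = (W * Nat.totient A) * ∏ p ∈ W.primeFactors, p := by
    calc (A * Nat.totient W) * ∏ p ∈ W.primeFactors, p = A * (Nat.totient W * ∏ p ∈ W.primeFactors, p) := by ring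
      _ = W * (A * ∏ p ∈ W.primeFactors, (p - 1)) := by rw [h2]; ring
      _ = _ := by rw [← h1]; ring
  have h4 := Nat.eq_of_mul_eq_mul_right hP h3
  have hφA' : (Nat.totient A : ℝ) ≠ 0 := by exact_mod_cast hφA.ne'
  have hφW' : (Nat.totient W : ℝ) ≠ 0 := by exact_mod_cast hφW.ne'
  rw [div_eq_div_iff hφA' hφW']
  exact_mod_cast h4

private lemma As2_pf (w m : ℕ) (hm : 0 < m) (h : ∀ p : ℕ, p.Prime → p ∣ m → p ≤ w) :
    (Wp w * m).primeFactors = (Wp w).primeFactors := by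
  have hW : Wp w ≠ 0 := by
    unfold Wp
    exact Finset.prod_ne_zero_iff.2 fun p hp => (mem_filter.1 hp).2.ne_zero
  rw [Nat.primeFactors_mul hW hm.ne', Finset.union_eq_left]
  intro p hp
  have hp1 := Nat.prime_of_mem_primeFactors hp
  have hp2 := h p hp1 (Nat.dvd_of_mem_primeFactors hp)
  rw [Nat.mem_primeFactors]
  refine ⟨hp1, ?_, hW⟩
  unfold Wp
  exact Finset.dvd_prod_of_mem _ (mem_filter.2 ⟨mem_Icc.2 ⟨hp1.pos, hp2⟩, hp1⟩)

private lemma As2_box (r M : ℕ) [NeZero M] :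
    (1 / 2 : ℝ) ^ (r + 2) * (Fintype.card (Fin (r + 2) → ZMod M) : ℝ) ≤
      ((univ.filter fun z : Fin (r + 2) → ZMod M => ∀ i, 2 * (z i).val < M).card : ℝ) := by
  have hM : 0 < M := Nat.pos_of_neZero M
  have hb : (M : ℝ) / 2 ≤ ((univ.filter fun v : ZMod M => 2 * v.val < M).card : ℝ) := by
    have h1 : (range ((M + 1) / 2)).card ≤ (univ.filter fun v : ZMod M => 2 * v.val < M).card := by
      apply card_le_card_of_injOn (fun v : ℕ => (v : ZMod M))
      · intro v hv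
        simp only [coe_range, Set.mem_Iio] at hv
        simp only [coe_filter, mem_univ, true_and, Set.mem_setOf_eq]
        rw [ZMod.val_cast_of_lt (by omega)]
        omega
      · intro v hv v' hv' h
        simp only [coe_range, Set.mem_Iio] at hv hv'
        have := congrArg ZMod.val h
        simp only at this
        rw [ZMod.val_cast_of_lt (by omega), ZMod.val_cast_of_lt (by omega)] at this
        exact this
    rw [card_range] at h1
    have h2 : M ≤ 2 * (univ.filter fun v : ZMod M => 2 * v.val < M).card := by omega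
    have h3 : (M : ℝ) ≤ 2 * ((univ.filter fun v : ZMod M => 2 * v.val < M).card : ℝ) := by exact_mod_cast h2
    linarith
  have e : (univ.filter fun z : Fin (r + 2) → ZMod M => ∀ i, 2 * (z i).val < M) =
      Fintype.piFinset (fun _ => univ.filter fun v : ZMod M => 2 * v.val < M) := by
    ext z
    simp [Fintype.mem_piFinset]
  rw [e, Fintype.card_piFinset_const, Fintype.card_fun, ZMod.card, Fintype.card_fin]
  push_cast
  rw [← mul_pow]
  apply pow_le_pow_left₀ (by positivity)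
  linarith

private lemma As2_growth (a b C : ℝ) (ha1 : a < 1 / 100) (ha0 : 0 ≤ a) (hC : 0 ≤ C) :
    ∃ N0 : ℕ, ∀ N ≥ N0, 1 ≤ Real.log (N : ℝ) ∧ b + C * Real.log (N : ℝ) ^ a ≤ Real.log (N : ℝ) ^ (1 / 100 : ℝ) := by
  have h1 : Filter.Tendsto (fun N : ℕ => Real.log N ^ (1 / 100 - a)) Filter.atTop Filter.atTop :=
    (tendsto_rpow_atTop (by linarith)).comp (Real.tendsto_log_atTop.comp tendsto_natCast_atTop_atTop)
  have h2 : Filter.Tendsto (fun N : ℕ => Real.log (N : ℝ)) Filter.atTop Filter.atTop :=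
    Real.tendsto_log_atTop.comp tendsto_natCast_atTop_atTop
  obtain ⟨N0, hN0⟩ := Filter.eventually_atTop.1 ((h1.eventually_ge_atTop (|b| + C)).and (h2.eventually_ge_atTop 1))
  refine ⟨N0, fun N hN => ?_⟩
  obtain ⟨h3, h4⟩ := hN0 N hN
  refine ⟨h4, ?_⟩
  have h5 : (1 : ℝ) ≤ Real.log (N : ℝ) ^ a := Real.one_le_rpow h4 ha0
  have h6 : b ≤ |b| * Real.log (N : ℝ) ^ a := by
    calc b ≤ |b| := le_abs_self b
      _ = |b| * 1 := (mul_one _).symm
      _ ≤ _ := mul_le_mul_of_nonneg_left h5 (abs_nonneg b)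
  calc b + C * Real.log (N : ℝ) ^ a ≤ (|b| + C) * Real.log (N : ℝ) ^ a := by linarith
    _ ≤ Real.log (N : ℝ) ^ (1 / 100 - a) * Real.log (N : ℝ) ^ a :=
        mul_le_mul_of_nonneg_right h3 (by positivity)
    _ = Real.log (N : ℝ) ^ (1 / 100 : ℝ) := by
        rw [← Real.rpow_add (by linarith)]
        congr 1
        ring

theorem fw_sum {r : ℕ} (t : ℕ) (ht : 1 ≤ t) (κ : ℝ) (hκ : 0 < κ) (hκ2 : 2 * κ < 1 / 100) (q : Fin (r + 1) → ℕ)
    (hq : ∀ l, (q l).Prime) (hinj : Function.Injective q) :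
    ∃ w0 : ℕ, ∀ w ≥ w0, ∃ N0 : ℕ, ∀ N ≥ N0, ∀ (M : ℕ) [NeZero M], (M : ℝ) ≤ 3 * Real.log N ^ κ →
      del r t * N ≤ ∑ n ∈ Ico N (2 * N), av (fun z => fw q M w (Rt t N) n z) := by
  classical
  refine ⟨max 2 (univ.sup q), fun w hw => ?_⟩
  have hw2 : 2 ≤ w := (le_max_left _ _).trans hw
  have hwq : ∀ l, q l ≤ w := fun l => (le_sup (f := q) (mem_univ l)).trans ((le_max_right _ _).trans hw)
  obtain ⟨W, hWdef⟩ : ∃ W : ℕ, W = Wp w := ⟨_, rfl⟩
  have hW0 : 0 < W := by
    rw [hWdef]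
    unfold Wp
    exact Finset.prod_pos fun p hp => (mem_filter.1 hp).2.pos
  obtain ⟨Q, hQdef⟩ : ∃ Q : ℕ, Q = ∏ l, q l := ⟨_, rfl⟩
  have hQ1 : 1 ≤ Q := by
    rw [hQdef]
    exact Nat.one_le_iff_ne_zero.2 (prod_ne_zero_iff.2 fun l _ => (hq l).ne_zero)
  have hQr : (1 : ℝ) ≤ Q := by exact_mod_cast hQ1
  have hWr : (0 : ℝ) < W := by exact_mod_cast hW0
  have hlQ : 0 ≤ Real.log Q := Real.log_nonneg hQr
  obtain ⟨N1, hN1⟩ := count_primes W hW0
  obtain ⟨N2, hN2⟩ := Rt_facts t ht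
  obtain ⟨N3, hN3⟩ := As2_growth (2 * κ) (Real.log W) (9 * Real.log Q) hκ2 (by linarith) (by positivity)
  refine ⟨max N1 (max N2 N3), fun N hN M _ hM => ?_⟩
  have hNN1 : N1 ≤ N := (le_max_left _ _).trans hN
  obtain ⟨hR3, -, -, hRN, -, hlog⟩ := hN2 N (((le_max_left _ _).trans (le_max_right _ _)).trans hN)
  obtain ⟨hL1, hgr⟩ := hN3 N (((le_max_right _ _).trans (le_max_right _ _)).trans hN)
  obtain ⟨R, hR⟩ : ∃ R : ℕ, R = Rt t N := ⟨_, rfl⟩
  rw [← hR] at hR3 hRN hlog ⊢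
  set L : ℝ := Real.log N with hL
  have hL0 : 0 < L := by linarith
  have hφ : (0 : ℝ) < (Nat.totient W : ℝ) := by exact_mod_cast Nat.totient_pos.2 hW0
  have htr : (0 : ℝ) < t := by exact_mod_cast ht
  have hN0 : (0 : ℝ) ≤ N := Nat.cast_nonneg N
  -- the size of the moduli
  have hsize : ∀ z : Fin (r + 2) → ZMod M, ((W * mz q M z : ℕ) : ℝ) ≤ Real.exp (L ^ (1 / 100 : ℝ)) := by
    intro z
    have h1 : ((mz q M z : ℕ) : ℝ) ≤ (Q : ℝ) ^ (M ^ 2) := by
      have := mz_le q hq z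
      rw [← hQdef] at this
      exact_mod_cast this
    have h2 : (M : ℝ) ^ 2 ≤ 9 * L ^ (2 * κ) := by
      have h3 : (M : ℝ) ^ 2 ≤ (3 * L ^ κ) ^ 2 := pow_le_pow_left₀ (Nat.cast_nonneg _) hM 2
      have h4 : (3 * L ^ κ) ^ 2 = 9 * L ^ (2 * κ) := by
        rw [mul_pow, ← Real.rpow_natCast (L ^ κ) 2, ← Real.rpow_mul hL0.le]
        norm_num
        ring_nf
      linarith
    have h5 : (W : ℝ) * (Q : ℝ) ^ (M ^ 2) = Real.exp (Real.log W + (M : ℝ) ^ 2 * Real.log Q) := by
      rw [Real.exp_add, Real.exp_log hWr]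
      congr 1
      rw [mul_comm, Real.exp_mul, Real.exp_log (by linarith), ← Real.rpow_natCast]
      push_cast
      rfl
    push_cast
    calc (W : ℝ) * (mz q M z : ℝ) ≤ W * (Q : ℝ) ^ (M ^ 2) := mul_le_mul_of_nonneg_left h1 hWr.le
      _ = Real.exp (Real.log W + (M : ℝ) ^ 2 * Real.log Q) := h5
      _ ≤ _ := by
          apply Real.exp_le_exp.2
          have h6 : (M : ℝ) ^ 2 * Real.log Q ≤ 9 * L ^ (2 * κ) * Real.log Q := mul_le_mul_of_nonneg_right h2 hlQ
          linarith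
  -- the number of the primes
  have hcount : ∀ z : Fin (r + 2) → ZMod M, (W : ℝ) / (Nat.totient W : ℝ) * (N / (8 * L)) ≤
      (((Ico N (2 * N)).filter fun n => (La q M w n z).Prime).card : ℝ) := by
    intro z
    have hm := mz_pos q hq z
    have hdvd : ∀ p : ℕ, p.Prime → p ∣ mz q M z → p ≤ w := by
      intro p hp hpd
      obtain ⟨l, hl⟩ := mz_prime_dvd q hq z p hp hpd
      rw [hl]
      exact hwq l
    have hpf := As2_pf w (mz q M z) (by omega) hdvd
    rw [← hWdef] at hpf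
    have hA0 : 0 < W * mz q M z := Nat.mul_pos hW0 (by omega)
    have h1 := hN1 N hNN1 (W * mz q M z) hA0 (fun p hp hpd => by
      have h2 : p ∈ (W * mz q M z).primeFactors := Nat.mem_primeFactors.2 ⟨hp, hpd, hA0.ne'⟩
      rw [hpf] at h2
      exact Nat.dvd_of_mem_primeFactors h2) (hsize z)
    rw [As2_ratio _ W hA0 hW0 hpf] at h1
    refine h1.trans (le_of_eq ?_)
    unfold La
    rw [hWdef]
  -- the lower bound for `VV`
  have hV : (Nat.totient W : ℝ) / (W : ℝ) * (L / (32 * t)) ≤ VV (vp w R) R := by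
    have h1 := VV_ge w R (by omega) (by omega)
    rw [← hWdef] at h1
    refine le_trans ?_ h1
    exact mul_le_mul_of_nonneg_left hlog (by positivity)
  have hV0 : 0 ≤ VV (vp w R) R := le_trans (by positivity) hV
  -- the sum for one `z`
  have hz : ∀ z : Fin (r + 2) → ZMod M, (if (∀ i, 2 * (z i).val < M) then (N : ℝ) / (256 * t) else 0) ≤
      ∑ n ∈ Ico N (2 * N), fw q M w R n z := by
    intro z
    by_cases hb : ∀ i, 2 * (z i).val < M
    · rw [if_pos hb]
      have h1 : ∑ n ∈ Ico N (2 * N), fw q M w R n z =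
          (((Ico N (2 * N)).filter fun n => (La q M w n z).Prime).card : ℝ) * VV (vp w R) R := by
        rw [← nsmul_eq_mul, ← Finset.sum_const, Finset.sum_filter]
        refine Finset.sum_congr rfl fun n _ => ?_
        unfold fw
        by_cases hp : (La q M w n z).Prime
        · rw [if_pos ⟨hp, hb⟩, if_pos hp]
        · rw [if_neg (fun h => hp h.1), if_neg hp]
      rw [h1]
      calc (N : ℝ) / (256 * t) = ((W : ℝ) / (Nat.totient W : ℝ) * (N / (8 * L))) *
            ((Nat.totient W : ℝ) / (W : ℝ) * (L / (32 * t))) := by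
            field_simp
            ring
        _ ≤ _ := mul_le_mul (hcount z) hV (by positivity) (Nat.cast_nonneg _)
    · rw [if_neg hb]
      refine Finset.sum_nonneg fun n _ => ?_
      unfold fw
      split_ifs
      · exact hV0
      · exact le_rfl
  have hcard : (0 : ℝ) < (Fintype.card (Fin (r + 2) → ZMod M) : ℝ) := by exact_mod_cast Fintype.card_pos
  have hsum : ∑ n ∈ Ico N (2 * N), av (fun z => fw q M w R n z) =
      (∑ z : Fin (r + 2) → ZMod M, ∑ n ∈ Ico N (2 * N), fw q M w R n z) /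
        (Fintype.card (Fin (r + 2) → ZMod M) : ℝ) := by
    unfold av
    rw [← Finset.sum_div, Finset.sum_comm]
  rw [hsum, le_div_iff₀ hcard]
  refine le_trans ?_ (Finset.sum_le_sum fun z _ => hz z)
  rw [← Finset.sum_filter, Finset.sum_const, nsmul_eq_mul]
  have hbox := As2_box r M
  calc del r t * N * (Fintype.card (Fin (r + 2) → ZMod M) : ℝ) =
      ((1 / 2 : ℝ) ^ (r + 2) * (Fintype.card (Fin (r + 2) → ZMod M) : ℝ)) * ((N : ℝ) / (256 * t)) := by
        unfold del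
        rw [one_div_pow]
        field_simp
    _ ≤ _ := mul_le_mul_of_nonneg_right hbox (by positivity)

end Pool.CG
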