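import Pool.Agent.Lib.MP_c77da8_nt.CG.PairJ

/-!
# CG-N-PairA: the progressions whose difference has zero coordinate `0`

`Ω = {x : Fin (k+2) → G // (∑ i, x i) 0 = 0}`, `G = Fin (r+2) → ZMod M`, `M` prime, `k + 2 < M`. Points `psi j x`, `psi j' x`,
`j ≠ j'`. `psi_sub`: `psi j x - psi j' x = (j' - j) • ∑ x_i`.
First part of `PairOK`: `psi j x = psi j' x` iff `∑ x_i = 0` (`j' - j` invertible). `#{x : ∑ x_i = 0} = |G|^(k+1)`,
`|Ω| = M^(r+1) |G|^(k+1)` (the map `x ↦ ∑ x_i` is onto, its fibres have `|G|^(k+1)` elements; `Ω` is the union of `M^(r+1)`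
fibres), so there is equality.
Second part: `σ` adds `u e` to `x_(j')`, `e = Pi.single 1 c`, `u (j' - j) = 1`: `psi j` changes by `(j' - j) u e = e`, `psi j'` does
not change, `∑ x_i` changes by `u e`, whose coordinate `0` is `0` (`Pi.single 1 c 0 = 0`), so `σ` maps `Ω` to itself.
-/

set_option autoImplicit false

namespace Pool.CG

open Finset

theorem psi_sub {k : ℕ} {G : Type} [AddCommGroup G] (j j' : Fin k) (x : Fin k → G) :
    psi j x - psi j' x = (((j' : ℕ) : ℤ) - ((j : ℕ) : ℤ)) • ∑ i, x i := by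
  unfold psi
  rw [← sum_sub_distrib, Finset.smul_sum]
  refine sum_congr rfl fun i _ => ?_
  rw [← sub_smul]
  congr 1
  ring

/-- adding `e` to the coordinate `l` -/
private theorem pairA_psi_add {k : ℕ} {G : Type} [AddCommGroup G] (j l : Fin k) (x : Fin k → G) (e : G) :
    psi j (x + Pi.single l e) = psi j x + (((l : ℕ) : ℤ) - ((j : ℕ) : ℤ)) • e := by
  unfold psi
  have h : ∀ i : Fin k, (((i : ℕ) : ℤ) - ((j : ℕ) : ℤ)) • (x + Pi.single l e : Fin k → G) i =
      (((i : ℕ) : ℤ) - ((j : ℕ) : ℤ)) • x i + (((i : ℕ) : ℤ) - ((j : ℕ) : ℤ)) • (Pi.single l e : Fin k → G) i := by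
    intro i
    rw [Pi.add_apply, smul_add]
  rw [sum_congr rfl fun i _ => h i, sum_add_distrib]
  congr 1
  rw [sum_eq_single l]
  · rw [Pi.single_eq_same]
  · intro i _ hi
    rw [Pi.single_eq_of_ne hi, smul_zero]
  · intro hl
    exact absurd (mem_univ l) hl

private theorem pairA_sum_add {k : ℕ} {G : Type} [AddCommGroup G] (l : Fin k) (x : Fin k → G) (e : G) :
    ∑ i, (x + Pi.single l e : Fin k → G) i = ∑ i, x i + e := by
  have h : ∀ i : Fin k, (x + Pi.single l e : Fin k → G) i = x i + (Pi.single l e : Fin k → G) i := fun i => Pi.add_apply _ _ _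
  rw [sum_congr rfl fun i _ => h i, sum_add_distrib]
  congr 1
  rw [sum_eq_single l]
  · rw [Pi.single_eq_same]
  · intro i _ hi
    rw [Pi.single_eq_of_ne hi]
  · intro hl
    exact absurd (mem_univ l) hl

private theorem pairA_ne {k M : ℕ} (hk : k + 2 < M) (j j' : Fin (k + 2)) (hne : j ≠ j') :
    ((((j' : ℕ) : ℤ) - ((j : ℕ) : ℤ) : ℤ) : ZMod M) ≠ 0 := by
  intro h
  have h1 : (((j' : ℕ) : ZMod M)) = ((j : ℕ) : ZMod M) := by
    have h2 : (((j' : ℕ) : ZMod M)) - ((j : ℕ) : ZMod M) = 0 := by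
      rw [← h]
      push_cast
      ring
    exact sub_eq_zero.1 h2
  rw [ZMod.natCast_eq_natCast_iff', Nat.mod_eq_of_lt (by omega), Nat.mod_eq_of_lt (by omega)] at h1
  exact hne (Fin.ext h1.symm)

private theorem pairA_zsmul {n M : ℕ} (m : ℤ) (v : Fin n → ZMod M) (c : Fin n) :
    (m • v) c = (m : ZMod M) * v c := by
  rw [Pi.smul_apply, zsmul_eq_mul]

theorem ap_pairOK {k r M : ℕ} [NeZero M] (hM : M.Prime) (hk : k + 2 < M) (j j' : Fin (k + 2)) (hne : j ≠ j') :
    PairOK (fun x : {x : Fin (k + 2) → Fin (r + 2) → ZMod M // (∑ i, x i) 0 = 0} => psi j x.1)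
      (fun x => psi j' x.1) := by
  classical
  have : Fact M.Prime := ⟨hM⟩
  have hinv := pairA_ne hk j j' hne
  refine ⟨?_, fun c F => ?_⟩
  · have hz : ∀ x : {x : Fin (k + 2) → Fin (r + 2) → ZMod M // (∑ i, x i) 0 = 0},
        psi j x.1 = psi j' x.1 → ∑ i, x.1 i = 0 := by
      intro x hx
      have h1 := psi_sub j j' x.1
      rw [hx, sub_self] at h1
      funext c
      have h2 := congrFun h1 c
      rw [pairA_zsmul] at h2
      rcases mul_eq_zero.1 h2.symm with h3 | h3
      · exact absurd h3 hinv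
      · exact h3
    have hcard : Fintype.card
        ({x : {x : Fin (k + 2) → Fin (r + 2) → ZMod M // (∑ i, x i) 0 = 0} // psi j x.1 = psi j' x.1} ×
          (Fin (r + 1) → ZMod M)) ≤
        Fintype.card {x : Fin (k + 2) → Fin (r + 2) → ZMod M // (∑ i, x i) 0 = 0} := by
      refine Fintype.card_le_of_injective
        (fun p => ⟨p.1.1.1 + Pi.single 0 (Fin.cons 0 p.2 : Fin (r + 2) → ZMod M), ?_⟩) ?_
      · rw [pairA_sum_add, Pi.add_apply, p.1.1.2, Fin.cons_zero, add_zero]
      · rintro ⟨⟨x, hx⟩, g⟩ ⟨⟨y, hy⟩, g'⟩ h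
        have h1 : x.1 + Pi.single 0 (Fin.cons 0 g : Fin (r + 2) → ZMod M) =
            y.1 + Pi.single 0 (Fin.cons 0 g' : Fin (r + 2) → ZMod M) := congrArg Subtype.val h
        have h2 : ∑ i, (x.1 + Pi.single 0 (Fin.cons 0 g : Fin (r + 2) → ZMod M) : Fin (k + 2) → Fin (r + 2) → ZMod M) i =
            ∑ i, (y.1 + Pi.single 0 (Fin.cons 0 g' : Fin (r + 2) → ZMod M) : Fin (k + 2) → Fin (r + 2) → ZMod M) i := by rw [h1]
        rw [pairA_sum_add, pairA_sum_add, hz x hx, hz y hy, zero_add, zero_add] at h2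
        have h3 : g = g' := by
          funext i
          have := congrFun h2 i.succ
          rwa [Fin.cons_succ, Fin.cons_succ] at this
        subst h3
        have h4 : x = y := Subtype.ext (add_right_cancel h1)
        subst h4
        rfl
    rw [Fintype.card_prod, Fintype.card_fun, Fintype.card_fin, ZMod.card, Fintype.card_subtype] at hcard
    have : ((univ.filter fun ω : {x : Fin (k + 2) → Fin (r + 2) → ZMod M // (∑ i, x i) 0 = 0} =>
        psi j ω.1 = psi j' ω.1).card : ℝ) * (M : ℝ) ^ (r + 1) ≤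
        (Fintype.card {x : Fin (k + 2) → Fin (r + 2) → ZMod M // (∑ i, x i) 0 = 0} : ℝ) := by
      exact_mod_cast hcard
    convert this
  · -- the translation
    set m : ZMod M := ((((j' : ℕ) : ℤ) - ((j : ℕ) : ℤ) : ℤ) : ZMod M) with hm
    set e : Fin (r + 2) → ZMod M := Pi.single 1 (m⁻¹ * c) with he
    have he0 : e 0 = 0 := by
      rw [he, Pi.single_eq_of_ne]
      exact zero_ne_one
    have hme : (((j' : ℕ) : ℤ) - ((j : ℕ) : ℤ)) • e = Pi.single 1 c := by
      funext i
      rw [pairA_zsmul, he, ← hm]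
      by_cases hi : i = 1
      · rw [hi, Pi.single_eq_same, Pi.single_eq_same, ← mul_assoc, mul_inv_cancel₀ hinv, one_mul]
      · rw [Pi.single_eq_of_ne hi, Pi.single_eq_of_ne hi, mul_zero]
    let σ : {x : Fin (k + 2) → Fin (r + 2) → ZMod M // (∑ i, x i) 0 = 0} ≃
        {x : Fin (k + 2) → Fin (r + 2) → ZMod M // (∑ i, x i) 0 = 0} :=
      { toFun := fun x => ⟨x.1 + Pi.single j' e, by
          rw [pairA_sum_add, Pi.add_apply, x.2, he0, add_zero]⟩
        invFun := fun x => ⟨x.1 + Pi.single j' (-e), by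
          rw [pairA_sum_add, Pi.add_apply, x.2, Pi.neg_apply, he0, neg_zero, add_zero]⟩
        left_inv := by
          intro x
          apply Subtype.ext
          change x.1 + Pi.single j' e + Pi.single j' (-e) = x.1
          rw [add_assoc, ← Pi.single_add, add_neg_cancel, Pi.single_zero, add_zero]
        right_inv := by
          intro x
          apply Subtype.ext
          change x.1 + Pi.single j' (-e) + Pi.single j' e = x.1
          rw [add_assoc, ← Pi.single_add, neg_add_cancel, Pi.single_zero, add_zero] }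
    unfold av
    congr 1
    rw [← Equiv.sum_comp σ (fun ω : {x : Fin (k + 2) → Fin (r + 2) → ZMod M // (∑ i, x i) 0 = 0} =>
      F (psi j ω.1) (psi j' ω.1))]
    refine Finset.sum_congr rfl fun ω _ => ?_
    change F (psi j ω.1 + Pi.single 1 c) (psi j' ω.1) =
      F (psi j (ω.1 + Pi.single j' e)) (psi j' (ω.1 + Pi.single j' e))
    rw [pairA_psi_add, pairA_psi_add, hme, sub_self, zero_smul, add_zero]

/-- the average over all `x` of a function supported on the subgroup -/
theorem ap_av {k r M : ℕ} [NeZero M] (F : (Fin (k + 2) → Fin (r + 2) → ZMod M) → ℝ) :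
    av (fun x : Fin (k + 2) → Fin (r + 2) → ZMod M => if (∑ i, x i) 0 = 0 then F x else 0) =
      (1 / (M : ℝ)) * av (fun x : {x : Fin (k + 2) → Fin (r + 2) → ZMod M // (∑ i, x i) 0 = 0} => F x.1) := by
  classical
  let φ : ({x : Fin (k + 2) → Fin (r + 2) → ZMod M // (∑ i, x i) 0 = 0} × ZMod M) ≃
      (Fin (k + 2) → Fin (r + 2) → ZMod M) :=
    { toFun := fun p => p.1.1 + Pi.single 0 (Pi.single 0 p.2)
      invFun := fun x => (⟨x + Pi.single 0 (Pi.single 0 (-((∑ i, x i) 0))), by
          rw [pairA_sum_add, Pi.add_apply, Pi.single_eq_same, add_neg_cancel]⟩, (∑ i, x i) 0)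
      left_inv := by
        rintro ⟨⟨x, hx⟩, g⟩
        have h1 : (∑ i, (x + Pi.single 0 (Pi.single 0 g : Fin (r + 2) → ZMod M) : Fin (k + 2) → Fin (r + 2) → ZMod M) i) 0 = g := by
          rw [pairA_sum_add, Pi.add_apply, hx, Pi.single_eq_same, zero_add]
        refine Prod.ext (Subtype.ext ?_) h1
        change x + Pi.single 0 (Pi.single 0 g) + Pi.single 0 (Pi.single 0
          (-((∑ i, (x + Pi.single 0 (Pi.single 0 g : Fin (r + 2) → ZMod M) : Fin (k + 2) → Fin (r + 2) → ZMod M) i) 0))) = x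
        rw [h1, add_assoc, ← Pi.single_add, ← Pi.single_add, add_neg_cancel, Pi.single_zero, Pi.single_zero,
          add_zero]
      right_inv := by
        intro x
        change x + Pi.single 0 (Pi.single 0 (-((∑ i, x i) 0))) + Pi.single 0 (Pi.single 0 ((∑ i, x i) 0)) = x
        rw [add_assoc, ← Pi.single_add, ← Pi.single_add, neg_add_cancel, Pi.single_zero, Pi.single_zero,
          add_zero] }
  have hcard : Fintype.card {x : Fin (k + 2) → Fin (r + 2) → ZMod M // (∑ i, x i) 0 = 0} * M =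
      Fintype.card (Fin (k + 2) → Fin (r + 2) → ZMod M) := by
    rw [← Fintype.card_congr φ, Fintype.card_prod, ZMod.card]
  unfold av
  have hsum : ∑ x : Fin (k + 2) → Fin (r + 2) → ZMod M, (if (∑ i, x i) 0 = 0 then F x else 0) =
      ∑ x : {x : Fin (k + 2) → Fin (r + 2) → ZMod M // (∑ i, x i) 0 = 0}, F x.1 := by
    rw [← Finset.sum_filter]
    exact (Finset.sum_subtype _ (by intro x; simp) F)
  rw [hsum, ← hcard]
  push_cast
  rw [div_mul_div_comm, one_mul, mul_comm (M : ℝ)]

end Pool.CG
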