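import Pool.Agent.Lib.MP_c77da8_nt.CG.Basic
import Pool.Agent.Lib.MP_c77da8_nt.SZ.Sz

/-!
# CG-Dense: Szemerédi's theorem in finite abelian groups, averaged form (MP_c77da8_nt)

PROOF.  `L` from `Pool.SZ.szemeredi` with density `δ/4`.  For `(z, d)` let `S = {i < L : g (z + i d) ≥ δ/4}`.  The mean `m` of
`g (z + i d)` over `i < L` is `≤ 1`, and `≤ δ/2` if `#S < (δ/4) L`; the average of `m` over `(z, d)` is `av g ≥ δ`, so
`#S ≥ (δ/4) L` with probability `≥ δ/2`, and then `S` contains `a + j t`, `j < k`, `1 ≤ t ≤ L`, `a < L`.  Sum over all `(a, t)`;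
`(z, d) ↦ (z + a d, t d)` is a bijection.
-/

set_option autoImplicit false

namespace Pool.CG

open Finset

noncomputable section

theorem sz_bdd (k : ℕ) (δ : ℝ) (hδ : 0 < δ) : ∃ L : ℕ, 1 ≤ L ∧ ∀ S : Finset ℕ, S ⊆ range L →
    δ * L ≤ S.card → ∃ a t : ℕ, a < L ∧ 1 ≤ t ∧ t ≤ L ∧ ∀ j < k, a + j * t ∈ S := by
  obtain ⟨N, hN⟩ := Pool.SZ.szemeredi k δ hδ
  refine ⟨max N 1, le_max_right _ _, ?_⟩
  intro S hS hc
  obtain ⟨a, t, ht, h⟩ := hN (max N 1) (le_max_left _ _) S hS hc
  have hL : 1 ≤ max N 1 := le_max_right _ _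
  rcases Nat.lt_or_ge k 1 with hk | hk
  · refine ⟨0, 1, by omega, le_refl _, hL, fun j hj => by omega⟩
  rcases Nat.lt_or_ge k 2 with hk2 | hk2
  · have h0 := h 0 (by omega)
    rw [Nat.zero_mul, Nat.add_zero] at h0
    refine ⟨a, 1, mem_range.mp (hS h0), le_refl _, hL, fun j hj => ?_⟩
    have : j = 0 := by omega
    subst this
    simpa using h0
  · have h0 := h 0 (by omega)
    have h1 := h 1 (by omega)
    rw [Nat.zero_mul, Nat.add_zero] at h0
    have h1' := mem_range.mp (hS h1)
    refine ⟨a, t, mem_range.mp (hS h0), ht, by omega, h⟩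

private theorem av_smul {Ω : Type} [Fintype Ω] (c : ℝ) (F : Ω → ℝ) : av (fun x => c * F x) = c * av F :=
  av_const_mul c F

section

variable {Ω Ω' : Type} [Fintype Ω] [Fintype Ω']

theorem av_bij {φ : Ω → Ω'} (h : Function.Bijective φ) (F : Ω' → ℝ) :
    av (fun x => F (φ x)) = av F :=
  av_equiv (Equiv.ofBijective φ h) F

end

theorem dense (k : ℕ) (δ : ℝ) (hδ : 0 < δ) : ∃ (L : ℕ) (c : ℝ), 0 < c ∧
    ∀ (G : Type) [AddCommGroup G] [Fintype G],
      (∀ i : ℕ, 1 ≤ i → i ≤ L → Function.Bijective (fun x : G => i • x)) →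
      ∀ g : G → ℝ, (∀ z, 0 ≤ g z ∧ g z ≤ 1) → δ ≤ av g →
        c ≤ av (fun p : G × G => ∏ j : Fin k, g (p.1 + (j : ℕ) • p.2)) := by
  classical
  obtain ⟨L, hL1, hL⟩ := sz_bdd k (δ / 4) (by positivity)
  have hL0 : (0:ℝ) < L := by exact_mod_cast hL1
  refine ⟨L, (δ / 4) ^ k * (δ / 2) / (L * L), by positivity, ?_⟩
  intro G _ _ hbij g hg hav
  have : Nonempty G := ⟨0⟩
  let A : ℝ := av (fun p : G × G => ∏ j : Fin k, g (p.1 + (j : ℕ) • p.2))
  -- the sets
  let S : G × G → Finset ℕ := fun p => (range L).filter fun i => δ / 4 ≤ g (p.1 + i • p.2)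
  let good : G × G → ℝ := fun p => if δ / 4 * L ≤ ((S p).card : ℝ) then 1 else 0
  let m : G × G → ℝ := fun p => (∑ i ∈ range L, g (p.1 + i • p.2)) / L
  have hm1 : ∀ p, m p ≤ 1 := by
    intro p
    simp only [m]
    rw [div_le_one hL0]
    calc ∑ i ∈ range L, g (p.1 + i • p.2) ≤ ∑ _i ∈ range L, (1:ℝ) :=
          Finset.sum_le_sum fun i _ => (hg _).2
      _ = L := by simp
  have hm2 : ∀ p, m p ≤ ((S p).card : ℝ) / L + δ / 4 := by
    intro p
    simp only [m]
    have h1 : ∀ i ∈ range L, g (p.1 + i • p.2) ≤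
        (if δ / 4 ≤ g (p.1 + i • p.2) then (1:ℝ) else 0) + δ / 4 := by
      intro i _
      split_ifs with h
      · have := (hg (p.1 + i • p.2)).2; linarith
      · rw [zero_add]; exact (not_le.mp h).le
    have h2 := Finset.sum_le_sum h1
    rw [Finset.sum_add_distrib, ← Finset.sum_filter, Finset.sum_const, Finset.sum_const,
      card_range, nsmul_eq_mul, nsmul_eq_mul, mul_one] at h2
    rw [div_le_iff₀ hL0, add_mul, div_mul_cancel₀ _ hL0.ne']
    calc _ ≤ _ := h2
      _ = ((S p).card : ℝ) + δ / 4 * L := by rw [mul_comm (L:ℝ)]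
  have hm3 : ∀ p, m p ≤ good p + δ / 2 := by
    intro p
    simp only [good]
    split_ifs with h
    · have := hm1 p; linarith
    · have h1 := hm2 p
      have h2 : ((S p).card : ℝ) / L ≤ δ / 4 := by
        rw [div_le_iff₀ hL0]; exact (not_le.mp h).le
      linarith
  have hmav : av m = av g := by
    have e : m = fun p : G × G => (1 / (L:ℝ)) * ∑ i ∈ range L, g (p.1 + i • p.2) := by
      funext p; simp only [m]; ring
    rw [e, av_smul, av_sum]
    have : ∀ i ∈ range L, av (fun p : G × G => g (p.1 + i • p.2)) = av g := by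
      intro i _
      have hb : Function.Bijective (fun p : G × G => ((p.2, p.1 + i • p.2) : G × G)) := by
        constructor
        · rintro ⟨a, b⟩ ⟨a', b'⟩ h
          simp only [Prod.mk.injEq] at h
          obtain ⟨h1, h2⟩ := h
          subst h1
          simpa using h2
        · rintro ⟨a, b⟩
          refine ⟨(b - i • a, a), ?_⟩
          simp
      have := av_bij hb (fun q : G × G => g q.2)
      simp only at this
      rw [this, av_prod]
      simp only
      exact av_const _
    rw [Finset.sum_congr rfl this, Finset.sum_const, card_range, nsmul_eq_mul]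
    field_simp
  have hgood : δ / 2 ≤ av good := by
    have h1 : av m ≤ av good + δ / 2 := by
      have := av_mono hm3
      rw [av_add, av_const] at this
      exact this
    linarith
  -- lower bound for the sum over all (a, t)
  have hlow : ∀ p, (δ / 4) ^ k * good p ≤
      ∑ a ∈ range L, ∑ t ∈ Finset.Icc 1 L, ∏ j : Fin k, g (p.1 + (a + (j : ℕ) * t) • p.2) := by
    intro p
    have hnn : ∀ a t : ℕ, 0 ≤ ∏ j : Fin k, g (p.1 + (a + (j : ℕ) * t) • p.2) := fun a t =>
      Finset.prod_nonneg fun j _ => (hg _).1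
    simp only [good]
    split_ifs with h
    · obtain ⟨a, t, ha, ht1, htL, hAP⟩ := hL (S p) (Finset.filter_subset _ _) h
      have h1 : (δ / 4) ^ k ≤ ∏ j : Fin k, g (p.1 + (a + (j : ℕ) * t) • p.2) := by
        have : ∏ _j : Fin k, (δ / 4) ≤ ∏ j : Fin k, g (p.1 + (a + (j : ℕ) * t) • p.2) := by
          refine Finset.prod_le_prod (fun j _ => by positivity) fun j _ => ?_
          exact (mem_filter.mp (hAP j j.2)).2
        rwa [Finset.prod_const, Finset.card_univ, Fintype.card_fin] at this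
      rw [mul_one]
      refine h1.trans ?_
      refine le_trans ?_ (Finset.single_le_sum (f := fun a => ∑ t ∈ Finset.Icc 1 L,
        ∏ j : Fin k, g (p.1 + (a + (j : ℕ) * t) • p.2))
        (fun a _ => Finset.sum_nonneg fun t _ => hnn a t) (mem_range.mpr ha))
      exact Finset.single_le_sum (f := fun t => ∏ j : Fin k, g (p.1 + (a + (j : ℕ) * t) • p.2))
        (fun t _ => hnn a t) (Finset.mem_Icc.mpr ⟨ht1, htL⟩)
    · rw [mul_zero]
      exact Finset.sum_nonneg fun a _ => Finset.sum_nonneg fun t _ => hnn a t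
  have hterm : ∀ a : ℕ, ∀ t ∈ Finset.Icc 1 L,
      av (fun p : G × G => ∏ j : Fin k, g (p.1 + (a + (j : ℕ) * t) • p.2)) = A := by
    intro a t ht
    obtain ⟨ht1, htL⟩ := Finset.mem_Icc.mp ht
    have hb0 := hbij t ht1 htL
    have hb : Function.Bijective (fun p : G × G => ((p.1 + a • p.2, t • p.2) : G × G)) := by
      constructor
      · rintro ⟨x, y⟩ ⟨x', y'⟩ h
        simp only [Prod.mk.injEq] at h
        obtain ⟨h1, h2⟩ := h
        have h3 : y = y' := hb0.1 h2
        subst h3
        simpa using h1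
      · rintro ⟨x, y⟩
        obtain ⟨y', hy'⟩ := hb0.2 y
        refine ⟨(x - a • y', y'), ?_⟩
        simp only [Prod.mk.injEq]
        exact ⟨by abel, hy'⟩
    have := av_bij hb (fun q : G × G => ∏ j : Fin k, g (q.1 + (j : ℕ) • q.2))
    simp only [A]
    rw [← this]
    congr 1
    funext p
    refine Finset.prod_congr rfl fun j _ => ?_
    congr 1
    rw [add_assoc, add_smul, mul_smul]
  have hfin : (δ / 4) ^ k * av good ≤ L * L * A := by
    have h1 := av_mono hlow
    rw [av_smul, av_sum] at h1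
    have h2 : ∀ a ∈ range L, av (fun p : G × G => ∑ t ∈ Finset.Icc 1 L,
        ∏ j : Fin k, g (p.1 + (a + (j : ℕ) * t) • p.2)) = L * A := by
      intro a _
      rw [av_sum, Finset.sum_congr rfl (hterm a), Finset.sum_const, Nat.card_Icc, nsmul_eq_mul]
      simp
    rw [Finset.sum_congr rfl h2, Finset.sum_const, card_range, nsmul_eq_mul] at h1
    linarith
  have hpos : 0 ≤ (δ / 4) ^ k := by positivity
  rw [div_le_iff₀ (by positivity)]
  calc (δ / 4) ^ k * (δ / 2) ≤ (δ / 4) ^ k * av good := mul_le_mul_of_nonneg_left hgood hpos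
    _ ≤ L * L * A := hfin
    _ = A * (L * L) := by ring

/-- a surjective homomorphism preserves averages -/
theorem av_hom {A B : Type} [AddCommGroup A] [AddCommGroup B] [Fintype A] [Fintype B] (φ : A →+ B)
    (hφ : Function.Surjective φ) (F : B → ℝ) : av (fun a => F (φ a)) = av F := by
  classical
  let N : ℕ := (univ.filter fun a => φ a = 0).card
  have hN : ∀ b, (univ.filter fun a => φ a = b).card = N := by
    intro b
    obtain ⟨a0, ha0⟩ := hφ b
    refine Finset.card_bij' (fun a _ => a - a0) (fun a _ => a + a0) ?_ ?_ ?_ ?_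
    · intro a ha
      have := (mem_filter.mp ha).2
      exact mem_filter.mpr ⟨mem_univ _, by rw [map_sub, this, ha0, sub_self]⟩
    · intro a ha
      have := (mem_filter.mp ha).2
      exact mem_filter.mpr ⟨mem_univ _, by rw [map_add, this, ha0, zero_add]⟩
    · intro a _; simp
    · intro a _; simp
  have hsum : ∀ F : B → ℝ, ∑ a, F (φ a) = N * ∑ b, F b := by
    intro F
    rw [← Finset.sum_fiberwise univ φ (fun a => F (φ a)), Finset.mul_sum]
    refine Finset.sum_congr rfl fun b _ => ?_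
    rw [← hN b]
    rw [Finset.sum_congr rfl (g := fun _ => F b) (fun a ha => by rw [(mem_filter.mp ha).2])]
    rw [Finset.sum_const, nsmul_eq_mul]
  have hcard : (Fintype.card A : ℝ) = N * (Fintype.card B : ℝ) := by
    have := hsum (fun _ => 1)
    simpa using this
  have hA : (Fintype.card A : ℝ) ≠ 0 := by
    have : Nonempty A := ⟨0⟩
    exact_mod_cast Fintype.card_ne_zero
  have hN0 : (N : ℝ) ≠ 0 := fun h => hA (by rw [hcard, h, zero_mul])
  unfold av
  rw [hsum F, hcard, mul_div_mul_left _ _ hN0]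

theorem psi_add_gen {G : Type} [AddCommGroup G] {k : ℕ} (j : Fin k) (x y : Fin k → G) :
    psi j (x + y) = psi j x + psi j y := by
  unfold psi
  rw [← Finset.sum_add_distrib]
  exact Finset.sum_congr rfl fun i _ => by rw [Pi.add_apply, smul_add]

theorem psi_eq {G : Type} [AddCommGroup G] {k : ℕ} (j : Fin (k+1)) (x : Fin (k+1) → G) :
    psi j x = psi 0 x + (j : ℕ) • (-∑ i, x i) := by
  unfold psi
  rw [smul_neg, Finset.smul_sum, ← sub_eq_add_neg, ← Finset.sum_sub_distrib]
  refine Finset.sum_congr rfl fun i _ => ?_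
  rw [Fin.val_zero, Nat.cast_zero, sub_zero, sub_smul, natCast_zsmul, natCast_zsmul]

theorem av_psi {G : Type} [AddCommGroup G] [Fintype G] {k : ℕ} (H : G × G → ℝ) :
    av (fun x : Fin (k+2) → G => H (psi 0 x, -∑ i, x i)) = av H := by
  classical
  let φ : (Fin (k+2) → G) →+ G × G :=
    { toFun := fun x => (psi 0 x, -∑ i, x i)
      map_zero' := by
        simp [psi]
      map_add' := by
        intro x y
        rw [psi_add_gen, Prod.mk_add_mk]
        congr 1
        simp only [Pi.add_apply]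
        rw [Finset.sum_add_distrib, neg_add] }
  refine av_hom φ ?_ H
  rintro ⟨z, d⟩
  refine ⟨Pi.single 1 z + Pi.single 0 (-d - z), ?_⟩
  have h0 : ∀ u : G, psi (0 : Fin (k+2)) (Pi.single (1 : Fin (k+2)) u) = u := by
    intro u
    unfold psi
    rw [Finset.sum_eq_single (1 : Fin (k+2))]
    · simp
    · intro b _ hb
      simp [Pi.single_eq_of_ne hb]
    · intro h; exact absurd (mem_univ _) h
  have h1 : ∀ u : G, psi (0 : Fin (k+2)) (Pi.single (0 : Fin (k+2)) u) = 0 := by
    intro u
    unfold psi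
    rw [Finset.sum_eq_single (0 : Fin (k+2))]
    · simp
    · intro b _ hb
      simp [Pi.single_eq_of_ne hb]
    · intro h; exact absurd (mem_univ _) h
  show (psi 0 (Pi.single 1 z + Pi.single 0 (-d - z)),
    -∑ i, (Pi.single 1 z + Pi.single 0 (-d - z) : Fin (k+2) → G) i) = (z, d)
  rw [psi_add_gen, h0, h1, add_zero]
  congr 1
  simp only [Pi.add_apply]
  rw [Finset.sum_add_distrib, Finset.sum_pi_single', Finset.sum_pi_single']
  simp

/-- Szemerédi's theorem in terms of the forms `psi j` -/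
theorem dense_psi (k : ℕ) (δ : ℝ) (hδ : 0 < δ) : ∃ (L : ℕ) (c : ℝ), 0 < c ∧
    ∀ (G : Type) [AddCommGroup G] [Fintype G],
      (∀ i : ℕ, 1 ≤ i → i ≤ L → Function.Bijective (fun x : G => i • x)) →
      ∀ g : G → ℝ, (∀ z, 0 ≤ g z ∧ g z ≤ 1) → δ ≤ av g →
        c ≤ av (fun x : Fin (k+2) → G => ∏ j, g (psi j x)) := by
  obtain ⟨L, c, hc, h⟩ := dense (k+2) δ hδ
  refine ⟨L, c, hc, ?_⟩
  intro G _ _ hbij g hg hav
  have h1 := h G hbij g hg hav
  rw [← av_psi (k := k) (fun p : G × G => ∏ j : Fin (k+2), g (p.1 + (j : ℕ) • p.2))] at h1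
  refine h1.trans (le_of_eq ?_)
  congr 1
  funext x
  exact Finset.prod_congr rfl fun j _ => by rw [← psi_eq]

end

end Pool.CG
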