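import Pool.Agent.Lib.MP_c77da8_nt.CG.Basic

/-!
# CG-Dm: the dense model theorem (long geometric progressions in the shifted primes, MP_c77da8_nt)
-/

set_option autoImplicit false

namespace Pool.CG

open Finset

noncomputable section

private theorem av_smul {Ω : Type} [Fintype Ω] (c : ℝ) (F : Ω → ℝ) : av (fun x => c * F x) = c * av F :=
  av_const_mul c F

variable {G : Type} [Fintype G]

/-- finitely many test functions -/
theorem dm_fin (s : Finset (G → ℝ)) (f : G → ℝ) (ε : ℝ) (hε : 0 ≤ ε)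
    (h : ∀ c : (G → ℝ) → ℝ,
      av (fun z => f z * ∑ φ ∈ s, c φ * φ z) ≤
        av (fun z => max (∑ φ ∈ s, c φ * φ z) 0) + ε * ∑ φ ∈ s, |c φ|) :
    ∃ g : G → ℝ, (∀ z, 0 ≤ g z ∧ g z ≤ 1) ∧
      ∀ φ ∈ s, |av (fun z => (f z - g z) * φ z)| ≤ ε := by
  classical
  -- the linear map
  let T : (G → ℝ) →ₗ[ℝ] (s → ℝ) :=
    { toFun := fun g φ => av (fun z => g z * φ.1 z)
      map_add' := by
        intro a b; funext φ
        simp only [Pi.add_apply, add_mul]
        exact av_add _ _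
      map_smul' := by
        intro c a; funext φ
        simp only [Pi.smul_apply, smul_eq_mul, RingHom.id_apply, mul_assoc]
        exact av_smul _ _ }
  let Q : Set (G → ℝ) := Set.pi Set.univ fun _ => Set.Icc (0:ℝ) 1
  have hQc : IsCompact Q := isCompact_univ_pi fun _ => isCompact_Icc
  have hQv : Convex ℝ Q := convex_pi fun _ _ => convex_Icc 0 1
  let K1 : Set (s → ℝ) := T '' Q
  have hK1c : IsCompact K1 := hQc.image (LinearMap.continuous_of_finiteDimensional T)
  have hK1v : Convex ℝ K1 := hQv.linear_image T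
  let K2 : Set (s → ℝ) := Set.pi Set.univ fun φ => Set.Icc (T f φ - ε) (T f φ + ε)
  have hK2c : IsClosed K2 := isClosed_set_pi fun _ _ => isClosed_Icc
  have hK2v : Convex ℝ K2 := convex_pi fun _ _ => convex_Icc _ _
  by_cases hd : Disjoint K1 K2
  · exfalso
    obtain ⟨l, u, v, h1, huv, h2⟩ := geometric_hahn_banach_compact_closed hK1v hK1c hK2v hK2c hd
    -- coefficients
    let cc : s → ℝ := fun φ => l (Pi.single φ 1)
    have hl : ∀ y : s → ℝ, l y = ∑ φ, cc φ * y φ := by
      intro y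
      conv_lhs => rw [← Finset.univ_sum_single y]
      rw [map_sum]
      refine Finset.sum_congr rfl fun φ _ => ?_
      have : (Pi.single φ (y φ) : s → ℝ) = y φ • Pi.single φ 1 := by
        rw [← Pi.single_smul, smul_eq_mul, mul_one]
      rw [this, map_smul, smul_eq_mul, mul_comm]
    let c : (G → ℝ) → ℝ := fun φ => if hφ : φ ∈ s then cc ⟨φ, hφ⟩ else 0
    have hc : ∀ φ : s, c φ.1 = cc φ := by
      intro φ; simp only [c, φ.2, dif_pos]
    have hsum : ∀ F : (G → ℝ) → ℝ, ∑ φ ∈ s, c φ * F φ = ∑ φ : s, cc φ * F φ.1 := by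
      intro F
      rw [← Finset.sum_coe_sort]
      exact Finset.sum_congr rfl fun φ _ => by rw [hc]
    let ψ : G → ℝ := fun z => ∑ φ ∈ s, c φ * φ z
    have hlT : ∀ g : G → ℝ, l (T g) = av (fun z => g z * ψ z) := by
      intro g
      rw [hl]
      have e1 : (fun z => g z * ψ z) = fun z => ∑ φ : s, cc φ * (g z * φ.1 z) := by
        funext z
        simp only [ψ]
        rw [hsum (fun φ => φ z), Finset.mul_sum]
        exact Finset.sum_congr rfl fun φ _ => by ring
      rw [e1, av_sum]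
      refine Finset.sum_congr rfl fun φ _ => ?_
      rw [av_smul]; rfl
    -- best g
    let g0 : G → ℝ := fun z => if 0 ≤ ψ z then 1 else 0
    have hg0 : g0 ∈ Q := by
      intro z _
      simp only [g0]
      split_ifs <;> simp
    have e1 := h1 (T g0) ⟨g0, hg0, rfl⟩
    rw [hlT] at e1
    have e2 : (fun z => g0 z * ψ z) = fun z => max (ψ z) 0 := by
      funext z
      simp only [g0]
      split_ifs with hz
      · rw [max_eq_left hz, one_mul]
      · rw [max_eq_right (not_le.mp hz).le, zero_mul]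
    rw [e2] at e1
    -- the point of K2
    let b : s → ℝ := fun φ => T f φ - ε * (SignType.sign (cc φ) : ℝ)
    have hb : b ∈ K2 := by
      intro φ _
      have h3 : |(SignType.sign (cc φ) : ℝ)| ≤ 1 := by
        rcases lt_trichotomy (cc φ) 0 with hh | hh | hh
        · simp [sign_neg hh]
        · simp [hh]
        · simp [sign_pos hh]
      have h4 := abs_le.mp h3
      constructor
      · simp only [b]; nlinarith [h4.1, h4.2]
      · simp only [b]; nlinarith [h4.1, h4.2]
    have e3 := h2 b hb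
    have e4 : l b = av (fun z => f z * ψ z) - ε * ∑ φ ∈ s, |c φ| := by
      rw [← hlT f, hl b, hl (T f)]
      have : ∑ φ ∈ s, |c φ| = ∑ φ : s, |cc φ| := by
        rw [← Finset.sum_coe_sort]
        exact Finset.sum_congr rfl fun φ _ => by rw [hc]
      rw [this, Finset.mul_sum, ← Finset.sum_sub_distrib]
      refine Finset.sum_congr rfl fun φ _ => ?_
      simp only [b]
      have h5 : cc φ * (SignType.sign (cc φ) : ℝ) = |cc φ| := by
        rw [mul_comm]; exact sign_mul_self (cc φ)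
      rw [mul_sub, ← h5]; ring
    rw [e4] at e3
    have e5 := h c
    have : av (fun z => f z * ∑ φ ∈ s, c φ * φ z) = av (fun z => f z * ψ z) := rfl
    have : av (fun z => max (∑ φ ∈ s, c φ * φ z) 0) = av (fun z => max (ψ z) 0) := rfl
    linarith
  · rw [Set.not_disjoint_iff] at hd
    obtain ⟨y, ⟨g, hg, rfl⟩, hy⟩ := hd
    refine ⟨g, fun z => hg z (Set.mem_univ _), fun φ hφ => ?_⟩
    have h3 := hy ⟨φ, hφ⟩ (Set.mem_univ _)
    have e : av (fun z => (f z - g z) * φ z) = T f ⟨φ, hφ⟩ - T g ⟨φ, hφ⟩ := by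
      have : (fun z => (f z - g z) * φ z) = fun z => f z * φ z - g z * φ z := by
        funext z; ring
      rw [this, av_sub]; rfl
    rw [e, abs_le]
    have h4 := h3.1
    have h5 := h3.2
    constructor <;> linarith

theorem av_continuous {Y : Type} [TopologicalSpace Y] {F : Y → G → ℝ}
    (h : ∀ z, Continuous fun y => F y z) : Continuous fun y => av (F y) := by
  unfold av
  exact (continuous_finsetSum _ fun z _ => h z).div_const _

/-- DMa: the minimax form of the dense model theorem -/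
theorem dm_a (Φ : Set (G → ℝ)) (f : G → ℝ) (ε : ℝ) (hε : 0 ≤ ε)
    (h : ∀ s : Finset (G → ℝ), (∀ φ ∈ s, φ ∈ Φ) → ∀ c : (G → ℝ) → ℝ,
      av (fun z => f z * ∑ φ ∈ s, c φ * φ z) ≤
        av (fun z => max (∑ φ ∈ s, c φ * φ z) 0) + ε * ∑ φ ∈ s, |c φ|) :
    ∃ g : G → ℝ, (∀ z, 0 ≤ g z ∧ g z ≤ 1) ∧
      ∀ φ ∈ Φ, |av (fun z => (f z - g z) * φ z)| ≤ ε := by
  classical
  let Q : Set (G → ℝ) := Set.pi Set.univ fun _ => Set.Icc (0:ℝ) 1
  have hQc : IsCompact Q := isCompact_univ_pi fun _ => isCompact_Icc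
  let C : Φ → Set (G → ℝ) := fun φ => {g | |av (fun z => (f z - g z) * φ.1 z)| ≤ ε}
  have hC : ∀ φ, IsClosed (C φ) := by
    intro φ
    refine isClosed_le ?_ continuous_const
    refine Continuous.abs (av_continuous fun z => ?_)
    exact (continuous_const.sub (continuous_apply z)).mul continuous_const
  have hfin : ∀ u : Finset Φ, (Q ∩ ⋂ i ∈ u, C i).Nonempty := by
    intro u
    obtain ⟨g, hg, hg2⟩ := dm_fin (u.image Subtype.val) f ε hε (h _ (by
      intro φ hφ
      obtain ⟨a, _, rfl⟩ := Finset.mem_image.mp hφ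
      exact a.2))
    refine ⟨g, fun z _ => hg z, ?_⟩
    simp only [Set.mem_iInter]
    intro i hi
    exact hg2 i.1 (Finset.mem_image_of_mem _ hi)
  obtain ⟨g, hg, hg2⟩ := hQc.inter_iInter_nonempty C hC hfin
  refine ⟨g, fun z => hg z (Set.mem_univ _), fun φ hφ => ?_⟩
  exact Set.mem_iInter.mp hg2 ⟨φ, hφ⟩

/-- products with powers of a combination -/
theorem pow_bound (Φ : Set (G → ℝ)) (F : G → ℝ) (m : ℕ) (δ : ℝ) (hδ : 0 ≤ δ)
    (H : ∀ l : List (G → ℝ), (∀ φ ∈ l, φ ∈ Φ) → l.length ≤ m →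
      |av (fun z => F z * (l.map fun φ => φ z).prod)| ≤ δ)
    (s : Finset (G → ℝ)) (hs : ∀ φ ∈ s, φ ∈ Φ) (c : (G → ℝ) → ℝ) (hc : ∑ φ ∈ s, |c φ| ≤ 1)
    (n : ℕ) : ∀ l : List (G → ℝ), (∀ φ ∈ l, φ ∈ Φ) → l.length + n ≤ m →
      |av (fun z => F z * (l.map fun φ => φ z).prod * (∑ φ ∈ s, c φ * φ z) ^ n)| ≤ δ := by
  induction n with
  | zero =>
    intro l hl hln
    simpa using H l hl (by omega)
  | succ n ih =>
    intro l hl hln
    have e : (fun z => F z * (l.map fun φ => φ z).prod * (∑ φ ∈ s, c φ * φ z) ^ (n+1)) =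
        fun z => ∑ φ ∈ s, c φ *
          (F z * ((φ :: l).map fun φ => φ z).prod * (∑ φ ∈ s, c φ * φ z) ^ n) := by
      funext z
      rw [pow_succ, ← mul_assoc, Finset.mul_sum]
      refine Finset.sum_congr rfl fun φ _ => ?_
      rw [List.map_cons, List.prod_cons]
      ring
    rw [e, av_sum]
    refine (Finset.abs_sum_le_sum_abs _ _).trans ?_
    have : ∀ φ ∈ s, |av (fun z => c φ *
          (F z * ((φ :: l).map fun φ => φ z).prod * (∑ φ ∈ s, c φ * φ z) ^ n))| ≤
          |c φ| * δ := by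
      intro φ hφ
      rw [av_smul, abs_mul]
      refine mul_le_mul_of_nonneg_left ?_ (abs_nonneg _)
      refine ih (φ :: l) ?_ ?_
      · intro χ hχ
        rcases List.mem_cons.mp hχ with rfl | hχ
        · exact hs _ hφ
        · exact hl _ hχ
      · simp only [List.length_cons]; omega
    refine (Finset.sum_le_sum this).trans ?_
    rw [← Finset.sum_mul]
    nlinarith

/-- DMb: the dense model theorem -/
theorem dm_b (ε : ℝ) (hε : 0 < ε) : ∃ (m : ℕ) (δ : ℝ), 0 < δ ∧
    ∀ (G : Type) [Fintype G] [Nonempty G] (ν f : G → ℝ) (Φ : Set (G → ℝ)),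
      (∀ z, 0 ≤ f z ∧ f z ≤ ν z) → (∀ φ ∈ Φ, ∀ z, |φ z| ≤ 1) →
      (∀ l : List (G → ℝ), (∀ φ ∈ l, φ ∈ Φ) → l.length ≤ m →
        |av (fun z => (ν z - 1) * (l.map fun φ => φ z).prod)| ≤ δ) →
      ∃ g : G → ℝ, (∀ z, 0 ≤ g z ∧ g z ≤ 1) ∧
        ∀ φ ∈ Φ, |av (fun z => (f z - g z) * φ z)| ≤ ε := by
  obtain ⟨P, hP⟩ := exists_polynomial_near_of_continuousOn (-1) 1 (fun t : ℝ => max t 0)
    (continuous_id.max continuous_const).continuousOn (ε / 4) (by positivity)
  let A : ℝ := ∑ n ∈ range (P.natDegree + 1), |P.coeff n|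
  have hA : 0 ≤ A := Finset.sum_nonneg fun _ _ => abs_nonneg _
  let δ : ℝ := min 1 (ε / (4 * (A + 1)))
  have hδ0 : 0 < δ := lt_min one_pos (by positivity)
  have hδ1 : δ ≤ 1 := min_le_left _ _
  have hδA : A * δ ≤ ε / 4 := by
    have h1 : δ ≤ ε / (4 * (A + 1)) := min_le_right _ _
    have h2 : A * δ ≤ A * (ε / (4 * (A + 1))) := mul_le_mul_of_nonneg_left h1 hA
    have h3 : A * (ε / (4 * (A + 1))) ≤ ε / 4 := by
      rw [mul_div_assoc', div_le_div_iff₀ (by positivity) (by norm_num)]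
      nlinarith
    linarith
  refine ⟨P.natDegree, δ, hδ0, ?_⟩
  intro G _ _ ν f Φ hf hΦ H
  refine dm_a Φ f ε hε.le ?_
  intro s hs c
  classical
  -- normalisation
  let σ : ℝ := ∑ φ ∈ s, |c φ|
  have hσ0 : 0 ≤ σ := Finset.sum_nonneg fun _ _ => abs_nonneg _
  by_cases hσ : σ = 0
  · have hc0 : ∀ φ ∈ s, c φ = 0 := by
      intro φ hφ
      have := (Finset.sum_eq_zero_iff_of_nonneg (fun φ _ => abs_nonneg (c φ))).mp hσ φ hφ
      exact abs_eq_zero.mp this
    have e : ∀ z, ∑ φ ∈ s, c φ * φ z = 0 := by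
      intro z
      exact Finset.sum_eq_zero fun φ hφ => by rw [hc0 φ hφ, zero_mul]
    have hσ' : ∑ φ ∈ s, |c φ| = 0 := hσ
    simp only [e, mul_zero, max_self, hσ']
    simp
  have hσp : 0 < σ := lt_of_le_of_ne hσ0 (Ne.symm hσ)
  let d : (G → ℝ) → ℝ := fun φ => c φ / σ
  have hd : ∑ φ ∈ s, |d φ| ≤ 1 := by
    have : ∑ φ ∈ s, |d φ| = 1 := by
      simp only [d, abs_div, abs_of_pos hσp]
      rw [← Finset.sum_div]
      exact div_self hσ
    exact this.le
  have key : av (fun z => f z * ∑ φ ∈ s, d φ * φ z) ≤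
      av (fun z => max (∑ φ ∈ s, d φ * φ z) 0) + ε := by
    set ψ : G → ℝ := fun z => ∑ φ ∈ s, d φ * φ z with hψ
    have hψ1 : ∀ z, |ψ z| ≤ 1 := by
      intro z
      refine (Finset.abs_sum_le_sum_abs _ _).trans (le_trans (Finset.sum_le_sum ?_) hd)
      intro φ hφ
      rw [abs_mul]
      exact mul_le_of_le_one_right (abs_nonneg _) (hΦ φ (hs φ hφ) z)
    have hPψ : ∀ z, |P.eval (ψ z) - max (ψ z) 0| < ε / 4 := fun z =>
      hP (ψ z) (abs_le.mp (hψ1 z))
    -- step 1
    have s1 : av (fun z => f z * ψ z) ≤ av (fun z => ν z * (P.eval (ψ z) + ε / 4)) := by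
      refine av_mono fun z => ?_
      have h1 := abs_lt.mp (hPψ z)
      have h2 : 0 ≤ max (ψ z) 0 := le_max_right _ _
      have h3 : ψ z ≤ max (ψ z) 0 := le_max_left _ _
      calc f z * ψ z ≤ f z * max (ψ z) 0 := mul_le_mul_of_nonneg_left h3 (hf z).1
        _ ≤ ν z * max (ψ z) 0 := mul_le_mul_of_nonneg_right (hf z).2 h2
        _ ≤ ν z * (P.eval (ψ z) + ε / 4) :=
          mul_le_mul_of_nonneg_left (by linarith) ((hf z).1.trans (hf z).2)
    -- step 2
    have s2 : av (fun z => ν z * (P.eval (ψ z) + ε / 4)) =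
        av (fun z => (ν z - 1) * P.eval (ψ z)) + av (fun z => P.eval (ψ z)) +
          (ε / 4) * (av (fun z => ν z - 1) + 1) := by
      have : (fun z => ν z * (P.eval (ψ z) + ε / 4)) = fun z =>
          ((ν z - 1) * P.eval (ψ z) + P.eval (ψ z)) + (ε / 4) * ((ν z - 1) + 1) := by
        funext z; ring
      rw [this, av_add, av_add, av_smul, av_add, av_const]
    have s3 : |av (fun z => ν z - 1)| ≤ δ := by
      have := H [] (by simp) (by simp)
      simpa using this
    have s4 : |av (fun z => (ν z - 1) * P.eval (ψ z))| ≤ A * δ := by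
      have e : (fun z => (ν z - 1) * P.eval (ψ z)) = fun z =>
          ∑ n ∈ range (P.natDegree + 1), P.coeff n * ((ν z - 1) * ψ z ^ n) := by
        funext z
        rw [Polynomial.eval_eq_sum_range, Finset.mul_sum]
        exact Finset.sum_congr rfl fun n _ => by ring
      rw [e, av_sum]
      refine (Finset.abs_sum_le_sum_abs _ _).trans ?_
      simp only [A]
      rw [Finset.sum_mul]
      refine Finset.sum_le_sum fun n hn => ?_
      rw [av_smul, abs_mul]
      refine mul_le_mul_of_nonneg_left ?_ (abs_nonneg _)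
      have := pow_bound Φ (fun z => ν z - 1) P.natDegree δ hδ0.le H s hs d hd n [] (by simp)
        (by simp only [List.length_nil]; have := mem_range.mp hn; omega)
      simpa using this
    have s5 : av (fun z => P.eval (ψ z)) ≤ av (fun z => max (ψ z) 0) + ε / 4 := by
      have : av (fun z => P.eval (ψ z)) ≤ av (fun z => max (ψ z) 0 + ε / 4) :=
        av_mono fun z => by have := abs_lt.mp (hPψ z); linarith
      rw [av_add, av_const] at this
      exact this
    have s6 := (abs_le.mp s3).2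
    have s7 := (abs_le.mp s4).2
    have s8 : (ε / 4) * (av (fun z => ν z - 1) + 1) ≤ (ε / 4) * 2 :=
      mul_le_mul_of_nonneg_left (by linarith) (by positivity)
    linarith
  -- back to c
  have e1 : ∀ z, ∑ φ ∈ s, c φ * φ z = σ * ∑ φ ∈ s, d φ * φ z := by
    intro z
    rw [Finset.mul_sum]
    refine Finset.sum_congr rfl fun φ _ => ?_
    simp only [d]
    field_simp
  have e2 : av (fun z => f z * ∑ φ ∈ s, c φ * φ z) = σ * av (fun z => f z * ∑ φ ∈ s, d φ * φ z) := by
    rw [← av_smul]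
    congr 1; funext z
    rw [e1 z]; ring
  have e3 : av (fun z => max (∑ φ ∈ s, c φ * φ z) 0) =
      σ * av (fun z => max (∑ φ ∈ s, d φ * φ z) 0) := by
    rw [← av_smul]
    congr 1; funext z
    rw [e1 z, mul_max_of_nonneg _ _ hσ0, mul_zero]
  rw [e2, e3]
  have e4 : ∑ φ ∈ s, |c φ| = σ := rfl
  rw [e4]
  nlinarith

end

end Pool.CG
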