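import Pool.Agent.Lib.MP_c77da8_nt.CG.Test

/-!
# CG-TestB: products of test functions (paper 1.9 (b))

PROOF of `test_prod_aux`.  Induction on `n`.  `n = 0`: the hypothesis `h`.  `n + 1`: write the factor `φ_0 = phiU u'`,
`phiU u' (psi 0 x) = |G| av_v [psi 0 v = 0] ∏_{i≠0} u'_i(x+v)` (`phiU_psi`), exchange the averages (`av_comm`):
the average is `|G| av_v [psi 0 v = 0] (av_x F(psi 0 x) ∏_{i≠0} (u_i(x) u'_i(x+v)) ∏_{l ≥ 1} φ_l(psi 0 x))`, the inner average is
`≤ τ` in absolute value by the induction hypothesis (`Good (fun i x => u i x * u' i (x + v))`: `Ind i` as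
`update x i w + v = update (x+v) i (w + v i)`), and `|G| av_v [psi 0 v = 0] = 1` (`psi_equi`).
PROOF of `test_prod`.  `n = 0`: `h` for `u = 1` and `av_phiU`, `phiU 1 = 1` (`psi_equi`), i.e. `av_z F z = av_x F(psi 0 x)`.
In general `av_z F(z) ∏_l φ_l(z) = av_x F(psi 0 x) ∏_l φ_l(psi 0 x)` (`av_phiU` with `u = 1` for the function
`F ∏ φ_l`), then `test_prod_aux` with `u = 1`.
-/

set_option autoImplicit false

namespace Pool.CG

open Finset

variable {G : Type} [AddCommGroup G] [Fintype G] [DecidableEq G] {k : ℕ}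

theorem test_prod_aux (F : G → ℝ) (τ : ℝ)
    (h : ∀ u : Fin (k + 2) → (Fin (k + 2) → G) → ℝ, Good u →
      |av (fun x : Fin (k + 2) → G => F (psi 0 x) * ∏ i ∈ univ.erase 0, u i x)| ≤ τ)
    (n : ℕ) (φ : Fin n → G → ℝ) (hφ : ∀ i, φ i ∈ TestF G k)
    (u : Fin (k + 2) → (Fin (k + 2) → G) → ℝ) (hu : Good u) :
    |av (fun x : Fin (k + 2) → G => F (psi 0 x) * (∏ i ∈ univ.erase 0, u i x) * ∏ l, φ l (psi 0 x))| ≤ τ := by
  induction n generalizing u with
  | zero =>
    have e : av (fun x : Fin (k + 2) → G => F (psi 0 x) * (∏ i ∈ univ.erase 0, u i x) * ∏ l, φ l (psi 0 x)) =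
        av (fun x : Fin (k + 2) → G => F (psi 0 x) * ∏ i ∈ univ.erase 0, u i x) := by
      refine av_congr fun x => ?_
      rw [Fin.prod_univ_zero, mul_one]
    rw [e]
    exact h u hu
  | succ n ih =>
    obtain ⟨u', hu', e0⟩ := hφ 0
    have hG : ∀ v : Fin (k + 2) → G, Good (fun i x => u i x * u' i (x + v)) := by
      intro v
      refine ⟨fun i x => ⟨mul_nonneg (hu.1 i x).1 (hu'.1 i (x + v)).1, ?_⟩, fun i x w => ?_⟩
      · exact mul_le_one₀ (hu.1 i x).2 (hu'.1 i (x + v)).1 (hu'.1 i (x + v)).2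
      · show u i (Function.update x i w) * u' i (Function.update x i w + v) = u i x * u' i (x + v)
        have e1 : Function.update x i w + v = Function.update (x + v) i (w + v i) := by
          funext l
          by_cases hl : l = i
          · subst hl
            simp
          · simp [Function.update_of_ne hl]
        rw [e1, hu.2 i x w, hu'.2 i (x + v) (w + v i)]
    have key : av (fun x : Fin (k + 2) → G => F (psi 0 x) * (∏ i ∈ univ.erase 0, u i x) *
        ∏ l, φ l (psi 0 x)) = (Fintype.card G : ℝ) * av (fun v : Fin (k + 2) → G =>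
          if psi 0 v = 0 then av (fun x : Fin (k + 2) → G => F (psi 0 x) *
            (∏ i ∈ univ.erase 0, (u i x * u' i (x + v))) * ∏ l : Fin n, φ l.succ (psi 0 x)) else 0) := by
      have e2 : ∀ x : Fin (k + 2) → G, F (psi 0 x) * (∏ i ∈ univ.erase 0, u i x) *
          ∏ l, φ l (psi 0 x) = (Fintype.card G : ℝ) * av (fun v : Fin (k + 2) → G =>
            if psi 0 v = 0 then F (psi 0 x) *
              (∏ i ∈ univ.erase 0, (u i x * u' i (x + v))) * ∏ l : Fin n, φ l.succ (psi 0 x) else 0) := by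
        intro x
        rw [Fin.prod_univ_succ, e0, phiU_psi]
        have e3 : ∀ v : Fin (k + 2) → G, (if psi 0 v = 0 then F (psi 0 x) *
              (∏ i ∈ univ.erase 0, (u i x * u' i (x + v))) * ∏ l : Fin n, φ l.succ (psi 0 x) else 0) =
            (F (psi 0 x) * (∏ i ∈ univ.erase 0, u i x) * ∏ l : Fin n, φ l.succ (psi 0 x)) *
              (if psi 0 v = 0 then ∏ i ∈ univ.erase 0, u' i (x + v) else 0) := by
          intro v
          split_ifs
          · rw [Finset.prod_mul_distrib]
            ring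
          · rw [mul_zero]
        rw [av_congr e3, av_const_mul]
        ring
      rw [av_congr e2, av_const_mul, av_comm]
      congr 1
      refine av_congr fun v => ?_
      split_ifs
      · rfl
      · exact av_zero
    rw [key, abs_mul, Nat.abs_cast]
    have h1 : |av (fun v : Fin (k + 2) → G =>
          if psi 0 v = 0 then av (fun x : Fin (k + 2) → G => F (psi 0 x) *
            (∏ i ∈ univ.erase 0, (u i x * u' i (x + v))) * ∏ l : Fin n, φ l.succ (psi 0 x)) else 0)| ≤
        av (fun v : Fin (k + 2) → G => τ * (if psi 0 v = 0 then (1 : ℝ) else 0)) := by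
      refine abs_av_le_of fun v => ?_
      split_ifs
      · rw [mul_one]
        exact ih (fun l => φ l.succ) (fun l => hφ l.succ) (fun i x => u i x * u' i (x + v)) (hG v)
      · rw [mul_zero, abs_zero]
    calc (Fintype.card G : ℝ) * _ ≤ (Fintype.card G : ℝ) *
          av (fun v : Fin (k + 2) → G => τ * (if psi 0 v = 0 then (1 : ℝ) else 0)) :=
          mul_le_mul_of_nonneg_left h1 (Nat.cast_nonneg _)
      _ = τ * ((Fintype.card G : ℝ) *
          av (fun v : Fin (k + 2) → G => if psi 0 v = 0 then (1 : ℝ) else 0)) := by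
          rw [av_const_mul]
          ring
      _ = τ := by rw [psi_equi, mul_one]

theorem test_prod (F : G → ℝ) (τ : ℝ)
    (h : ∀ u : Fin (k + 2) → (Fin (k + 2) → G) → ℝ, Good u →
      |av (fun x : Fin (k + 2) → G => F (psi 0 x) * ∏ i ∈ univ.erase 0, u i x)| ≤ τ)
    (n : ℕ) (φ : Fin n → G → ℝ) (hφ : ∀ i, φ i ∈ TestF G k) :
    |av (fun z => F z * ∏ i, φ i z)| ≤ τ := by
  have hone : Good (fun (_ : Fin (k + 2)) (_ : Fin (k + 2) → G) => (1 : ℝ)) :=
    ⟨fun _ _ => ⟨zero_le_one, le_refl _⟩, fun i => Ind.const i 1⟩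
  have hphi : ∀ z : G, phiU (fun (_ : Fin (k + 2)) (_ : Fin (k + 2) → G) => (1 : ℝ)) z = 1 := by
    intro z
    refine Eq.trans ?_ (psi_equi (k := k) z)
    unfold phiU
    congr 1
    refine av_congr fun x => ?_
    have e' : ∏ i ∈ univ.erase (0 : Fin (k + 2)),
        (fun (_ : Fin (k + 2)) (_ : Fin (k + 2) → G) => (1 : ℝ)) i x = 1 := Finset.prod_const_one
    rw [e']
  have e1 := av_phiU (k := k) (fun z => F z * ∏ i, φ i z)
    (fun (_ : Fin (k + 2)) (_ : Fin (k + 2) → G) => (1 : ℝ))
  have e2 : av (fun z => F z * ∏ i, φ i z) = av (fun x : Fin (k + 2) → G => F (psi 0 x) *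
      (∏ i ∈ univ.erase (0 : Fin (k + 2)), (fun (_ : Fin (k + 2)) (_ : Fin (k + 2) → G) => (1 : ℝ)) i x) *
      ∏ l, φ l (psi 0 x)) := by
    calc av (fun z => F z * ∏ i, φ i z) = av (fun z => (fun z => F z * ∏ i, φ i z) z *
          phiU (fun (_ : Fin (k + 2)) (_ : Fin (k + 2) → G) => (1 : ℝ)) z) := by
          refine av_congr fun z => ?_
          rw [hphi, mul_one]
      _ = _ := by
          rw [e1]
          refine av_congr fun x => ?_
          ring
  rw [e2]
  exact test_prod_aux F τ h n φ hφ _ hone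

end Pool.CG
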