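import Pool.Agent.Lib.MP_c77da8_nt.CG.Test

/-!
# CG-TestC: from `psi 0` to `psi j` (paper 1.9 (c))

PROOF.  `σ = Equiv.swap 0 j`.  For `i ≠ j`: `i - j` and `σ i ≠ 0` are integers of absolute value between 1 and `k + 1`, so
multiplication by them is bijective on `G` (negative: compose with `-1`; `Equiv.ofBijective`).  Let `e_i : G ≃ G` be
`g ↦ ((i-j) •)^{-1} ((σ i) • g)` for `i ≠ j` and the identity for `i = j`.  The map `T : y ↦ (fun i => e_i (y (σ i)))` is a
bijection of `Fin (k+2) → G`, and `psi j (T y) = ∑_{i≠j} (i-j) • e_i(y(σ i)) = ∑_{i≠j} (σ i) • y(σ i) = ∑_{l≠0} l • y l = psi 0 y`.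
For `u` allowed (in `Cut j`): `av_x F(psi j x) ∏_{i≠j} u_i(x) = av_y F(psi 0 y) ∏_{i≠j} u_i(T y)` (`av_equiv`)
`= av_y F(psi 0 y) ∏_{l≠0} u_{σ l}(T y)` (`i = σ l`, `Finset.prod_bij`/`Equiv`), and `y ↦ u_{σ l}(T y)` does not depend on
`y l` (`T (update y l v) = update (T y) (σ l) _`).  So it is `≤ τ` by `h` (`Good`).
-/

set_option autoImplicit false

namespace Pool.CG

open Finset

variable {G : Type} [AddCommGroup G] [Fintype G] [DecidableEq G] {k : ℕ}

omit [Fintype G] [DecidableEq G] in
private theorem zsmul_bij (hG : ∀ i : ℕ, 1 ≤ i → i ≤ k + 1 → Function.Bijective (fun x : G => i • x)) (z : ℤ)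
    (hz : z ≠ 0) (hz2 : z.natAbs ≤ k + 1) : Function.Bijective (fun x : G => z • x) := by
  have h1 := hG z.natAbs (Int.natAbs_pos.2 hz) hz2
  rcases Int.natAbs_eq z with h | h
  · have h2 : (fun x : G => z • x) = fun x : G => z.natAbs • x := by
      funext x
      conv_lhs => rw [h]
      rw [natCast_zsmul]
    rw [h2]
    exact h1
  · have h2 : (fun x : G => z • x) = (fun x : G => -x) ∘ fun x : G => z.natAbs • x := by
      funext x
      simp only [Function.comp]
      conv_lhs => rw [h]
      rw [neg_smul, natCast_zsmul]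
    rw [h2]
    exact (Equiv.neg G).bijective.comp h1

theorem transfer (hG : ∀ i : ℕ, 1 ≤ i → i ≤ k + 1 → Function.Bijective (fun x : G => i • x)) (F : G → ℝ) (τ : ℝ)
    (h : ∀ u : Fin (k + 2) → (Fin (k + 2) → G) → ℝ, Good u →
      |av (fun x : Fin (k + 2) → G => F (psi 0 x) * ∏ i ∈ univ.erase 0, u i x)| ≤ τ) (j : Fin (k + 2)) :
    Cut j (fun x : Fin (k + 2) → G => F (psi j x)) τ := by
  intro u hu hi
  set σ : Equiv.Perm (Fin (k + 2)) := Equiv.swap 0 j with hσ
  have hσσ : ∀ i, σ (σ i) = i := fun i => Equiv.swap_apply_self 0 j i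
  have hσj : σ j = 0 := Equiv.swap_apply_right 0 j
  have hσ0 : ∀ i, σ i = 0 ↔ i = j := by
    intro i
    constructor
    · intro h0
      rw [← hσσ i, h0, hσ, Equiv.swap_apply_left]
    · intro h0
      rw [h0, hσj]
  have hex : ∀ i : Fin (k + 2), ∃ e : G ≃ G, ∀ g : G,
      (((i : ℕ) : ℤ) - ((j : ℕ) : ℤ)) • e g = (((σ i : Fin (k + 2)) : ℕ) : ℤ) • g := by
    intro i
    by_cases hij : i = j
    · refine ⟨Equiv.refl G, fun g => ?_⟩
      rw [hij, hσj]
      simp
    · have hijn : (i : ℕ) ≠ (j : ℕ) := fun h0 => hij (Fin.ext h0)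
      have h1 : Function.Bijective (fun x : G => (((i : ℕ) : ℤ) - ((j : ℕ) : ℤ)) • x) := by
        refine zsmul_bij hG _ ?_ ?_
        · omega
        · have := i.isLt
          have := j.isLt
          omega
      have h2 : Function.Bijective (fun x : G => (((σ i : Fin (k + 2)) : ℕ) : ℤ) • x) := by
        refine zsmul_bij hG _ ?_ ?_
        · intro h0
          apply hij
          rw [← hσ0]
          apply Fin.ext
          rw [Fin.val_zero]
          exact_mod_cast h0
        · have := (σ i).isLt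
          omega
      refine ⟨(Equiv.ofBijective _ h2).trans (Equiv.ofBijective _ h1).symm, fun g => ?_⟩
      exact Equiv.apply_symm_apply (Equiv.ofBijective _ h1) _
  choose e he using hex
  let T : (Fin (k + 2) → G) ≃ (Fin (k + 2) → G) :=
    { toFun := fun y i => e i (y (σ i))
      invFun := fun x l => (e (σ l)).symm (x (σ l))
      left_inv := fun y => by
        funext l
        simp only [Equiv.symm_apply_apply, hσσ]
      right_inv := fun x => by
        funext l
        simp only [hσσ, Equiv.apply_symm_apply] }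
  have hT : ∀ y i, T y i = e i (y (σ i)) := fun y i => rfl
  have hpsi : ∀ y, psi j (T y) = psi 0 y := by
    intro y
    unfold psi
    rw [← Equiv.sum_comp σ (fun l : Fin (k + 2) => (((l : ℕ) : ℤ) - (((0 : Fin (k + 2)) : ℕ) : ℤ)) • y l)]
    refine sum_congr rfl fun i _ => ?_
    rw [hT, he, Fin.val_zero, Nat.cast_zero, sub_zero]
  rw [← av_equiv T (fun x => F (psi j x) * ∏ i ∈ univ.erase j, u i x)]
  have h1 : av (fun y => F (psi j (T y)) * ∏ i ∈ univ.erase j, u i (T y)) =
      av (fun y => F (psi 0 y) * ∏ l ∈ univ.erase 0, u (σ l) (T y)) := by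
    refine av_congr fun y => ?_
    rw [hpsi]
    congr 1
    refine Finset.prod_equiv σ (fun i => ?_) (fun i _ => ?_)
    · simp only [mem_erase, mem_univ, and_true, ne_eq, hσ0]
    · rw [hσσ]
  rw [h1]
  refine h (fun l y => u (σ l) (T y)) ⟨fun l y => hu _ _, fun l => ?_⟩
  intro y v
  have h2 : T (Function.update y l v) = Function.update (T y) (σ l) (e (σ l) v) := by
    funext i
    rw [hT]
    by_cases hil : i = σ l
    · subst hil
      rw [Function.update_self, hσσ, Function.update_self]
    · rw [Function.update_of_ne hil, hT, Function.update_of_ne]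
      intro h0
      apply hil
      rw [← h0, hσσ]
  show u (σ l) (T (Function.update y l v)) = u (σ l) (T y)
  rw [h2]
  exact hi (σ l) (T y) _

end Pool.CG
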