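import Pool.Agent.Lib.MP_c77da8_nt.CG.Count
import Pool.Agent.Lib.MP_c77da8_nt.CG.Dm
import Pool.Agent.Lib.MP_c77da8_nt.CG.TestB
import Pool.Agent.Lib.MP_c77da8_nt.CG.TestC
import Pool.Agent.Lib.MP_c77da8_nt.CG.Dense

/-!
# CG-RS: the relative Szemerédi theorem (Conlon-Fox-Zhao), assembly (paper 1.11)
-/

set_option autoImplicit false

namespace Pool.CG

open Finset

/-- generalised von Neumann inequality for `ν - 1` (paper 1.9 (a)) -/
theorem gvn (k : ℕ) (τ : ℝ) (hτ : 0 < τ) : ∃ η : ℝ, 0 < η ∧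
    ∀ (G : Type) [AddCommGroup G] [Fintype G] [DecidableEq G] (ν : G → ℝ), (∀ x, 0 ≤ ν x) →
      LF η (fun (j : Fin (k + 2)) (x : Fin (k + 2) → G) => ν (psi j x)) →
      ∀ u : Fin (k + 2) → (Fin (k + 2) → G) → ℝ, Good u →
        |av (fun x : Fin (k + 2) → G => (ν (psi 0 x) - 1) * ∏ i ∈ univ.erase 0, u i x)| ≤ τ := by
  obtain ⟨η, hη, H⟩ := strong (Fin (k + 2)) τ hτ
  refine ⟨η, hη, ?_⟩
  intro G _ _ _ ν hν hLF u hu
  have h := H G (fun j x => ν (psi j x)) (fun j x => hν _) (fun j => psi_ind j ν) hLF 0 ∅ ∅ u (fun _ _ => 1)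
    hu.2 (fun i => Ind.const i 1) (fun i x => by
      unfold nuA
      rw [if_neg (Finset.notMem_empty i), abs_of_nonneg (hu.1 i x).1]
      exact (hu.1 i x).2) (fun i x => by
      unfold nuA
      rw [if_neg (Finset.notMem_empty i)]
      simp)
  simp only [mul_one] at h
  rwa [av_fst (Ω' := G) (fun x : Fin (k + 2) → G => (ν (psi 0 x) - 1) * ∏ i ∈ univ.erase 0, u i x)] at h

/-- **Relative Szemerédi theorem.** -/
theorem relative_szemeredi (k : ℕ) (d : ℝ) (hd : 0 < d) : ∃ (L : ℕ) (η c : ℝ), 0 < η ∧ 0 < c ∧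
    ∀ (G : Type) [AddCommGroup G] [Fintype G] [DecidableEq G],
      (∀ i : ℕ, 1 ≤ i → i ≤ L → Function.Bijective (fun x : G => i • x)) →
      ∀ ν f : G → ℝ, (∀ x, 0 ≤ ν x) →
      LF η (fun (j : Fin (k + 2)) (x : Fin (k + 2) → G) => ν (psi j x)) →
      (∀ x, 0 ≤ f x ∧ f x ≤ ν x) → d ≤ av f →
      c ≤ av (fun x : Fin (k + 2) → G => ∏ j, f (psi j x)) := by
  obtain ⟨L₀, c₀, hc₀, hdense⟩ := dense_psi k (d / 2) (by linarith)
  obtain ⟨η₁, ε₁, hη₁, hε₁, hcount⟩ := count (Fin (k + 2)) (k + 2) (c₀ / 2) (by linarith)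
  obtain ⟨m, ε₂, hε₂, hdm⟩ := dm_b (min ε₁ (d / 2)) (lt_min hε₁ (by linarith))
  obtain ⟨η₂, hη₂, hgvn⟩ := gvn k ε₂ hε₂
  refine ⟨max L₀ (k + 1), min η₁ η₂, c₀ / 2, lt_min hη₁ hη₂, by linarith, ?_⟩
  intro G _ _ _ hG ν f hν hLF hf hdf
  have : Nonempty G := ⟨0⟩
  -- the dense model
  obtain ⟨g, hg, hg'⟩ := hdm G ν f (TestF G k) hf
    (by
      rintro φ ⟨u, hu, rfl⟩ x
      rw [abs_of_nonneg (phiU_nonneg hu x)]
      exact phiU_le_one hu x)
    (by
      intro l hl _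
      have h := test_prod (fun x => ν x - 1) ε₂
        (fun u hu => hgvn G ν hν (hLF.mono (min_le_right _ _)) u hu) l.length (fun i => l[i.1])
        (fun i => hl _ (List.getElem_mem _))
      have e : ∀ z, (l.map fun φ => φ z).prod = ∏ i : Fin l.length, (l[i.1]) z := fun z =>
        (Fin.prod_univ_fun_getElem l fun φ => φ z).symm
      simp only [e]
      exact h)
  -- the cut norm
  have hcut0 : ∀ u : Fin (k + 2) → (Fin (k + 2) → G) → ℝ, Good u →
      |av (fun x : Fin (k + 2) → G => (fun z => f z - g z) (psi 0 x) * ∏ i ∈ univ.erase 0, u i x)| ≤ ε₁ := by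
    intro u hu
    rw [← av_phiU (fun z => f z - g z) u]
    exact (hg' _ ⟨u, hu, rfl⟩).trans (min_le_left _ _)
  have hcut : ∀ j : Fin (k + 2), Cut j (fun x : Fin (k + 2) → G => f (psi j x) - g (psi j x)) ε₁ := fun j =>
    transfer (fun i h1 h2 => hG i h1 (h2.trans (le_max_right _ _))) (fun z => f z - g z) ε₁ hcut0 j
  have h1 := hcount G (fun j x => ν (psi j x)) (fun j x => f (psi j x)) (fun j x => g (psi j x)) univ
    (by simp) (fun j x => hν _) (fun j => psi_ind j ν) (hLF.mono (min_le_left _ _)) (fun j => psi_ind j f)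
    (fun j => psi_ind j g) (fun j x => (hf _).1) (fun j x => by
      unfold nuA
      rw [if_pos (mem_univ j)]
      exact (hf _).2) (fun j x => hg _) hcut
  -- the density of the model
  have h2 : |av (fun x => (f x - g x) * (1 : ℝ))| ≤ d / 2 := (hg' _ one_mem).trans (min_le_right _ _)
  simp only [mul_one] at h2
  rw [av_sub] at h2
  have h3 : d / 2 ≤ av g := by
    have := (abs_le.mp h2).2
    linarith
  have h4 := hdense G (fun i h1 h2 => hG i h1 (h2.trans (le_max_left _ _))) g hg h3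
  have h5 := (abs_le.mp h1).1
  linarith

end Pool.CG
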