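import Pool.Agent.Lib.MP_c77da8_nt.CG.As4
import Pool.Agent.Lib.MP_c77da8_nt.CG.As5
import Pool.Agent.Lib.MP_c77da8_nt.CG.RS

/-!
# CG-N-As6: the final theorem

`κ = min ε (1/100) / 4`; `t = tk k`; `r` with `9^t + t + 1 ≤ κ (r + 1)`; the theorem is for `r + 1` primes and `k + 2 ≥ k` terms.
`relative_szemeredi k (del r t / 2)` gives `L, η, c`; `good` with `η`, `c/2` gives `w`, `N0`. `W = Wp w ≥ 1`.
Given `N` large, `N' = ⌊N/(2W)⌋`, `M` a prime with `(log N')^κ ≤ M ≤ 3 (log N')^κ` (Bertrand, `Nat.exists_prime_lt_and_le_two_mul` with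
`⌈(log N')^κ⌉`). For a good `n` (`N' ≤ n < 2N'`): `relative_szemeredi` for `G = Fin (r+2) → ZMod M` (multiplication by `1 ≤ i ≤ L < M` is
bijective) gives `c ≤ av ∏_j fw(psi j x)`; the part `(∑ x_i) 0 = 0` is `≤ ap0 ≤ c/2` (`0 ≤ fw ≤ nu`), so there is `x` with
`(∑ x_i) 0 ≠ 0` and `fw(psi j x) ≠ 0` for all `j`. `extract` gives `b, c ≤ M^2 ≤ 9 (log N')^(2κ) ≤ (log N)^ε`. The number `W n ≤ N`
has the property; `n ↦ W n` is injective; `(del^2/32) N' ≥ (del^2/(128 W)) N`.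
-/

set_option autoImplicit false

namespace Pool.CG

open Finset Filter

private lemma As6_tendsto (κ : ℝ) (hκ : 0 < κ) :
    Tendsto (fun N : ℕ => Real.log (N : ℝ) ^ κ) atTop atTop :=
  (tendsto_rpow_atTop hκ).comp (Real.tendsto_log_atTop.comp (tendsto_natCast_atTop_atTop (R := ℝ)))

private lemma As6_M (κ : ℝ) (hκ : 0 < κ) (L : ℕ) : ∃ N1 : ℕ, ∀ N ≥ N1, ∃ M : ℕ, M.Prime ∧
    Real.log (N : ℝ) ^ κ ≤ M ∧ (M : ℝ) ≤ 3 * Real.log (N : ℝ) ^ κ ∧ L < M := by
  obtain ⟨N1, hN1⟩ := eventually_atTop.1 ((As6_tendsto κ hκ).eventually_ge_atTop ((L : ℝ) + 2))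
  refine ⟨N1, fun N hN => ?_⟩
  have h1 := hN1 N hN
  set u : ℝ := Real.log (N : ℝ) ^ κ with hu
  have hL0 : (0 : ℝ) ≤ L := Nat.cast_nonneg L
  have hn0 : ⌈u⌉₊ ≠ 0 := by
    have : 0 < ⌈u⌉₊ := Nat.ceil_pos.2 (by linarith)
    omega
  obtain ⟨p, hp, hp1, hp2⟩ := Nat.exists_prime_lt_and_le_two_mul ⌈u⌉₊ hn0
  have h2 : u ≤ ⌈u⌉₊ := Nat.le_ceil u
  have h3 : (⌈u⌉₊ : ℝ) < u + 1 := Nat.ceil_lt_add_one (by linarith)
  have h4 : (⌈u⌉₊ : ℝ) < p := by exact_mod_cast hp1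
  have h5 : (p : ℝ) ≤ 2 * ⌈u⌉₊ := by exact_mod_cast hp2
  refine ⟨p, hp, by linarith, by linarith, ?_⟩
  have : (L : ℝ) < p := by linarith
  exact_mod_cast this

/-- multiplication by `i` prime to `M` -/
private lemma As6_bij {r M : ℕ} (hM : M.Prime) (i : ℕ) (h1 : 1 ≤ i) (h2 : i < M) :
    Function.Bijective (fun x : Fin (r + 2) → ZMod M => i • x) := by
  haveI := Fact.mk hM
  have hne : (i : ZMod M) ≠ 0 := by
    intro h
    rw [ZMod.natCast_eq_zero_iff] at h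
    exact absurd (Nat.le_of_dvd (by omega) h) (by omega)
  constructor
  · intro x y hxy
    funext a
    have h := congrFun hxy a
    simp only [Pi.smul_apply, nsmul_eq_mul] at h
    exact mul_left_cancel₀ hne h
  · intro y
    refine ⟨fun a => (i : ZMod M)⁻¹ * y a, ?_⟩
    funext a
    simp only [Pi.smul_apply, nsmul_eq_mul]
    rw [← mul_assoc, mul_inv_cancel₀ hne, one_mul]

/-- from the weighted count of the progressions to a progression with `d_0 ≠ 0` -/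
private lemma As6_point {r k M : ℕ} [NeZero M] (q : Fin (r + 1) → ℕ) (w R n : ℕ) (c : ℝ) (hc : 0 < c)
    (hf : ∀ z : Fin (r + 2) → ZMod M, 0 ≤ fw q M w R n z ∧ fw q M w R n z ≤ nu q M w R n z)
    (h0 : ap0 k q M w R n ≤ c / 2)
    (h : c ≤ av (fun x : Fin (k + 2) → (Fin (r + 2) → ZMod M) => ∏ j, fw q M w R n (psi j x))) :
    ∃ x : Fin (k + 2) → (Fin (r + 2) → ZMod M), (∀ j, fw q M w R n (psi j x) ≠ 0) ∧ (∑ i, x i) 0 ≠ 0 := by
  by_contra hne
  push Not at hne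
  have hle : av (fun x : Fin (k + 2) → (Fin (r + 2) → ZMod M) => ∏ j, fw q M w R n (psi j x)) ≤
      ap0 k q M w R n := by
    unfold ap0 av
    apply div_le_div_of_nonneg_right _ (Nat.cast_nonneg _)
    apply Finset.sum_le_sum
    intro x _
    by_cases hx : ∀ j, fw q M w R n (psi j x) ≠ 0
    · rw [if_pos (hne x hx)]
      exact Finset.prod_le_prod (fun j _ => (hf _).1) (fun j _ => (hf _).2)
    · push Not at hx
      obtain ⟨j, hj⟩ := hx
      rw [Finset.prod_eq_zero (mem_univ j) hj]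
      split_ifs
      · exact Finset.prod_nonneg fun j _ => le_trans (hf _).1 (hf _).2
      · exact le_rfl
  linarith

open Classical in
theorem geometric_progressions (k : ℕ) (ε : ℝ) (hε : 0 < ε) : ∃ r : ℕ, ∀ q : Fin r → ℕ,
    (∀ i, (q i).Prime) → Function.Injective q → ∃ c : ℝ, 0 < c ∧ ∃ N0 : ℕ, ∀ N ≥ N0,
      c * N ≤ (((Icc 1 N).filter fun n => ∃ b e : Fin r → ℕ,
        (∀ i, 1 ≤ e i ∧ (e i : ℝ) ≤ Real.log N ^ ε ∧ (b i : ℝ) ≤ Real.log N ^ ε) ∧
        ∀ j < k, (n * (∏ i, q i ^ b i) * (∏ i, q i ^ e i) ^ j - 1).Prime).card : ℝ) := by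
  obtain ⟨κ, hκdef⟩ : ∃ κ : ℝ, κ = min ε (1 / 100) / 4 := ⟨_, rfl⟩
  have hmin : 0 < min ε (1 / 100) := lt_min hε (by norm_num)
  have hκ : 0 < κ := by rw [hκdef]; linarith
  have hκ2 : 2 * κ < 1 / 100 := by
    rw [hκdef]
    have := min_le_right ε (1 / 100 : ℝ)
    linarith
  have hκε : 2 * κ ≤ ε / 2 := by
    rw [hκdef]
    have := min_le_left ε (1 / 100 : ℝ)
    linarith
  obtain ⟨r, hr⟩ : ∃ r : ℕ, (9 : ℝ) ^ tk k + tk k + 1 ≤ κ * (r + 1) := by
    obtain ⟨r, hr⟩ := exists_nat_ge (((9 : ℝ) ^ tk k + tk k + 1) / κ)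
    refine ⟨r, ?_⟩
    rw [div_le_iff₀ hκ] at hr
    nlinarith
  refine ⟨r + 1, fun q hq hinj => ?_⟩
  have htk : 0 < tk k := by unfold tk; positivity
  have hdel : 0 < del r (tk k) := by
    have : (0 : ℝ) < tk k := by exact_mod_cast htk
    unfold del
    positivity
  obtain ⟨L, η, c, hη, hc, hRS⟩ := relative_szemeredi k (del r (tk k) / 2) (by linarith)
  obtain ⟨w, N0, hgood⟩ := good k κ hκ hκ2 hr q hq hinj η (c / 2) hη (by linarith)
  obtain ⟨N1, hM1⟩ := As6_M κ hκ (L + 1)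
  obtain ⟨W, hWdef⟩ : ∃ W : ℕ, W = Wp w := ⟨_, rfl⟩
  have hW : 1 ≤ W := by
    rw [hWdef]
    unfold Wp
    exact Nat.one_le_iff_ne_zero.2 (Finset.prod_ne_zero_iff.2 fun p hp => (mem_filter.1 hp).2.ne_zero)
  have hWr : (1 : ℝ) ≤ W := by exact_mod_cast hW
  obtain ⟨N2, hN2⟩ := eventually_atTop.1 ((As6_tendsto (ε / 2) (by linarith)).eventually_ge_atTop 9)
  refine ⟨del r (tk k) ^ 2 / 32 / (4 * W), by positivity,
    max (max N2 3) (2 * W * (max N0 N1 + 2)), fun N hN => ?_⟩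
  have hNa : N2 ≤ N := le_trans (le_trans (le_max_left _ _) (le_max_left _ _)) hN
  have hN3 : 3 ≤ N := le_trans (le_trans (le_max_right _ _) (le_max_left _ _)) hN
  have hNb : 2 * W * (max N0 N1 + 2) ≤ N := le_trans (le_max_right _ _) hN
  have hW2 : 0 < 2 * W := by omega
  obtain ⟨N', hN'⟩ : ∃ N' : ℕ, N' = N / (2 * W) := ⟨_, rfl⟩
  have h1 : max N0 N1 + 2 ≤ N' := by
    rw [hN', Nat.le_div_iff_mul_le hW2]
    calc (max N0 N1 + 2) * (2 * W) = 2 * W * (max N0 N1 + 2) := by ring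
      _ ≤ N := hNb
  have h2 : N0 ≤ N' := by have := le_max_left N0 N1; omega
  have h3 : N1 ≤ N' := by have := le_max_right N0 N1; omega
  have h4 : W * (2 * N') ≤ N := by
    have := Nat.div_mul_le_self N (2 * W)
    rw [← hN'] at this
    calc W * (2 * N') = N' * (2 * W) := by ring
      _ ≤ N := this
  have h5 : (N : ℝ) ≤ 4 * W * N' := by
    have h6 : N < 2 * W * (N' + 1) := by
      rw [hN']
      exact Nat.lt_mul_div_succ N hW2
    have h7 : (N : ℝ) < 2 * W * (N' + 1) := by exact_mod_cast h6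
    have h8 : (1 : ℝ) ≤ N' := by
      have : 1 ≤ N' := by omega
      exact_mod_cast this
    nlinarith
  obtain ⟨M, hMp, hM2, hM3, hLM⟩ := hM1 N' h3
  haveI : NeZero M := ⟨hMp.ne_zero⟩
  have hcard := hgood N' h2 M hMp hM2 hM3
  -- bound for the exponents
  have hN1r : (1 : ℝ) ≤ N' := by
    have : 1 ≤ N' := by omega
    exact_mod_cast this
  have hN'N : (N' : ℝ) ≤ N := by
    have : N' ≤ N := by
      rw [hN']
      exact Nat.div_le_self _ _
    exact_mod_cast this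
  have hlog0 : 0 ≤ Real.log (N' : ℝ) := Real.log_nonneg hN1r
  have hlogle : Real.log (N' : ℝ) ≤ Real.log (N : ℝ) := Real.log_le_log (by linarith) hN'N
  have hlog1 : 1 ≤ Real.log (N : ℝ) := by
    have h6 : (3 : ℝ) ≤ N := by exact_mod_cast hN3
    rw [Real.le_log_iff_exp_le (by linarith)]
    have := Real.exp_one_lt_d9
    linarith
  have hexp : (M : ℝ) ^ 2 ≤ Real.log (N : ℝ) ^ ε := by
    have h9 : (M : ℝ) ^ 2 ≤ (3 * Real.log (N' : ℝ) ^ κ) ^ 2 :=
      pow_le_pow_left₀ (Nat.cast_nonneg _) hM3 2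
    have h10 : (3 * Real.log (N' : ℝ) ^ κ) ^ 2 = 9 * Real.log (N' : ℝ) ^ (2 * κ) := by
      rw [mul_pow, ← Real.rpow_natCast (Real.log (N' : ℝ) ^ κ) 2, ← Real.rpow_mul hlog0]
      norm_num
      ring_nf
    have h11 : Real.log (N' : ℝ) ^ (2 * κ) ≤ Real.log (N : ℝ) ^ (2 * κ) :=
      Real.rpow_le_rpow hlog0 hlogle (by linarith)
    have h12 : Real.log (N : ℝ) ^ (2 * κ) ≤ Real.log (N : ℝ) ^ (ε / 2) :=
      Real.rpow_le_rpow_of_exponent_le hlog1 hκε
    have h13 : (9 : ℝ) ≤ Real.log (N : ℝ) ^ (ε / 2) := hN2 N hNa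
    have h14 : Real.log (N : ℝ) ^ ε = Real.log (N : ℝ) ^ (ε / 2) * Real.log (N : ℝ) ^ (ε / 2) := by
      rw [← Real.rpow_add (by linarith)]
      congr 1
      ring
    rw [h14]
    calc (M : ℝ) ^ 2 ≤ 9 * Real.log (N' : ℝ) ^ (2 * κ) := by rw [← h10]; exact h9
      _ ≤ Real.log (N : ℝ) ^ (ε / 2) * Real.log (N : ℝ) ^ (ε / 2) := by
          apply mul_le_mul h13 (h11.trans h12) (by positivity) (by positivity)
  -- the map `n ↦ W n`
  refine le_trans (le_trans ?_ hcard) ?_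
  · rw [div_mul_eq_mul_div, div_le_iff₀ (by positivity)]
    calc del r (tk k) ^ 2 / 32 * (N : ℝ) ≤ del r (tk k) ^ 2 / 32 * (4 * W * N') := by gcongr
      _ = _ := by ring
  · norm_cast
    apply Finset.card_le_card_of_injOn (fun n => W * n)
    · intro n hn
      simp only [Finset.coe_filter, Set.mem_setOf_eq, mem_Ico] at hn
      obtain ⟨⟨hn1, hn2⟩, hLF, hav, hap, hfw⟩ := hn
      simp only [Finset.coe_filter, Set.mem_setOf_eq, mem_Icc]
      have hRS' := hRS (Fin (r + 2) → ZMod M) (fun i hi1 hi2 => As6_bij hMp i hi1 (by omega))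
        (fun z => nu q M w (Rt (tk k) N') n z) (fun z => fw q M w (Rt (tk k) N') n z)
        (fun z => le_trans (hfw z).1 (hfw z).2) hLF hfw hav
      obtain ⟨x, hx1, hx2⟩ := As6_point q w (Rt (tk k) N') n c hc hfw hap hRS'
      obtain ⟨b, e, hbe, hpr⟩ := extract hMp q w (Rt (tk k) N') n x hx1 hx2
      refine ⟨⟨?_, ?_⟩, b, e, fun i => ⟨(hbe i).2.1, ?_, ?_⟩, fun j hj => ?_⟩
      · have : 1 ≤ n := by omega
        exact Nat.mul_pos (by omega) (by omega)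
      · calc W * n ≤ W * (2 * N') := Nat.mul_le_mul_left _ (by omega)
          _ ≤ N := h4
      · refine le_trans ?_ hexp
        exact_mod_cast (hbe i).2.2
      · refine le_trans ?_ hexp
        exact_mod_cast (hbe i).1
      · have := hpr j (by omega)
        rw [hWdef]
        exact this
    · intro a _ b _ hab
      exact Nat.eq_of_mul_eq_mul_left (by omega : 0 < W) hab

end Pool.CG
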