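import Pool.Agent.Lib.MP_c77da8_nt.CG.Basic

/-!
# CG-NuPrime: the marginal `ν'` of the majorants is close to 1 in mean square (paper 1.6), and identities for `prim`

PROOF of `nu_prime`.  `(ν' - 1)² = av_y av_y' ∏_{i ∈ A - j} ν_i(x[j:=y]) ν_i(x[j:=y']) - 2 av_y ∏ ν_i(x[j:=y]) + 1`.
Average over `x`: `x[j:=y]` for independent `x, y` may be replaced by `x` (`av_update`), and `(x[j:=y], x[j:=y'])` by
`(x, x[j := x'_j]) = (mix ∅ x x', mix {j} x x')`, `x' : K → X` independent of `x`.  `LF` for the set of pairs
`{(i,∅)} ∪ {(i,{j})}` (`i ∈ A.erase j`), resp. `{(i,∅)}`: the averages are `1 + θ₁`, `1 + θ₂`, `|θ| ≤ η`; so the average is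
`≤ (1 + η) - 2(1 - η) + 1 = 3 η ≤ 4 η`.  (If `X` is empty the left side is 0.)

PROOF of `av_mul_prim`.  `a` does not depend on the coordinate `j`: `av a ∏_{i≠j} f_i = av_x av_y a(x) ∏ f_i(x[j:=y])`
(`av_update`).
PROOF of `av_mul_prim_prim`.  `av_x a(x) f'(x) g'(x) = av_x av_y av_y' a(x) ∏ f_i(x[j:=y]) ∏ g_i(x[j:=y'])`; right hand side:
replace `x_j` by an independent variable (`av_update` after `av_prod`), `(x[j:=u])[j:=y] = x[j:=y]`.
-/

set_option autoImplicit false

namespace Pool.CG

open Finset

variable {K X : Type} [Fintype K] [DecidableEq K] [Fintype X]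

private theorem np_av_mul_prim (f : K → (K → X) → ℝ) (j : K) (a : (K → X) → ℝ) (ha : Ind j a) :
    av (fun x : K → X => a x * prim f j x) = av (fun x : K → X => a x * ∏ i ∈ univ.erase j, f i x) := by
  rw [av_update j (fun x : K → X => a x * ∏ i ∈ univ.erase j, f i x)]
  refine av_congr fun x => ?_
  unfold prim
  rw [← av_const_mul]
  refine av_congr fun u => ?_
  rw [ha x u]

private theorem np_av_mul_prim_prim (f g : K → (K → X) → ℝ) (j : K) (a : (K → X) → ℝ) (ha : Ind j a) :
    av (fun x : K → X => a x * (prim f j x * prim g j x)) =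
      av (fun z : (K → X) × X => a z.1 * ∏ i ∈ univ.erase j, (f i z.1 * g i (Function.update z.1 j z.2))) := by
  have h := np_av_mul_prim f j (fun x => a x * prim g j x) (ha.mul (prim_ind g j))
  have e1 : av (fun x : K → X => a x * (prim f j x * prim g j x)) =
      av (fun x : K → X => (a x * prim g j x) * prim f j x) := av_congr fun x => by ring
  rw [e1, h, av_prod]
  refine av_congr fun x => ?_
  unfold prim
  rw [mul_assoc, ← av_mul_const, ← av_const_mul]
  refine av_congr fun y => ?_
  show _ = a x * ∏ i ∈ univ.erase j, (f i x * g i (Function.update x j y))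
  rw [prod_mul_distrib]
  ring

omit [Fintype X] in
private theorem np_prod_nuA (ν : K → (K → X) → ℝ) (A : Finset K) (j : K) (x : K → X) :
    ∏ i ∈ univ.erase j, nuA ν A i x = ∏ i ∈ A.erase j, ν i x := by
  have h1 : A.erase j ⊆ univ.erase j := erase_subset_erase j (subset_univ A)
  rw [← prod_subset h1]
  · refine prod_congr rfl fun i hi => ?_
    unfold nuA
    rw [if_pos (mem_of_mem_erase hi)]
  · intro i hi hi2
    unfold nuA
    rw [if_neg]
    intro h
    exact hi2 (mem_erase.2 ⟨(mem_erase.1 hi).1, h⟩)

theorem nu_prime (η : ℝ) (ν : K → (K → X) → ℝ) (h : LF η ν) (hInd : ∀ i, Ind i (ν i)) (j : K) (A : Finset K) :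
    av (fun x : K → X => (av (fun y : X => ∏ i ∈ A.erase j, ν i (Function.update x j y)) - 1) ^ 2) ≤ 4 * η := by
  have hη : 0 ≤ η := h.nonneg
  rcases isEmpty_or_nonempty X with hX | hX
  · have : IsEmpty (K → X) := ⟨fun x => hX.elim (x j)⟩
    have e : av (fun x : K → X =>
      (av (fun y : X => ∏ i ∈ A.erase j, ν i (Function.update x j y)) - 1) ^ 2) = 0 := by
      unfold av
      rw [univ_eq_empty, sum_empty, zero_div]
    rw [e]
    linarith
  · have : Nonempty (K → X) := ⟨fun _ => hX.some⟩
    have ep : ∀ x : K → X, av (fun y : X => ∏ i ∈ A.erase j, ν i (Function.update x j y)) =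
        prim (nuA ν A) j x := by
      intro x
      unfold prim
      exact av_congr fun y => (np_prod_nuA ν A j _).symm
    have e0 : av (fun x : K → X =>
        (av (fun y : X => ∏ i ∈ A.erase j, ν i (Function.update x j y)) - 1) ^ 2) =
        av (fun x : K → X => prim (nuA ν A) j x * prim (nuA ν A) j x) -
          2 * av (fun x : K → X => prim (nuA ν A) j x) + 1 := by
      have e1 : av (fun x : K → X =>
        (av (fun y : X => ∏ i ∈ A.erase j, ν i (Function.update x j y)) - 1) ^ 2) =
        av (fun x : K → X => (prim (nuA ν A) j x * prim (nuA ν A) j x -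
          2 * prim (nuA ν A) j x) + 1) := av_congr fun x => by rw [ep x]; ring
      rw [e1, av_add (fun x : K → X => prim (nuA ν A) j x * prim (nuA ν A) j x -
          2 * prim (nuA ν A) j x) (fun _ => (1 : ℝ)), av_const,
        av_sub (fun x : K → X => prim (nuA ν A) j x * prim (nuA ν A) j x)
          (fun x => 2 * prim (nuA ν A) j x), av_const_mul]
    -- first moment
    have m1 : |av (fun x : K → X => prim (nuA ν A) j x) - 1| ≤ η := by
      have e1 : av (fun x : K → X => prim (nuA ν A) j x) =
          av (fun x : K → X => ∏ i ∈ A.erase j, ν i x) := by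
        have e2 := np_av_mul_prim (nuA ν A) j (fun _ => (1 : ℝ)) (Ind.const j 1)
        simp only [one_mul] at e2
        rw [e2]
        exact av_congr fun x => np_prod_nuA ν A j x
      have e3 := h ((A.erase j).image (fun i => (i, (∅ : Finset K)))) (by
        intro p hp
        rw [mem_image] at hp
        obtain ⟨i, _, rfl⟩ := hp
        exact notMem_empty _)
      have e4 : av (fun z : (K → X) × (K → X) =>
          ∏ p ∈ (A.erase j).image (fun i => (i, (∅ : Finset K))), ν p.1 (mix p.2 z.1 z.2)) =
          av (fun x : K → X => ∏ i ∈ A.erase j, ν i x) := by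
        rw [← av_fst (Ω' := K → X) (fun x : K → X => ∏ i ∈ A.erase j, ν i x)]
        refine av_congr fun z => ?_
        rw [prod_image (fun a _ b _ hab => congrArg Prod.fst hab)]
        exact prod_congr rfl fun i _ => by rw [mix_empty]
      rw [e4] at e3
      rw [e1]
      exact e3
    -- second moment
    have m2 : |av (fun x : K → X => prim (nuA ν A) j x * prim (nuA ν A) j x) - 1| ≤ η := by
      have e1 : av (fun x : K → X => prim (nuA ν A) j x * prim (nuA ν A) j x) =
          av (fun z : (K → X) × X => (∏ i ∈ A.erase j, ν i z.1) *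
            ∏ i ∈ A.erase j, ν i (Function.update z.1 j z.2)) := by
        have e2 := np_av_mul_prim_prim (nuA ν A) (nuA ν A) j (fun _ => (1 : ℝ)) (Ind.const j 1)
        simp only [one_mul] at e2
        rw [e2]
        refine av_congr fun z => ?_
        rw [prod_mul_distrib, np_prod_nuA, np_prod_nuA]
      set S1 : Finset (K × Finset K) := (A.erase j).image (fun i => (i, (∅ : Finset K))) with hS1
      set S2 : Finset (K × Finset K) := (A.erase j).image (fun i => (i, ({j} : Finset K))) with hS2
      have hdis : Disjoint S1 S2 := by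
        rw [disjoint_left]
        intro p h1 h2
        rw [hS1, mem_image] at h1
        rw [hS2, mem_image] at h2
        obtain ⟨i, _, rfl⟩ := h1
        obtain ⟨i', _, h3⟩ := h2
        have h4 := congrArg Prod.snd h3
        exact singleton_ne_empty j h4
      have e3 := h (S1 ∪ S2) (by
        intro p hp
        rw [mem_union, hS1, hS2, mem_image, mem_image] at hp
        rcases hp with ⟨i, _, rfl⟩ | ⟨i, hi, rfl⟩
        · exact notMem_empty _
        · show i ∉ ({j} : Finset K)
          rw [mem_singleton]
          exact (mem_erase.1 hi).1)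
      have e4 : av (fun z : (K → X) × (K → X) => ∏ p ∈ S1 ∪ S2, ν p.1 (mix p.2 z.1 z.2)) =
          av (fun z : (K → X) × X => (∏ i ∈ A.erase j, ν i z.1) *
            ∏ i ∈ A.erase j, ν i (Function.update z.1 j z.2)) := by
        have e5 : ∀ z : (K → X) × (K → X), ∏ p ∈ S1 ∪ S2, ν p.1 (mix p.2 z.1 z.2) =
            (∏ i ∈ A.erase j, ν i z.1) * ∏ i ∈ A.erase j, ν i (Function.update z.1 j (z.2 j)) := by
          intro z
          rw [prod_union hdis, hS1, hS2, prod_image (fun a _ b _ hab => congrArg Prod.fst hab),
            prod_image (fun a _ b _ hab => congrArg Prod.fst hab)]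
          have e6 : mix ({j} : Finset K) z.1 z.2 = Function.update z.1 j (z.2 j) := by
            have e7 := mix_insert (T := (∅ : Finset K)) (i := j) z.1 z.2
            rw [mix_empty] at e7
            exact e7
          show (∏ i ∈ A.erase j, ν i (mix ∅ z.1 z.2)) * (∏ i ∈ A.erase j, ν i (mix {j} z.1 z.2)) = _
          rw [mix_empty, e6]
        rw [av_congr e5]
        have e8 := av_rename (K := K) (X := X) j (fun x _ y => (∏ i ∈ A.erase j, ν i x) *
            ∏ i ∈ A.erase j, ν i (Function.update x j y)) (fun _ _ _ _ => rfl)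
        rw [← e8, av_prod, av_prod]
        refine av_congr fun x => ?_
        exact av_snd (Ω := K → X) (fun y : X => (∏ i ∈ A.erase j, ν i x) *
            ∏ i ∈ A.erase j, ν i (Function.update x j y))
      rw [e4] at e3
      rw [e1]
      exact e3
    rw [e0]
    rw [abs_le] at m1 m2
    linarith [m1.1, m1.2, m2.1, m2.2]

theorem av_mul_prim (f : K → (K → X) → ℝ) (j : K) (a : (K → X) → ℝ) (ha : Ind j a) :
    av (fun x : K → X => a x * prim f j x) = av (fun x : K → X => a x * ∏ i ∈ univ.erase j, f i x) :=
  np_av_mul_prim f j a ha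

theorem av_mul_prim_prim (f g : K → (K → X) → ℝ) (j : K) (a : (K → X) → ℝ) (ha : Ind j a) :
    av (fun x : K → X => a x * (prim f j x * prim g j x)) =
      av (fun z : (K → X) × X => a z.1 * ∏ i ∈ univ.erase j, (f i z.1 * g i (Function.update z.1 j z.2))) :=
  np_av_mul_prim_prim f g j a ha

end Pool.CG
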