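import Pool.Agent.Lib.MP_c77da8_nt.CG.Strong
import Pool.Agent.Lib.MP_c77da8_nt.CG.NuPrime

/-!
# CG-CntB: `av (ν_j - 1)(f' - g')²` is small (paper 1.7)

PROOF.  `η` from `strong K (τ/4)`.  `(f' - g')² = f'f' - 2 f'g' + g'g'`; by `av_mul_prim_prim` with `a = ν_j - 1` (which does not
depend on the coordinate `j`) each of `av (ν_j - 1) f'f'`, `av (ν_j - 1) f'g'`, `av (ν_j - 1) g'g'` is an average as in
`strong` (`|f_i| ≤ nuA ν A i`, `|g_i| ≤ 1 = nuA ν ∅ i`), so at most `τ/4` in absolute value; total `≤ 4 · τ/4`.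
-/

set_option autoImplicit false

namespace Pool.CG

open Finset

theorem cntB (K : Type) [Fintype K] [DecidableEq K] (τ : ℝ) (hτ : 0 < τ) : ∃ η : ℝ, 0 < η ∧
    ∀ (X : Type) [Fintype X] (ν f g : K → (K → X) → ℝ) (A : Finset K),
      (∀ i x, 0 ≤ ν i x) → (∀ i, Ind i (ν i)) → LF η ν → (∀ i, Ind i (f i)) → (∀ i, Ind i (g i)) →
      (∀ i x, 0 ≤ f i x) → (∀ i x, f i x ≤ nuA ν A i x) → (∀ i x, 0 ≤ g i x ∧ g i x ≤ 1) → ∀ j : K,
      av (fun x : K → X => (ν j x - 1) * (prim f j x - prim g j x) ^ 2) ≤ τ := by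
  obtain ⟨η, hη, hs⟩ := strong K (τ / 4) (by positivity)
  refine ⟨η, hη, ?_⟩
  intro X _ ν f g A hν hνI hLF hfI hgI hf0 hfν hg j
  have hfabs : ∀ i x, |f i x| ≤ nuA ν A i x := fun i x => by
    rw [abs_of_nonneg (hf0 i x)]
    exact hfν i x
  have hgabs : ∀ i x, |g i x| ≤ nuA ν ∅ i x := fun i x => by
    rw [abs_of_nonneg (hg i x).1]
    simpa [nuA] using (hg i x).2
  have ha : Ind j (fun x : K → X => ν j x - 1) := (hνI j).sub (Ind.const j 1)
  have hE : ∀ (B C : Finset K) (a b : K → (K → X) → ℝ), (∀ i, Ind i (a i)) → (∀ i, Ind i (b i)) →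
      (∀ i x, |a i x| ≤ nuA ν B i x) → (∀ i x, |b i x| ≤ nuA ν C i x) →
      |av (fun x : K → X => (ν j x - 1) * (prim a j x * prim b j x))| ≤ τ / 4 := by
    intro B C a b haI hbI hab hbb
    have h := hs X ν hν hνI hLF j B C a b haI hbI hab hbb
    rwa [← av_mul_prim_prim a b j (fun x : K → X => ν j x - 1) ha] at h
  have h1 := abs_le.1 (hE A A f f hfI hfI hfabs hfabs)
  have h2 := abs_le.1 (hE A ∅ f g hfI hgI hfabs hgabs)
  have h3 := abs_le.1 (hE ∅ ∅ g g hgI hgI hgabs hgabs)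
  have e : av (fun x : K → X => (ν j x - 1) * (prim f j x - prim g j x) ^ 2) =
      av (fun x : K → X => (ν j x - 1) * (prim f j x * prim f j x)) -
        2 * av (fun x : K → X => (ν j x - 1) * (prim f j x * prim g j x)) +
        av (fun x : K → X => (ν j x - 1) * (prim g j x * prim g j x)) := by
    rw [← av_const_mul, ← av_sub, ← av_add]
    exact av_congr fun x => by ring
  rw [e]
  linarith [h1.2, h2.1, h3.2]

end Pool.CG
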