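import Pool.Agent.Lib.MP_c77da8_nt.CG.Count0
import Pool.Agent.Lib.MP_c77da8_nt.CG.NuPrime

/-!
# CG-CntC: `av (f' - g')²` is small (paper 1.7; this uses the counting lemma for `m`)

`j ∈ A`, `|A| ≤ m + 1`, `f' = prim f j`, `g' = prim g j`.
-/

set_option autoImplicit false

namespace Pool.CG

open Finset

theorem pw_sq {q f g n : ℝ} (hq : 0 < q) (hfn : f ≤ n) (hg0 : 0 ≤ g) :
    (f - g) ^ 2 ≤ (min f 1 * (f - g) + (-1) * (g * (f - g))) +
        (q / 2 + (1 / (2 * q) + 1) * (n - 1) ^ 2) := by
  have hb : |n - 1| ≤ q / 2 + (1 / (2 * q)) * (n - 1) ^ 2 := by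
    have h3 : 0 ≤ (|n - 1| - q) ^ 2 := sq_nonneg _
    have h4 : |n - 1| ^ 2 = (n - 1) ^ 2 := sq_abs _
    have h5 : 2 * q * |n - 1| ≤ q ^ 2 + (n - 1) ^ 2 := by nlinarith
    have h6 : q / 2 + (1 / (2 * q)) * (n - 1) ^ 2 = (q ^ 2 + (n - 1) ^ 2) / (2 * q) := by
      field_simp
    rw [h6, le_div_iff₀ (by positivity)]
    linarith
  have hab := le_abs_self (n - 1)
  have hab0 := abs_nonneg (n - 1)
  have hsq : |n - 1| ^ 2 = (n - 1) ^ 2 := sq_abs _
  rcases le_total f 1 with hle | hle
  · rw [min_eq_left hle]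
    have : 0 ≤ (n - 1) ^ 2 := sq_nonneg _
    nlinarith
  · rw [min_eq_right hle]
    have h7 : f - 1 ≤ |n - 1| := by linarith
    have h8 : f - g ≤ 1 + |n - 1| := by linarith
    have h9 : (f - g) * (f - 1) ≤ (1 + |n - 1|) * |n - 1| :=
      mul_le_mul h8 h7 (by linarith) (by linarith)
    nlinarith

theorem cntC (K : Type) [Fintype K] [DecidableEq K] (m : ℕ) (hm : CountS K m) (τ : ℝ) (hτ : 0 < τ) :
    ∃ η ε : ℝ, 0 < η ∧ 0 < ε ∧
    ∀ (X : Type) [Fintype X] (ν f g : K → (K → X) → ℝ) (A : Finset K), A.card ≤ m + 1 →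
      (∀ i x, 0 ≤ ν i x) → (∀ i, Ind i (ν i)) → LF η ν → (∀ i, Ind i (f i)) → (∀ i, Ind i (g i)) →
      (∀ i x, 0 ≤ f i x) → (∀ i x, f i x ≤ nuA ν A i x) → (∀ i x, 0 ≤ g i x ∧ g i x ≤ 1) →
      (∀ i, Cut i (fun x => f i x - g i x) ε) → ∀ j ∈ A,
      av (fun x : K → X => (prim f j x - prim g j x) ^ 2) ≤ τ := by
  let q : ℝ := τ / 3
  have hq : 0 < q := by positivity
  obtain ⟨η₁, ε₁, hη₁, hε₁, h1⟩ := hm (q / 2) (by positivity)
  let η : ℝ := min η₁ (min (q / 4) (q ^ 2 / 4))
  have hηpos : 0 < η := lt_min hη₁ (lt_min (by positivity) (by positivity))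
  have hη1 : η ≤ η₁ := min_le_left _ _
  have hη4 : η ≤ q / 4 := (min_le_right _ _).trans (min_le_left _ _)
  have hη5 : η ≤ q ^ 2 / 4 := (min_le_right _ _).trans (min_le_right _ _)
  refine ⟨η, ε₁, hηpos, hε₁, ?_⟩
  intro X _ ν f g A hA hν hνi hLF hfi hgi hf0 hfν hg hcut j hj
  rcases isEmpty_or_nonempty X with hX | hX
  · have : IsEmpty (K → X) := ⟨fun x => hX.elim (x j)⟩
    have h0 : av (fun x : K → X => (prim f j x - prim g j x) ^ 2) = 0 := by simp [av]
    rw [h0]
    exact hτ.le
  let N : (K → X) → ℝ := fun x => av (fun y : X => ∏ i ∈ A.erase j, ν i (Function.update x j y))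
  have hFN : ∀ x, ∏ i ∈ univ.erase j, f i x ≤ ∏ i ∈ A.erase j, ν i x := by
    intro x
    have e1 : ∏ i ∈ A.erase j, ν i x = ∏ i ∈ univ.erase j, nuA ν A i x := by
      unfold nuA
      rw [← Finset.prod_filter]
      refine Finset.prod_congr ?_ fun _ _ => rfl
      ext i
      simp only [mem_erase, mem_filter, mem_univ, and_true]
    rw [e1]
    exact Finset.prod_le_prod (fun i _ => hf0 i x) fun i _ => hfν i x
  have hG1 : ∀ x, ∏ i ∈ univ.erase j, g i x ≤ 1 := fun x =>
    Finset.prod_le_one (fun i _ => (hg i x).1) fun i _ => (hg i x).2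
  have hf'0 : ∀ x, 0 ≤ prim f j x := fun x => av_nonneg fun y => Finset.prod_nonneg fun i _ => hf0 i _
  have hg'0 : ∀ x, 0 ≤ prim g j x := fun x => av_nonneg fun y =>
    Finset.prod_nonneg fun i _ => (hg i _).1
  have hg'1 : ∀ x, prim g j x ≤ 1 := fun x => av_le_of_le fun y => hG1 _
  have hf'n : ∀ x, prim f j x ≤ N x := fun x => av_mono fun y => hFN _
  let D : (K → X) → ℝ := fun x => prim f j x - prim g j x
  -- the test functions `min f' 1` and `g'`
  have hD : ∀ a : (K → X) → ℝ, Ind j a → (∀ x, 0 ≤ a x ∧ a x ≤ 1) →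
      |av (fun x => a x * D x)| ≤ q / 2 := by
    intro a ha ha1
    let F2 : K → (K → X) → ℝ := fun i => if i = j then a else f i
    let G2 : K → (K → X) → ℝ := fun i => if i = j then a else g i
    have hF2 : ∀ x, ∏ i, F2 i x = a x * ∏ i ∈ univ.erase j, f i x := by
      intro x
      rw [← Finset.mul_prod_erase univ (fun i => F2 i x) (mem_univ j)]
      have h3 : F2 j x = a x := by simp [F2]
      rw [h3]
      congr 1
      refine Finset.prod_congr rfl fun i hi => ?_
      have hij : i ≠ j := (Finset.mem_erase.mp hi).1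
      simp [F2, hij]
    have hG2 : ∀ x, ∏ i, G2 i x = a x * ∏ i ∈ univ.erase j, g i x := by
      intro x
      rw [← Finset.mul_prod_erase univ (fun i => G2 i x) (mem_univ j)]
      have h3 : G2 j x = a x := by simp [G2]
      rw [h3]
      congr 1
      refine Finset.prod_congr rfl fun i hi => ?_
      have hij : i ≠ j := (Finset.mem_erase.mp hi).1
      simp [G2, hij]
    have h3 := h1 X ν F2 G2 (A.erase j) (by rw [Finset.card_erase_of_mem hj]; omega)
      hν hνi (hLF.mono hη1) (by
        intro i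
        simp only [F2]
        split_ifs with h
        · rw [h]; exact ha
        · exact hfi i) (by
        intro i
        simp only [G2]
        split_ifs with h
        · rw [h]; exact ha
        · exact hgi i) (by
        intro i x
        by_cases h : i = j
        · simp only [F2, h, if_true]
          exact (ha1 x).1
        · simp only [F2, h, if_false]
          exact hf0 i x) (by
        intro i x
        by_cases h : i = j
        · subst h
          simp only [F2, if_true, nuA, Finset.mem_erase, ne_eq, not_true_eq_false, false_and, if_false]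
          exact (ha1 x).2
        · have := hfν i x
          simp only [nuA] at this
          simp only [F2, nuA, h, if_false, Finset.mem_erase, ne_eq, not_false_eq_true, true_and]
          exact this) (by
        intro i x
        by_cases h : i = j
        · simp only [G2, h, if_true]
          exact ha1 x
        · simp only [G2, h, if_false]
          exact hg i x) (by
        intro i
        by_cases h : i = j
        · subst h
          intro u _ _
          simp only [F2, G2, if_true, sub_self, zero_mul]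
          rw [av_zero, abs_zero]
          exact hε₁.le
        · have := hcut i
          simpa only [F2, G2, h, if_false] using this)
    rw [av_congr hF2, av_congr hG2, ← av_mul_prim f j a ha, ← av_mul_prim g j a ha, ← av_sub] at h3
    have e1 : av (fun x => a x * D x) = av (fun x => a x * prim f j x - a x * prim g j x) :=
      av_congr fun x => by
        simp only [D]
        ring
    rw [e1]
    exact h3
  have m1 := hD (fun x => min (prim f j x) 1) (by
    intro x v
    show min (prim f j _) 1 = _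
    rw [prim_ind f j x v]) (fun x => ⟨le_min (hf'0 x) zero_le_one, min_le_right _ _⟩)
  have m2 := hD (prim g j) (prim_ind g j) (fun x => ⟨hg'0 x, hg'1 x⟩)
  have m3 : av (fun x => (N x - 1) ^ 2) ≤ 4 * η := nu_prime η ν hLF hνi j A
  -- pointwise
  have pw : ∀ x, D x ^ 2 ≤ (min (prim f j x) 1 * D x + (-1) * (prim g j x * D x)) +
      (q / 2 + (1 / (2 * q) + 1) * (N x - 1) ^ 2) := fun x =>
    pw_sq hq (hf'n x) (hg'0 x)
  have h3 := av_mono pw
  rw [av_add, av_add, av_add, av_const_mul, av_const_mul, av_const] at h3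
  have m1' := (abs_le.mp m1).2
  have m2' := (abs_le.mp m2).1
  have c1 : (1 / (2 * q) + 1) * av (fun x => (N x - 1) ^ 2) ≤ q / 2 + q := by
    have hc : 0 ≤ 1 / (2 * q) + 1 := by positivity
    have h4 : (1 / (2 * q) + 1) * av (fun x => (N x - 1) ^ 2) ≤ (1 / (2 * q) + 1) * (4 * η) :=
      mul_le_mul_of_nonneg_left m3 hc
    have h5 : (1 / (2 * q)) * (4 * η) ≤ q / 2 := by
      have h6 : (1 / (2 * q)) * (4 * η) ≤ (1 / (2 * q)) * (q ^ 2) :=
        mul_le_mul_of_nonneg_left (by linarith) (by positivity)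
      have h7 : (1 / (2 * q)) * (q ^ 2) = q / 2 := by field_simp
      linarith
    have h8 : (1 / (2 * q) + 1) * (4 * η) = (1 / (2 * q)) * (4 * η) + 4 * η := by ring
    linarith
  have hq3 : 3 * q = τ := by simp only [q]; ring
  have h9 : av (fun x => D x ^ 2) ≤ 3 * q := by linarith
  rw [hq3] at h9
  exact h9

end Pool.CG
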