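import Pool.Agent.Lib.MP_c77da8_nt.CG.Tau

/-!
# CG-N-Comp: comparison with the independent model

`B_p(D) = {i : p ∈ D i}`. Write `ρ_p(B) = v_p^(-|B|) + κ_p(B)` with `κ_p(B) = 0` for `|B| ≤ 1` and `|κ_p(B)| ≤ e_p`
otherwise. Expand `∏_p ρ_p(B_p) = ∑_s ∏_{p ∈ s} κ_p(B_p) ∏_{p ∉ s} v_p^(-|B_p|)` (`Finset.prod_add`). For fixed `s` and
fixed `β : s → Finset I` (the restriction of `B` to `s`) the sum over `D` with `B_p(D) = β_p`, `p ∈ s`, is
`∏_{p ∈ s} κ_p(β_p) ∏_i ( ∑_{D0 ⊆ sᶜ} tau(D0 ∪ b_i) ∏_{p ∈ D0} 1/v_p )`, `b_i = {p ∈ s : i ∈ β_p}`, so by `tau_sum_le` at most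
`∏_{p ∈ s} |κ_p(β_p)| (8^|s| / V)^|I|`. Sum over the `≤ 2^(|I| |s|)` functions `β`: `∏_{p ∈ s} (16^|I| e_p) / V^|I|`.
`s = ∅` gives `V^(-|I|)` by `tau_sum_eq`; the sum over `s ≠ ∅` is at most `(∏_p (1 + 16^|I| e_p) - 1) / V^|I|`.
-/

set_option autoImplicit false

namespace Pool.CG

open Finset

variable {P : Type} [Fintype P] [DecidableEq P]

/-- the term of the set `s` -/
private noncomputable def Ts (v : P → ℕ) (R : ℕ) (I : Type) [Fintype I] [DecidableEq I]
    (κ : P → Finset I → ℝ) (s : Finset P) : ℝ :=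
  ∑ D : I → Finset P, (∏ i, tau v R (D i)) * ((∏ p ∈ s, κ p (univ.filter fun i => p ∈ D i)) *
    ∏ p ∈ univ \ s, (1 / (v p : ℝ)) ^ (univ.filter fun i => p ∈ D i).card)

private theorem prod_swap (x : P → ℝ) (I : Type) [Fintype I] [DecidableEq I] (u : Finset P)
    (D : I → Finset P) :
    ∏ p ∈ u, x p ^ (univ.filter fun i => p ∈ D i).card = ∏ i, ∏ p ∈ D i ∩ u, x p := by
  have h1 : ∀ p ∈ u, x p ^ (univ.filter fun i => p ∈ D i).card = ∏ i, if p ∈ D i then x p else 1 := by
    intro p _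
    rw [← Finset.prod_filter, Finset.prod_const]
  rw [Finset.prod_congr rfl h1, Finset.prod_comm]
  refine Finset.prod_congr rfl fun i _ => ?_
  rw [← Finset.prod_filter]
  refine Finset.prod_congr ?_ fun _ _ => rfl
  ext p
  simp only [mem_filter, mem_inter]
  tauto

/-- the inner sum over the sets with a given trace on `s` -/
private theorem inner (v : P → ℕ) (R : ℕ) (s b : Finset P) (hb : b ⊆ s) :
    ∑ D' ∈ (univ : Finset (Finset P)).filter (fun D' => D' ∩ s = b),
        tau v R D' * ∏ p ∈ D' ∩ (univ \ s), 1 / (v p : ℝ) =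
      ∑ D0 ∈ (univ \ s).powerset, tau v R (D0 ∪ b) * ∏ p ∈ D0, 1 / (v p : ℝ) := by
  symm
  refine Finset.sum_bij (fun D0 _ => D0 ∪ b) ?_ ?_ ?_ ?_
  · intro D0 h0
    rw [mem_powerset] at h0
    rw [mem_filter]
    refine ⟨mem_univ _, ?_⟩
    ext p
    simp only [mem_inter, mem_union]
    constructor
    · rintro ⟨h1 | h1, h2⟩
      · exact absurd h2 (mem_sdiff.1 (h0 h1)).2
      · exact h1
    · exact fun h => ⟨Or.inr h, hb h⟩
  · intro D0 h0 D1 h1 h
    rw [mem_powerset] at h0 h1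
    ext p
    have hp : p ∈ D0 ∪ b ↔ p ∈ D1 ∪ b := by rw [h]
    rw [mem_union, mem_union] at hp
    constructor
    · intro h2
      rcases hp.1 (Or.inl h2) with h3 | h3
      · exact h3
      · exact absurd (hb h3) (mem_sdiff.1 (h0 h2)).2
    · intro h2
      rcases hp.2 (Or.inl h2) with h3 | h3
      · exact h3
      · exact absurd (hb h3) (mem_sdiff.1 (h1 h2)).2
  · intro D' hD'
    rw [mem_filter] at hD'
    refine ⟨D' \ s, ?_, ?_⟩
    · rw [mem_powerset]
      intro p hp
      rw [mem_sdiff] at hp ⊢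
      exact ⟨mem_univ _, hp.2⟩
    · rw [← hD'.2]
      ext p
      simp only [mem_union, mem_sdiff, mem_inter]
      tauto
  · intro D0 h0
    rw [mem_powerset] at h0
    congr 1
    refine Finset.prod_congr ?_ fun _ _ => rfl
    ext p
    simp only [mem_inter, mem_union, mem_sdiff, mem_univ, true_and]
    constructor
    · intro h1
      exact ⟨Or.inl h1, (mem_sdiff.1 (h0 h1)).2⟩
    · rintro ⟨h1 | h1, h2⟩
      · exact h1
      · exact absurd (hb h1) h2

private theorem Ts_eq (v : P → ℕ) (R : ℕ) (I : Type) [Fintype I] [DecidableEq I]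
    (κ : P → Finset I → ℝ) (s : Finset P) :
    Ts v R I κ s = ∑ b ∈ Fintype.piFinset (fun _ : I => s.powerset),
      (∏ p ∈ s, κ p (univ.filter fun i => p ∈ b i)) *
        ∏ i, ∑ D0 ∈ (univ \ s).powerset, tau v R (D0 ∪ b i) * ∏ p ∈ D0, 1 / (v p : ℝ) := by
  unfold Ts
  have hmaps : ∀ D ∈ (univ : Finset (I → Finset P)), (fun D : I → Finset P => fun i => D i ∩ s) D ∈
      Fintype.piFinset (fun _ : I => s.powerset) := by
    intro D _
    rw [Fintype.mem_piFinset]
    intro i
    rw [mem_powerset]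
    exact inter_subset_right
  rw [← Finset.sum_fiberwise_of_maps_to hmaps]
  refine Finset.sum_congr rfl fun b hb => ?_
  rw [Fintype.mem_piFinset] at hb
  have hb' : ∀ i, b i ⊆ s := fun i => mem_powerset.1 (hb i)
  have h1 : ∀ D ∈ (univ : Finset (I → Finset P)).filter (fun D => (fun i => D i ∩ s) = b),
      (∏ i, tau v R (D i)) * ((∏ p ∈ s, κ p (univ.filter fun i => p ∈ D i)) *
        ∏ p ∈ univ \ s, (1 / (v p : ℝ)) ^ (univ.filter fun i => p ∈ D i).card) =
      (∏ p ∈ s, κ p (univ.filter fun i => p ∈ b i)) *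
        ∏ i, (tau v R (D i) * ∏ p ∈ D i ∩ (univ \ s), 1 / (v p : ℝ)) := by
    intro D hD
    rw [mem_filter] at hD
    rw [prod_swap (fun p => 1 / (v p : ℝ)) I (univ \ s) D, Finset.prod_mul_distrib]
    have h2 : ∏ p ∈ s, κ p (univ.filter fun i => p ∈ D i) = ∏ p ∈ s, κ p (univ.filter fun i => p ∈ b i) := by
      refine Finset.prod_congr rfl fun p hp => ?_
      congr 1
      ext i
      simp only [mem_filter, mem_univ, true_and]
      rw [← hD.2]
      simp only [mem_inter]
      exact ⟨fun h => ⟨h, hp⟩, fun h => h.1⟩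
    rw [h2]
    ring
  rw [Finset.sum_congr rfl h1, ← Finset.mul_sum]
  congr 1
  have h3 : (univ : Finset (I → Finset P)).filter (fun D => (fun i => D i ∩ s) = b) =
      Fintype.piFinset (fun i => (univ : Finset (Finset P)).filter (fun D' => D' ∩ s = b i)) := by
    ext D
    rw [mem_filter, Fintype.mem_piFinset]
    simp only [mem_univ, true_and, mem_filter]
    exact funext_iff
  have h4 := Finset.prod_univ_sum (fun i : I => (univ : Finset (Finset P)).filter (fun D' => D' ∩ s = b i))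
    (fun (_ : I) (D' : Finset P) => tau v R D' * ∏ p ∈ D' ∩ (univ \ s), 1 / (v p : ℝ))
  rw [h3]
  refine h4.symm.trans ?_
  exact Finset.prod_congr rfl fun i _ => inner v R s (b i) (hb' i)

theorem compare_model (v : P → ℕ) (hv : ∀ p, 2 ≤ v p) (R : ℕ) (hR : 1 ≤ R) (I : Type) [Fintype I] [DecidableEq I]
    (ρ : P → Finset I → ℝ) (e : P → ℝ) (he : ∀ p, 0 ≤ e p) (h0 : ∀ p, ρ p ∅ = 1)
    (h1 : ∀ p i, ρ p {i} = 1 / (v p : ℝ))
    (h2 : ∀ p (B : Finset I), 2 ≤ B.card → |ρ p B - (1 / (v p : ℝ)) ^ B.card| ≤ e p) :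
    |∑ D : I → Finset P, (∏ i, tau v R (D i)) * ∏ p, ρ p (univ.filter fun i => p ∈ D i) -
      (1 / VV v R) ^ Fintype.card I| ≤
      (1 / VV v R) ^ Fintype.card I * (∏ p, (1 + 16 ^ Fintype.card I * e p) - 1) := by
  have hV := VV_pos v hv R hR
  set κ : P → Finset I → ℝ := fun p B => ρ p B - (1 / (v p : ℝ)) ^ B.card with hκ
  have hκe : ∀ p B, |κ p B| ≤ e p := by
    intro p B
    rcases Nat.lt_or_ge B.card 2 with h | h
    · have h' : B.card = 0 ∨ B.card = 1 := by omega
      have : κ p B = 0 := by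
        rcases h' with h' | h'
        · rw [card_eq_zero] at h'
          rw [hκ, h']
          simp [h0]
        · rw [card_eq_one] at h'
          obtain ⟨i, rfl⟩ := h'
          rw [hκ]
          simp [h1]
      rw [this, abs_zero]
      exact he p
    · exact h2 p B h
  -- expansion
  have hexp : ∑ D : I → Finset P, (∏ i, tau v R (D i)) * ∏ p, ρ p (univ.filter fun i => p ∈ D i) =
      ∑ s : Finset P, Ts v R I κ s := by
    unfold Ts
    rw [Finset.sum_comm]
    refine Finset.sum_congr rfl fun D _ => ?_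
    rw [← Finset.mul_sum]
    congr 1
    have : ∀ p ∈ (univ : Finset P), ρ p (univ.filter fun i => p ∈ D i) =
        κ p (univ.filter fun i => p ∈ D i) + (1 / (v p : ℝ)) ^ (univ.filter fun i => p ∈ D i).card := by
      intro p _
      rw [hκ]
      ring
    rw [Finset.prod_congr rfl this, Finset.prod_add, Finset.powerset_univ]
  -- the term `s = ∅`
  have hTe : Ts v R I κ ∅ = (1 / VV v R) ^ Fintype.card I := by
    rw [Ts_eq]
    have : Fintype.piFinset (fun _ : I => (∅ : Finset P).powerset) = {fun _ => ∅} := by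
      ext b
      rw [Fintype.mem_piFinset, mem_singleton]
      simp only [powerset_empty, mem_singleton]
      exact funext_iff.symm
    rw [this, Finset.sum_singleton, Finset.prod_empty, one_mul]
    simp only [sdiff_empty, union_empty, powerset_univ]
    rw [tau_sum_eq v hv R hR, Finset.prod_const, card_univ]
  -- the other terms
  have hTs : ∀ s : Finset P, |Ts v R I κ s| ≤ (1 / VV v R) ^ Fintype.card I * ∏ p ∈ s, (16 ^ Fintype.card I * e p) := by
    intro s
    rw [Ts_eq]
    refine (Finset.abs_sum_le_sum_abs _ _).trans ?_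
    have hb1 : ∀ b ∈ Fintype.piFinset (fun _ : I => s.powerset),
        |(∏ p ∈ s, κ p (univ.filter fun i => p ∈ b i)) *
          ∏ i, ∑ D0 ∈ (univ \ s).powerset, tau v R (D0 ∪ b i) * ∏ p ∈ D0, 1 / (v p : ℝ)| ≤
        (∏ p ∈ s, e p) * (8 ^ s.card / VV v R) ^ Fintype.card I := by
      intro b hb
      rw [Fintype.mem_piFinset] at hb
      rw [abs_mul, Finset.abs_prod, Finset.abs_prod]
      refine mul_le_mul ?_ ?_ (Finset.prod_nonneg fun i _ => abs_nonneg _) (Finset.prod_nonneg fun p _ => he p)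
      · exact Finset.prod_le_prod (fun p _ => abs_nonneg _) fun p _ => hκe p _
      · calc ∏ i, |∑ D0 ∈ (univ \ s).powerset, tau v R (D0 ∪ b i) * ∏ p ∈ D0, 1 / (v p : ℝ)|
            ≤ ∏ _i : I, (8 ^ s.card / VV v R) := Finset.prod_le_prod (fun i _ => abs_nonneg _)
              fun i _ => tau_sum_le v hv R hR s (b i) (mem_powerset.1 (hb i))
          _ = (8 ^ s.card / VV v R) ^ Fintype.card I := by rw [Finset.prod_const, card_univ]
    refine (Finset.sum_le_sum hb1).trans (le_of_eq ?_)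
    rw [Finset.sum_const, Fintype.card_piFinset, Finset.prod_const, card_univ, card_powerset, nsmul_eq_mul,
      Finset.prod_mul_distrib, Finset.prod_const]
    push_cast
    rw [div_pow, one_div, inv_pow]
    have : (16 : ℝ) = 2 * 8 := by norm_num
    rw [this, mul_pow, mul_pow, ← pow_mul, ← pow_mul, ← pow_mul, ← pow_mul, mul_comm (Fintype.card I) s.card]
    field_simp
  rw [hexp, ← Finset.add_sum_erase univ (Ts v R I κ) (mem_univ ∅), hTe, add_sub_cancel_left]
  refine (Finset.abs_sum_le_sum_abs _ _).trans ?_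
  refine (Finset.sum_le_sum fun s _ => hTs s).trans (le_of_eq ?_)
  rw [← Finset.mul_sum]
  congr 1
  rw [Finset.prod_one_add, Finset.powerset_univ, ← Finset.add_sum_erase univ _ (mem_univ ∅), Finset.prod_empty,
    add_sub_cancel_left]

end Pool.CG
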