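import Pool.Agent.Lib.MP_c77da8_nt.CG.CntB
import Pool.Agent.Lib.MP_c77da8_nt.CG.CntC

/-!
# CG-Count: the counting lemma (paper 1.7)

PROOF of `count_step`.  If `|A| ≤ m` use `hm`.  Otherwise let `j ∈ A`; `f' = prim f j`, `g' = prim g j`.
`av ∏ f_i = av f_j f'`, `av ∏ g_i = av g_j g'` (`av_mul_prim`; `∏_i f_i = f_j ∏_{i≠j} f_i`), so the difference is
`av f_j (f'-g') + av (f_j - g_j) g'`.  `|av (f_j-g_j) g'| = |av (f_j-g_j) ∏_{i≠j} g_i| ≤ ε` (`Cut j`).
`|av f_j (f'-g')| ≤ av ν_j |f'-g'| ≤ (e/8) av ν_j + (2/e) av ν_j (f'-g')²` (AM-GM), `av ν_j ≤ 2`, and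
`av ν_j (f'-g')² = av (ν_j-1)(f'-g')² + av (f'-g')² ≤ 2τ` by `cntB`, `cntC`, `τ = e²/32`.
-/

set_option autoImplicit false

namespace Pool.CG

open Finset

theorem abs_le_amgm {e D : ℝ} (he : 0 < e) : |D| ≤ e / 8 + (2 / e) * D ^ 2 := by
  have h4 : 0 ≤ (4 * |D| - e) ^ 2 := sq_nonneg _
  have h5 : |D| ^ 2 = D ^ 2 := sq_abs _
  have h6 : e / 8 + (2 / e) * D ^ 2 = (e ^ 2 + 16 * D ^ 2) / (8 * e) := by
    field_simp
    ring
  rw [h6, le_div_iff₀ (by positivity)]
  nlinarith

theorem count_step (K : Type) [Fintype K] [DecidableEq K] (m : ℕ) (hm : CountS K m) : CountS K (m + 1) := by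
  intro e he
  obtain ⟨η₀, ε₀, hη₀, hε₀, h0⟩ := hm e he
  obtain ⟨η₁, hη₁, hB⟩ := cntB K (e ^ 2 / 32) (by positivity)
  obtain ⟨η₂, ε₂, hη₂, hε₂, hC⟩ := cntC K m hm (e ^ 2 / 32) (by positivity)
  let η : ℝ := min (min η₀ η₁) (min η₂ 1)
  have hηpos : 0 < η := lt_min (lt_min hη₀ hη₁) (lt_min hη₂ one_pos)
  have hη0 : η ≤ η₀ := (min_le_left _ _).trans (min_le_left _ _)
  have hη1 : η ≤ η₁ := (min_le_left _ _).trans (min_le_right _ _)
  have hη2 : η ≤ η₂ := (min_le_right _ _).trans (min_le_left _ _)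
  have hη3 : η ≤ 1 := (min_le_right _ _).trans (min_le_right _ _)
  let ε : ℝ := min (min ε₀ ε₂) (e / 4)
  have hεpos : 0 < ε := lt_min (lt_min hε₀ hε₂) (by positivity)
  have hε0 : ε ≤ ε₀ := (min_le_left _ _).trans (min_le_left _ _)
  have hε1 : ε ≤ ε₂ := (min_le_left _ _).trans (min_le_right _ _)
  have hε2 : ε ≤ e / 4 := min_le_right _ _
  refine ⟨η, ε, hηpos, hεpos, ?_⟩
  intro X _ ν f g A hA hν hνi hLF hfi hgi hf0 hfν hg hcut
  by_cases hAm : A.card ≤ m
  · exact h0 X ν f g A hAm hν hνi (hLF.mono hη0) hfi hgi hf0 hfν hg (fun j => (hcut j).mono hε0)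
  have hAne : A.Nonempty := by
    rw [← Finset.card_pos]; omega
  obtain ⟨j, hj⟩ := hAne
  rcases isEmpty_or_nonempty X with hX | hX
  · have : IsEmpty (K → X) := ⟨fun x => hX.elim (x j)⟩
    have h0 : av (fun x : K → X => ∏ i, f i x) = 0 := by simp [av]
    have h1 : av (fun x : K → X => ∏ i, g i x) = 0 := by simp [av]
    rw [h0, h1, sub_zero, abs_zero]
    exact he.le
  let D : (K → X) → ℝ := fun x => prim f j x - prim g j x
  -- the difference
  have d1 : av (fun x => ∏ i, f i x) = av (fun x => f j x * prim f j x) := by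
    rw [av_mul_prim f j (f j) (hfi j)]
    exact av_congr fun x => (Finset.mul_prod_erase univ (fun i => f i x) (mem_univ j)).symm
  have d2 : av (fun x => ∏ i, g i x) = av (fun x => g j x * prim g j x) := by
    rw [av_mul_prim g j (g j) (hgi j)]
    exact av_congr fun x => (Finset.mul_prod_erase univ (fun i => g i x) (mem_univ j)).symm
  have d3 : |av (fun x => (f j x - g j x) * prim g j x)| ≤ ε := by
    rw [av_mul_prim g j (fun x => f j x - g j x) ((hfi j).sub (hgi j))]
    exact hcut j g hg hgi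
  have d4 : av (fun x => ∏ i, f i x) - av (fun x => ∏ i, g i x) =
      av (fun x => f j x * D x) + av (fun x => (f j x - g j x) * prim g j x) := by
    rw [d1, d2, ← av_add, ← av_sub]
    exact av_congr fun x => by
      simp only [D]
      ring
  have t4 : av (fun x => (ν j x - 1) * D x ^ 2) ≤ e ^ 2 / 32 :=
    hB X ν f g A hν hνi (hLF.mono hη1) hfi hgi hf0 hfν hg j
  have t5 : av (fun x => D x ^ 2) ≤ e ^ 2 / 32 :=
    hC X ν f g A hA hν hνi (hLF.mono hη2) hfi hgi hf0 hfν hg (fun i => (hcut i).mono hε1) j hj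
  have t6 : av (fun x => ν j x * D x ^ 2) ≤ e ^ 2 / 16 := by
    have e1 : av (fun x => ν j x * D x ^ 2) = av (fun x => (ν j x - 1) * D x ^ 2 + D x ^ 2) :=
      av_congr fun x => by ring
    rw [e1, av_add]
    linarith
  have t7 : av (ν j) ≤ 2 := by
    have h3 := (abs_le.mp (hLF {(j, ∅)} (by simp))).2
    simp only [Finset.prod_singleton, mix_empty] at h3
    rw [av_fst] at h3
    have h4 : av (fun x => ν j x) = av (ν j) := rfl
    linarith
  have t8 : |av (fun x => f j x * D x)| ≤ 3 * e / 4 := by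
    have hpw : ∀ x, |f j x * D x| ≤ (e / 8) * ν j x + (2 / e) * (ν j x * D x ^ 2) := by
      intro x
      have hfν' : f j x ≤ ν j x := by
        have := hfν j x
        unfold nuA at this
        rwa [if_pos hj] at this
      rw [abs_mul, abs_of_nonneg (hf0 j x)]
      have h3 : |D x| ≤ e / 8 + (2 / e) * D x ^ 2 := abs_le_amgm he
      calc f j x * |D x| ≤ ν j x * |D x| := mul_le_mul_of_nonneg_right hfν' (abs_nonneg _)
        _ ≤ ν j x * (e / 8 + (2 / e) * D x ^ 2) := mul_le_mul_of_nonneg_left h3 (hν j x)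
        _ = _ := by ring
    have h4 := abs_av_le_of hpw
    rw [av_add, av_const_mul, av_const_mul] at h4
    have h5 : (2 / e) * av (fun x => ν j x * D x ^ 2) ≤ (2 / e) * (e ^ 2 / 16) :=
      mul_le_mul_of_nonneg_left t6 (by positivity)
    have h6 : (2 / e) * (e ^ 2 / 16) = e / 8 := by
      field_simp
      ring
    have h7 : (e / 8) * av (fun x => ν j x) ≤ (e / 8) * 2 :=
      mul_le_mul_of_nonneg_left t7 (by positivity)
    linarith
  rw [d4]
  refine (abs_add_le _ _).trans ?_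
  linarith

theorem count (K : Type) [Fintype K] [DecidableEq K] (m : ℕ) : CountS K m := by
  induction m with
  | zero => exact count_zero K
  | succ m ih => exact count_step K m ih

end Pool.CG
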