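import Pool.Agent.Lib.MP_c77da8_nt.CG.Basic

/-!
# CG-Count0: the counting lemma, definition and the dense case (paper 1.7, S(0))

PROOF of `count_zero`.  `A = ∅`, so `0 ≤ f_i ≤ 1` for all `i`.  `ε = ε' / (|K| + 1)`, `η = 1`.  Telescoping: for
`S : Finset K` let `u_S,i = f_i` if `i ∈ S` and `g_i` otherwise; `∏_i u_{insert j S, i} - ∏_i u_{S,i} =
(f_j - g_j) ∏_{i ≠ j} u_{S,i}` (`j ∉ S`), whose average is `≤ ε` in absolute value by `Cut j`.
-/

set_option autoImplicit false

namespace Pool.CG

open Finset

/-- the statement `S(m)` of the counting lemma: at most `m` of the functions are bounded by `ν`, the others by 1 -/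
def CountS (K : Type) [Fintype K] [DecidableEq K] (m : ℕ) : Prop :=
  ∀ ε' : ℝ, 0 < ε' → ∃ η ε : ℝ, 0 < η ∧ 0 < ε ∧
    ∀ (X : Type) [Fintype X] (ν f g : K → (K → X) → ℝ) (A : Finset K), A.card ≤ m →
      (∀ i x, 0 ≤ ν i x) → (∀ i, Ind i (ν i)) → LF η ν → (∀ i, Ind i (f i)) → (∀ i, Ind i (g i)) →
      (∀ i x, 0 ≤ f i x) → (∀ i x, f i x ≤ nuA ν A i x) → (∀ i x, 0 ≤ g i x ∧ g i x ≤ 1) →
      (∀ i, Cut i (fun x => f i x - g i x) ε) →
      |av (fun x : K → X => ∏ i, f i x) - av (fun x : K → X => ∏ i, g i x)| ≤ ε'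

theorem count_zero (K : Type) [Fintype K] [DecidableEq K] : CountS K 0 := by
  intro e he
  refine ⟨1, e / (Fintype.card K + 1), one_pos, by positivity, ?_⟩
  intro X _ ν f g A hA _ _ _ hfi hgi hf0 hfν hg hcut
  have hA0 : A = ∅ := Finset.card_eq_zero.mp (Nat.le_zero.mp hA)
  subst hA0
  have hf1 : ∀ j x, f j x ≤ 1 := by
    intro j x
    simpa [nuA] using hfν j x
  set ε : ℝ := e / (Fintype.card K + 1) with hε
  have hε0 : 0 ≤ ε := by positivity
  let u : Finset K → K → (K → X) → ℝ := fun s i => if i ∈ s then f i else g i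
  have hu1 : ∀ s i x, 0 ≤ u s i x ∧ u s i x ≤ 1 := by
    intro s i x
    simp only [u]
    split_ifs
    · exact ⟨hf0 i x, hf1 i x⟩
    · exact hg i x
  have hui : ∀ s i, Ind i (u s i) := by
    intro s i
    simp only [u]
    split_ifs
    · exact hfi i
    · exact hgi i
  have key : ∀ s : Finset K, |av (fun x => ∏ j, u s j x) - av (fun x => ∏ j, g j x)| ≤
      s.card * ε := by
    intro s
    induction s using Finset.induction_on with
    | empty => simp [u]
    | insert a s ha ih =>
      have e1 : (fun x => ∏ j, u (insert a s) j x) = fun x => ∏ j, u s j x +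
          (f a x - g a x) * ∏ i ∈ univ.erase a, u s i x := by
        funext x
        rw [← Finset.mul_prod_erase univ (fun j => u (insert a s) j x) (mem_univ a),
          ← Finset.mul_prod_erase univ (fun j => u s j x) (mem_univ a)]
        have h1 : u (insert a s) a x = f a x := by simp [u]
        have h2 : u s a x = g a x := by simp [u, ha]
        have h3 : ∏ i ∈ univ.erase a, u (insert a s) i x = ∏ i ∈ univ.erase a, u s i x := by
          refine Finset.prod_congr rfl fun i hi => ?_
          have hia : i ≠ a := (Finset.mem_erase.mp hi).1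
          simp [u, hia]
        rw [h1, h2, h3]
        ring
      rw [e1, av_add, Finset.card_insert_of_notMem ha, Nat.cast_add, Nat.cast_one, add_mul, one_mul]
      have h4 := hcut a (u s) (hu1 s) (hui s)
      have h5 := abs_add_le (av (fun x => ∏ j, u s j x) - av (fun x => ∏ j, g j x))
        (av (fun x => (f a x - g a x) * ∏ i ∈ univ.erase a, u s i x))
      have h6 : av (fun x => ∏ j, u s j x) + av (fun x => (f a x - g a x) *
          ∏ i ∈ univ.erase a, u s i x) - av (fun x => ∏ j, g j x) =
          (av (fun x => ∏ j, u s j x) - av (fun x => ∏ j, g j x)) +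
          av (fun x => (f a x - g a x) * ∏ i ∈ univ.erase a, u s i x) := by ring
      rw [h6]
      linarith
  have h := key univ
  have e1 : (fun x => ∏ j, u univ j x) = fun x => ∏ j, f j x := by
    funext x
    exact Finset.prod_congr rfl fun j _ => by simp [u]
  rw [e1] at h
  refine h.trans ?_
  rw [hε, Finset.card_univ, mul_div_assoc', div_le_iff₀ (by positivity)]
  nlinarith

end Pool.CG
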