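import Pool.Agent.Lib.MP_c77da8_nt.CG.TauB
import Pool.Agent.Lib.MP_c77da8_nt.CG.Cnt

/-!
# CG-N-Crude: crude upper bound for the average of a product of weights (coincidences allowed)

`t = |I| ≥ 1`. Pointwise `∏_i Lam_i^2 ≤ ∑_i Lam_i^(2t)` (the largest factor). For one form:
`|Lam(ξ)| ≤ ∑_{d ⊆ ξ, nm d ≤ R} 2^|d|` (`Lam_eq`, `lam_le`, `lam_zero`), so the average over `n` of `Lam(ξ(n))^(2t)` is at most
`∑_{d : Fin (2t) → Finset, nm (d l) ≤ R} ∏_l 2^|d_l| (1/nm(⋃ d_l) + 1/N) ≤ 2 ∑_d ∏_l 2^|d_l| / nm(⋃ d_l)` (as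
`nm(⋃ d_l) ≤ R^(2t) ≤ N`; `cnt_one`) `≤ 2 ∏_p (1 + (3^(2t) - 1)/p) ≤ 2 ∏_p (1 + 9^t / p)`: for every prime the set
`{l : p ∈ d_l}` is arbitrary, `∑_{B ⊆ Fin (2t)} 2^|B| = 3^(2t)`.
-/

set_option autoImplicit false

namespace Pool.CG

open Finset

section Comb

variable {P : Type} [Fintype P] [DecidableEq P]

private lemma nm_pos {v : P → ℕ} (hv : ∀ p, 2 ≤ v p) (a : Finset P) : 0 < nm v a :=
  Finset.prod_pos fun p _ => by have := hv p; omega

private lemma nm_union_le {v : P → ℕ} (hv : ∀ p, 2 ≤ v p) (a b : Finset P) :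
    nm v (a ∪ b) ≤ nm v a * nm v b := by
  have h1 : nm v (a ∪ b) * nm v (a ∩ b) = nm v a * nm v b := Finset.prod_union_inter
  have h2 := nm_pos hv (a ∩ b)
  rw [← h1]
  exact Nat.le_mul_of_pos_right _ h2

private lemma nm_biUnion_le {v : P → ℕ} (hv : ∀ p, 2 ≤ v p) {m : ℕ} (d : Fin m → Finset P)
    (s : Finset (Fin m)) : nm v (s.biUnion d) ≤ ∏ l ∈ s, nm v (d l) := by
  induction s using Finset.induction_on with
  | empty => simp [nm]
  | insert l s hl ih =>
    rw [Finset.biUnion_insert, Finset.prod_insert hl]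
    exact (nm_union_le hv _ _).trans (Nat.mul_le_mul_left _ ih)

private lemma nm_le_pow {v : P → ℕ} (hv : ∀ p, 2 ≤ v p) {m R : ℕ} (d : Fin m → Finset P)
    (hd : ∀ l, nm v (d l) ≤ R) : nm v (univ.biUnion d) ≤ R ^ m := by
  refine (nm_biUnion_le hv d univ).trans ?_
  have h : ∏ l : Fin m, nm v (d l) ≤ ∏ _l : Fin m, R :=
    Finset.prod_le_prod (fun _ _ => Nat.zero_le _) fun l _ => hd l
  simpa using h

/-- one term of the bound of `|Lam|` -/
private noncomputable def aa (v : P → ℕ) (R : ℕ) (ξ d : Finset P) : ℝ :=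
  if d ⊆ ξ ∧ nm v d ≤ R then (2 : ℝ) ^ d.card else 0

private lemma aa_nonneg (v : P → ℕ) (R : ℕ) (ξ d : Finset P) : 0 ≤ aa v R ξ d := by
  unfold aa
  split_ifs <;> positivity

private lemma abs_Lam_le {v : P → ℕ} (hv : ∀ p, 2 ≤ v p) {R : ℕ} (hR : 1 ≤ R) (ξ : Finset P) :
    |Lam v R ξ| ≤ ∑ d : Finset P, aa v R ξ d := by
  rw [Lam_eq]
  refine (Finset.abs_sum_le_sum_abs _ _).trans ?_
  have h1 : ∀ d ∈ ξ.powerset, |lam v R d| ≤ aa v R ξ d := by
    intro d hd
    rw [Finset.mem_powerset] at hd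
    unfold aa
    by_cases h : nm v d ≤ R
    · rw [if_pos ⟨hd, h⟩]
      exact lam_le v hv R hR d
    · rw [if_neg fun hh => h hh.2, lam_zero v hv R d (not_le.1 h), abs_zero]
  exact (Finset.sum_le_sum h1).trans
    (Finset.sum_le_sum_of_subset_of_nonneg (Finset.subset_univ _) fun d _ _ => aa_nonneg v R ξ d)

/-- transposition of a relation -/
private def tEquiv (P : Type) [Fintype P] [DecidableEq P] (m : ℕ) :
    (Fin m → Finset P) ≃ (P → Finset (Fin m)) where
  toFun d := fun p => univ.filter fun l => p ∈ d l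
  invFun g := fun l => univ.filter fun p => l ∈ g p
  left_inv d := by
    funext l
    ext p
    simp
  right_inv g := by
    funext p
    ext l
    simp

private lemma sum_tuples {v : P → ℕ} (hv : ∀ p, 2 ≤ v p) (m : ℕ) :
    ∑ d : Fin m → Finset P, (∏ l, (2 : ℝ) ^ (d l).card) * (1 / (nm v (univ.biUnion d) : ℝ)) ≤
      ∏ p : P, (1 + 3 ^ m / (v p : ℝ)) := by
  classical
  set psi : P → Finset (Fin m) → ℝ := fun p B =>
    (2 : ℝ) ^ B.card * (if B.Nonempty then 1 / (v p : ℝ) else 1) with hpsi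
  have key : ∀ d : Fin m → Finset P, (∏ l, (2 : ℝ) ^ (d l).card) *
      (1 / (nm v (univ.biUnion d) : ℝ)) = ∏ p : P, psi p (tEquiv P m d p) := by
    intro d
    have h1 : ∏ l, (2 : ℝ) ^ (d l).card = ∏ p : P, (2 : ℝ) ^ (tEquiv P m d p).card := by
      have a1 : ∀ l : Fin m, (2 : ℝ) ^ (d l).card = ∏ p : P, if p ∈ d l then (2 : ℝ) else 1 := by
        intro l
        rw [Finset.prod_ite_mem, Finset.univ_inter, Finset.prod_const]
      have a2 : ∀ p : P, (2 : ℝ) ^ (tEquiv P m d p).card =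
          ∏ l : Fin m, if p ∈ d l then (2 : ℝ) else 1 := by
        intro p
        have e : tEquiv P m d p = univ.filter fun l => p ∈ d l := rfl
        rw [e, ← Finset.prod_filter, Finset.prod_const]
      rw [Finset.prod_congr rfl fun l _ => a1 l, Finset.prod_congr rfl fun p _ => a2 p,
        Finset.prod_comm]
    have h2 : 1 / (nm v (univ.biUnion d) : ℝ) =
        ∏ p : P, (if (tEquiv P m d p).Nonempty then 1 / (v p : ℝ) else 1) := by
      have a1 : ∀ p : P, (if (tEquiv P m d p).Nonempty then 1 / (v p : ℝ) else 1) =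
          if p ∈ univ.biUnion d then 1 / (v p : ℝ) else 1 := by
        intro p
        have e : (tEquiv P m d p).Nonempty ↔ p ∈ univ.biUnion d := by
          have e1 : tEquiv P m d p = univ.filter fun l => p ∈ d l := rfl
          rw [e1, Finset.mem_biUnion]
          constructor
          · rintro ⟨l, hl⟩
            exact ⟨l, Finset.mem_univ _, (Finset.mem_filter.1 hl).2⟩
          · rintro ⟨l, _, hl⟩
            exact ⟨l, Finset.mem_filter.2 ⟨Finset.mem_univ _, hl⟩⟩
        by_cases h : p ∈ univ.biUnion d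
        · rw [if_pos h, if_pos (e.2 h)]
        · rw [if_neg h, if_neg fun hh => h (e.1 hh)]
      rw [Finset.prod_congr rfl fun p _ => a1 p, Finset.prod_ite_mem, Finset.univ_inter]
      unfold nm
      rw [Nat.cast_prod, one_div, ← Finset.prod_inv_distrib]
      exact Finset.prod_congr rfl fun p _ => (one_div _).symm
    rw [h1, h2, ← Finset.prod_mul_distrib]
  rw [Finset.sum_congr rfl fun d _ => key d,
    Equiv.sum_comp (tEquiv P m) (fun g : P → Finset (Fin m) => ∏ p : P, psi p (g p))]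
  have h3 := Finset.prod_univ_sum (fun _ : P => (univ : Finset (Finset (Fin m)))) psi
  rw [Fintype.piFinset_univ] at h3
  rw [← h3]
  have hpos : ∀ p : P, (0 : ℝ) < (v p : ℝ) := fun p => by
    have := hv p
    exact_mod_cast (by omega : 0 < v p)
  refine Finset.prod_le_prod (fun p _ => Finset.sum_nonneg fun B _ => ?_) fun p _ => ?_
  · have := hpos p
    rw [hpsi]
    dsimp only
    split_ifs <;> positivity
  · have hp := hpos p
    have h4 : ∀ B : Finset (Fin m), psi p B ≤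
        (if B = ∅ then (1 : ℝ) else 0) + (2 : ℝ) ^ B.card / (v p : ℝ) := by
      intro B
      rw [hpsi]
      dsimp only
      by_cases hB : B = ∅
      · subst hB
        rw [if_neg Finset.not_nonempty_empty, if_pos rfl, Finset.card_empty, pow_zero, mul_one]
        have : (0 : ℝ) ≤ 1 / (v p : ℝ) := by positivity
        linarith
      · rw [if_pos (Finset.nonempty_iff_ne_empty.2 hB), if_neg hB, zero_add, mul_one_div]
    refine (Finset.sum_le_sum fun B _ => h4 B).trans (le_of_eq ?_)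
    rw [Finset.sum_add_distrib, Finset.sum_ite_eq' univ (∅ : Finset (Fin m)) fun _ => (1 : ℝ),
      if_pos (Finset.mem_univ _), ← Finset.sum_div]
    congr 2
    have h5 := Fintype.sum_pow_mul_eq_add_pow (Fin m) (2 : ℝ) 1
    simp only [one_pow, mul_one, Fintype.card_fin] at h5
    rw [h5]
    norm_num

end Comb

private lemma vp_two {w R : ℕ} (hw : 1 ≤ w) (p : {p // p ∈ Pr w R}) : 2 ≤ vp w R p := by
  have h := p.2
  unfold Pr at h
  rw [Finset.mem_filter] at h
  have h2 := h.2.2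
  unfold vp
  omega

theorem crude_one (w R t A N : ℕ) (hw : 1 ≤ w) (hR : 1 ≤ R) (hA : 1 ≤ A) (hcop : ∀ p ∈ Pr w R, ¬ p ∣ A)
    (hN : R ^ (2 * t) ≤ N) :
    (∑ n ∈ Ico N (2 * N), Lam (vp w R) R (xi w R (A * n - 1)) ^ (2 * t)) / N ≤
      2 * ∏ p ∈ Pr w R, (1 + 9 ^ t / (p : ℝ)) := by
  classical
  have hv : ∀ p : {p // p ∈ Pr w R}, 2 ≤ vp w R p := vp_two hw
  have hN1 : 1 ≤ N := le_trans (Nat.one_le_pow _ _ hR) hN
  have hNpos : (0 : ℝ) < (N : ℝ) := by exact_mod_cast hN1
  -- expand the power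
  have h1 : ∀ n : ℕ, Lam (vp w R) R (xi w R (A * n - 1)) ^ (2 * t) ≤
      ∑ d : Fin (2 * t) → Finset {p // p ∈ Pr w R},
        ∏ l, aa (vp w R) R (xi w R (A * n - 1)) (d l) := by
    intro n
    rw [← Fintype.sum_pow, ← (even_two_mul t).pow_abs]
    exact pow_le_pow_left₀ (abs_nonneg _) (abs_Lam_le hv hR _) _
  have h2 : ∀ d : Fin (2 * t) → Finset {p // p ∈ Pr w R},
      (∑ n ∈ Ico N (2 * N), ∏ l, aa (vp w R) R (xi w R (A * n - 1)) (d l)) / N ≤
        2 * ((∏ l, (2 : ℝ) ^ (d l).card) * (1 / (nm (vp w R) (univ.biUnion d) : ℝ))) := by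
    intro d
    have hD := nm_pos hv (univ.biUnion d)
    have hDr : (0 : ℝ) < (nm (vp w R) (univ.biUnion d) : ℝ) := by exact_mod_cast hD
    have hprod : (0 : ℝ) < ∏ l, (2 : ℝ) ^ (d l).card := Finset.prod_pos fun l _ => by positivity
    by_cases hR' : ∀ l, nm (vp w R) (d l) ≤ R
    · have e1 : ∀ n : ℕ, ∏ l, aa (vp w R) R (xi w R (A * n - 1)) (d l) =
          (∏ l, (2 : ℝ) ^ (d l).card) *
            (if ∀ p ∈ univ.biUnion d, p.1 ∣ A * n - 1 then (1 : ℝ) else 0) := by
        intro n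
        by_cases hn : ∀ p ∈ univ.biUnion d, p.1 ∣ A * n - 1
        · rw [if_pos hn, mul_one]
          refine Finset.prod_congr rfl fun l _ => ?_
          have hsub : d l ⊆ xi w R (A * n - 1) := by
            intro p hp
            unfold xi
            exact Finset.mem_filter.2 ⟨Finset.mem_univ _,
              hn p (Finset.mem_biUnion.2 ⟨l, Finset.mem_univ _, hp⟩)⟩
          unfold aa
          rw [if_pos ⟨hsub, hR' l⟩]
        · rw [if_neg hn, mul_zero]
          push Not at hn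
          obtain ⟨p, hp, hpn⟩ := hn
          obtain ⟨l, _, hl⟩ := Finset.mem_biUnion.1 hp
          refine Finset.prod_eq_zero (Finset.mem_univ l) ?_
          unfold aa
          rw [if_neg]
          rintro ⟨hs, _⟩
          have := hs hl
          unfold xi at this
          exact hpn (Finset.mem_filter.1 this).2
      rw [Finset.sum_congr rfl fun n _ => e1 n, ← Finset.mul_sum, Finset.sum_boole]
      have h3 := cnt_one w R A N hA hcop hN1 (univ.biUnion d)
      have h4 : (1 : ℝ) / (N : ℝ) ≤ 1 / (nm (vp w R) (univ.biUnion d) : ℝ) := by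
        refine one_div_le_one_div_of_le hDr ?_
        exact_mod_cast (nm_le_pow hv d hR').trans hN
      rw [mul_div_assoc]
      have h5 : (((Ico N (2 * N)).filter fun n => ∀ p ∈ univ.biUnion d, p.1 ∣ A * n - 1).card : ℝ) /
          N ≤ 2 * (1 / (nm (vp w R) (univ.biUnion d) : ℝ)) := by linarith
      calc (∏ l, (2 : ℝ) ^ (d l).card) * ((((Ico N (2 * N)).filter fun n =>
            ∀ p ∈ univ.biUnion d, p.1 ∣ A * n - 1).card : ℝ) / N)
          ≤ (∏ l, (2 : ℝ) ^ (d l).card) * (2 * (1 / (nm (vp w R) (univ.biUnion d) : ℝ))) :=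
            mul_le_mul_of_nonneg_left h5 hprod.le
        _ = _ := by ring
    · push Not at hR'
      obtain ⟨l, hl⟩ := hR'
      have e1 : ∀ n : ℕ, ∏ l, aa (vp w R) R (xi w R (A * n - 1)) (d l) = 0 := by
        intro n
        refine Finset.prod_eq_zero (Finset.mem_univ l) ?_
        unfold aa
        rw [if_neg]
        rintro ⟨_, h⟩
        omega
      rw [Finset.sum_congr rfl fun n _ => e1 n, Finset.sum_const_zero, zero_div]
      positivity
  calc (∑ n ∈ Ico N (2 * N), Lam (vp w R) R (xi w R (A * n - 1)) ^ (2 * t)) / N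
      ≤ (∑ n ∈ Ico N (2 * N), ∑ d : Fin (2 * t) → Finset {p // p ∈ Pr w R},
          ∏ l, aa (vp w R) R (xi w R (A * n - 1)) (d l)) / N :=
        div_le_div_of_nonneg_right (Finset.sum_le_sum fun n _ => h1 n) hNpos.le
    _ = ∑ d : Fin (2 * t) → Finset {p // p ∈ Pr w R},
          (∑ n ∈ Ico N (2 * N), ∏ l, aa (vp w R) R (xi w R (A * n - 1)) (d l)) / N := by
        rw [Finset.sum_comm, Finset.sum_div]
    _ ≤ ∑ d : Fin (2 * t) → Finset {p // p ∈ Pr w R},
          2 * ((∏ l, (2 : ℝ) ^ (d l).card) * (1 / (nm (vp w R) (univ.biUnion d) : ℝ))) :=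
        Finset.sum_le_sum fun d _ => h2 d
    _ = 2 * ∑ d : Fin (2 * t) → Finset {p // p ∈ Pr w R},
          ((∏ l, (2 : ℝ) ^ (d l).card) * (1 / (nm (vp w R) (univ.biUnion d) : ℝ))) := by
        rw [Finset.mul_sum]
    _ ≤ 2 * ∏ p : {p // p ∈ Pr w R}, (1 + 3 ^ (2 * t) / (vp w R p : ℝ)) :=
        mul_le_mul_of_nonneg_left (sum_tuples hv (2 * t)) (by norm_num)
    _ = 2 * ∏ p ∈ Pr w R, (1 + 9 ^ t / (p : ℝ)) := by
        congr 1
        rw [← Finset.prod_coe_sort (Pr w R) fun p => (1 + 9 ^ t / (p : ℝ))]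
        refine Finset.prod_congr rfl fun p _ => ?_
        rw [pow_mul]
        norm_num [vp]

theorem crude (w R : ℕ) (hw : 1 ≤ w) (hR : 1 ≤ R) (I : Type) [Fintype I] [DecidableEq I] [Nonempty I]
    (A : I → ℕ) (hA : ∀ i, 1 ≤ A i) (hcop : ∀ i, ∀ p ∈ Pr w R, ¬ p ∣ A i) (N : ℕ)
    (hN : R ^ (2 * Fintype.card I) ≤ N) :
    (∑ n ∈ Ico N (2 * N), ∏ i, nuw w R (A i * n - 1)) / N ≤
      2 * Fintype.card I * VV (vp w R) R ^ Fintype.card I *
        ∏ p ∈ Pr w R, (1 + 9 ^ Fintype.card I / (p : ℝ)) := by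
  classical
  have hV : 0 < VV (vp w R) R := VV_pos _ (vp_two hw) R hR
  set t := Fintype.card I with ht
  have hmax : ∀ x : I → ℝ, (∀ i, 0 ≤ x i) → ∏ i, x i ≤ ∑ i, x i ^ t := by
    intro x hx
    obtain ⟨i0, _, hi0⟩ := Finset.exists_max_image (univ : Finset I) x Finset.univ_nonempty
    calc ∏ i, x i ≤ ∏ _i : I, x i0 :=
          Finset.prod_le_prod (fun i _ => hx i) fun i hi => hi0 i hi
      _ = x i0 ^ t := by rw [Finset.prod_const, Finset.card_univ]
      _ ≤ ∑ i, x i ^ t := Finset.single_le_sum (f := fun i => x i ^ t)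
          (fun i _ => pow_nonneg (hx i) _) (Finset.mem_univ i0)
  have h1 : ∀ n : ℕ, ∏ i, nuw w R (A i * n - 1) ≤ VV (vp w R) R ^ t *
      ∑ i, Lam (vp w R) R (xi w R (A i * n - 1)) ^ (2 * t) := by
    intro n
    unfold nuw
    rw [Finset.prod_mul_distrib, Finset.prod_const, Finset.card_univ]
    refine mul_le_mul_of_nonneg_left ?_ (pow_nonneg hV.le _)
    refine (hmax (fun i => Lam (vp w R) R (xi w R (A i * n - 1)) ^ 2)
      fun i => sq_nonneg _).trans (le_of_eq ?_)
    exact Finset.sum_congr rfl fun i _ => by rw [← pow_mul]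
  have hN0 : (0 : ℝ) ≤ (N : ℝ) := Nat.cast_nonneg _
  calc (∑ n ∈ Ico N (2 * N), ∏ i, nuw w R (A i * n - 1)) / N
      ≤ (∑ n ∈ Ico N (2 * N), VV (vp w R) R ^ t *
          ∑ i, Lam (vp w R) R (xi w R (A i * n - 1)) ^ (2 * t)) / N :=
        div_le_div_of_nonneg_right (Finset.sum_le_sum fun n _ => h1 n) hN0
    _ = VV (vp w R) R ^ t * ∑ i, (∑ n ∈ Ico N (2 * N),
          Lam (vp w R) R (xi w R (A i * n - 1)) ^ (2 * t)) / N := by
        rw [← Finset.mul_sum, Finset.sum_comm, mul_div_assoc, Finset.sum_div]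
    _ ≤ VV (vp w R) R ^ t * ∑ _i : I, 2 * ∏ p ∈ Pr w R, (1 + 9 ^ t / (p : ℝ)) := by
        refine mul_le_mul_of_nonneg_left (Finset.sum_le_sum fun i _ => ?_) (pow_nonneg hV.le _)
        exact crude_one w R t (A i) N hw hR (hA i) (hcop i) hN
    _ = 2 * Fintype.card I * VV (vp w R) R ^ t * ∏ p ∈ Pr w R, (1 + 9 ^ t / (p : ℝ)) := by
        rw [Finset.sum_const, Finset.card_univ, nsmul_eq_mul]
        ring

end Pool.CG
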