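import Mathlib

/-!
# CG-Defs: definitions (long geometric progressions in the shifted primes, MP_c77da8_nt)

Half R: the relative Szemerédi theorem. Paper: `/team-store/CG_paper.md`, section 1.
-/

set_option autoImplicit false

namespace Pool.CG

open Finset

noncomputable section

/-- average over a finite type -/
def av {Ω : Type} [Fintype Ω] (F : Ω → ℝ) : ℝ := (∑ x, F x) / (Fintype.card Ω : ℝ)

section Hyper

variable {K X : Type} [Fintype K] [DecidableEq K] [Fintype X]

/-- `F` does not depend on the coordinate `i` -/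
def Ind (i : K) (F : (K → X) → ℝ) : Prop := ∀ x v, F (Function.update x i v) = F x

/-- coordinate `l` is `x' l` for `l ∈ T` and `x l` otherwise -/
def mix (T : Finset K) (x x' : K → X) : K → X := fun l => if l ∈ T then x' l else x l

/-- the linear forms condition -/
def LF (η : ℝ) (ν : K → (K → X) → ℝ) : Prop :=
  ∀ S : Finset (K × Finset K), (∀ p ∈ S, p.1 ∉ p.2) →
    |av (fun z : (K → X) × (K → X) => ∏ p ∈ S, ν p.1 (mix p.2 z.1 z.2)) - 1| ≤ η

/-- the cut norm of `F` (a function which does not depend on the coordinate `j`) is at most `ε` -/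
def Cut (j : K) (F : (K → X) → ℝ) (ε : ℝ) : Prop :=
  ∀ u : K → (K → X) → ℝ, (∀ i x, 0 ≤ u i x ∧ u i x ≤ 1) → (∀ i, Ind i (u i)) →
    |av (fun x => F x * ∏ i ∈ univ.erase j, u i x)| ≤ ε

end Hyper

/-- the linear forms `ψ_j(x) = ∑_i (i - j) x_i`; `ψ_0 x, ψ_1 x, …` is an arithmetic progression with difference
`-∑_i x_i` and `ψ_j` does not depend on `x_j` -/
def psi {G : Type} [AddCommGroup G] {k : ℕ} (j : Fin k) (x : Fin k → G) : G :=
  ∑ i : Fin k, (((i : ℕ) : ℤ) - ((j : ℕ) : ℤ)) • x i

end

end Pool.CG
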