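import Pool.Agent.Lib.MP_c77da8_nt.CG.Step

/-!
# CG-GCS: Gowers-Cauchy-Schwarz inequality with weights (paper 1.4, conclusion)

PROOF.  Claim, by induction on the finite set `S ⊆ S0`: `|Phi ∅|^(2^|S|) ≤ 2^(2^|S| - 1) |Phi S|`.  `S = ∅`: trivial.
`S → insert i S`: square the claim for `S` and use `phi_step`: `(Phi S)² ≤ 2 |Phi (insert i S)|` (the average of the product of
the `w_i` is `≤ 2` and `≥ 0`, `w_i ≥ |a_i| ≥ 0`); `2 (2^n - 1) + 1 = 2^(n+1) - 1`.  `S = S0` gives the theorem.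
-/

set_option autoImplicit false

namespace Pool.CG

open Finset

variable {K X Y : Type} [Fintype K] [DecidableEq K] [Fintype X] [Fintype Y]

theorem gcs (F : (K → X) → Y → ℝ) (a w : K → (K → X) → Y → ℝ) (S0 : Finset K)
    (ha : ∀ i ∈ S0, ∀ x y, |a i x y| ≤ w i x y) (hai : ∀ i ∈ S0, ∀ y, Ind i (fun x => a i x y))
    (hwi : ∀ i ∈ S0, ∀ y, Ind i (fun x => w i x y))
    (hw : ∀ i ∈ S0, ∀ S, S ⊆ S0.erase i →
      av (fun z : (K → X) × (K → X) × Y => ∏ T ∈ S.powerset, w i (mix T z.1 z.2.1) z.2.2) ≤ 2) :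
    |Phi F a w S0 ∅| ^ (2 ^ S0.card) ≤ 2 ^ (2 ^ S0.card) * |Phi F a w S0 S0| := by
  have key : ∀ S ⊆ S0, 2 * |Phi F a w S0 ∅| ^ (2 ^ S.card) ≤
      2 ^ (2 ^ S.card) * |Phi F a w S0 S| := by
    intro S
    induction S using Finset.induction_on with
    | empty =>
      intro _
      rw [Finset.card_empty, pow_zero, pow_one, pow_one]
    | insert i S hiS ih =>
      intro hS
      have hS' : S ⊆ S0 := fun l hl => hS (Finset.mem_insert_of_mem hl)
      have hi0 : i ∈ S0 := hS (Finset.mem_insert_self i S)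
      have h1 := ih hS'
      have h3 := phi_step F a w S0 S i hi0 hiS (ha i hi0) (hai i hi0) (hwi i hi0)
      have h4 := hw i hi0 S (fun l hl => Finset.mem_erase.2 ⟨fun h => hiS (h ▸ hl), hS' hl⟩)
      have hW : 0 ≤ av (fun z : (K → X) × (K → X) × Y =>
          ∏ T ∈ S.powerset, w i (mix T z.1 z.2.1) z.2.2) :=
        av_nonneg fun z => Finset.prod_nonneg fun T _ =>
          le_trans (abs_nonneg _) (ha i hi0 _ _)
      have h5 : (Phi F a w S0 S) ^ 2 ≤ 2 * |Phi F a w S0 (insert i S)| :=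
        calc (Phi F a w S0 S) ^ 2 ≤ _ := h3
          _ ≤ av (fun z : (K → X) × (K → X) × Y =>
              ∏ T ∈ S.powerset, w i (mix T z.1 z.2.1) z.2.2) * |Phi F a w S0 (insert i S)| :=
            mul_le_mul_of_nonneg_left (le_abs_self _) hW
          _ ≤ _ := mul_le_mul_of_nonneg_right h4 (abs_nonneg _)
      rw [Finset.card_insert_of_notMem hiS, pow_succ, pow_mul, pow_mul]
      have h6 : (2 * |Phi F a w S0 ∅| ^ (2 ^ S.card)) ^ 2 ≤
          (2 ^ (2 ^ S.card) * |Phi F a w S0 S|) ^ 2 :=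
        pow_le_pow_left₀ (by positivity) h1 2
      rw [mul_pow, mul_pow, sq_abs] at h6
      have h7 : ((2 : ℝ) ^ (2 ^ S.card)) ^ 2 * (Phi F a w S0 S) ^ 2 ≤
          ((2 : ℝ) ^ (2 ^ S.card)) ^ 2 * (2 * |Phi F a w S0 (insert i S)|) :=
        mul_le_mul_of_nonneg_left h5 (by positivity)
      nlinarith [h6, h7]
  have h := key S0 (Finset.Subset.refl _)
  have h0 : 0 ≤ |Phi F a w S0 ∅| ^ (2 ^ S0.card) := by positivity
  linarith

end Pool.CG
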