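import Pool.Agent.Lib.MP_c77da8_nt.CG.PLog

/-!
# CG-N-Jen: the convexity inequality with a general exponent

`λ_p = c/(δ p log p)`, `∑_{p ∈ Q} λ_p ≤ 1`; by convexity of `exp` (Jensen, weight `1 - ∑ λ_p` at `0`):
`exp(c ∑_Q 1/p) = exp(∑_Q λ_p δ log p) ≤ 1 + ∑_Q λ_p p^δ ≤ 1 + (3/2) (c/δ) ∑_Q p^(δ - 1)`, as `log p ≥ 2/3`.
-/

set_option autoImplicit false

namespace Pool.CG

open Finset

theorem jensen_gen (c δ : ℝ) (hc : 0 ≤ c) (hδ : 0 < δ) (Q : Finset ℕ) (hQ : ∀ p ∈ Q, 2 ≤ p)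
    (h : c * ∑ p ∈ Q, 1 / ((p : ℝ) * Real.log p) ≤ δ) :
    Real.exp (c * ∑ p ∈ Q, 1 / (p : ℝ)) ≤ 1 + 3 / 2 * (c / δ) * ∑ p ∈ Q, (p : ℝ) ^ (δ - 1) := by
  have hl2 : 2 / 3 ≤ Real.log 2 := by
    have := Real.log_two_gt_d9
    linarith
  have hlp : ∀ p ∈ Q, 2 / 3 ≤ Real.log p ∧ (0 : ℝ) < p := by
    intro p hp
    have h1 : (2 : ℝ) ≤ p := by exact_mod_cast hQ p hp
    exact ⟨hl2.trans (Real.log_le_log (by norm_num) h1), by linarith⟩
  set la : ℕ → ℝ := fun p => c / δ * (1 / ((p : ℝ) * Real.log p)) with hla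
  have hla0 : ∀ p ∈ Q, 0 ≤ la p := by
    intro p hp
    obtain ⟨h1, h2⟩ := hlp p hp
    have h3 : 0 < Real.log p := by linarith
    rw [hla]
    positivity
  have hsum : ∑ p ∈ Q, la p ≤ 1 := by
    rw [hla, ← Finset.mul_sum, div_mul_eq_mul_div, div_le_one hδ]
    exact h
  have hJ := convexOn_exp.map_sum_le (t := insertNone Q)
    (w := fun o : Option ℕ => o.elim (1 - ∑ p ∈ Q, la p) la)
    (p := fun o : Option ℕ => o.elim (0 : ℝ) fun p => δ * Real.log p)
    (by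
      intro o ho
      rcases o with _ | p
      · show 0 ≤ 1 - ∑ p ∈ Q, la p
        linarith
      · exact hla0 p (by simpa using ho))
    (by
      rw [Finset.sum_insertNone]
      simp)
    (by
      intro o _
      exact Set.mem_univ _)
  rw [Finset.sum_insertNone, Finset.sum_insertNone] at hJ
  simp only [Option.elim, smul_eq_mul, mul_zero, zero_add, Real.exp_zero, mul_one] at hJ
  have e1 : ∑ p ∈ Q, la p * (δ * Real.log p) = c * ∑ p ∈ Q, 1 / (p : ℝ) := by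
    rw [Finset.mul_sum]
    refine Finset.sum_congr rfl fun p hp => ?_
    obtain ⟨h1, h2⟩ := hlp p hp
    have h3 : Real.log p ≠ 0 := by
      have : 0 < Real.log p := by linarith
      exact this.ne'
    rw [hla]
    field_simp
  rw [e1] at hJ
  refine hJ.trans ?_
  have e2 : ∑ p ∈ Q, la p * Real.exp (δ * Real.log p) ≤
      3 / 2 * (c / δ) * ∑ p ∈ Q, (p : ℝ) ^ (δ - 1) := by
    rw [Finset.mul_sum]
    refine Finset.sum_le_sum fun p hp => ?_
    obtain ⟨h1, h2⟩ := hlp p hp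
    have h3 : 0 < Real.log p := by linarith
    have e3 : (p : ℝ) ^ (δ - 1) = Real.exp (δ * Real.log p) / p := by
      rw [Real.rpow_sub h2, Real.rpow_one, Real.rpow_def_of_pos h2]
      congr 2
      ring
    rw [e3, hla]
    have h4 : c / δ * (1 / ((p : ℝ) * Real.log p)) * Real.exp (δ * Real.log p) =
        1 / Real.log p * (c / δ * (Real.exp (δ * Real.log p) / p)) := by
      field_simp
    have h5 : 1 / Real.log p ≤ 3 / 2 := by
      rw [div_le_iff₀ h3]
      linarith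
    have h6 : 0 ≤ c / δ * (Real.exp (δ * Real.log p) / p) := by positivity
    calc _ = 1 / Real.log p * (c / δ * (Real.exp (δ * Real.log p) / p)) := h4
      _ ≤ 3 / 2 * (c / δ * (Real.exp (δ * Real.log p) / p)) := mul_le_mul_of_nonneg_right h5 h6
      _ = _ := by ring
  have h7 : 0 ≤ ∑ p ∈ Q, la p := Finset.sum_nonneg hla0
  linarith

end Pool.CG
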