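import Pool.Agent.Lib.MP_c77da8_nt.CG.Basic

/-!
# CG-LFw: averages of products of `ν_i` are linear forms averages (paper 1.5)

`wAB ν A B j i x y = νA_i(x) νB_i(x[j := y])`, where `νA_i = ν_i` if `i ∈ A` and `1` otherwise.

PROOF of `lf_w`.  All `T ⊆ S` do not contain `j` (and not `i`), so the integrand does not depend on `x'_j`; by `av_rename`
rename `y` to `x'_j`; `(mix T x x')[j := x'_j] = mix (insert j T) x x'` (`mix_insert`).  So the average is
`av ∏_{T ⊆ S} νA_i(mix T x x') νB_i(mix (insert j T) x x')`, the average of `LF` for the set of pairs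
`{(i,T) : T ⊆ S}` (if `i ∈ A`) together with `{(i, insert j T) : T ⊆ S}` (if `i ∈ B`); the pairs are different, `i ∉ T` and
`i ∉ insert j T` as `i ≠ j`.  So it is `≤ 1 + η`.

PROOF of `lf_phi`.  Rename `y` to `x'_j` again (no `T ⊆ univ.erase j` contains `j`).  Expand
`∏_{T ⊆ S0} (ν_j(mix T) - 1) = ∑_{𝒯 ⊆ P(S0)} (-1)^{|P(S0) - 𝒯|} ∏_{T ∈ 𝒯} ν_j(mix T)` (`Finset.prod_add` or
`Finset.prod_sub` form: write `ν - 1 = ν + (-1)`).  For each `𝒯` the average of `∏_{T ∈ 𝒯} ν_j(mix T x x')` times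
`∏_{i ≠ j} ∏_{T ⊆ S0 - i} νA_i(mix T) νB_i(mix (insert j T))` is a product of the kind in `LF`, so `1 + O(η)` with constant 1.
`∑_𝒯 (-1)^{|P(S0) - 𝒯|} = 0` as `P(S0)` is not empty (take `ν = 1` in the expansion).  Number of `𝒯`:
`2^(2^(|K| - 1))`.
-/

set_option autoImplicit false

namespace Pool.CG

open Finset

variable {K X : Type} [Fintype K] [DecidableEq K] [Fintype X]

noncomputable def wAB (ν : K → (K → X) → ℝ) (A B : Finset K) (j i : K) (x : K → X) (y : X) : ℝ :=
  nuA ν A i x * nuA ν B i (Function.update x j y)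

private theorem nuA_prod (ν : K → (K → X) → ℝ) (A : Finset K) (i : K) {ι : Type} (s : Finset ι)
    (m : ι → K → X) :
    ∏ T ∈ s, nuA ν A i (m T) = if i ∈ A then ∏ T ∈ s, ν i (m T) else 1 := by
  unfold nuA
  split_ifs with h
  · rfl
  · simp

private theorem LF.idx {η : ℝ} {ν : K → (K → X) → ℝ} (h : LF η ν) {ι : Type} (s : Finset ι)
    (f : ι → K × Finset K) (hinj : Set.InjOn f (s : Set ι)) (hm : ∀ a ∈ s, (f a).1 ∉ (f a).2) :
    |av (fun z : (K → X) × (K → X) => ∏ a ∈ s, ν (f a).1 (mix (f a).2 z.1 z.2)) - 1| ≤ η := by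
  classical
  have h1 := h (s.image f) (by
    intro p hp
    obtain ⟨a, ha, rfl⟩ := mem_image.1 hp
    exact hm a ha)
  have h2 : av (fun z : (K → X) × (K → X) => ∏ a ∈ s, ν (f a).1 (mix (f a).2 z.1 z.2)) =
      av (fun z : (K → X) × (K → X) => ∏ p ∈ s.image f, ν p.1 (mix p.2 z.1 z.2)) :=
    av_congr fun z => (prod_image (f := fun p => ν p.1 (mix p.2 z.1 z.2)) hinj).symm
  rw [h2]
  exact h1

/-- the product over pairs -/
private theorem pair_prod (g : K × Bool → ℝ) (A B I : Finset K) :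
    ∏ p ∈ (I ×ˢ (univ : Finset Bool)).filter (fun p => if p.2 then p.1 ∈ B else p.1 ∈ A), g p =
      ∏ i ∈ I, ((if i ∈ A then g (i, false) else 1) * (if i ∈ B then g (i, true) else 1)) := by
  rw [prod_filter, prod_product]
  refine prod_congr rfl fun i _ => ?_
  rw [Fintype.prod_bool]
  simp only [if_true, Bool.false_eq_true, if_false]
  rw [mul_comm]

private theorem LF.gen {η : ℝ} {ν : K → (K → X) → ℝ} (h : LF η ν) (j : K) (A B I : Finset K)
    (hI : I ⊆ univ.erase j) (S : K → Finset K) (hS : ∀ i ∈ I, S i ⊆ (univ.erase j).erase i)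
    (P : Finset (Finset K)) (hP : ∀ T ∈ P, T ⊆ univ.erase j) :
    |av (fun z : (K → X) × (K → X) =>
      (∏ T ∈ P, ν j (mix T z.1 z.2)) *
        ∏ i ∈ I, ∏ T ∈ (S i).powerset, wAB ν A B j i (mix T z.1 z.2) (z.2 j)) - 1| ≤ η := by
  classical
  have hjT : ∀ T : Finset K, T ⊆ univ.erase j → j ∉ T := fun T hT hj => by
    have := hT hj
    simp at this
  have hSj : ∀ i ∈ I, ∀ T, T ⊆ S i → j ∉ T := fun i hi T hT =>
    hjT T ((hT.trans (hS i hi)).trans (erase_subset _ _))
  have hSi : ∀ i ∈ I, ∀ T, T ⊆ S i → i ∉ T := fun i hi T hT hit => by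
    have := (hT.trans (hS i hi)) hit
    simp at this
  have hij : ∀ i ∈ I, i ≠ j := fun i hi => (mem_erase.1 (hI hi)).1
  let Q : Finset (K × Bool) :=
    (I ×ˢ (univ : Finset Bool)).filter (fun p => if p.2 then p.1 ∈ B else p.1 ∈ A)
  let s2 : Finset ((p : K × Bool) × Finset K) := Q.sigma (fun p => (S p.1).powerset)
  let s : Finset (Finset K ⊕ ((p : K × Bool) × Finset K)) := P.disjSum s2
  let f : Finset K ⊕ ((p : K × Bool) × Finset K) → K × Finset K :=
    Sum.elim (fun T => (j, T)) (fun x => (x.1.1, if x.1.2 then insert j x.2 else x.2))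
  have hmem : ∀ x : (p : K × Bool) × Finset K, x ∈ s2 → x.1.1 ∈ I ∧ x.2 ⊆ S x.1.1 := by
    intro x hx
    have h1 := mem_sigma.1 hx
    have h2 := mem_product.1 (mem_filter.1 h1.1).1
    exact ⟨h2.1, mem_powerset.1 h1.2⟩
  have hinj : Set.InjOn f (s : Set (Finset K ⊕ ((p : K × Bool) × Finset K))) := by
    rintro (T | x) ha (T' | x') hb hab
    · have : T = T' := by simpa [f] using hab
      rw [this]
    · exfalso
      have hx := hmem x' (Finset.inr_mem_disjSum.1 (mem_coe.1 hb))
      have h1 : j = x'.1.1 := congrArg (fun q : K × Finset K => q.1) hab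
      exact hij _ hx.1 h1.symm
    · exfalso
      have hx := hmem x (Finset.inr_mem_disjSum.1 (mem_coe.1 ha))
      have h1 : x.1.1 = j := congrArg (fun q : K × Finset K => q.1) hab
      exact hij _ hx.1 h1
    · have hx := hmem x (Finset.inr_mem_disjSum.1 (mem_coe.1 ha))
      have hx' := hmem x' (Finset.inr_mem_disjSum.1 (mem_coe.1 hb))
      have h1 : x.1.1 = x'.1.1 := congrArg (fun q : K × Finset K => q.1) hab
      have h2 : (if x.1.2 then insert j x.2 else x.2) = (if x'.1.2 then insert j x'.2 else x'.2) :=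
        congrArg (fun q : K × Finset K => q.2) hab
      have hj := hSj _ hx.1 _ hx.2
      have hj' := hSj _ hx'.1 _ hx'.2
      obtain ⟨⟨i, b⟩, T⟩ := x
      obtain ⟨⟨i', b'⟩, T'⟩ := x'
      simp only at h1 h2 hj hj'
      subst h1
      have key : b = b' ∧ T = T' := by
        cases b <;> cases b'
        · exact ⟨rfl, by simpa using h2⟩
        · exfalso
          simp only [Bool.false_eq_true, if_false, if_true] at h2
          exact hj (h2 ▸ mem_insert_self j T')
        · exfalso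
          simp only [Bool.false_eq_true, if_false, if_true] at h2
          exact hj' (h2 ▸ mem_insert_self j T)
        · refine ⟨rfl, ?_⟩
          simp only [if_true] at h2
          rw [← erase_insert hj, h2, erase_insert hj']
      obtain ⟨rfl, rfl⟩ := key
      rfl
  have hm : ∀ a ∈ s, (f a).1 ∉ (f a).2 := by
    rintro (T | x) ha
    · exact hjT T (hP T (Finset.inl_mem_disjSum.1 ha))
    · have hx := hmem x (Finset.inr_mem_disjSum.1 ha)
      have hi := hSi _ hx.1 _ hx.2
      have hne := hij _ hx.1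
      show x.1.1 ∉ (if x.1.2 then insert j x.2 else x.2)
      split_ifs
      · rw [mem_insert]
        rintro (h | h)
        · exact hne h
        · exact hi h
      · exact hi
  have h1 := h.idx s f hinj hm
  refine le_of_eq_of_le ?_ h1
  congr 2
  refine av_congr fun z => ?_
  have e1 : ∏ a ∈ s, ν (f a).1 (mix (f a).2 z.1 z.2) =
      (∏ T ∈ P, ν j (mix T z.1 z.2)) *
        ∏ x ∈ s2, ν x.1.1 (mix (if x.1.2 then insert j x.2 else x.2) z.1 z.2) :=
    Finset.prod_disjSum P s2 _
  rw [e1]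
  congr 1
  have e2 : ∏ x ∈ s2, ν x.1.1 (mix (if x.1.2 then insert j x.2 else x.2) z.1 z.2) =
      ∏ p ∈ Q, ∏ T ∈ (S p.1).powerset, ν p.1 (mix (if p.2 then insert j T else T) z.1 z.2) :=
    Finset.prod_sigma _ _ _
  rw [e2]
  have e3 := pair_prod (fun p => ∏ T ∈ (S p.1).powerset,
    ν p.1 (mix (if p.2 then insert j T else T) z.1 z.2)) A B I
  refine Eq.trans ?_ e3.symm
  refine prod_congr rfl fun i _ => ?_
  have e4 : ∏ T ∈ (S i).powerset, wAB ν A B j i (mix T z.1 z.2) (z.2 j) =
      (∏ T ∈ (S i).powerset, nuA ν A i (mix T z.1 z.2)) *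
        ∏ T ∈ (S i).powerset, nuA ν B i (mix (insert j T) z.1 z.2) := by
    rw [← prod_mul_distrib]
    refine prod_congr rfl fun T _ => ?_
    unfold wAB
    rw [mix_insert]
  rw [e4, nuA_prod ν A i _ (fun T => mix T z.1 z.2), nuA_prod ν B i _ (fun T => mix (insert j T) z.1 z.2)]
  simp

theorem lf_w (η : ℝ) (ν : K → (K → X) → ℝ) (h : LF η ν) (hInd : ∀ i, Ind i (ν i)) (j i : K) (hij : i ≠ j)
    (A B : Finset K) (S : Finset K) (hS : S ⊆ (univ.erase j).erase i) :
    av (fun z : (K → X) × (K → X) × X => ∏ T ∈ S.powerset, wAB ν A B j i (mix T z.1 z.2.1) z.2.2) ≤ 1 + η := by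
  have hjS : ∀ T ∈ S.powerset, j ∉ T := fun T hT hj => by
    have := hS (mem_powerset.1 hT hj)
    simp at this
  have h0 := av_rename j (fun (x x' : K → X) (y : X) => ∏ T ∈ S.powerset, wAB ν A B j i (mix T x x') y)
    (fun x x' v y => prod_congr rfl fun T hT => by rw [mix_update_right_not_mem (hjS T hT)])
  rw [h0]
  have h1 := h.gen j A B {i} (by simp [hij]) (fun _ => S)
    (fun i' hi' => by rw [mem_singleton.1 hi']; exact hS) ∅ (by simp)
  simp only [prod_empty, one_mul, prod_singleton] at h1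
  have := abs_le.1 h1
  linarith [this.2]

theorem lf_phi (η : ℝ) (ν : K → (K → X) → ℝ) (h : LF η ν) (hInd : ∀ i, Ind i (ν i)) (j : K) (A B : Finset K) :
    |av (fun z : (K → X) × (K → X) × X =>
      (∏ T ∈ (univ.erase j).powerset, (ν j (mix T z.1 z.2.1) - 1)) *
        ∏ i ∈ univ.erase j, ∏ T ∈ ((univ.erase j).erase i).powerset, wAB ν A B j i (mix T z.1 z.2.1) z.2.2)| ≤
      2 ^ (2 ^ Fintype.card K) * η := by
  classical
  have hj1 : ∀ T ∈ (univ.erase j).powerset, j ∉ T := fun T hT hj => by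
    have := (mem_powerset.1 hT) hj
    simp at this
  have hj2 : ∀ i, ∀ T ∈ ((univ.erase j).erase i).powerset, j ∉ T := fun i T hT hj => by
    have := (mem_powerset.1 hT) hj
    simp at this
  have h0 := av_rename j (fun (x x' : K → X) (y : X) =>
      (∏ T ∈ (univ.erase j).powerset, (ν j (mix T x x') - 1)) *
        ∏ i ∈ univ.erase j, ∏ T ∈ ((univ.erase j).erase i).powerset, wAB ν A B j i (mix T x x') y)
    (fun x x' v y => by
      congr 1
      · exact prod_congr rfl fun T hT => by rw [mix_update_right_not_mem (hj1 T hT)]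
      · exact prod_congr rfl fun i _ => prod_congr rfl fun T hT => by
          rw [mix_update_right_not_mem (hj2 i T hT)])
  rw [h0]
  obtain ⟨R, hR⟩ : ∃ R : (K → X) × (K → X) → ℝ, R = fun z => ∏ i ∈ univ.erase j,
    ∏ T ∈ ((univ.erase j).erase i).powerset, wAB ν A B j i (mix T z.1 z.2) (z.2 j) := ⟨_, rfl⟩
  obtain ⟨c, hc⟩ : ∃ c : Finset (Finset K) → ℝ, c = fun P =>
    ∏ T ∈ (univ.erase j).powerset \ P, (-1 : ℝ) := ⟨_, rfl⟩
  have hcabs : ∀ P, |c P| = 1 := fun P => by
    rw [hc]
    simp only [prod_const, abs_pow, abs_neg, abs_one, one_pow]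
  have hexp : ∀ z : (K → X) × (K → X), (∏ T ∈ (univ.erase j).powerset, (ν j (mix T z.1 z.2) - 1)) * R z =
      ∑ P ∈ (univ.erase j).powerset.powerset, c P * ((∏ T ∈ P, ν j (mix T z.1 z.2)) * R z) := by
    intro z
    have e := Finset.prod_add (fun T => ν j (mix T z.1 z.2)) (fun _ => (-1 : ℝ)) (univ.erase j).powerset
    have e' : ∏ T ∈ (univ.erase j).powerset, (ν j (mix T z.1 z.2) - 1) =
        ∏ T ∈ (univ.erase j).powerset, (ν j (mix T z.1 z.2) + (-1)) :=
      prod_congr rfl fun T _ => by ring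
    rw [e', e, sum_mul]
    refine sum_congr rfl fun P _ => ?_
    rw [hc]
    ring
  have hsum0 : ∑ P ∈ (univ.erase j).powerset.powerset, c P = 0 := by
    have e := Finset.prod_add (fun _ : Finset K => (1 : ℝ)) (fun _ => (-1 : ℝ)) (univ.erase j).powerset
    have e2 : ∏ T ∈ (univ.erase j).powerset, ((1 : ℝ) + (-1)) = 0 := by
      refine prod_eq_zero (i := ∅) (by simp) (by norm_num)
    rw [e2] at e
    rw [hc]
    refine Eq.trans ?_ e.symm
    refine sum_congr rfl fun P _ => ?_
    simp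
  have hav : av (fun z : (K → X) × (K → X) =>
      (∏ T ∈ (univ.erase j).powerset, (ν j (mix T z.1 z.2) - 1)) * R z) =
      ∑ P ∈ (univ.erase j).powerset.powerset,
        c P * (av (fun z : (K → X) × (K → X) => (∏ T ∈ P, ν j (mix T z.1 z.2)) * R z) - 1) := by
    rw [av_congr hexp, av_sum]
    simp only [mul_sub, mul_one, sum_sub_distrib, hsum0, sub_zero]
    exact sum_congr rfl fun P _ => av_const_mul _ _
  have hbd : ∀ P ∈ (univ.erase j).powerset.powerset,
      |c P * (av (fun z : (K → X) × (K → X) => (∏ T ∈ P, ν j (mix T z.1 z.2)) * R z) - 1)| ≤ η := by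
    intro P hP
    rw [abs_mul, hcabs, one_mul, hR]
    exact h.gen j A B (univ.erase j) (Subset.refl _) (fun i => (univ.erase j).erase i)
      (fun i _ => Subset.refl _) P (fun T hT => mem_powerset.1 (mem_powerset.1 hP hT))
  have hfin : |av (fun z : (K → X) × (K → X) =>
      (∏ T ∈ (univ.erase j).powerset, (ν j (mix T z.1 z.2) - 1)) * R z)| ≤
      2 ^ (2 ^ Fintype.card K) * η := by
    rw [hav]
    refine (abs_sum_le_sum_abs _ _).trans ((sum_le_sum hbd).trans ?_)
    rw [sum_const, nsmul_eq_mul, card_powerset, card_powerset]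
    refine mul_le_mul_of_nonneg_right ?_ h.nonneg
    push_cast
    refine pow_le_pow_right₀ (by norm_num) (Nat.pow_le_pow_right (by norm_num) ?_)
    exact (card_le_univ _)
  rw [hR] at hfin
  exact hfin

end Pool.CG
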