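import Pool.Agent.Lib.MP_c77da8_nt.CG.Romf
import Pool.Agent.Lib.MP_c77da8_nt.CG.MZ
import Pool.Agent.Lib.MP_c77da8_nt.CG.Basic

/-!
# CG-N-PairE: the average of `exp(c ∑ 1/p)` over the bad primes of a pair

Apply `romanoff` with `g = q 0`, `A ω = |m(y ω) - m(y' ω)|` (`Nat.dist` or `Int.natAbs`), `B = log ∏ q_l`: `A ω = 0` iff
`y ω = y' ω` (`mz_inj`), `A ω ≤ max ≤ (∏ q_l)^(M^2)` (`mz_le`), `p ∣ A ω` iff `m(y ω) ≡ m(y' ω) (mod p)`, and `pair_div` for the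
primes `p > w ≥ max q_l`. Take `w0` at least `q_l + 1` for all `l`.
-/

set_option autoImplicit false

namespace Pool.CG

open Finset

theorem pair_exp {r : ℕ} (q : Fin (r + 1) → ℕ) (hq : ∀ l, (q l).Prime) (hinj : Function.Injective q)
    (c η : ℝ) (hc : 0 ≤ c) (hη : 0 < η) :
    ∃ w0 : ℕ, ∀ w ≥ w0, ∃ M0 : ℕ, ∀ (M : ℕ) [NeZero M], M0 ≤ M → ∀ (Ω : Type) [Fintype Ω] [Nonempty Ω]
      (y y' : Ω → Fin (r + 2) → ZMod M), PairOK y y' → ∀ R : ℕ,
      av (fun ω => open Classical in if y ω = y' ω then 0 else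
        Real.exp (c * ∑ p ∈ (Pr w R).filter (fun p => mz q M (y ω) ≡ mz q M (y' ω) [MOD p]), 1 / (p : ℝ))) ≤
        1 + η := by
  classical
  have hQ1 : 1 ≤ ∏ l, q l := Nat.one_le_iff_ne_zero.2 (prod_ne_zero_iff.2 fun l _ => (hq l).ne_zero)
  have hQr : (1 : ℝ) ≤ ((∏ l, q l : ℕ) : ℝ) := by exact_mod_cast hQ1
  set B : ℝ := Real.log ((∏ l, q l : ℕ) : ℝ) with hB
  have hB0 : 0 ≤ B := Real.log_nonneg hQr
  obtain ⟨w0, h0⟩ := romanoff (q 0) (hq 0).two_le c B η hc hB0 hη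
  refine ⟨max w0 (∑ l, q l), fun w hw => ?_⟩
  obtain ⟨M0, hM0⟩ := h0 w (le_trans (le_max_left _ _) hw)
  refine ⟨M0, fun M _ hM Ω _ _ y y' hP R => ?_⟩
  have hql : ∀ l, q l ≤ w := fun l =>
    (single_le_sum (f := q) (fun i _ => Nat.zero_le _) (mem_univ l)).trans (le_trans (le_max_right _ _) hw)
  set A : Ω → ℕ := fun ω => ((mz q M (y ω) : ℤ) - (mz q M (y' ω) : ℤ)).natAbs with hA
  have hA0 : ∀ ω, A ω = 0 ↔ y ω = y' ω := by
    intro ω
    rw [hA]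
    simp only [Int.natAbs_eq_zero, sub_eq_zero, Nat.cast_inj]
    exact (mz_inj q hq hinj).eq_iff
  have hAd : ∀ ω (p : ℕ), p ∣ A ω ↔ mz q M (y ω) ≡ mz q M (y' ω) [MOD p] := by
    intro ω p
    rw [hA]
    simp only
    rw [← Int.natCast_dvd, Nat.modEq_iff_dvd, ← Int.dvd_neg]
    ring_nf
  have hAle : ∀ ω, (A ω : ℝ) ≤ Real.exp (B * (M : ℝ) ^ 2) := by
    intro ω
    have h1 := mz_le q hq (y ω)
    have h2 := mz_le q hq (y' ω)
    have h3 : A ω ≤ (∏ l, q l) ^ (M ^ 2) := by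
      rw [hA]
      simp only
      omega
    have h4 : Real.exp (B * (M : ℝ) ^ 2) = ((∏ l, q l : ℕ) : ℝ) ^ (M ^ 2) := by
      have h5 : (M : ℝ) ^ 2 = ((M ^ 2 : ℕ) : ℝ) := by push_cast; rfl
      rw [hB, Real.exp_mul, Real.exp_log (by linarith), h5, Real.rpow_natCast]
    rw [h4]
    exact_mod_cast h3
  have hpr : ∀ p : ℕ, p.Prime → w < p → ((univ.filter fun ω => A ω ≠ 0 ∧ p ∣ A ω).card : ℝ) / Fintype.card Ω ≤
        1 / (orderOf (q 0 : ZMod p) : ℝ) + 1 / (M : ℝ) := by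
    intro p hp hwp
    have := pair_div q hq y y' hP p hp (fun l h => by have := hql l; omega)
    refine le_trans (le_of_eq ?_) this
    congr 2
    congr 1
    ext ω
    simp only [mem_filter, mem_univ, true_and, ne_eq, hA0, hAd]
  have key := hM0 M hM Ω A hAle hpr R
  refine le_trans (le_of_eq (av_congr fun ω => ?_)) key
  by_cases h : y ω = y' ω
  · rw [if_pos h, if_pos ((hA0 ω).2 h)]
  · rw [if_neg h, if_neg (fun h' => h ((hA0 ω).1 h'))]
    congr 2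
    refine sum_congr ?_ fun _ _ => rfl
    ext p
    simp only [mem_filter, hAd]

end Pool.CG
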