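import Pool.Agent.Lib.MP_c77da8_nt.CG.Orth

/-!
# CG-N-TauB: support and size of the coefficients

`-1 = x_p - (1 + x_p)`, so `∏_{p ∈ a} (if p ∈ ξ then -1 else x_p) = ∏_{p ∈ a} (x_p - (1 + x_p) [p ∈ ξ])` and
`Lam(ξ) = ∑_{d ⊆ ξ} lam d`, `lam d = (-1)^|d| ∏_{p ∈ d} (1 + x_p) (1/V) ∑_{a ⊇ d, nm a ≤ R} ∏_{p ∈ a \ d} x_p`.
`a ↦ a \ d` is injective and decreases `nm`, so the last sum is at most `V`: `|lam d| ≤ 2^|d|`, and `lam d = 0` if
`R < nm d`. Then `tau D = ∑_{d ∪ d' = D} lam d lam d'` (both sides have the same sums over the subsets of every set, or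
directly by Moebius inversion), `|tau D| ≤ ∑_{d ∪ d' = D} 2^(|d| + |d'|) = 8^|D|`, and `nm D ≤ nm d * nm d' ≤ R^2` if it is
not zero.
-/

set_option autoImplicit false

namespace Pool.CG

open Finset

variable {P : Type} [Fintype P] [DecidableEq P]

/-- the coefficients of `Lam` -/
noncomputable def lam (v : P → ℕ) (R : ℕ) (d : Finset P) : ℝ :=
  (-1 : ℝ) ^ d.card * (∏ p ∈ d, (1 + xw v p)) *
    (∑ a ∈ univ.filter (fun a : Finset P => nm v a ≤ R ∧ d ⊆ a), ∏ p ∈ a \ d, xw v p) / VV v R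

private theorem tb_nonneg (v : P → ℕ) (hv : ∀ p, 2 ≤ v p) (a : Finset P) :
    0 ≤ ∏ p ∈ a, xw v p :=
  Finset.prod_nonneg fun p _ => (xw_pos v hv p).1.le

private theorem tb_nm_pos (v : P → ℕ) (hv : ∀ p, 2 ≤ v p) (a : Finset P) : 1 ≤ nm v a := by
  unfold nm
  exact Finset.one_le_prod' fun p _ => by have := hv p; omega

private theorem tb_nm_mono (v : P → ℕ) (hv : ∀ p, 2 ≤ v p) {a b : Finset P} (h : a ⊆ b) :
    nm v a ≤ nm v b := by
  unfold nm
  exact Finset.prod_le_prod_of_subset_of_one_le' h fun p _ _ => by have := hv p; omega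

/-- the product as a sum over the subsets -/
private theorem tb_prod (v : P → ℕ) (ξ a : Finset P) :
    (∏ p ∈ a, if p ∈ ξ then (-1 : ℝ) else xw v p) =
      ∑ d ∈ ξ.powerset, if d ⊆ a then
        (-1 : ℝ) ^ d.card * (∏ p ∈ d, (1 + xw v p)) * ∏ p ∈ a \ d, xw v p else 0 := by
  have h1 : (∏ p ∈ a, if p ∈ ξ then (-1 : ℝ) else xw v p) =
      ∏ p ∈ a, ((if p ∈ ξ then -(1 + xw v p) else 0) + xw v p) := by
    refine Finset.prod_congr rfl fun p _ => ?_
    split_ifs <;> ring
  rw [h1, Finset.prod_add]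
  have h2 : ∀ d ∈ a.powerset, (∏ p ∈ d, if p ∈ ξ then -(1 + xw v p) else 0) *
      (∏ p ∈ a \ d, xw v p) = if d ⊆ ξ then
        (-1 : ℝ) ^ d.card * (∏ p ∈ d, (1 + xw v p)) * ∏ p ∈ a \ d, xw v p else 0 := by
    intro d _
    by_cases hd : d ⊆ ξ
    · rw [if_pos hd]
      congr 1
      rw [← Finset.prod_const, ← Finset.prod_mul_distrib]
      refine Finset.prod_congr rfl fun p hp => ?_
      rw [if_pos (hd hp)]
      ring
    · rw [if_neg hd]
      obtain ⟨p, hp, hpξ⟩ := Finset.not_subset.1 hd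
      rw [Finset.prod_eq_zero hp (by rw [if_neg hpξ]), zero_mul]
  rw [Finset.sum_congr rfl h2, ← Finset.sum_filter, ← Finset.sum_filter]
  refine Finset.sum_congr ?_ fun _ _ => rfl
  ext d
  simp only [Finset.mem_filter, Finset.mem_powerset]
  exact and_comm

theorem Lam_eq (v : P → ℕ) (R : ℕ) (ξ : Finset P) : Lam v R ξ = ∑ d ∈ ξ.powerset, lam v R d := by
  unfold Lam lam
  rw [← Finset.sum_div]
  congr 1
  rw [Finset.sum_congr rfl fun a _ => tb_prod v ξ a, Finset.sum_comm]
  refine Finset.sum_congr rfl fun d _ => ?_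
  rw [← Finset.sum_filter, Finset.filter_filter, Finset.mul_sum]

private theorem tb_sum_le (v : P → ℕ) (hv : ∀ p, 2 ≤ v p) (R : ℕ) (d : Finset P) :
    (∑ a ∈ univ.filter (fun a : Finset P => nm v a ≤ R ∧ d ⊆ a), ∏ p ∈ a \ d, xw v p) ≤
      VV v R := by
  unfold VV
  have hinj : Set.InjOn (fun a : Finset P => a \ d)
      (univ.filter (fun a : Finset P => nm v a ≤ R ∧ d ⊆ a) : Finset (Finset P)) := by
    intro a ha b hb hab
    simp only [Finset.coe_filter, Finset.mem_univ, true_and, Set.mem_setOf_eq] at ha hb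
    have hab' : a \ d = b \ d := hab
    rw [← Finset.sdiff_union_of_subset ha.2, hab', Finset.sdiff_union_of_subset hb.2]
  rw [← Finset.sum_image (f := fun a : Finset P => ∏ p ∈ a, xw v p) hinj]
  refine Finset.sum_le_sum_of_subset_of_nonneg ?_ fun a _ _ => tb_nonneg v hv a
  intro b hb
  obtain ⟨a, ha, rfl⟩ := Finset.mem_image.1 hb
  rw [Finset.mem_filter] at ha ⊢
  exact ⟨Finset.mem_univ _, (tb_nm_mono v hv Finset.sdiff_subset).trans ha.2.1⟩

theorem lam_le (v : P → ℕ) (hv : ∀ p, 2 ≤ v p) (R : ℕ) (hR : 1 ≤ R) (d : Finset P) :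
    |lam v R d| ≤ 2 ^ d.card := by
  have hV := VV_pos v hv R hR
  have h0 : 0 ≤ ∑ a ∈ univ.filter (fun a : Finset P => nm v a ≤ R ∧ d ⊆ a), ∏ p ∈ a \ d, xw v p :=
    Finset.sum_nonneg fun a _ => tb_nonneg v hv _
  have h1 : 0 ≤ ∏ p ∈ d, (1 + xw v p) :=
    Finset.prod_nonneg fun p _ => by have := (xw_pos v hv p).1; linarith
  have h2 : ∏ p ∈ d, (1 + xw v p) ≤ 2 ^ d.card := by
    rw [← Finset.prod_const]
    exact Finset.prod_le_prod (fun p _ => by have := (xw_pos v hv p).1; linarith)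
      fun p _ => by have := (xw_pos v hv p).2; linarith
  unfold lam
  rw [abs_div, abs_of_pos hV, div_le_iff₀ hV, abs_mul, abs_mul, abs_pow, abs_neg, abs_one, one_pow,
    one_mul, abs_of_nonneg h1, abs_of_nonneg h0]
  exact mul_le_mul h2 (tb_sum_le v hv R d) h0 (by positivity)

theorem lam_zero (v : P → ℕ) (hv : ∀ p, 2 ≤ v p) (R : ℕ) (d : Finset P) (h : R < nm v d) :
    lam v R d = 0 := by
  unfold lam
  have h1 : univ.filter (fun a : Finset P => nm v a ≤ R ∧ d ⊆ a) = ∅ := by
    rw [Finset.filter_eq_empty_iff]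
    rintro a _ ⟨h2, h3⟩
    have := tb_nm_mono v hv h3
    omega
  rw [h1, Finset.sum_empty, mul_zero, zero_div]

/-- Moebius inversion on an interval of sets -/
private theorem tb_moeb (D u : Finset P) (hu : u ⊆ D) :
    (∑ ξ ∈ D.powerset.filter (fun ξ => u ⊆ ξ), (-1 : ℝ) ^ (D \ ξ).card) =
      if u = D then 1 else 0 := by
  have h1 : (∑ ξ ∈ D.powerset.filter (fun ξ => u ⊆ ξ), (-1 : ℝ) ^ (D \ ξ).card) =
      ∑ m ∈ (D \ u).powerset, (-1 : ℝ) ^ m.card := by
    refine Finset.sum_bij' (fun ξ _ => D \ ξ) (fun m _ => D \ m) ?_ ?_ ?_ ?_ ?_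
    · intro ξ hξ
      rw [Finset.mem_filter, Finset.mem_powerset] at hξ
      rw [Finset.mem_powerset]
      exact Finset.sdiff_subset_sdiff subset_rfl hξ.2
    · intro m hm
      rw [Finset.mem_powerset] at hm
      rw [Finset.mem_filter, Finset.mem_powerset]
      refine ⟨Finset.sdiff_subset, fun x hx => ?_⟩
      rw [Finset.mem_sdiff]
      exact ⟨hu hx, fun h => (Finset.mem_sdiff.1 (hm h)).2 hx⟩
    · intro ξ hξ
      rw [Finset.mem_filter, Finset.mem_powerset] at hξ
      exact Finset.sdiff_sdiff_eq_self hξ.1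
    · intro m hm
      rw [Finset.mem_powerset] at hm
      exact Finset.sdiff_sdiff_eq_self (hm.trans Finset.sdiff_subset)
    · intro ξ _
      rfl
  have h2 := Finset.sum_powerset_neg_one_pow_card (x := D \ u)
  have h3 : (∑ m ∈ (D \ u).powerset, (-1 : ℝ) ^ m.card) = if D \ u = ∅ then 1 else 0 := by
    have := congrArg (fun z : ℤ => (z : ℝ)) h2
    push_cast at this
    exact this
  rw [h1, h3]
  congr 1
  rw [Finset.sdiff_eq_empty_iff_subset]
  exact propext ⟨fun h => Finset.Subset.antisymm hu h, fun h => h ▸ subset_rfl⟩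

/-- the coefficients of the square -/
private theorem tb_tau (v : P → ℕ) (R : ℕ) (D : Finset P) :
    tau v R D = ∑ d ∈ D.powerset, ∑ e ∈ D.powerset,
      if d ∪ e = D then lam v R d * lam v R e else 0 := by
  unfold tau
  have h1 : ∀ ξ ∈ D.powerset, (-1 : ℝ) ^ (D \ ξ).card * Lam v R ξ ^ 2 =
      ∑ d ∈ D.powerset, ∑ e ∈ D.powerset,
        if d ∪ e ⊆ ξ then (-1 : ℝ) ^ (D \ ξ).card * (lam v R d * lam v R e) else 0 := by
    intro ξ hξ
    rw [Finset.mem_powerset] at hξ
    have h2 : Lam v R ξ = ∑ d ∈ D.powerset, if d ⊆ ξ then lam v R d else 0 := by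
      rw [Lam_eq, ← Finset.sum_filter]
      refine Finset.sum_congr ?_ fun _ _ => rfl
      ext d
      simp only [Finset.mem_filter, Finset.mem_powerset]
      exact ⟨fun h => ⟨h.trans hξ, h⟩, fun h => h.2⟩
    rw [h2, sq, Finset.sum_mul_sum, Finset.mul_sum]
    refine Finset.sum_congr rfl fun d _ => ?_
    rw [Finset.mul_sum]
    refine Finset.sum_congr rfl fun e _ => ?_
    by_cases hd : d ⊆ ξ
    · by_cases he : e ⊆ ξ
      · rw [if_pos hd, if_pos he, if_pos (Finset.union_subset hd he)]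
      · rw [if_neg he, mul_zero, mul_zero, if_neg fun h => he (Finset.subset_union_right.trans h)]
    · rw [if_neg hd, zero_mul, mul_zero, if_neg fun h => hd (Finset.subset_union_left.trans h)]
  rw [Finset.sum_congr rfl h1, Finset.sum_comm]
  refine Finset.sum_congr rfl fun d hd => ?_
  rw [Finset.sum_comm]
  refine Finset.sum_congr rfl fun e he => ?_
  rw [Finset.mem_powerset] at hd he
  rw [← Finset.sum_filter, ← Finset.sum_mul, tb_moeb D (d ∪ e) (Finset.union_subset hd he)]
  split_ifs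
  · rw [one_mul]
  · rw [zero_mul]

theorem tau_le (v : P → ℕ) (hv : ∀ p, 2 ≤ v p) (R : ℕ) (hR : 1 ≤ R) (D : Finset P) :
    |tau v R D| ≤ 8 ^ D.card := by
  rw [tb_tau]
  have h1 : |∑ d ∈ D.powerset, ∑ e ∈ D.powerset,
      if d ∪ e = D then lam v R d * lam v R e else 0| ≤
      ∑ d ∈ D.powerset, ∑ e ∈ D.powerset,
        if d ∪ e = D then (2 : ℝ) ^ d.card * 2 ^ e.card else 0 := by
    refine (Finset.abs_sum_le_sum_abs _ _).trans (Finset.sum_le_sum fun d _ => ?_)
    refine (Finset.abs_sum_le_sum_abs _ _).trans (Finset.sum_le_sum fun e _ => ?_)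
    split_ifs
    · rw [abs_mul]
      exact mul_le_mul (lam_le v hv R hR d) (lam_le v hv R hR e) (abs_nonneg _) (by positivity)
    · rw [abs_zero]
  refine h1.trans ?_
  have h2 : ∀ d ∈ D.powerset, (∑ e ∈ D.powerset,
      if d ∪ e = D then (2 : ℝ) ^ d.card * 2 ^ e.card else 0) ≤ 2 ^ D.card * 3 ^ d.card := by
    intro d hd
    rw [Finset.mem_powerset] at hd
    rw [← Finset.sum_filter]
    have h3 : ∑ e ∈ D.powerset.filter (fun e => d ∪ e = D), (2 : ℝ) ^ d.card * 2 ^ e.card ≤
        ∑ m ∈ d.powerset, (2 : ℝ) ^ D.card * 2 ^ m.card := by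
      have hcard : ∀ e ∈ D.powerset.filter (fun e => d ∪ e = D),
          (2 : ℝ) ^ d.card * 2 ^ e.card = 2 ^ D.card * 2 ^ (e ∩ d).card := by
        intro e he
        rw [Finset.mem_filter, Finset.mem_powerset] at he
        rw [← pow_add, ← pow_add]
        congr 1
        have := Finset.card_union_add_card_inter d e
        rw [he.2, Finset.inter_comm] at this
        omega
      rw [Finset.sum_congr rfl hcard]
      have hinj : Set.InjOn (fun e : Finset P => e ∩ d)
          (D.powerset.filter (fun e => d ∪ e = D) : Finset (Finset P)) := by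
        intro a ha b hb hab
        simp only [Finset.coe_filter, Finset.mem_powerset, Set.mem_setOf_eq] at ha hb
        have hab' : a ∩ d = b ∩ d := hab
        ext x
        have hx := Finset.ext_iff.1 hab' x
        simp only [Finset.mem_inter] at hx
        have hxa : x ∈ d ∪ a ↔ x ∈ d ∪ b := by rw [ha.2, hb.2]
        simp only [Finset.mem_union] at hxa
        tauto
      rw [← Finset.sum_image (f := fun m : Finset P => (2 : ℝ) ^ D.card * 2 ^ m.card) hinj]
      refine Finset.sum_le_sum_of_subset_of_nonneg ?_ fun _ _ _ => by positivity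
      intro m hm
      obtain ⟨a, _, rfl⟩ := Finset.mem_image.1 hm
      rw [Finset.mem_powerset]
      exact Finset.inter_subset_right
    refine h3.trans ?_
    rw [← Finset.mul_sum]
    refine mul_le_mul_of_nonneg_left (le_of_eq ?_) (by positivity)
    have := Finset.prod_add (fun _ : P => (2 : ℝ)) (fun _ => 1) d
    simp only [Finset.prod_const, Finset.prod_const_one, one_pow, mul_one] at this
    rw [← this]
    norm_num
  refine (Finset.sum_le_sum h2).trans (le_of_eq ?_)
  rw [← Finset.mul_sum]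
  have := Finset.prod_add (fun _ : P => (3 : ℝ)) (fun _ => 1) D
  simp only [Finset.prod_const, Finset.prod_const_one, one_pow, mul_one] at this
  rw [← this, ← mul_pow]
  norm_num

theorem tau_zero (v : P → ℕ) (hv : ∀ p, 2 ≤ v p) (R : ℕ) (D : Finset P) (h : R ^ 2 < nm v D) :
    tau v R D = 0 := by
  rw [tb_tau]
  refine Finset.sum_eq_zero fun d _ => Finset.sum_eq_zero fun e _ => ?_
  by_cases hde : d ∪ e = D
  · rw [if_pos hde]
    have h1 : nm v D ≤ nm v d * nm v e := by
      have h2 : nm v (d ∪ e) * nm v (d ∩ e) = nm v d * nm v e := by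
        unfold nm
        exact Finset.prod_union_inter
      rw [← hde, ← h2]
      exact Nat.le_mul_of_pos_right _ (tb_nm_pos v hv _)
    rcases Nat.lt_or_ge R (nm v d) with h3 | h3
    · rw [lam_zero v hv R d h3, zero_mul]
    · rcases Nat.lt_or_ge R (nm v e) with h4 | h4
      · rw [lam_zero v hv R e h4, mul_zero]
      · exfalso
        have h5 : nm v d * nm v e ≤ R * R := Nat.mul_le_mul h3 h4
        nlinarith
  · rw [if_neg hde]

end Pool.CG
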