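import Pool.Agent.Lib.MP_c77da8_nt.CG.Basic

/-!
# CG-Many: one point for many `n`

`h ≤ (1/c) [h > 0] + (c/4) h²`; sum over `n ∈ S` and average over `x`.
-/

set_option autoImplicit false

namespace Pool.CG

open Finset

theorem exists_many {Ω : Type} [Fintype Ω] [Nonempty Ω] (S : Finset ℕ) (h : ℕ → Ω → ℝ) (c N : ℝ) (hc : 0 < c)
    (h1 : c * N ≤ ∑ n ∈ S, av (h n)) (h2 : ∑ n ∈ S, av (fun x => h n x ^ 2) ≤ 2 * N) :
    ∃ x : Ω, c ^ 2 / 2 * N ≤ ((S.filter fun n => 0 < h n x).card : ℝ) := by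
  classical
  by_contra hne
  push Not at hne
  have hp : ∀ n x, h n x ≤ 1 / c * (if 0 < h n x then (1 : ℝ) else 0) + c / 4 * h n x ^ 2 := by
    intro n x
    split_ifs with hx
    · have h3 : 0 ≤ (c * h n x - 2) ^ 2 := sq_nonneg _
      have h4 : 1 / c * 1 + c / 4 * h n x ^ 2 - h n x = (c * h n x - 2) ^ 2 / (4 * c) := by
        field_simp
        ring
      have h5 : 0 ≤ (c * h n x - 2) ^ 2 / (4 * c) := by positivity
      linarith
    · have h3 : 0 ≤ c / 4 * h n x ^ 2 := by positivity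
      rw [not_lt] at hx
      linarith
  have hs : ∀ x : Ω, ∑ n ∈ S, h n x ≤ 1 / c * ((S.filter fun n => 0 < h n x).card : ℝ) +
      c / 4 * ∑ n ∈ S, h n x ^ 2 := by
    intro x
    refine (Finset.sum_le_sum fun n _ => hp n x).trans (le_of_eq ?_)
    rw [Finset.sum_add_distrib, ← Finset.mul_sum, ← Finset.mul_sum, Finset.sum_boole]
  obtain ⟨x0⟩ := ‹Nonempty Ω›
  have hlt : av (fun x : Ω => ((S.filter fun n => 0 < h n x).card : ℝ)) < c ^ 2 / 2 * N := by
    unfold av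
    have : Nonempty Ω := ⟨x0⟩
    have hΩ : (0 : ℝ) < Fintype.card Ω := by exact_mod_cast Fintype.card_pos
    rw [div_lt_iff₀ hΩ]
    calc ∑ x : Ω, ((S.filter fun n => 0 < h n x).card : ℝ) < ∑ _x : Ω, c ^ 2 / 2 * N :=
          Finset.sum_lt_sum_of_nonempty ⟨x0, mem_univ _⟩ fun x _ => hne x
      _ = c ^ 2 / 2 * N * Fintype.card Ω := by
          rw [Finset.sum_const, Finset.card_univ, nsmul_eq_mul, mul_comm]
  have hav := av_mono hs
  rw [av_add, av_const_mul, av_const_mul, av_sum, av_sum] at hav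
  have e1 : 1 / c * av (fun x : Ω => ((S.filter fun n => 0 < h n x).card : ℝ)) < 1 / c * (c ^ 2 / 2 * N) :=
    mul_lt_mul_of_pos_left hlt (by positivity)
  have e2 : c / 4 * ∑ n ∈ S, av (fun x => h n x ^ 2) ≤ c / 4 * (2 * N) := mul_le_mul_of_nonneg_left h2 (by positivity)
  have e3 : 1 / c * (c ^ 2 / 2 * N) = c / 2 * N := by field_simp
  have e4 : c / 4 * (2 * N) = c / 2 * N := by ring
  have e5 : ∑ n ∈ S, av (h n) = ∑ i ∈ S, av fun x => h i x := rfl
  rw [e5] at h1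
  linarith

end Pool.CG
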