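import Pool.Agent.Lib.MP_c77da8_nt.CG.SDefs

/-!
# CG-N-OrdA: powers modulo `p` and primes of small order

`pow_count`: `v ↦ g^v mod p` is periodic with period `o = orderOf g` (`g` is a unit, `o ≥ 1`), and `g^v = g^v'` iff
`v ≡ v' (mod o)` (`pow_inj_mod`, `orderOf_dvd_iff_pow_eq_one`). So the set lies in one residue class modulo `o`, and an
interval of `M` integers has at most `M/o + 1` elements of a class modulo `o` (`Nat.count_modEq_card` or an injection
`v ↦ v / o` into `range (⌊(M-1)/o⌋ + 1)`; `M = 0` trivial).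
`small_order`: all `p ∈ s` divide `T = ∏_{e = 1}^{y} (g^e - 1)`, so `∏_{p ∈ s} p ∣ T` and `2^|s| ≤ T ≤ g^(1 + … + y) ≤
(2^g)^(y (y+1)/2)`, `|s| ≤ g y (y+1)/2 ≤ g y^2` (for `y = 0` the set is empty, since the order is at least `1`).
-/

set_option autoImplicit false

namespace Pool.CG

open Finset

theorem pow_count (p g M : ℕ) (hp : p.Prime) (hg : ¬ p ∣ g) (c : ZMod p) :
    (((range M).filter fun v => (g : ZMod p) ^ v = c).card : ℝ) ≤ (M : ℝ) / (orderOf (g : ZMod p) : ℝ) + 1 := by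
  have := Fact.mk hp
  have hg0 : (g : ZMod p) ≠ 0 := by
    rw [Ne, ZMod.natCast_eq_zero_iff]
    exact hg
  obtain ⟨u, hu⟩ : ∃ u : (ZMod p)ˣ, (u : ZMod p) = (g : ZMod p) := ⟨Units.mk0 _ hg0, rfl⟩
  have ho : orderOf (g : ZMod p) = orderOf u := by rw [← hu, orderOf_units]
  have hpos : 0 < orderOf u := orderOf_pos u
  rw [ho]
  have hmod : ∀ v w : ℕ, (g : ZMod p) ^ v = c → (g : ZMod p) ^ w = c → v ≡ w [MOD orderOf u] := by
    intro v w hv hw
    rw [← pow_eq_pow_iff_modEq]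
    apply Units.ext
    rw [Units.val_pow_eq_pow_val, Units.val_pow_eq_pow_val, hu, hv, hw]
  have hcard : ((range M).filter fun v => (g : ZMod p) ^ v = c).card ≤ (M - 1) / orderOf u + 1 := by
    rw [← card_range ((M - 1) / orderOf u + 1)]
    apply card_le_card_of_injOn (fun v => v / orderOf u)
    · intro v hv
      rw [coe_filter, Set.mem_ofPred_eq, mem_range] at hv
      rw [coe_range, Set.mem_Iio, Nat.lt_succ_iff]
      exact Nat.div_le_div_right (by omega)
    · intro v hv w hw hvw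
      rw [coe_filter, Set.mem_ofPred_eq, mem_range] at hv hw
      have h1 : v % orderOf u = w % orderOf u := hmod v w hv.2 hw.2
      have h2 : v / orderOf u = w / orderOf u := hvw
      rw [← Nat.div_add_mod v (orderOf u), ← Nat.div_add_mod w (orderOf u), h1, h2]
  calc (((range M).filter fun v => (g : ZMod p) ^ v = c).card : ℝ)
      ≤ (((M - 1) / orderOf u + 1 : ℕ) : ℝ) := by exact_mod_cast hcard
    _ = (((M - 1) / orderOf u : ℕ) : ℝ) + 1 := by push_cast; ring
    _ ≤ (M : ℝ) / (orderOf u : ℝ) + 1 := by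
        have h1 : (((M - 1) / orderOf u : ℕ) : ℝ) ≤ ((M - 1 : ℕ) : ℝ) / (orderOf u : ℝ) :=
          Nat.cast_div_le
        have h2 : ((M - 1 : ℕ) : ℝ) ≤ (M : ℝ) := by exact_mod_cast Nat.sub_le M 1
        have h3 : ((M - 1 : ℕ) : ℝ) / (orderOf u : ℝ) ≤ (M : ℝ) / (orderOf u : ℝ) :=
          div_le_div_of_nonneg_right h2 (Nat.cast_nonneg _)
        linarith

theorem small_order (g y : ℕ) (hg : 2 ≤ g) (s : Finset ℕ)
    (hs : ∀ p ∈ s, p.Prime ∧ ¬ p ∣ g ∧ orderOf (g : ZMod p) ≤ y) : s.card ≤ g * y ^ 2 := by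
  have hfac : ∀ e ∈ Icc 1 y, 0 < g ^ e - 1 := by
    intro e he
    rw [mem_Icc] at he
    have h1 : 1 < g ^ e := Nat.one_lt_pow (by omega) (by omega)
    omega
  have hT : 0 < ∏ e ∈ Icc 1 y, (g ^ e - 1) := prod_pos hfac
  have hdvd : ∏ p ∈ s, p ∣ ∏ e ∈ Icc 1 y, (g ^ e - 1) := by
    apply prod_primes_dvd
    · intro p hp
      exact (hs p hp).1.prime
    · intro p hp
      obtain ⟨hpp, hpg, hord⟩ := hs p hp
      have := Fact.mk hpp
      have hg0 : (g : ZMod p) ≠ 0 := by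
        rw [Ne, ZMod.natCast_eq_zero_iff]
        exact hpg
      have hopos : 0 < orderOf (g : ZMod p) := by
        obtain ⟨u, hu⟩ : ∃ u : (ZMod p)ˣ, (u : ZMod p) = (g : ZMod p) := ⟨Units.mk0 _ hg0, rfl⟩
        rw [← hu, orderOf_units]
        exact orderOf_pos u
      have h1 : p ∣ g ^ orderOf (g : ZMod p) - 1 := by
        rw [← ZMod.natCast_eq_zero_iff, Nat.cast_sub (Nat.one_le_pow _ _ (by omega))]
        push_cast
        rw [pow_orderOf_eq_one, sub_self]
      exact h1.trans (dvd_prod_of_mem (fun e => g ^ e - 1) (mem_Icc.2 ⟨hopos, hord⟩))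
  have h1 : 2 ^ s.card ≤ ∏ p ∈ s, p := by
    rw [← prod_const]
    exact prod_le_prod' fun p hp => (hs p hp).1.two_le
  have h2 : ∏ e ∈ Icc 1 y, (g ^ e - 1) ≤ 2 ^ (g * y ^ 2) := by
    calc ∏ e ∈ Icc 1 y, (g ^ e - 1) ≤ ∏ e ∈ Icc 1 y, (2 ^ g) ^ y := by
          apply prod_le_prod'
          intro e he
          rw [mem_Icc] at he
          calc g ^ e - 1 ≤ g ^ e := Nat.sub_le _ _
            _ ≤ (2 ^ g) ^ e := Nat.pow_le_pow_left Nat.lt_two_pow_self.le _
            _ ≤ (2 ^ g) ^ y := Nat.pow_le_pow_right (by positivity) he.2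
      _ = 2 ^ (g * y ^ 2) := by
          rw [prod_const, Nat.card_Icc, Nat.add_sub_cancel, ← pow_mul, ← pow_mul]
          congr 1
          ring
  have h3 : 2 ^ s.card ≤ 2 ^ (g * y ^ 2) := h1.trans ((Nat.le_of_dvd hT hdvd).trans h2)
  exact (Nat.pow_le_pow_iff_right (by norm_num)).1 h3

end Pool.CG
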