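import Pool.Agent.Lib.MP_c77da8_nt.CG.OrdA

/-!
# CG-N-OrdB: the sum of `p^(-7/8) / ord_p(g)`

For `p > w ≥ g` we have `p ∤ g`, so `o_p = orderOf g ≥ 1`.
(1) Primes with `o_p^4 > p`: the sum is at most `∑_{n > w} n^(-9/8) ≤ 8 w^(-1/8)`.
(2) Primes with `o_p^4 ≤ p`: for `i ≥ 0` there are at most `g (2^(i+1))^2` of them in
`[16^i, 16^(i+1))` (`small_order` with `y = 2^(i+1)`), each contributes at most `p^(-7/8) ≤ w^(-1/8) p^(-3/4) ≤
w^(-1/8) 8^(-i)`. The total is at most `w^(-1/8) g ∑_i 4 · 2^(-i) ≤ 8 g w^(-1/8)`.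
-/

set_option autoImplicit false

namespace Pool.CG

open Finset

theorem rpow_tele (n : ℕ) (hn : 1 ≤ n) :
    ((n + 1 : ℕ) : ℝ) ^ (-(9 / 8) : ℝ) ≤
      8 * ((n : ℝ) ^ (-(1 / 8) : ℝ) - ((n + 1 : ℕ) : ℝ) ^ (-(1 / 8) : ℝ)) := by
  have hn0 : (0:ℝ) < n := by exact_mod_cast hn
  set x : ℝ := ((n + 1 : ℕ) : ℝ) with hx
  have hx1 : x = n + 1 := by rw [hx]; push_cast; ring
  have hx0 : 0 < x := by rw [hx1]; positivity
  -- (1 - 1/x)^(1/8) ≤ 1 - 1/(8x)
  have h1 : (1 + (-(1 / x))) ^ ((1:ℝ) / 8) ≤ 1 + (1 / 8) * (-(1 / x)) := by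
    have := rpow_one_add_le_one_add_mul_self (s := -(1 / x)) (by
      have : 1 / x ≤ 1 := by rw [div_le_one hx0]; rw [hx1]; linarith
      linarith) (p := 1 / 8) (by norm_num) (by norm_num)
    exact this
  have h2 : (1 + (-(1 / x))) = n / x := by
    rw [hx1]; field_simp; ring
  rw [h2] at h1
  have h3 : 0 < 1 + (1 / 8) * (-(1 / x)) := by
    have : 1 / x < 1 := by rw [div_lt_one hx0, hx1]; linarith
    linarith
  have h4 : (n : ℝ) ^ (-(1 / 8) : ℝ) = x ^ (-(1 / 8) : ℝ) * ((n : ℝ) / x) ^ (-(1 / 8) : ℝ) := by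
    rw [← Real.mul_rpow hx0.le (by positivity)]
    congr 1
    field_simp
  have h5 : 1 + 1 / (8 * x) ≤ ((n : ℝ) / x) ^ (-(1 / 8) : ℝ) := by
    rw [Real.rpow_neg (by positivity)]
    have h6 : (1 + (1 / 8) * (-(1 / x)))⁻¹ ≤ (((n : ℝ) / x) ^ ((1:ℝ) / 8))⁻¹ :=
      inv_anti₀ (by positivity) h1
    refine le_trans ?_ h6
    rw [le_inv_comm₀ (by positivity) h3, ← one_div, le_div_iff₀ (by positivity)]
    have h7 : (1 + (1 / 8) * (-(1 / x))) * (1 + 1 / (8 * x)) = 1 - (1 / (8 * x)) ^ 2 := by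
      field_simp; ring
    rw [h7]
    have := sq_nonneg (1 / (8 * x))
    linarith
  have h8 : x ^ (-(9 / 8) : ℝ) = x ^ (-(1 / 8) : ℝ) * (1 / x) := by
    have e : (1 / x) = x ^ (-1 : ℝ) := by rw [Real.rpow_neg_one, one_div]
    rw [e, ← Real.rpow_add hx0]
    norm_num
  rw [h4, h8]
  have h9 : 0 < x ^ (-(1 / 8) : ℝ) := Real.rpow_pos_of_pos hx0 _
  have h10 : 1 / (8 * x) = (1 / 8) * (1 / x) := by field_simp
  rw [h10] at h5
  nlinarith

theorem rpow_sum (w Y : ℕ) (hw : 1 ≤ w) :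
    ∑ n ∈ Ioc w Y, (n : ℝ) ^ (-(9 / 8) : ℝ) ≤ 8 * (w : ℝ) ^ (-(1 / 8) : ℝ) := by
  have hpos : ∀ n : ℕ, 0 ≤ (n : ℝ) ^ (-(1 / 8) : ℝ) := fun n => Real.rpow_nonneg (Nat.cast_nonneg _) _
  have key : ∀ m : ℕ, ∑ n ∈ Ioc w (w + m), (n : ℝ) ^ (-(9 / 8) : ℝ) ≤
      8 * ((w : ℝ) ^ (-(1 / 8) : ℝ) - ((w + m : ℕ) : ℝ) ^ (-(1 / 8) : ℝ)) := by
    intro m
    induction m with
    | zero => simp
    | succ m ih =>
      have e : Ioc w (w + (m + 1)) = insert (w + m + 1) (Ioc w (w + m)) := by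
        ext a
        simp only [mem_Ioc, mem_insert]
        omega
      rw [e, Finset.sum_insert (by simp)]
      have := rpow_tele (w + m) (by omega)
      have e2 : w + (m + 1) = w + m + 1 := by ring
      rw [e2]
      linarith
  rcases Nat.lt_or_ge Y w with h | h
  · have : Ioc w Y = ∅ := by
      ext a; simp only [mem_Ioc, Finset.notMem_empty, iff_false]; omega
    rw [this, Finset.sum_empty]
    have := hpos w
    linarith
  · have h1 := key (Y - w)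
    rw [Nat.add_sub_cancel' h] at h1
    have := hpos Y
    linarith

theorem order_sum (g : ℕ) (hg : 2 ≤ g) : ∃ C : ℝ, 0 < C ∧ ∀ w Y : ℕ, g ≤ w →
    ∑ p ∈ Pr w Y, (p : ℝ) ^ (-(7 / 8) : ℝ) / (orderOf (g : ZMod p) : ℝ) ≤ C * (w : ℝ) ^ (-(1 / 8) : ℝ) := by
  classical
  refine ⟨8 + 8 * g, by positivity, ?_⟩
  intro w Y hw
  have hw0 : (0:ℝ) < w := by
    have : 0 < w := by omega
    exact_mod_cast this
  have hPr : ∀ p ∈ Pr w Y, p.Prime ∧ w < p ∧ p ≤ Y ∧ ¬ p ∣ g := by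
    intro p hp
    unfold Pr at hp
    obtain ⟨h1, h2, h3⟩ := mem_filter.mp hp
    refine ⟨h2, h3, (mem_Icc.mp h1).2, fun hd => ?_⟩
    have := Nat.le_of_dvd (by omega) hd
    omega
  have hord : ∀ p ∈ Pr w Y, 1 ≤ orderOf (g : ZMod p) := by
    intro p hp
    obtain ⟨h1, _, _, h4⟩ := hPr p hp
    have : Fact p.Prime := ⟨h1⟩
    have hg0 : (g : ZMod p) ≠ 0 := by
      intro h
      exact h4 ((ZMod.natCast_eq_zero_iff g p).mp h)
    have hu : IsUnit (g : ZMod p) := isUnit_iff_ne_zero.mpr hg0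
    obtain ⟨u, hu⟩ := hu
    rw [← hu, orderOf_units]
    exact orderOf_pos u
  have hw8 : 0 ≤ (w : ℝ) ^ (-(1 / 8) : ℝ) := Real.rpow_nonneg hw0.le _
  rw [← Finset.sum_filter_add_sum_filter_not (Pr w Y) (fun p => p < orderOf (g : ZMod p) ^ 4), add_mul]
  refine add_le_add ?_ ?_
  · -- large order
    refine le_trans ?_ (rpow_sum w Y (by omega))
    refine le_trans (Finset.sum_le_sum (g := fun p : ℕ => (p : ℝ) ^ (-(9 / 8) : ℝ)) ?_) ?_
    · intro p hp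
      obtain ⟨hp1, hp2⟩ := mem_filter.mp hp
      obtain ⟨h1, _, _, _⟩ := hPr p hp1
      have hp0 : (0:ℝ) < p := by exact_mod_cast h1.pos
      have ho : (p : ℝ) ^ ((1:ℝ) / 4) ≤ (orderOf (g : ZMod p) : ℝ) := by
        have h5 : (p : ℝ) ≤ (orderOf (g : ZMod p) : ℝ) ^ 4 := by exact_mod_cast hp2.le
        have h6 := Real.rpow_le_rpow hp0.le h5 (z := (1:ℝ) / 4) (by norm_num)
        have h7 : ((orderOf (g : ZMod p) : ℝ) ^ 4) ^ ((1:ℝ) / 4) = (orderOf (g : ZMod p) : ℝ) := by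
          rw [← Real.rpow_natCast, ← Real.rpow_mul (Nat.cast_nonneg _)]
          norm_num
        rw [h7] at h6
        exact h6
      have ho0 : 0 < (p : ℝ) ^ ((1:ℝ) / 4) := Real.rpow_pos_of_pos hp0 _
      have h8 : (p : ℝ) ^ (-(9 / 8) : ℝ) = (p : ℝ) ^ (-(7 / 8) : ℝ) / (p : ℝ) ^ ((1:ℝ) / 4) := by
        rw [← Real.rpow_sub hp0]; norm_num
      rw [h8]
      exact div_le_div_of_nonneg_left (Real.rpow_nonneg hp0.le _) ho0 ho
    · refine Finset.sum_le_sum_of_subset_of_nonneg ?_ fun n _ _ => Real.rpow_nonneg (Nat.cast_nonneg _) _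
      intro p hp
      obtain ⟨_, h2, h3, _⟩ := hPr p (mem_filter.mp hp).1
      exact mem_Ioc.mpr ⟨h2, h3⟩
  · -- small order
    set S := (Pr w Y).filter (fun p => ¬ p < orderOf (g : ZMod p) ^ 4) with hS
    have hmaps : ∀ p ∈ S, Nat.log 16 p ∈ range (Y + 1) := by
      intro p hp
      obtain ⟨_, _, h3, _⟩ := hPr p (mem_filter.mp hp).1
      have := Nat.log_le_self 16 p
      exact mem_range.mpr (by omega)
    rw [← Finset.sum_fiberwise_of_maps_to hmaps]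
    have hfib : ∀ i ∈ range (Y + 1), ∑ p ∈ S.filter (fun p => Nat.log 16 p = i),
        (p : ℝ) ^ (-(7 / 8) : ℝ) / (orderOf (g : ZMod p) : ℝ) ≤
        (4 * g * (w : ℝ) ^ (-(1 / 8) : ℝ)) * (1 / 2) ^ i := by
      intro i _
      have hcard : ((S.filter (fun p => Nat.log 16 p = i)).card : ℝ) ≤ g * (4 * 4 ^ i) := by
        have := small_order g (2 ^ (i + 1)) hg (S.filter (fun p => Nat.log 16 p = i)) (by
          intro p hp
          obtain ⟨hp1, hp2⟩ := mem_filter.mp hp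
          obtain ⟨hp3, hp4⟩ := mem_filter.mp hp1
          obtain ⟨h1, _, _, h4⟩ := hPr p hp3
          refine ⟨h1, h4, ?_⟩
          have h5 : p < 16 ^ (i + 1) := by
            rw [← hp2]; exact Nat.lt_pow_succ_log_self (by norm_num) p
          have h6 : orderOf (g : ZMod p) ^ 4 < (2 ^ (i + 1)) ^ 4 := by
            have h7 : (2 ^ (i + 1)) ^ 4 = 16 ^ (i + 1) := by
              rw [← pow_mul, mul_comm, pow_mul]; norm_num
            rw [h7]; omega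
          exact (lt_of_pow_lt_pow_left₀ 4 (by positivity) h6).le)
        have h8 : g * (2 ^ (i + 1)) ^ 2 = g * (4 * 4 ^ i) := by
          rw [← pow_mul, mul_comm (i+1) 2, pow_mul]
          ring
        rw [h8] at this
        exact_mod_cast this
      have hterm : ∀ p ∈ S.filter (fun p => Nat.log 16 p = i),
          (p : ℝ) ^ (-(7 / 8) : ℝ) / (orderOf (g : ZMod p) : ℝ) ≤
          (w : ℝ) ^ (-(1 / 8) : ℝ) * (1 / 8) ^ i := by
        intro p hp
        obtain ⟨hp1, hp2⟩ := mem_filter.mp hp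
        obtain ⟨hp3, hp4⟩ := mem_filter.mp hp1
        obtain ⟨h1, h2, _, _⟩ := hPr p hp3
        have hp0 : (0:ℝ) < p := by exact_mod_cast h1.pos
        have ho : (1:ℝ) ≤ (orderOf (g : ZMod p) : ℝ) := by exact_mod_cast hord p hp3
        have a1 : (p : ℝ) ^ (-(7 / 8) : ℝ) / (orderOf (g : ZMod p) : ℝ) ≤ (p : ℝ) ^ (-(7 / 8) : ℝ) :=
          div_le_self (Real.rpow_nonneg hp0.le _) ho
        have a2 : (p : ℝ) ^ (-(7 / 8) : ℝ) = (p : ℝ) ^ (-(1 / 8) : ℝ) * (p : ℝ) ^ (-(3 / 4) : ℝ) := by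
          rw [← Real.rpow_add hp0]; norm_num
        have a3 : (p : ℝ) ^ (-(1 / 8) : ℝ) ≤ (w : ℝ) ^ (-(1 / 8) : ℝ) :=
          Real.rpow_le_rpow_of_nonpos hw0 (by exact_mod_cast h2.le) (by norm_num)
        have h16 : (16 : ℝ) ^ i ≤ p := by
          have : 16 ^ i ≤ p := by
            rw [← hp2]; exact Nat.pow_log_le_self 16 h1.pos.ne'
          exact_mod_cast this
        have a4 : (p : ℝ) ^ (-(3 / 4) : ℝ) ≤ (1 / 8) ^ i := by
          have b1 : (p : ℝ) ^ (-(3 / 4) : ℝ) ≤ ((16 : ℝ) ^ i) ^ (-(3 / 4) : ℝ) :=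
            Real.rpow_le_rpow_of_nonpos (by positivity) h16 (by norm_num)
          have b2 : ((16 : ℝ) ^ i) ^ (-(3 / 4) : ℝ) = (1 / 8) ^ i := by
            rw [← Real.rpow_natCast, ← Real.rpow_mul (by norm_num), mul_comm, Real.rpow_mul (by norm_num),
              Real.rpow_natCast]
            congr 1
            rw [show (16:ℝ) = 2 ^ (4:ℝ) by norm_num, ← Real.rpow_mul (by norm_num)]
            norm_num
          rw [← b2]; exact b1
        refine a1.trans ?_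
        rw [a2]
        exact mul_le_mul a3 a4 (Real.rpow_nonneg hp0.le _) hw8
      refine (Finset.sum_le_card_nsmul _ _ _ hterm).trans ?_
      rw [nsmul_eq_mul]
      have h9 : 0 ≤ (w : ℝ) ^ (-(1 / 8) : ℝ) * (1 / 8) ^ i := by positivity
      refine (mul_le_mul_of_nonneg_right hcard h9).trans (le_of_eq ?_)
      have h10 : (4:ℝ) ^ i * (1 / 8) ^ i = (1 / 2) ^ i := by
        rw [← mul_pow]; norm_num
      calc (g : ℝ) * (4 * 4 ^ i) * ((w : ℝ) ^ (-(1 / 8) : ℝ) * (1 / 8) ^ i) =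
          (4 * g * (w : ℝ) ^ (-(1 / 8) : ℝ)) * ((4:ℝ) ^ i * (1 / 8) ^ i) := by ring
        _ = _ := by rw [h10]
    refine (Finset.sum_le_sum hfib).trans ?_
    rw [← Finset.mul_sum]
    have hgeo : ∑ i ∈ range (Y + 1), ((1:ℝ) / 2) ^ i ≤ 2 := by
      have := sum_geometric_two_le (Y + 1)
      simpa using this
    have h11 : 0 ≤ 4 * (g:ℝ) * (w : ℝ) ^ (-(1 / 8) : ℝ) := by positivity
    calc 4 * (g:ℝ) * (w : ℝ) ^ (-(1 / 8) : ℝ) * ∑ i ∈ range (Y + 1), ((1:ℝ) / 2) ^ i ≤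
        4 * (g:ℝ) * (w : ℝ) ^ (-(1 / 8) : ℝ) * 2 := mul_le_mul_of_nonneg_left hgeo h11
      _ = _ := by ring

end Pool.CG
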