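import Pool.Agent.Lib.MP_c77da8_nt.CG.SDefs

/-!
# CG-N-Orth: second moments of the Selberg weight in the independent model

Random set `ξ`: every `p ∉ s` belongs to `ξ` with probability `1/v_p`, independently. For `p ∉ s` put
`h_p(ξ) = -1` if `p ∈ ξ`, `= x_p = 1/(v_p - 1)` otherwise: `E h_p = 0`, `E h_p^2 = x_p`.
`Lam(ξ ∪ u) = (1/V) ∑_{a0 ⊆ sᶜ} ∏_{p ∈ a0} h_p(ξ) c(a0)`, `c(a0) = ∑_{a1 ⊆ s, nm (a0 ∪ a1) ≤ R} ∏_{p ∈ a1} (-1 or x_p)`
(`-1` for `p ∈ u`, `x_p` for `p ∈ s \ u`), so `|c(a0)| ≤ 2^|s|` (as `0 < x_p ≤ 1`) and `c(a0) = 0` unless `nm a0 ≤ R`.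
By orthogonality the sum is `(1/V^2) ∑_{a0 ⊆ sᶜ} (∏_{p ∈ a0} x_p) c(a0)^2 ≤ 4^|s| / V`; for `s = ∅` it is exactly `1/V`.
Useful: a sum over `ξ ∈ sᶜ.powerset` of products over `p ∈ sᶜ` factorizes (`Finset.prod_add`, `Finset.prod_ite`).
-/

set_option autoImplicit false

namespace Pool.CG

open Finset

variable {P : Type} [Fintype P] [DecidableEq P]

theorem xw_pos (v : P → ℕ) (hv : ∀ p, 2 ≤ v p) (p : P) : 0 < xw v p ∧ xw v p ≤ 1 := by
  have h : (2 : ℝ) ≤ (v p : ℝ) := by exact_mod_cast hv p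
  have h1 : (1 : ℝ) ≤ (v p : ℝ) - 1 := by linarith
  unfold xw
  refine ⟨by positivity, ?_⟩
  rw [div_le_one (by linarith)]
  exact h1

private theorem xprod_nonneg (v : P → ℕ) (hv : ∀ p, 2 ≤ v p) (a : Finset P) :
    0 ≤ ∏ p ∈ a, xw v p :=
  Finset.prod_nonneg fun p _ => (xw_pos v hv p).1.le

theorem VV_pos (v : P → ℕ) (hv : ∀ p, 2 ≤ v p) (R : ℕ) (hR : 1 ≤ R) : 0 < VV v R := by
  unfold VV
  refine Finset.sum_pos' (fun a _ => xprod_nonneg v hv a) ⟨∅, ?_, ?_⟩
  · rw [Finset.mem_filter]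
    refine ⟨Finset.mem_univ _, ?_⟩
    unfold nm
    rw [Finset.prod_empty]
    exact hR
  · rw [Finset.prod_empty]
    exact one_pos

/-- for a number without prime factors in the set the weight is `1` -/
theorem Lam_empty (v : P → ℕ) (hv : ∀ p, 2 ≤ v p) (R : ℕ) (hR : 1 ≤ R) : Lam v R ∅ = 1 := by
  have h : (∑ a ∈ univ.filter (fun a : Finset P => nm v a ≤ R),
      ∏ p ∈ a, if p ∈ (∅ : Finset P) then (-1 : ℝ) else xw v p) = VV v R := by
    unfold VV
    refine Finset.sum_congr rfl fun a _ => Finset.prod_congr rfl fun p _ => ?_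
    rw [if_neg (Finset.notMem_empty p)]
  unfold Lam
  rw [h]
  exact div_self (VV_pos v hv R hR).ne'

/-- the orthogonality of the products of the `h_p` -/
private theorem orth_core (v : P → ℕ) (hv : ∀ p, 2 ≤ v p) (c : Finset P) :
    ∀ C : Finset P → ℝ,
    ∑ ξ ∈ c.powerset, (∏ p ∈ ξ, 1 / (v p : ℝ)) * (∏ p ∈ c \ ξ, (1 - 1 / (v p : ℝ))) *
      (∑ a ∈ c.powerset, C a * ∏ p ∈ a, if p ∈ ξ then (-1 : ℝ) else xw v p) ^ 2 =
      ∑ a ∈ c.powerset, (∏ p ∈ a, xw v p) * C a ^ 2 := by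
  induction c using Finset.induction_on with
  | empty =>
    intro C
    simp
  | insert q c hq ih =>
    intro C
    have hvq : (2 : ℝ) ≤ (v q : ℝ) := by exact_mod_cast hv q
    rw [Finset.sum_powerset_insert hq, Finset.sum_powerset_insert hq]
    -- the inner sums
    have hin1 : ∀ ξ ∈ c.powerset,
        (∑ a ∈ (insert q c).powerset, C a * ∏ p ∈ a, if p ∈ ξ then (-1 : ℝ) else xw v p) =
        ∑ a ∈ c.powerset, (C a + xw v q * C (insert q a)) *
          ∏ p ∈ a, if p ∈ ξ then (-1 : ℝ) else xw v p := by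
      intro ξ hξ
      have hqξ : q ∉ ξ := fun h => hq (Finset.mem_powerset.1 hξ h)
      rw [Finset.sum_powerset_insert hq, ← Finset.sum_add_distrib]
      refine Finset.sum_congr rfl fun a ha => ?_
      have hqa : q ∉ a := fun h => hq (Finset.mem_powerset.1 ha h)
      rw [Finset.prod_insert hqa, if_neg hqξ]
      ring
    have hin2 : ∀ ξ ∈ c.powerset,
        (∑ a ∈ (insert q c).powerset, C a * ∏ p ∈ a,
          if p ∈ insert q ξ then (-1 : ℝ) else xw v p) =
        ∑ a ∈ c.powerset, (C a - C (insert q a)) *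
          ∏ p ∈ a, if p ∈ ξ then (-1 : ℝ) else xw v p := by
      intro ξ hξ
      rw [Finset.sum_powerset_insert hq, ← Finset.sum_add_distrib]
      refine Finset.sum_congr rfl fun a ha => ?_
      have hqa : q ∉ a := fun h => hq (Finset.mem_powerset.1 ha h)
      have hpr : (∏ p ∈ a, if p ∈ insert q ξ then (-1 : ℝ) else xw v p) =
          ∏ p ∈ a, if p ∈ ξ then (-1 : ℝ) else xw v p := by
        refine Finset.prod_congr rfl fun p hp => ?_
        have hpq : p ≠ q := fun h => hqa (h ▸ hp)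
        have hiff : p ∈ insert q ξ ↔ p ∈ ξ := by
          rw [Finset.mem_insert]
          exact or_iff_right hpq
        simp only [hiff]
      rw [Finset.prod_insert hqa, if_pos (Finset.mem_insert_self q ξ), hpr]
      ring
    have h1 : ∑ ξ ∈ c.powerset, (∏ p ∈ ξ, 1 / (v p : ℝ)) *
        (∏ p ∈ insert q c \ ξ, (1 - 1 / (v p : ℝ))) *
        (∑ a ∈ (insert q c).powerset, C a * ∏ p ∈ a,
          if p ∈ ξ then (-1 : ℝ) else xw v p) ^ 2 =
        (1 - 1 / (v q : ℝ)) *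
          ∑ a ∈ c.powerset, (∏ p ∈ a, xw v p) * (C a + xw v q * C (insert q a)) ^ 2 := by
      rw [← ih (fun a => C a + xw v q * C (insert q a)), Finset.mul_sum]
      refine Finset.sum_congr rfl fun ξ hξ => ?_
      have hqξ : q ∉ ξ := fun h => hq (Finset.mem_powerset.1 hξ h)
      have hqc : q ∉ c \ ξ := fun h => hq (Finset.mem_sdiff.1 h).1
      rw [hin1 ξ hξ, Finset.insert_sdiff_of_notMem c hqξ, Finset.prod_insert hqc]
      ring
    have h2 : ∑ ξ ∈ c.powerset, (∏ p ∈ insert q ξ, 1 / (v p : ℝ)) *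
        (∏ p ∈ insert q c \ insert q ξ, (1 - 1 / (v p : ℝ))) *
        (∑ a ∈ (insert q c).powerset, C a * ∏ p ∈ a,
          if p ∈ insert q ξ then (-1 : ℝ) else xw v p) ^ 2 =
        (1 / (v q : ℝ)) *
          ∑ a ∈ c.powerset, (∏ p ∈ a, xw v p) * (C a - C (insert q a)) ^ 2 := by
      rw [← ih (fun a => C a - C (insert q a)), Finset.mul_sum]
      refine Finset.sum_congr rfl fun ξ hξ => ?_
      have hqξ : q ∉ ξ := fun h => hq (Finset.mem_powerset.1 hξ h)
      have hsd : insert q c \ insert q ξ = c \ ξ := by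
        rw [Finset.insert_sdiff_insert, Finset.sdiff_insert_of_notMem hq]
      rw [hin2 ξ hξ, hsd, Finset.prod_insert hqξ]
      ring
    rw [h1, h2, Finset.mul_sum, Finset.mul_sum, ← Finset.sum_add_distrib,
      ← Finset.sum_add_distrib]
    refine Finset.sum_congr rfl fun a ha => ?_
    have hqa : q ∉ a := fun h => hq (Finset.mem_powerset.1 ha h)
    rw [Finset.prod_insert hqa]
    have hx : xw v q = 1 / ((v q : ℝ) - 1) := rfl
    have hv0 : (v q : ℝ) ≠ 0 := by linarith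
    have hv1 : (v q : ℝ) - 1 ≠ 0 := by linarith
    have e1 : (1 - 1 / (v q : ℝ)) * xw v q = 1 / (v q : ℝ) := by
      rw [hx]
      field_simp
    have e2 : (1 - 1 / (v q : ℝ)) * xw v q ^ 2 + 1 / (v q : ℝ) = xw v q := by
      rw [hx]
      field_simp
      ring
    linear_combination (∏ p ∈ a, xw v p) * (2 * C a * C (insert q a) * e1 +
      C (insert q a) ^ 2 * e2)

/-- the coefficient of `∏_{p ∈ a} h_p` -/
private noncomputable def cf (v : P → ℕ) (R : ℕ) (s u a : Finset P) : ℝ :=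
  ∑ b ∈ s.powerset, if nm v (a ∪ b) ≤ R then ∏ p ∈ b, (if p ∈ u then (-1 : ℝ) else xw v p) else 0

private theorem sum_split (s : Finset P) (F : Finset P → ℝ) :
    ∑ a : Finset P, F a = ∑ a ∈ (univ \ s).powerset, ∑ b ∈ s.powerset, F (a ∪ b) := by
  rw [← Finset.sum_product' (univ \ s).powerset s.powerset (fun a b => F (a ∪ b))]
  refine Finset.sum_nbij' (fun a => (a \ s, a ∩ s)) (fun x => x.1 ∪ x.2) ?_ ?_ ?_ ?_ ?_
  · intro a _
    rw [Finset.mem_product, Finset.mem_powerset, Finset.mem_powerset]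
    exact ⟨Finset.sdiff_subset_sdiff (Finset.subset_univ a) (Finset.Subset.refl s),
      Finset.inter_subset_right⟩
  · intro x _
    exact Finset.mem_univ _
  · intro a _
    exact Finset.sdiff_union_inter a s
  · rintro ⟨a, b⟩ hx
    rw [Finset.mem_product, Finset.mem_powerset, Finset.mem_powerset] at hx
    obtain ⟨ha, hb⟩ := hx
    have ha' : ∀ p ∈ a, p ∉ s := fun p hp => (Finset.mem_sdiff.1 (ha hp)).2
    refine Prod.ext ?_ ?_
    · ext p
      simp only [Finset.mem_sdiff, Finset.mem_union]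
      constructor
      · rintro ⟨h1 | h1, h2⟩
        · exact h1
        · exact absurd (hb h1) h2
      · intro h1
        exact ⟨Or.inl h1, ha' p h1⟩
    · ext p
      simp only [Finset.mem_inter, Finset.mem_union]
      constructor
      · rintro ⟨h1 | h1, h2⟩
        · exact absurd h2 (ha' p h1)
        · exact h1
      · intro h1
        exact ⟨Or.inr h1, hb h1⟩
  · intro a _
    show F a = F (a \ s ∪ a ∩ s)
    rw [Finset.sdiff_union_inter]

private theorem Lam_cf (v : P → ℕ) (R : ℕ) (s u ξ : Finset P) (hu : u ⊆ s)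
    (hξ : ξ ∈ (univ \ s).powerset) : Lam v R (ξ ∪ u) =
      (∑ a ∈ (univ \ s).powerset, cf v R s u a *
        ∏ p ∈ a, if p ∈ ξ then (-1 : ℝ) else xw v p) / VV v R := by
  unfold Lam
  congr 1
  rw [Finset.sum_filter, sum_split s]
  refine Finset.sum_congr rfl fun a ha => ?_
  unfold cf
  rw [Finset.sum_mul]
  refine Finset.sum_congr rfl fun b hb => ?_
  rw [Finset.mem_powerset] at hξ ha hb
  have ha' : ∀ p ∈ a, p ∉ s := fun p hp => (Finset.mem_sdiff.1 (ha hp)).2
  have hξ' : ∀ p ∈ ξ, p ∉ s := fun p hp => (Finset.mem_sdiff.1 (hξ hp)).2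
  by_cases h : nm v (a ∪ b) ≤ R
  · rw [if_pos h, if_pos h]
    have hd : Disjoint a b := Finset.disjoint_left.2 fun p hp hp' => ha' p hp (hb hp')
    rw [Finset.prod_union hd, mul_comm]
    congr 1
    · refine Finset.prod_congr rfl fun p hp => ?_
      have hiff : p ∈ ξ ∪ u ↔ p ∈ u := by
        rw [Finset.mem_union]
        exact or_iff_right fun h1 => hξ' p h1 (hb hp)
      simp only [hiff]
    · refine Finset.prod_congr rfl fun p hp => ?_
      have hiff : p ∈ ξ ∪ u ↔ p ∈ ξ := by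
        rw [Finset.mem_union]
        exact or_iff_left fun h1 => ha' p hp (hu h1)
      simp only [hiff]
  · rw [if_neg h, if_neg h, zero_mul]

private theorem second (v : P → ℕ) (hv : ∀ p, 2 ≤ v p) (R : ℕ) (s u : Finset P) (hu : u ⊆ s) :
    ∑ ξ ∈ (univ \ s).powerset, (∏ p ∈ ξ, 1 / (v p : ℝ)) *
      (∏ p ∈ (univ \ s) \ ξ, (1 - 1 / (v p : ℝ))) * Lam v R (ξ ∪ u) ^ 2 =
    (∑ a ∈ (univ \ s).powerset, (∏ p ∈ a, xw v p) * cf v R s u a ^ 2) / VV v R ^ 2 := by
  rw [← orth_core v hv (univ \ s) (cf v R s u), Finset.sum_div]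
  refine Finset.sum_congr rfl fun ξ hξ => ?_
  rw [Lam_cf v R s u ξ hu hξ, div_pow]
  ring

private theorem nm_mono (v : P → ℕ) (hv : ∀ p, 2 ≤ v p) {a b : Finset P} (h : a ⊆ b) :
    nm v a ≤ nm v b := by
  unfold nm
  exact Finset.prod_le_prod_of_subset_of_one_le' h fun p _ _ => le_trans (by norm_num) (hv p)

private theorem cf_zero (v : P → ℕ) (hv : ∀ p, 2 ≤ v p) (R : ℕ) (s u a : Finset P)
    (h : ¬ nm v a ≤ R) : cf v R s u a = 0 := by
  unfold cf
  refine Finset.sum_eq_zero fun b _ => ?_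
  rw [if_neg]
  exact fun hc => h (le_trans (nm_mono v hv Finset.subset_union_left) hc)

private theorem cf_abs (v : P → ℕ) (hv : ∀ p, 2 ≤ v p) (R : ℕ) (s u a : Finset P) :
    |cf v R s u a| ≤ 2 ^ s.card := by
  unfold cf
  refine (Finset.abs_sum_le_sum_abs _ _).trans ?_
  have h1 : ∀ b ∈ s.powerset,
      |if nm v (a ∪ b) ≤ R then ∏ p ∈ b, (if p ∈ u then (-1 : ℝ) else xw v p) else 0| ≤ 1 := by
    intro b _
    split_ifs with h
    · rw [Finset.abs_prod]
      refine Finset.prod_le_one (fun p _ => abs_nonneg _) fun p _ => ?_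
      obtain ⟨hx0, hx1⟩ := xw_pos v hv p
      split_ifs
      · rw [abs_neg, abs_one]
      · rw [abs_of_pos hx0]
        exact hx1
    · rw [abs_zero]
      exact zero_le_one
  refine (Finset.sum_le_sum h1).trans ?_
  rw [Finset.sum_const, Finset.card_powerset, nsmul_eq_mul, mul_one, Nat.cast_pow,
    Nat.cast_ofNat]

theorem orth_le (v : P → ℕ) (hv : ∀ p, 2 ≤ v p) (R : ℕ) (hR : 1 ≤ R) (s u : Finset P) (hu : u ⊆ s) :
    ∑ ξ ∈ (univ \ s).powerset, (∏ p ∈ ξ, 1 / (v p : ℝ)) *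
      (∏ p ∈ (univ \ s) \ ξ, (1 - 1 / (v p : ℝ))) * Lam v R (ξ ∪ u) ^ 2 ≤ 4 ^ s.card / VV v R := by
  rw [second v hv R s u hu]
  have hV := VV_pos v hv R hR
  have h1 : ∑ a ∈ (univ \ s).powerset, (∏ p ∈ a, xw v p) * cf v R s u a ^ 2 ≤
      4 ^ s.card * VV v R := by
    have h2 : ∑ a ∈ (univ \ s).powerset, (∏ p ∈ a, xw v p) * cf v R s u a ^ 2 ≤
        ∑ a : Finset P, (∏ p ∈ a, xw v p) * cf v R s u a ^ 2 :=
      Finset.sum_le_sum_of_subset_of_nonneg (Finset.subset_univ _) fun a _ _ =>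
        mul_nonneg (xprod_nonneg v hv a) (sq_nonneg _)
    refine h2.trans ?_
    unfold VV
    rw [Finset.mul_sum, Finset.sum_filter]
    refine Finset.sum_le_sum fun a _ => ?_
    by_cases h : nm v a ≤ R
    · rw [if_pos h, mul_comm]
      refine mul_le_mul_of_nonneg_right ?_ (xprod_nonneg v hv a)
      have h3 := cf_abs v hv R s u a
      have h4 : cf v R s u a ^ 2 ≤ (2 ^ s.card) ^ 2 := by
        rw [← sq_abs]
        exact pow_le_pow_left₀ (abs_nonneg _) h3 2
      refine h4.trans (le_of_eq ?_)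
      rw [← pow_mul, mul_comm s.card 2, pow_mul]
      norm_num
    · rw [if_neg h, cf_zero v hv R s u a h]
      simp
  rw [div_le_div_iff₀ (by positivity) hV]
  calc (∑ a ∈ (univ \ s).powerset, (∏ p ∈ a, xw v p) * cf v R s u a ^ 2) * VV v R
      ≤ (4 ^ s.card * VV v R) * VV v R := mul_le_mul_of_nonneg_right h1 hV.le
    _ = 4 ^ s.card * VV v R ^ 2 := by ring

theorem orth_eq (v : P → ℕ) (hv : ∀ p, 2 ≤ v p) (R : ℕ) (hR : 1 ≤ R) :
    ∑ ξ : Finset P, (∏ p ∈ ξ, 1 / (v p : ℝ)) * (∏ p ∈ univ \ ξ, (1 - 1 / (v p : ℝ))) * Lam v R ξ ^ 2 =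
      1 / VV v R := by
  have hV := VV_pos v hv R hR
  have h := second v hv R ∅ ∅ (Finset.Subset.refl ∅)
  rw [Finset.sdiff_empty, Finset.powerset_univ] at h
  simp only [Finset.union_empty] at h
  rw [h]
  have h1 : ∑ a : Finset P, (∏ p ∈ a, xw v p) * cf v R ∅ ∅ a ^ 2 = VV v R := by
    unfold VV
    rw [Finset.sum_filter]
    refine Finset.sum_congr rfl fun a _ => ?_
    have hc : cf v R ∅ ∅ a = if nm v a ≤ R then 1 else 0 := by
      unfold cf
      rw [Finset.powerset_empty, Finset.sum_singleton, Finset.union_empty, Finset.prod_empty]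
    rw [hc]
    split_ifs
    · rw [one_pow, mul_one]
    · rw [zero_pow (by norm_num), mul_zero]
  rw [h1, pow_two]
  field_simp

end Pool.CG
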