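import Pool.Agent.Lib.MP_c77da8_nt.CG.SDefs
import Pool.Agent.Lib.MP_c77da8_nt.Mert

/-!
# CG-N-PLog: the sum of `1/(p log p)`, and a convexity inequality

`plogp_sum`: the primes in `(2^i, 2^(i+1)]`, `i ≥ 1`: `∑ 1/p ≤ C/i` (Chebyshev: `∏_{m < p ≤ 2m} p ≤ 4^m`, so there are at most
`2^(i+1)/i` of them, each `1/p ≤ 2^(-i)`; `Mathlib`: `primorial_le_4_pow`, or the binomial coefficient), so
`∑ 1/(p log p) ≤ C/(i^2 log 2)`; sum over `i ≥ log_2 w - 1`: `≤ C'/log w` (for small `w` use the convergence of the sum).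
`jensen_exp`: `λ_p = 8c/(p log p)`, `∑_{p ∈ Q} λ_p ≤ 1`, so by convexity of `exp` (Jensen, weight `1 - ∑ λ_p` at `0`):
`exp(c ∑_Q 1/p) = exp(∑_Q λ_p (log p)/8) ≤ 1 + ∑_Q λ_p (exp((log p)/8) - 1) ≤ 1 + ∑_Q 8c p^(1/8)/(p log p)
≤ 1 + 12 c ∑_Q p^(-7/8)`, as `log p ≥ log 2 ≥ 2/3`.
-/

set_option autoImplicit false

namespace Pool.CG

open Finset

private theorem block_sum (i : ℕ) (hi : 1 ≤ i) :
    ∑ p ∈ Nat.primesLE (2 ^ (i + 1)) \ Nat.primesLE (2 ^ i), 1 / ((p : ℝ) * Real.log p) ≤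
      4 / Real.log 2 * ((i : ℝ) ^ 2)⁻¹ := by
  have hl2 : 0 < Real.log 2 := Real.log_pos (by norm_num)
  have hi' : (0 : ℝ) < i := by exact_mod_cast hi
  have h2i : (0 : ℝ) < 2 ^ i := by positivity
  have h1 : ∑ p ∈ Nat.primesLE (2 ^ (i + 1)) \ Nat.primesLE (2 ^ i), 1 / ((p : ℝ) * Real.log p) ≤
      ∑ p ∈ Nat.primesLE (2 ^ (i + 1)) \ Nat.primesLE (2 ^ i),
        Real.log p / (2 ^ i * ((i : ℝ) * Real.log 2) ^ 2) := by
    refine Finset.sum_le_sum fun p hp => ?_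
    rw [mem_sdiff, Nat.mem_primesLE, Nat.mem_primesLE] at hp
    obtain ⟨⟨_, hp1⟩, hp2⟩ := hp
    have hp3 : 2 ^ i ≤ p := by
      by_contra h
      exact hp2 ⟨by omega, hp1⟩
    have hp4 : (0 : ℝ) < p := by exact_mod_cast hp1.pos
    have hp5 : (2 : ℝ) ^ i ≤ p := by exact_mod_cast hp3
    have h1 : (i : ℝ) * Real.log 2 ≤ Real.log p := by
      rw [← Real.log_pow]
      exact Real.log_le_log (by positivity) hp5
    have h0 : 0 < (i : ℝ) * Real.log 2 := by positivity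
    have h2 : 0 < Real.log p := h0.trans_le h1
    rw [div_le_div_iff₀ (by positivity) (by positivity), one_mul]
    have h3 : ((i : ℝ) * Real.log 2) ^ 2 ≤ Real.log p ^ 2 := by
      exact pow_le_pow_left₀ h0.le h1 2
    calc (2 : ℝ) ^ i * ((i : ℝ) * Real.log 2) ^ 2 ≤ p * Real.log p ^ 2 :=
          mul_le_mul hp5 h3 (by positivity) hp4.le
      _ = Real.log p * (p * Real.log p) := by ring
  refine h1.trans ?_
  rw [← Finset.sum_div]
  have h3 : ∑ p ∈ Nat.primesLE (2 ^ (i + 1)) \ Nat.primesLE (2 ^ i), Real.log p ≤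
      Real.log 4 * 2 ^ (i + 1) := by
    have h4 : ∑ p ∈ Nat.primesLE (2 ^ (i + 1)), Real.log p ≤ Real.log 4 * ((2 ^ (i + 1) : ℕ) : ℝ) := by
      rw [← Chebyshev.theta_eq_sum_primesLE_log]
      exact Chebyshev.theta_le_log4_mul_x (by positivity)
    refine (Finset.sum_le_sum_of_subset_of_nonneg sdiff_subset fun p _ _ =>
      Real.log_natCast_nonneg p).trans (h4.trans_eq ?_)
    push_cast
    ring
  have h5 : Real.log 4 = 2 * Real.log 2 := by
    rw [show (4 : ℝ) = 2 ^ 2 by norm_num, Real.log_pow]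
    norm_num
  rw [h5] at h3
  rw [div_le_iff₀ (by positivity)]
  refine h3.trans (le_of_eq ?_)
  field_simp
  ring

private theorem dyadic_sum (I J : ℕ) (hI : 1 ≤ I) (hIJ : I ≤ J) :
    ∑ p ∈ Nat.primesLE (2 ^ J) \ Nat.primesLE (2 ^ I), 1 / ((p : ℝ) * Real.log p) ≤
      4 / Real.log 2 * ∑ i ∈ Ico I J, ((i : ℝ) ^ 2)⁻¹ := by
  induction J, hIJ using Nat.le_induction with
  | base => simp
  | succ J hJ ih =>
    rw [Finset.sum_Ico_succ_top hJ, mul_add]
    have hb := block_sum J (hI.trans hJ)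
    have hsub : Nat.primesLE (2 ^ (J + 1)) \ Nat.primesLE (2 ^ I) ⊆
        (Nat.primesLE (2 ^ J) \ Nat.primesLE (2 ^ I)) ∪
          (Nat.primesLE (2 ^ (J + 1)) \ Nat.primesLE (2 ^ J)) := by
      intro p hp
      rw [mem_union]
      rw [mem_sdiff] at hp
      by_cases h : p ∈ Nat.primesLE (2 ^ J)
      · exact Or.inl (mem_sdiff.2 ⟨h, hp.2⟩)
      · exact Or.inr (mem_sdiff.2 ⟨hp.1, h⟩)
    have hnn : ∀ p : ℕ, 0 ≤ 1 / ((p : ℝ) * Real.log p) := fun p =>
      div_nonneg zero_le_one (mul_nonneg (Nat.cast_nonneg _) (Real.log_natCast_nonneg p))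
    refine (Finset.sum_le_sum_of_subset_of_nonneg hsub fun p _ _ => hnn p).trans ?_
    have hd : Disjoint (Nat.primesLE (2 ^ J) \ Nat.primesLE (2 ^ I))
        (Nat.primesLE (2 ^ (J + 1)) \ Nat.primesLE (2 ^ J)) := by
      rw [disjoint_left]
      intro p h1 h2
      rw [mem_sdiff] at h1 h2
      exact h2.2 h1.1
    rw [Finset.sum_union hd]
    exact add_le_add ih hb

theorem plogp_sum : ∃ C : ℝ, 0 < C ∧ ∀ w Y : ℕ, 2 ≤ w →
    ∑ p ∈ Pr w Y, 1 / ((p : ℝ) * Real.log p) ≤ C / Real.log w := by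
  refine ⟨16, by norm_num, fun w Y hw => ?_⟩
  have hl2 : 0 < Real.log 2 := Real.log_pos (by norm_num)
  have hw' : (2 : ℝ) ≤ w := by exact_mod_cast hw
  have hlw : 0 < Real.log w := Real.log_pos (by linarith)
  set I := Nat.log 2 w with hI
  have hI1 : 1 ≤ I := Nat.log_pos (by norm_num) hw
  have hI0 : (0 : ℝ) < I := by exact_mod_cast hI1
  have hIw : 2 ^ I ≤ w := Nat.pow_log_le_self 2 (by omega)
  have hwI : w < 2 ^ (I + 1) := Nat.lt_pow_succ_log_self (by norm_num) w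
  have hsub : Pr w Y ⊆ Nat.primesLE (2 ^ max I Y) \ Nat.primesLE (2 ^ I) := by
    intro p hp
    unfold Pr at hp
    rw [mem_filter, mem_Icc] at hp
    obtain ⟨⟨_, h1⟩, h2, h3⟩ := hp
    rw [mem_sdiff, Nat.mem_primesLE, Nat.mem_primesLE]
    refine ⟨⟨?_, h2⟩, fun h => by omega⟩
    calc p ≤ Y := h1
      _ ≤ 2 ^ Y := Nat.lt_two_pow_self.le
      _ ≤ 2 ^ max I Y := Nat.pow_le_pow_right (by norm_num) (le_max_right _ _)
  have hnn : ∀ p : ℕ, 0 ≤ 1 / ((p : ℝ) * Real.log p) := fun p =>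
    div_nonneg zero_le_one (mul_nonneg (Nat.cast_nonneg _) (Real.log_natCast_nonneg p))
  refine (Finset.sum_le_sum_of_subset_of_nonneg hsub fun p _ _ => hnn p).trans ?_
  refine (dyadic_sum I (max I Y) hI1 (le_max_left _ _)).trans ?_
  have h1 : ∑ i ∈ Ico I (max I Y), ((i : ℝ) ^ 2)⁻¹ ≤ 2 / (I : ℝ) := by
    have h2 := sum_Ioo_inv_sq_le (α := ℝ) (I - 1) (max I Y)
    have h3 : Ioo (I - 1) (max I Y) = Ico I (max I Y) := by
      ext i
      rw [mem_Ioo, mem_Ico]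
      omega
    have h4 : ((I - 1 : ℕ) : ℝ) + 1 = I := by
      rw [Nat.cast_sub hI1]
      push_cast
      ring
    rw [h3, h4] at h2
    exact h2
  have h2 : Real.log w ≤ 2 * (I * Real.log 2) := by
    have h3 : Real.log w ≤ Real.log ((2 : ℝ) ^ (I + 1)) :=
      Real.log_le_log (by linarith) (by exact_mod_cast hwI.le)
    rw [Real.log_pow] at h3
    push_cast at h3
    have h4 : (1 : ℝ) ≤ I := by exact_mod_cast hI1
    nlinarith
  have h3 : 4 / Real.log 2 * ∑ i ∈ Ico I (max I Y), ((i : ℝ) ^ 2)⁻¹ ≤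
      4 / Real.log 2 * (2 / (I : ℝ)) := mul_le_mul_of_nonneg_left h1 (by positivity)
  refine h3.trans ?_
  rw [div_mul_div_comm, div_le_div_iff₀ (by positivity) hlw]
  nlinarith

theorem jensen_exp (c : ℝ) (hc : 0 ≤ c) (Q : Finset ℕ) (hQ : ∀ p ∈ Q, 2 ≤ p)
    (h : c * ∑ p ∈ Q, 1 / ((p : ℝ) * Real.log p) ≤ 1 / 8) :
    Real.exp (c * ∑ p ∈ Q, 1 / (p : ℝ)) ≤ 1 + 12 * c * ∑ p ∈ Q, (p : ℝ) ^ (-(7 / 8) : ℝ) := by
  have hl2 : 2 / 3 ≤ Real.log 2 := by
    have := Real.log_two_gt_d9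
    linarith
  have hlp : ∀ p ∈ Q, 2 / 3 ≤ Real.log p ∧ (0 : ℝ) < p := by
    intro p hp
    have h1 : (2 : ℝ) ≤ p := by exact_mod_cast hQ p hp
    exact ⟨hl2.trans (Real.log_le_log (by norm_num) h1), by linarith⟩
  set la : ℕ → ℝ := fun p => 8 * c * (1 / ((p : ℝ) * Real.log p)) with hla
  have hla0 : ∀ p ∈ Q, 0 ≤ la p := by
    intro p hp
    obtain ⟨h1, h2⟩ := hlp p hp
    have h3 : 0 < Real.log p := by linarith
    rw [hla]
    positivity
  have hsum : ∑ p ∈ Q, la p ≤ 1 := by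
    rw [hla, ← Finset.mul_sum]
    linarith
  have hJ := convexOn_exp.map_sum_le (t := insertNone Q)
    (w := fun o : Option ℕ => o.elim (1 - ∑ p ∈ Q, la p) la)
    (p := fun o : Option ℕ => o.elim (0 : ℝ) fun p => Real.log p / 8)
    (by
      intro o ho
      rcases o with _ | p
      · show 0 ≤ 1 - ∑ p ∈ Q, la p
        linarith
      · exact hla0 p (by simpa using ho))
    (by
      rw [Finset.sum_insertNone]
      simp)
    (by
      intro o _
      exact Set.mem_univ _)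
  rw [Finset.sum_insertNone, Finset.sum_insertNone] at hJ
  simp only [Option.elim, smul_eq_mul, mul_zero, zero_add, Real.exp_zero, mul_one] at hJ
  have e1 : ∑ p ∈ Q, la p * (Real.log p / 8) = c * ∑ p ∈ Q, 1 / (p : ℝ) := by
    rw [Finset.mul_sum]
    refine Finset.sum_congr rfl fun p hp => ?_
    obtain ⟨h1, h2⟩ := hlp p hp
    have h3 : Real.log p ≠ 0 := by
      have : 0 < Real.log p := by linarith
      exact this.ne'
    rw [hla]
    field_simp
  rw [e1] at hJ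
  refine hJ.trans ?_
  have e2 : ∑ p ∈ Q, la p * Real.exp (Real.log p / 8) ≤
      12 * c * ∑ p ∈ Q, (p : ℝ) ^ (-(7 / 8) : ℝ) := by
    rw [Finset.mul_sum]
    refine Finset.sum_le_sum fun p hp => ?_
    obtain ⟨h1, h2⟩ := hlp p hp
    have h3 : 0 < Real.log p := by linarith
    have e3 : (p : ℝ) ^ (-(7 / 8) : ℝ) = Real.exp (Real.log p / 8) / p := by
      rw [show (-(7 / 8) : ℝ) = 1 / 8 - 1 by norm_num, Real.rpow_sub h2, Real.rpow_one,
        Real.rpow_def_of_pos h2]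
      congr 2
      ring
    rw [e3, hla]
    have h4 : 8 * c * (1 / ((p : ℝ) * Real.log p)) * Real.exp (Real.log p / 8) =
        8 / Real.log p * (c * (Real.exp (Real.log p / 8) / p)) := by
      field_simp
    have h5 : 8 / Real.log p ≤ 12 := by
      rw [div_le_iff₀ h3]
      linarith
    have h6 : 0 ≤ c * (Real.exp (Real.log p / 8) / p) := by positivity
    calc _ = 8 / Real.log p * (c * (Real.exp (Real.log p / 8) / p)) := h4
      _ ≤ 12 * (c * (Real.exp (Real.log p / 8) / p)) := mul_le_mul_of_nonneg_right h5 h6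
      _ = _ := by ring
  have h7 : 0 ≤ ∑ p ∈ Q, la p := Finset.sum_nonneg hla0
  linarith

end Pool.CG
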