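import Pool.Agent.Lib.MP_c77da8_nt.CG.SDefs

/-!
# CG-N-PairJ: jointly uniform pairs

`JU y y'`: for every `e` there is a bijection `σ` of `Ω` with `y ∘ σ = y + e`, `y' ∘ σ = y'`.
`JU.pairOK`: second part of `PairOK`: `Equiv.sum_comp`. First part: the sets `{ω : y ω + e = y' ω}`, `e ∈ G = (Fin (r+2) → ZMod M)`,
are a partition of `Ω` (for every `ω` exactly one `e`), and they all have the same number of elements (`σ` maps
`{y + e = y'}` onto `{y = y'}`), so `|G| · #{y = y'} = |Ω|`, `|G| = M^(r+2) ≥ M^(r+1)`.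
`JU.inl`, `JU.inr`, `JU.two`: pairs which depend on the coordinates of `Ω × Ω'`.
-/

set_option autoImplicit false

namespace Pool.CG

open Finset

/-- jointly uniform: all translations of `y` with `y'` fixed are realized by bijections -/
def JU {G Ω : Type} [AddCommGroup G] (y y' : Ω → G) : Prop :=
  ∀ e : G, ∃ σ : Ω ≃ Ω, ∀ ω, y (σ ω) = y ω + e ∧ y' (σ ω) = y' ω

theorem JU.pairOK {r M : ℕ} [NeZero M] {Ω : Type} [Fintype Ω] {y y' : Ω → Fin (r + 2) → ZMod M}
    (h : JU y y') : PairOK y y' := by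
  classical
  refine ⟨?_, fun c F => ?_⟩
  · -- all the sets `{y + e = y'}` have the same number of elements
    have hcard : ∀ e : Fin (r + 2) → ZMod M,
        (univ.filter fun ω => y ω = y' ω).card = (univ.filter fun ω => y ω + e = y' ω).card := by
      intro e
      obtain ⟨σ, hσ⟩ := h e
      -- `y (σ ω) = y ω + e`
      symm
      refine Finset.card_bij (fun ω _ => σ ω) ?_ ?_ ?_
      · intro ω hω
        rw [mem_filter] at hω ⊢
        exact ⟨mem_univ _, by rw [(hσ ω).1, (hσ ω).2]; exact hω.2⟩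
      · intro a _ b _ hab
        exact σ.injective hab
      · intro b hb
        rw [mem_filter] at hb
        refine ⟨σ.symm b, ?_, by simp⟩
        rw [mem_filter]
        have h1 := (hσ (σ.symm b)).1
        have h2 := (hσ (σ.symm b)).2
        rw [Equiv.apply_symm_apply] at h1 h2
        exact ⟨mem_univ _, by rw [← h1, ← h2]; exact hb.2⟩
    have hpart : Fintype.card Ω = ∑ e : Fin (r + 2) → ZMod M, (univ.filter fun ω => y ω + e = y' ω).card := by
      rw [← Finset.card_univ (α := Ω)]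
      have : ∀ e : Fin (r + 2) → ZMod M, (univ.filter fun ω => y ω + e = y' ω) =
          (univ.filter fun ω => y' ω - y ω = e) := by
        intro e
        ext ω
        simp only [mem_filter, mem_univ, true_and]
        constructor
        · intro h1
          rw [← h1]
          abel
        · intro h1
          rw [← h1]
          abel
      simp only [this]
      exact Finset.card_eq_sum_card_fiberwise (f := fun ω => y' ω - y ω) (t := univ) fun _ _ => by simp
    simp only [← hcard, sum_const, card_univ, smul_eq_mul] at hpart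
    have hG : Fintype.card (Fin (r + 2) → ZMod M) = M ^ (r + 2) := by
      rw [Fintype.card_fun, Fintype.card_fin, ZMod.card]
    rw [hG] at hpart
    have hM : 1 ≤ M := Nat.one_le_iff_ne_zero.2 (NeZero.ne M)
    have hMr : (1 : ℝ) ≤ M := by exact_mod_cast hM
    have hr : (Fintype.card Ω : ℝ) = (M : ℝ) ^ (r + 2) * ((univ.filter fun ω => y ω = y' ω).card : ℝ) := by
      exact_mod_cast hpart
    rw [hr, mul_comm]
    refine mul_le_mul_of_nonneg_right ?_ (Nat.cast_nonneg _)
    exact pow_le_pow_right₀ hMr (by omega)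
  · obtain ⟨σ, hσ⟩ := h (Pi.single 1 c)
    unfold av
    congr 1
    rw [← Equiv.sum_comp σ (fun ω => F (y ω) (y' ω))]
    refine Finset.sum_congr rfl fun ω _ => ?_
    rw [(hσ ω).1, (hσ ω).2]

theorem JU.inl {G Ω Ω' : Type} [AddCommGroup G] {y y' : Ω → G} (h : JU y y') :
    JU (fun p : Ω × Ω' => y p.1) (fun p => y' p.1) := by
  intro e
  obtain ⟨σ, hσ⟩ := h e
  exact ⟨σ.prodCongr (Equiv.refl _), fun ω => hσ ω.1⟩

theorem JU.inr {G Ω Ω' : Type} [AddCommGroup G] {y y' : Ω → G} (h : JU y y') :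
    JU (fun p : Ω' × Ω => y p.2) (fun p => y' p.2) := by
  intro e
  obtain ⟨σ, hσ⟩ := h e
  exact ⟨(Equiv.refl _).prodCongr σ, fun ω => hσ ω.2⟩

theorem JU.two {G Ω Ω' : Type} [AddCommGroup G] {y : Ω → G} (h : JU y (fun _ => (0 : G))) (y' : Ω' → G) :
    JU (fun p : Ω × Ω' => y p.1) (fun p => y' p.2) := by
  intro e
  obtain ⟨σ, hσ⟩ := h e
  exact ⟨σ.prodCongr (Equiv.refl _), fun ω => ⟨(hσ ω.1).1, rfl⟩⟩

theorem JU.two' {G Ω Ω' : Type} [AddCommGroup G] {y : Ω → G} (h : JU y (fun _ => (0 : G))) (y' : Ω' → G) :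
    JU (fun p : Ω' × Ω => y p.2) (fun p => y' p.1) := by
  intro e
  obtain ⟨σ, hσ⟩ := h e
  exact ⟨(Equiv.refl _).prodCongr σ, fun ω => ⟨(hσ ω.2).1, rfl⟩⟩

end Pool.CG
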