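import Pool.Agent.Lib.MP_c77da8_nt.CG.PnM
import Pool.Agent.Lib.MP_dd84fd_nt.SW.LamChar

/-!
# CG-N-PnA: sums of `Λ(n) χ(n)` for moduli with prime divisors in a fixed set

The proof of `SW.lam_char` (file `SW/LamChar.lean`: copy the private lemmas `LamChar_id`, `LamChar_inner` and the structure) with
`mu_strong W B'`, `B' = 8 B + 8` in place of `mu_char`. `u = (log X)^(1/100)`, `K = ⌈exp((2B + 2) u)⌉`.
First part (`k ≤ K`, `Y = X/k ≥ √X`, so `(log Y)^(1/100) ≥ (1/2) u`, `q ≤ exp(B u) ≤ exp(B' (log Y)^(1/100))`): at most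
`K · log X · X exp(-B' u/2) ≤ 2 exp((2B+2)u) log X · X exp(-(4B+4) u) ≤ (X/2) exp(-B u)` for large `X`.
Second part: `(X/K) · 2 q · 2 log X ≤ 4 X log X exp(B u - (2B+2) u) ≤ (X/2) exp(-B u)` for large `X`.
-/

set_option autoImplicit false

namespace Pool.CG

open Finset Pool.MP_dd84fd_nt.SW

private lemma PnA_id {q : ℕ} (χ : DirichletCharacter ℂ q) (X : ℕ) :
    ∑ n ∈ Icc 1 X, (ArithmeticFunction.vonMangoldt n : ℂ) * χ n =
      ∑ k ∈ Ioc 0 X, (χ k * (Real.log k : ℂ)) *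
        ∑ m ∈ Ioc 0 (X / k), ((ArithmeticFunction.moebius m : ℤ) : ℂ) * χ m := by
  let g : ArithmeticFunction ℂ := ⟨fun n => χ n * (Real.log n : ℂ), by simp⟩
  let f : ArithmeticFunction ℂ := ⟨fun n => ((ArithmeticFunction.moebius n : ℤ) : ℂ) * χ n,
    by simp⟩
  have h := ArithmeticFunction.sum_Ioc_mul_eq_sum_sum g f X
  have hI : Icc 1 X = Ioc 0 X := by
    ext n; simp only [mem_Icc, mem_Ioc]; omega
  rw [hI]
  refine Eq.trans ?_ h
  refine Finset.sum_congr rfl fun n _ => ?_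
  rw [ArithmeticFunction.mul_apply]
  have h1 : ArithmeticFunction.vonMangoldt n =
      ∑ x ∈ n.divisorsAntidiagonal, Real.log x.1 * ((ArithmeticFunction.moebius x.2 : ℤ) : ℝ) := by
    rw [← ArithmeticFunction.log_mul_moebius_eq_vonMangoldt, ArithmeticFunction.mul_apply]
    rfl
  rw [h1, Complex.ofReal_sum, Finset.sum_mul]
  refine Finset.sum_congr rfl fun x hx => ?_
  rw [Complex.ofReal_mul, Complex.ofReal_intCast]
  have hx' := (Nat.mem_divisorsAntidiagonal.1 hx).1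
  show (Real.log x.1 : ℂ) * ((ArithmeticFunction.moebius x.2 : ℤ) : ℂ) * χ n =
    (χ x.1 * (Real.log x.1 : ℂ)) * (((ArithmeticFunction.moebius x.2 : ℤ) : ℂ) * χ x.2)
  rw [← hx', Nat.cast_mul, map_mul]
  ring

private lemma PnA_inner {q : ℕ} (hq : 1 ≤ q) (χ : DirichletCharacter ℂ q) (hχ : χ ≠ 1)
    (K Y : ℕ) : ‖∑ k ∈ Ioc K Y, χ k * (Real.log k : ℂ)‖ ≤ 2 * q * Real.log (Y + 1) := by
  rcases le_or_gt Y K with hKY | hKY
  · rw [Finset.Ioc_eq_empty (by omega), Finset.sum_empty, norm_zero]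
    have : 0 ≤ Real.log ((Y : ℝ) + 1) := Real.log_nonneg (by
      have : (0 : ℝ) ≤ Y := Nat.cast_nonneg Y
      linarith)
    positivity
  · have hI : Ioc K Y = Ico (K + 1) (Y + 1) := by
      ext n; simp only [mem_Ico, mem_Ioc]; omega
    rw [hI]
    have h := abel_bound (b := fun n => χ (n : ZMod q)) (g := fun n => (Real.log n : ℂ))
      (N := K + 1) (B := q) (fun n hn => char_sum_bound hq χ hχ hn) (K := Y + 1) (by omega)
    refine h.trans ?_
    have hg : ∀ n ∈ Ico (K + 1) (Y + 1),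
        ‖(Real.log ((n + 1 : ℕ) : ℝ) : ℂ) - (Real.log (n : ℝ) : ℂ)‖ =
          Real.log ((n + 1 : ℕ) : ℝ) - Real.log (n : ℝ) := by
      intro n hn
      rw [mem_Ico] at hn
      rw [← Complex.ofReal_sub, Complex.norm_real, Real.norm_of_nonneg]
      rw [sub_nonneg]
      apply Real.log_le_log
      · have : 0 < n := by omega
        exact_mod_cast this
      · push_cast; linarith
    rw [Finset.sum_congr rfl hg]
    rw [Finset.sum_Ico_sub (fun n : ℕ => Real.log (n : ℝ)) (by omega : K + 1 ≤ Y + 1)]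
    have h1 : ‖(Real.log ((Y + 1 : ℕ) : ℝ) : ℂ)‖ = Real.log ((Y : ℝ) + 1) := by
      rw [Complex.norm_real, Real.norm_of_nonneg]
      · push_cast; rfl
      · apply Real.log_nonneg
        push_cast
        have : (0 : ℝ) ≤ Y := Nat.cast_nonneg Y
        linarith
    have h2 : 0 ≤ Real.log ((K + 1 : ℕ) : ℝ) := by
      apply Real.log_nonneg
      push_cast
      have : (0 : ℝ) ≤ K := Nat.cast_nonneg K
      linarith
    rw [h1]
    have h3 : Real.log ((Y + 1 : ℕ) : ℝ) = Real.log ((Y : ℝ) + 1) := by push_cast; rfl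
    rw [h3]
    have hq0 : (0 : ℝ) ≤ q := Nat.cast_nonneg q
    calc (q : ℝ) * (Real.log ((Y : ℝ) + 1) + (Real.log ((Y : ℝ) + 1) -
          Real.log ((K + 1 : ℕ) : ℝ)))
        ≤ q * (Real.log ((Y : ℝ) + 1) + Real.log ((Y : ℝ) + 1)) :=
          mul_le_mul_of_nonneg_left (by linarith) hq0
      _ = 2 * q * Real.log (Y + 1) := by ring

private lemma PnA_ev (B Y0 : ℕ) : ∀ᶠ L : ℝ in Filter.atTop, 1 ≤ L ∧ (Y0 : ℝ) ≤ Real.exp (L / 2) ∧
    4 * Real.exp ((2 * B + 2) * L ^ (1 / 100 : ℝ)) ≤ Real.exp (L / 2) ∧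
    8 * L ≤ Real.exp (2 * L ^ (1 / 100 : ℝ)) := by
  have hu : Filter.Tendsto (fun L : ℝ => L ^ (1 / 100 : ℝ)) Filter.atTop Filter.atTop :=
    tendsto_rpow_atTop (by norm_num)
  have h1 : ∀ᶠ L : ℝ in Filter.atTop, (Y0 : ℝ) ≤ Real.exp (L / 2) :=
    (Real.tendsto_exp_atTop.comp (Filter.tendsto_id.atTop_div_const (by norm_num :
      (0 : ℝ) < 2))).eventually_ge_atTop _
  have h2 : ∀ᶠ L : ℝ in Filter.atTop, 2 * (2 * (B : ℝ) + 4) ≤ L ^ (99 / 100 : ℝ) :=
    (tendsto_rpow_atTop (by norm_num : (0 : ℝ) < 99 / 100)).eventually_ge_atTop _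
  have h3 : ∀ᶠ u : ℝ in Filter.atTop, 8 * u ^ 100 ≤ Real.exp (2 * u) := by
    have h4 := (Real.isLittleO_pow_exp_atTop (n := 100)).bound (show (0 : ℝ) < 1 by norm_num)
    filter_upwards [h4, Filter.eventually_ge_atTop (7 : ℝ)] with u h5 h6
    rw [Real.norm_eq_abs, Real.norm_eq_abs, abs_of_nonneg (by positivity : (0 : ℝ) ≤ u ^ 100),
      abs_of_pos (Real.exp_pos u), one_mul] at h5
    have h7 : (8 : ℝ) ≤ Real.exp u := by
      have := Real.add_one_le_exp u
      linarith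
    have e : Real.exp (2 * u) = Real.exp u * Real.exp u := by
      rw [← Real.exp_add]; congr 1; ring
    rw [e]
    exact mul_le_mul h7 h5 (by positivity) (Real.exp_pos u).le
  filter_upwards [Filter.eventually_ge_atTop (1 : ℝ), h1, h2, hu.eventually h3] with L hL a1 a2 a3
  have hL0 : 0 ≤ L := by linarith
  have hu1 : 1 ≤ L ^ (1 / 100 : ℝ) := Real.one_le_rpow hL (by norm_num)
  refine ⟨hL, a1, ?_, ?_⟩
  · have e1 : L ^ (1 / 100 : ℝ) * L ^ (99 / 100 : ℝ) = L := by
      rw [← Real.rpow_add (by linarith : 0 < L)]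
      norm_num
    have h8 : (2 * (B : ℝ) + 4) * L ^ (1 / 100 : ℝ) ≤ L / 2 := by
      have h9 : L ^ (1 / 100 : ℝ) * (2 * (2 * (B : ℝ) + 4)) ≤ L := by
        calc L ^ (1 / 100 : ℝ) * (2 * (2 * (B : ℝ) + 4)) ≤ L ^ (1 / 100 : ℝ) * L ^ (99 / 100 : ℝ) :=
              mul_le_mul_of_nonneg_left a2 (by linarith)
          _ = L := e1
      linarith
    have h10 : (4 : ℝ) ≤ Real.exp (2 * L ^ (1 / 100 : ℝ)) := by
      have h11 : (2 : ℝ) ≤ Real.exp (L ^ (1 / 100 : ℝ)) := by
        have := Real.add_one_le_exp (L ^ (1 / 100 : ℝ))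
        linarith
      have e : Real.exp (2 * L ^ (1 / 100 : ℝ)) =
          Real.exp (L ^ (1 / 100 : ℝ)) * Real.exp (L ^ (1 / 100 : ℝ)) := by
        rw [← Real.exp_add]; congr 1; ring
      rw [e]
      nlinarith
    calc 4 * Real.exp ((2 * B + 2) * L ^ (1 / 100 : ℝ))
        ≤ Real.exp (2 * L ^ (1 / 100 : ℝ)) * Real.exp ((2 * B + 2) * L ^ (1 / 100 : ℝ)) :=
          mul_le_mul_of_nonneg_right h10 (Real.exp_pos _).le
      _ = Real.exp ((2 * (B : ℝ) + 4) * L ^ (1 / 100 : ℝ)) := by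
          rw [← Real.exp_add]; congr 1; ring
      _ ≤ Real.exp (L / 2) := Real.exp_le_exp.2 h8
  · have e : (L ^ (1 / 100 : ℝ)) ^ 100 = L := by
      rw [← Real.rpow_natCast, ← Real.rpow_mul hL0]
      norm_num
    rw [e] at a3
    exact a3

theorem la_strong (W B : ℕ) (hW : 1 ≤ W) : ∃ X0 : ℕ, ∀ X : ℕ, X0 ≤ X →
    ∀ (q : ℕ) (χ : DirichletCharacter ℂ q), 1 ≤ q → (∀ p : ℕ, p.Prime → p ∣ q → p ∣ W) →
    (q : ℝ) ≤ Real.exp (B * Real.log X ^ (1 / 100 : ℝ)) → χ ≠ 1 →
    ‖∑ n ∈ Icc 1 X, (ArithmeticFunction.vonMangoldt n : ℂ) * χ n‖ ≤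
      X * Real.exp (-(B * Real.log X ^ (1 / 100 : ℝ))) := by
  obtain ⟨Y0, hmu⟩ := mu_strong W (8 * B + 8) hW
  have e4 := ((Real.tendsto_log_atTop).eventually (PnA_ev B Y0)).and
    (Filter.eventually_ge_atTop (2 : ℝ))
  obtain ⟨X0, hX0⟩ := Filter.eventually_atTop.1 (tendsto_natCast_atTop_atTop.eventually e4)
  refine ⟨X0, fun X hX q χ hq hW' hqL hχ => ?_⟩
  obtain ⟨⟨hL1, h2, h1, h3⟩, h4⟩ := hX0 X hX
  obtain ⟨L, hL⟩ : ∃ L : ℝ, Real.log X = L := ⟨_, rfl⟩
  rw [hL] at h1 h2 h3 hqL hL1 ⊢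
  obtain ⟨u, hu⟩ : ∃ u : ℝ, L ^ (1 / 100 : ℝ) = u := ⟨_, rfl⟩
  rw [hu] at h1 h3 hqL ⊢
  have hLpos : 0 < L := by linarith
  have hu1 : 1 ≤ u := by rw [← hu]; exact Real.one_le_rpow hL1 (by norm_num)
  have hXpos : (0 : ℝ) < X := by linarith
  obtain ⟨R, hR⟩ : ∃ R : ℝ, Real.exp (L / 2) = R := ⟨_, rfl⟩
  rw [hR] at h1 h2
  have hRR : R * R = X := by
    rw [← hR, ← Real.exp_add, add_halves, ← hL, Real.exp_log hXpos]
  have hE1 : 1 ≤ Real.exp ((2 * B + 2) * u) := Real.one_le_exp (by positivity)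
  have hR1 : 1 ≤ R := by linarith
  have hlogR : Real.log R = L / 2 := by
    rw [← hR, Real.log_exp]
  have hB0 : (0 : ℝ) ≤ (B : ℝ) := Nat.cast_nonneg B
  -- the splitting point
  obtain ⟨K, hK⟩ : ∃ K : ℕ, K = ⌈Real.exp ((2 * B + 2) * u)⌉₊ := ⟨_, rfl⟩
  have hKge : Real.exp ((2 * B + 2) * u) ≤ K := by rw [hK]; exact Nat.le_ceil _
  have hKle : (K : ℝ) ≤ 2 * Real.exp ((2 * B + 2) * u) := by
    have := Nat.ceil_lt_add_one (a := Real.exp ((2 * B + 2) * u)) (by positivity)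
    rw [← hK] at this
    linarith
  have hK1 : 1 ≤ K := by
    have : (1 : ℝ) ≤ K := by linarith
    exact_mod_cast this
  have hKR : (K : ℝ) * 2 ≤ R := by linarith
  have hKX : K ≤ X := by
    have h5 : (K : ℝ) ≤ X := by
      calc (K : ℝ) ≤ R * 1 := by linarith
        _ ≤ R * R := mul_le_mul_of_nonneg_left hR1 (by linarith)
        _ = X := hRR
    exact_mod_cast h5
  have hq1 : (1 : ℝ) ≤ q := by exact_mod_cast hq
  rw [PnA_id χ X, ← Finset.sum_Ioc_consecutive _ (Nat.zero_le K) hKX]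
  refine (norm_add_le _ _).trans ?_
  -- the two elementary inequalities
  have hexp1 : 8 * L * Real.exp (-((2 * B + 2) * u)) ≤ Real.exp (-(B * u)) := by
    have e : Real.exp (-(B * u)) = Real.exp ((B + 2) * u) * Real.exp (-((2 * B + 2) * u)) := by
      rw [← Real.exp_add]; congr 1; ring
    rw [e]
    refine mul_le_mul_of_nonneg_right (h3.trans ?_) (Real.exp_pos _).le
    exact Real.exp_le_exp.2 (by nlinarith)
  -- first part
  have hS1 : ‖∑ k ∈ Ioc 0 K, (χ k * (Real.log k : ℂ)) *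
      ∑ m ∈ Ioc 0 (X / k), ((ArithmeticFunction.moebius m : ℤ) : ℂ) * χ m‖ ≤
      X / 2 * Real.exp (-(B * u)) := by
    have hterm : ∀ k ∈ Ioc 0 K, ‖(χ k * (Real.log k : ℂ)) *
        ∑ m ∈ Ioc 0 (X / k), ((ArithmeticFunction.moebius m : ℤ) : ℂ) * χ m‖ ≤
        L * (X * Real.exp (-((4 * B + 4) * u))) := by
      intro k hk
      rw [mem_Ioc] at hk
      have hk0 : (0 : ℝ) < k := by exact_mod_cast hk.1
      have hkK : (k : ℝ) ≤ K := by exact_mod_cast hk.2
      have hk1 : (1 : ℝ) ≤ k := by exact_mod_cast hk.1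
      -- X / k ≥ R
      have hYR : R ≤ ((X / k : ℕ) : ℝ) := by
        have h6 : (X : ℝ) / k < ((X / k : ℕ) : ℝ) + 1 := by
          rw [div_lt_iff₀ hk0]
          have := Nat.lt_div_mul_add (a := X) (b := k) (by omega)
          have h7 : (X : ℝ) < ((X / k : ℕ) : ℝ) * k + k := by exact_mod_cast this
          linarith
        have h8 : R + 1 ≤ (X : ℝ) / k := by
          rw [le_div_iff₀ hk0]
          calc (R + 1) * k ≤ (R + R) * k := mul_le_mul_of_nonneg_right (by linarith) hk0.le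
            _ = R * (k * 2) := by ring
            _ ≤ R * R := mul_le_mul_of_nonneg_left (by linarith) (by linarith)
            _ = X := hRR
        linarith
      have hYpos : (0 : ℝ) < ((X / k : ℕ) : ℝ) := by linarith
      have hY0 : Y0 ≤ X / k := by
        have : (Y0 : ℝ) ≤ ((X / k : ℕ) : ℝ) := h2.trans hYR
        exact_mod_cast this
      have hlogY : L / 2 ≤ Real.log ((X / k : ℕ) : ℝ) := by
        rw [← hlogR]
        exact Real.log_le_log (by linarith) hYR
      have huY : u / 2 ≤ Real.log ((X / k : ℕ) : ℝ) ^ (1 / 100 : ℝ) := by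
        refine le_trans ?_ (Real.rpow_le_rpow (by linarith) hlogY (by norm_num))
        rw [Real.div_rpow hLpos.le (by norm_num), hu]
        refine div_le_div_of_nonneg_left (by linarith) (by positivity) ?_
        calc (2 : ℝ) ^ (1 / 100 : ℝ) ≤ (2 : ℝ) ^ (1 : ℝ) :=
              Real.rpow_le_rpow_of_exponent_le (by norm_num) (by norm_num)
          _ = 2 := Real.rpow_one 2
      have hB' : ((8 * B + 8 : ℕ) : ℝ) = 8 * (B : ℝ) + 8 := by push_cast; ring
      have hqY : (q : ℝ) ≤ Real.exp (((8 * B + 8 : ℕ) : ℝ) *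
          Real.log ((X / k : ℕ) : ℝ) ^ (1 / 100 : ℝ)) := by
        refine hqL.trans (Real.exp_le_exp.2 ?_)
        rw [hB']
        have h9 : (8 * (B : ℝ) + 8) * (u / 2) ≤
            (8 * (B : ℝ) + 8) * Real.log ((X / k : ℕ) : ℝ) ^ (1 / 100 : ℝ) :=
          mul_le_mul_of_nonneg_left huY (by positivity)
        nlinarith
      have hM := hmu (X / k) hY0 q χ hq hW' hqY hχ
      have hI : Icc 1 (X / k) = Ioc 0 (X / k) := by
        ext n; simp only [mem_Icc, mem_Ioc]; omega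
      rw [hI] at hM
      rw [norm_mul, norm_mul]
      have hlogk : ‖(Real.log k : ℂ)‖ ≤ L := by
        rw [Complex.norm_real, Real.norm_of_nonneg (Real.log_nonneg hk1), ← hL]
        apply Real.log_le_log hk0
        have : k ≤ X := by omega
        exact_mod_cast this
      have hchi : ‖χ k‖ * ‖(Real.log k : ℂ)‖ ≤ L := by
        calc ‖χ k‖ * ‖(Real.log k : ℂ)‖ ≤ 1 * L :=
              mul_le_mul (DirichletCharacter.norm_le_one χ _) hlogk (norm_nonneg _) (by norm_num)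
          _ = L := one_mul L
      refine mul_le_mul hchi (hM.trans ?_) (norm_nonneg _) hLpos.le
      have hYX : ((X / k : ℕ) : ℝ) ≤ X := by exact_mod_cast Nat.div_le_self X k
      refine mul_le_mul hYX (Real.exp_le_exp.2 ?_) (Real.exp_pos _).le hXpos.le
      rw [hB']
      have h9 : (8 * (B : ℝ) + 8) * (u / 2) ≤
          (8 * (B : ℝ) + 8) * Real.log ((X / k : ℕ) : ℝ) ^ (1 / 100 : ℝ) :=
        mul_le_mul_of_nonneg_left huY (by positivity)
      linarith
    refine (Finset.sum_le_sum hterm |> (norm_sum_le _ _).trans).trans ?_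
    rw [Finset.sum_const, Nat.card_Ioc, Nat.sub_zero, nsmul_eq_mul]
    have h5 : (K : ℝ) * (L * (X * Real.exp (-((4 * B + 4) * u)))) ≤
        (2 * Real.exp ((2 * B + 2) * u)) * (L * (X * Real.exp (-((4 * B + 4) * u)))) :=
      mul_le_mul_of_nonneg_right hKle (by positivity)
    refine h5.trans ?_
    have e : Real.exp ((2 * B + 2) * u) * Real.exp (-((4 * B + 4) * u)) =
        Real.exp (-((2 * B + 2) * u)) := by
      rw [← Real.exp_add]; congr 1; ring
    calc (2 * Real.exp ((2 * B + 2) * u)) * (L * (X * Real.exp (-((4 * B + 4) * u))))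
        = X * (2 * L * (Real.exp ((2 * B + 2) * u) * Real.exp (-((4 * B + 4) * u)))) := by ring
      _ = X / 2 * (4 * L * Real.exp (-((2 * B + 2) * u))) := by rw [e]; ring
      _ ≤ X / 2 * Real.exp (-(B * u)) := by
          refine mul_le_mul_of_nonneg_left ?_ (by positivity)
          have h9 : 0 ≤ 4 * L * Real.exp (-((2 * B + 2) * u)) := by positivity
          linarith
  -- second part
  have hS2 : ‖∑ k ∈ Ioc K X, (χ k * (Real.log k : ℂ)) *
      ∑ m ∈ Ioc 0 (X / k), ((ArithmeticFunction.moebius m : ℤ) : ℂ) * χ m‖ ≤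
      X / 2 * Real.exp (-(B * u)) := by
    have hsw : ∑ k ∈ Ioc K X, (χ k * (Real.log k : ℂ)) *
        ∑ m ∈ Ioc 0 (X / k), ((ArithmeticFunction.moebius m : ℤ) : ℂ) * χ m =
        ∑ m ∈ Ioc 0 (X / K), (((ArithmeticFunction.moebius m : ℤ) : ℂ) * χ m) *
          ∑ k ∈ Ioc K (X / m), (χ k * (Real.log k : ℂ)) := by
      simp only [Finset.mul_sum]
      rw [Finset.sum_comm' (t' := Ioc 0 (X / K)) (s' := fun m => Ioc K (X / m))]
      · refine Finset.sum_congr rfl fun m _ => Finset.sum_congr rfl fun k _ => ?_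
        ring
      · intro k m
        simp only [mem_Ioc]
        constructor
        · rintro ⟨⟨ha, hb⟩, hc, hd⟩
          have hk : 0 < k := by omega
          have h5 : m * k ≤ X := (Nat.le_div_iff_mul_le hk).1 hd
          refine ⟨⟨ha, ?_⟩, hc, ?_⟩
          · exact (Nat.le_div_iff_mul_le hc).2 (by rw [mul_comm]; exact h5)
          · exact (Nat.le_div_iff_mul_le hK1).2
              (le_trans (Nat.mul_le_mul_left m ha.le) h5)
        · rintro ⟨⟨ha, hb⟩, hc, hd⟩
          have hk : 0 < k := by omega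
          have h5 : k * m ≤ X := (Nat.le_div_iff_mul_le hc).1 hb
          refine ⟨⟨ha, le_trans hb (Nat.div_le_self X m)⟩, hc, ?_⟩
          exact (Nat.le_div_iff_mul_le hk).2 (by rw [mul_comm]; exact h5)
    rw [hsw]
    have hterm : ∀ m ∈ Ioc 0 (X / K), ‖(((ArithmeticFunction.moebius m : ℤ) : ℂ) * χ m) *
        ∑ k ∈ Ioc K (X / m), (χ k * (Real.log k : ℂ))‖ ≤ 4 * L * Real.exp (B * u) := by
      intro m hm
      rw [norm_mul, norm_mul]
      have hmu1 : ‖((ArithmeticFunction.moebius m : ℤ) : ℂ)‖ ≤ 1 := by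
        rw [Complex.norm_intCast]
        exact_mod_cast ArithmeticFunction.abs_moebius_le_one
      have h5 : ‖((ArithmeticFunction.moebius m : ℤ) : ℂ)‖ * ‖χ m‖ ≤ 1 :=
        mul_le_one₀ hmu1 (norm_nonneg _) (DirichletCharacter.norm_le_one χ _)
      have h6 := PnA_inner hq χ hχ K (X / m)
      have h7 : Real.log (((X / m : ℕ) : ℝ) + 1) ≤ 2 * L := by
        have h8 : (((X / m : ℕ) : ℝ) + 1) ≤ (X : ℝ) ^ 2 := by
          have h9 : ((X / m : ℕ) : ℝ) ≤ X := by exact_mod_cast Nat.div_le_self X m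
          nlinarith
        calc Real.log (((X / m : ℕ) : ℝ) + 1) ≤ Real.log ((X : ℝ) ^ 2) :=
              Real.log_le_log (by positivity) h8
          _ = 2 * L := by rw [Real.log_pow, hL]; norm_num
      calc _ ≤ 1 * (2 * q * Real.log (((X / m : ℕ) : ℝ) + 1)) :=
            mul_le_mul h5 h6 (norm_nonneg _) (by norm_num)
        _ ≤ 1 * (2 * Real.exp (B * u) * (2 * L)) := by
            apply mul_le_mul_of_nonneg_left _ (by norm_num)
            apply mul_le_mul (by linarith) h7 ?_ (by positivity)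
            apply Real.log_nonneg
            have : (0 : ℝ) ≤ ((X / m : ℕ) : ℝ) := Nat.cast_nonneg _
            linarith
        _ = 4 * L * Real.exp (B * u) := by ring
    refine (Finset.sum_le_sum hterm |> (norm_sum_le _ _).trans).trans ?_
    rw [Finset.sum_const, Nat.card_Ioc, Nat.sub_zero, nsmul_eq_mul]
    have h5 : ((X / K : ℕ) : ℝ) ≤ X * Real.exp (-((2 * B + 2) * u)) := by
      refine le_trans Nat.cast_div_le ?_
      rw [Real.exp_neg, ← div_eq_mul_inv]
      exact div_le_div_of_nonneg_left hXpos.le (by positivity) hKge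
    have h6 : ((X / K : ℕ) : ℝ) * (4 * L * Real.exp (B * u)) ≤
        X * Real.exp (-((2 * B + 2) * u)) * (4 * L * Real.exp (B * u)) :=
      mul_le_mul_of_nonneg_right h5 (by positivity)
    refine h6.trans ?_
    have h8 : 8 * L * (Real.exp (-((2 * B + 2) * u)) * Real.exp (B * u)) ≤ Real.exp (-(B * u)) := by
      have e : Real.exp (-((2 * B + 2) * u)) * Real.exp (B * u) =
          Real.exp (-(2 * u)) * Real.exp (-(B * u)) := by
        rw [← Real.exp_add, ← Real.exp_add]; congr 1; ring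
      rw [e]
      have h9 : 8 * L * Real.exp (-(2 * u)) ≤ 1 := by
        rw [Real.exp_neg, ← div_eq_mul_inv, div_le_one (Real.exp_pos _)]
        exact h3
      calc 8 * L * (Real.exp (-(2 * u)) * Real.exp (-(B * u)))
          = (8 * L * Real.exp (-(2 * u))) * Real.exp (-(B * u)) := by ring
        _ ≤ 1 * Real.exp (-(B * u)) := mul_le_mul_of_nonneg_right h9 (Real.exp_pos _).le
        _ = Real.exp (-(B * u)) := one_mul _
    calc X * Real.exp (-((2 * B + 2) * u)) * (4 * L * Real.exp (B * u))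
        = X / 2 * (8 * L * (Real.exp (-((2 * B + 2) * u)) * Real.exp (B * u))) := by ring
      _ ≤ X / 2 * Real.exp (-(B * u)) := mul_le_mul_of_nonneg_left h8 (by positivity)
  have hfin : (X : ℝ) * Real.exp (-(B * u)) =
      X / 2 * Real.exp (-(B * u)) + X / 2 * Real.exp (-(B * u)) := by
    ring
  rw [hfin]
  exact add_le_add hS1 hS2

end Pool.CG
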