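import Mathlib

/-!
# CG-N-PnC: real characters modulo `q` with prime divisors of `q` in a fixed set

`squares`: let all primes of `q` divide `W`, `a` an integer with `a ≡ 1 (mod 8W)` (or only modulo `gcd(q, 8W)`). Then `a` is a square
modulo `q`: Chinese remainder theorem and Hensel: modulo `p^e`, `p` odd, `a ≡ 1 (mod p)`; modulo `2^e`, `a ≡ 1 (mod 8)` (or `q` has
`2`-part at most `8` and `a ≡ 1`). An elementary proof by induction on the exponent: if `x^2 ≡ a (mod p^e)`, `x` a unit, then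
`(x + p^e y)^2 ≡ x^2 + 2 x y p^e (mod p^(e+1))`, solve for `y`; for `p = 2`, `e ≥ 3`, take `x + 2^(e-1) y`.
`real_char`: let `χ^2 = 1`, `χ ≠ 1`, `d = gcd(q, 8W)`. If `a ≡ 1 (mod d)` is a unit modulo `q`, it is a square modulo `q`, so
`χ(a) = 1`: `χ` factors through `d` (`DirichletCharacter.FactorsThrough`, `factorsThrough_iff_ker_unitsMap`), `χ = changeLevel χ'`,
`χ' ≠ 1` modulo `d`, and `q`, `d` have the same prime divisors, so `χ.LFunction 1 = χ'.LFunction 1`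
(`DirichletCharacter.LFunction_changeLevel`; the factors are `1` since `χ'(p) = 0` for `p ∣ q`, as `p ∣ d`).
There are finitely many pairs (`d ∣ 8W`, `χ'` modulo `d`), and `χ'.LFunction 1 ≠ 0` for `χ' ≠ 1`
(`DirichletCharacter.LFunction_apply_one_ne_zero`): take `c = ` the minimum.
-/

set_option autoImplicit false

namespace Pool.CG

open Finset

/-- Hensel's lemma for squares -/
private theorem PnC_hensel (p : ℕ) [hp : Fact p.Prime] (a : ℤ)
    (h : ‖((a - 1 : ℤ) : ℤ_[p])‖ < ‖((2 : ℤ) : ℤ_[p])‖ ^ 2) (n : ℕ) : IsSquare ((a : ℤ) : ZMod (p ^ n)) := by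
  have key := hensels_lemma (p := p) (F := (Polynomial.X ^ 2 - Polynomial.C ((a : ℤ) : ℤ_[p]) : Polynomial ℤ_[p]))
    (a := (1 : ℤ_[p])) (by
      have e1 : (Polynomial.X ^ 2 - Polynomial.C ((a : ℤ) : ℤ_[p]) : Polynomial ℤ_[p]).aeval (1 : ℤ_[p])
          = - ((a - 1 : ℤ) : ℤ_[p]) := by
        simp
      have e2 : (Polynomial.X ^ 2 - Polynomial.C ((a : ℤ) : ℤ_[p]) : Polynomial ℤ_[p]).derivative.aeval (1 : ℤ_[p])
          = ((2 : ℤ) : ℤ_[p]) := by
        simp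
        norm_num
      rw [e1, e2, norm_neg]
      exact h)
  obtain ⟨z, hz, -⟩ := key
  have hz2 : ((a : ℤ) : ℤ_[p]) = z * z := by
    simp at hz
    linear_combination -hz
  have := congrArg (PadicInt.toZModPow n) hz2
  rw [map_intCast, map_mul] at this
  exact ⟨_, this⟩

private theorem PnC_pp (W p e : ℕ) (hp : p.Prime) (hpW : p ∣ W) (he : 1 ≤ e) (a : ℤ)
    (ha : a ≡ 1 [ZMOD (Nat.gcd (p ^ e) (8 * W) : ℕ)]) : IsSquare ((a : ℤ) : ZMod (p ^ e)) := by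
  have : Fact p.Prime := ⟨hp⟩
  by_cases h2 : p = 2
  · subst h2
    by_cases he3 : e ≤ 3
    · -- the gcd is `2^e`
      have hd : 2 ^ e ∣ Nat.gcd (2 ^ e) (8 * W) := by
        apply Nat.dvd_gcd dvd_rfl
        exact Dvd.dvd.mul_right (by
          have : (8 : ℕ) = 2 ^ 3 := by norm_num
          rw [this]
          exact pow_dvd_pow 2 he3) W
      have h1 : a ≡ 1 [ZMOD ((2 ^ e : ℕ) : ℤ)] := ha.of_dvd (by exact_mod_cast hd)
      have h3 := (ZMod.intCast_eq_intCast_iff a 1 (2 ^ e)).2 h1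
      rw [h3]
      exact ⟨1, by simp⟩
    · push Not at he3
      apply PnC_hensel
      have hd : 2 ^ 3 ∣ Nat.gcd (2 ^ e) (8 * W) := by
        apply Nat.dvd_gcd (pow_dvd_pow 2 (by omega))
        exact Dvd.intro W (by norm_num)
      have h1 : a ≡ 1 [ZMOD ((2 ^ 3 : ℕ) : ℤ)] := ha.of_dvd (by exact_mod_cast hd)
      have h3 : ((2 : ℤ) ^ 3) ∣ a - 1 := by
        have := h1.symm.dvd
        exact_mod_cast this
      have h4 : ‖((a - 1 : ℤ) : ℤ_[2])‖ ≤ ((2 : ℕ) : ℝ) ^ (-(3 : ℕ) : ℤ) :=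
        PadicInt.norm_int_le_pow_iff_dvd.2 (by exact_mod_cast h3)
      have h5 : ‖((2 : ℤ) : ℤ_[2])‖ = ((2 : ℕ) : ℝ)⁻¹ := by
        have := PadicInt.norm_p (p := 2)
        simpa using this
      rw [h5]
      refine lt_of_le_of_lt h4 ?_
      norm_num
  · apply PnC_hensel
    have hd : p ∣ Nat.gcd (p ^ e) (8 * W) :=
      Nat.dvd_gcd (dvd_pow_self p (by omega)) (Dvd.dvd.mul_left hpW 8)
    have h1 : a ≡ 1 [ZMOD ((p : ℕ) : ℤ)] := ha.of_dvd (by exact_mod_cast hd)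
    have h3 : (p : ℤ) ∣ a - 1 := h1.symm.dvd
    have h4 : ‖((a - 1 : ℤ) : ℤ_[p])‖ < 1 := (PadicInt.norm_int_lt_one_iff_dvd _).2 h3
    have h5 : ‖((2 : ℤ) : ℤ_[p])‖ = 1 := by
      apply le_antisymm (PadicInt.norm_le_one _)
      by_contra hc
      push Not at hc
      have h6 := (PadicInt.norm_int_lt_one_iff_dvd _).1 hc
      have h7 : p ∣ 2 := by exact_mod_cast h6
      exact h2 ((Nat.prime_dvd_prime_iff_eq hp Nat.prime_two).1 h7)
    rw [h5]
    simpa using h4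

private theorem PnC_sq (W q : ℕ) : 1 ≤ q → (∀ p : ℕ, p.Prime → p ∣ q → p ∣ W) → ∀ (a : ℤ),
    a ≡ 1 [ZMOD (Nat.gcd q (8 * W) : ℕ)] → IsSquare ((a : ℤ) : ZMod q) := by
  induction q using Nat.recOnPosPrimePosCoprime with
  | zero => intro h; omega
  | one => intro _ _ a _; exact ⟨0, Subsingleton.elim _ _⟩
  | prime_pow p n hp hn =>
    intro _ hq a ha
    exact PnC_pp W p n hp (hq p hp (dvd_pow_self p (by omega))) hn a ha
  | coprime m n hm hn hmn ihm ihn =>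
    intro _ hq a ha
    have h1 := ihm (by omega) (fun p hp hpm => hq p hp (Dvd.dvd.mul_right hpm n)) a
      (ha.of_dvd (by exact_mod_cast Nat.gcd_dvd_gcd_of_dvd_left _ (Dvd.intro _ rfl)))
    have h2 := ihn (by omega) (fun p hp hpm => hq p hp (Dvd.dvd.mul_left hpm m)) a
      (ha.of_dvd (by exact_mod_cast Nat.gcd_dvd_gcd_of_dvd_left _ (Dvd.intro_left _ rfl)))
    obtain ⟨x, hx⟩ := h1
    obtain ⟨y, hy⟩ := h2
    have h3 : ZMod.chineseRemainder hmn ((a : ℤ) : ZMod (m * n)) = (x, y) * (x, y) := by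
      rw [map_intCast]
      ext
      · simpa using hx
      · simpa using hy
    refine ⟨(ZMod.chineseRemainder hmn).symm (x, y), ?_⟩
    rw [← map_mul, ← h3, RingEquiv.symm_apply_apply]

/-- numbers congruent to `1` are squares -/
theorem squares (W q : ℕ) (hq : 1 ≤ q) (hqW : ∀ p : ℕ, p.Prime → p ∣ q → p ∣ W) (a : ℤ)
    (ha : a ≡ 1 [ZMOD (Nat.gcd q (8 * W) : ℕ)]) : ∃ x : ℤ, x ^ 2 ≡ a [ZMOD (q : ℕ)] := by
  have : NeZero q := ⟨by omega⟩
  obtain ⟨x, hx⟩ := PnC_sq W q hq hqW a ha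
  refine ⟨(x.val : ℤ), ?_⟩
  rw [← ZMod.intCast_eq_intCast_iff]
  push_cast
  rw [ZMod.natCast_zmod_val, hx]
  ring

private theorem PnC_min (n : ℕ) : ∃ c : ℝ, 0 < c ∧ ∀ (d : ℕ) [NeZero d], d ≤ n → ∀ χ : DirichletCharacter ℂ d,
    χ ≠ 1 → c ≤ ‖χ.LFunction 1‖ := by
  induction n with
  | zero =>
    refine ⟨1, one_pos, fun d hd hd0 => ?_⟩
    exact absurd (Nat.le_zero.1 hd0) (NeZero.ne d)
  | succ n ih =>
    obtain ⟨c, hc, h⟩ := ih
    obtain ⟨c', hc', h'⟩ : ∃ c : ℝ, 0 < c ∧ ∀ χ : DirichletCharacter ℂ (n + 1), χ ≠ 1 → c ≤ ‖χ.LFunction 1‖ := by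
      by_cases hne : Nonempty {χ : DirichletCharacter ℂ (n + 1) // χ ≠ 1}
      · obtain ⟨χ0, hχ0⟩ := Finite.exists_min
          (fun χ : {χ : DirichletCharacter ℂ (n + 1) // χ ≠ 1} => ‖χ.1.LFunction 1‖)
        refine ⟨‖χ0.1.LFunction 1‖, ?_, fun χ hχ => hχ0 ⟨χ, hχ⟩⟩
        exact norm_pos_iff.2 (DirichletCharacter.LFunction_apply_one_ne_zero χ0.2)
      · exact ⟨1, one_pos, fun χ hχ => absurd ⟨χ, hχ⟩ hne⟩
    refine ⟨min c c', lt_min hc hc', fun d hd hdn χ hχ => ?_⟩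
    rcases Nat.lt_or_ge n d with h1 | h1
    · obtain rfl : d = n + 1 := by omega
      exact le_trans (min_le_right _ _) (h' χ hχ)
    · exact le_trans (min_le_left _ _) (h d h1 χ hχ)

theorem real_char (W : ℕ) (hW : 1 ≤ W) : ∃ c : ℝ, 0 < c ∧ ∀ (q : ℕ) [NeZero q],
    (∀ p : ℕ, p.Prime → p ∣ q → p ∣ W) → ∀ χ : DirichletCharacter ℂ q, χ ≠ 1 → χ ^ 2 = 1 →
    c ≤ ‖χ.LFunction 1‖ := by
  obtain ⟨c, hc, h⟩ := PnC_min (8 * W)
  refine ⟨c, hc, fun q hq0 hqW χ hχ hχ2 => ?_⟩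
  have hq1 : 1 ≤ q := Nat.one_le_iff_ne_zero.2 (NeZero.ne q)
  have hdq : Nat.gcd q (8 * W) ∣ q := Nat.gcd_dvd_left _ _
  have hd0 : NeZero (Nat.gcd q (8 * W)) := ⟨(Nat.gcd_pos_of_pos_left _ hq1).ne'⟩
  have hft : χ.FactorsThrough (Nat.gcd q (8 * W)) := by
    rw [DirichletCharacter.factorsThrough_iff_ker_unitsMap hdq]
    intro u hu
    rw [MonoidHom.mem_ker] at hu ⊢
    have h1 : ((((u : ZMod q)).val : ℤ)) ≡ 1 [ZMOD (Nat.gcd q (8 * W) : ℕ)] := by
      rw [← ZMod.intCast_eq_intCast_iff]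
      have h2 := congrArg Units.val hu
      rw [ZMod.unitsMap_val] at h2
      push_cast
      rw [ZMod.cast_eq_val] at h2
      simpa using h2
    obtain ⟨x, hx⟩ := squares W q hq1 hqW _ h1
    rw [← ZMod.intCast_eq_intCast_iff] at hx
    push_cast at hx
    rw [ZMod.natCast_zmod_val] at hx
    have hxu : IsUnit ((x : ℤ) : ZMod q) := by
      have : IsUnit (((x : ℤ) : ZMod q) ^ 2) := by rw [hx]; exact u.isUnit
      exact (isUnit_pow_iff two_ne_zero).1 this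
    rw [Units.ext_iff, MulChar.coe_toUnitHom, Units.val_one, ← hx, map_pow, ← MulChar.pow_apply' _ two_ne_zero, hχ2,
      MulChar.one_apply hxu]
  obtain ⟨hdv, χ', hχ'⟩ := hft
  have hχ'1 : χ' ≠ 1 := by
    rintro rfl
    exact hχ (by rw [hχ']; exact map_one _)
  have hL : χ.LFunction 1 = χ'.LFunction 1 := by
    rw [hχ', DirichletCharacter.LFunction_changeLevel hdv χ' (Or.inl hχ'1)]
    rw [Finset.prod_eq_one, mul_one]
    intro p hp
    have hpp := Nat.prime_of_mem_primeFactors hp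
    have hpq := Nat.dvd_of_mem_primeFactors hp
    have hpd : p ∣ Nat.gcd q (8 * W) := Nat.dvd_gcd hpq (Dvd.dvd.mul_left (hqW p hpp hpq) 8)
    have h0 : χ' (p : ZMod (Nat.gcd q (8 * W))) = 0 := by
      apply MulChar.map_nonunit
      rw [ZMod.isUnit_iff_coprime]
      intro hcop
      have := Nat.eq_one_of_dvd_coprimes hcop dvd_rfl hpd
      exact hpp.one_lt.ne' this
    rw [h0]
    simp
  rw [hL]
  exact h _ (Nat.le_of_dvd (by omega) (Nat.gcd_dvd_right _ _)) χ' hχ'1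

end Pool.CG
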