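import Pool.Agent.Lib.MP_dd84fd_nt.SW.EjBound
import Pool.Agent.Lib.MP_dd84fd_nt.SW.MuRec

/-!
# CG-N-PnE: explicit constants for the derivatives of `L(s, χ)` and of `1/L(s, χ)`

`Ej_explicit`: the proof of `SW.Ej_bound` (file `SW/EjBound.lean`, 30 lines, copy it) gives the bound with the constant
`2^j (3 + D)`, `D = 1 + 2 ((j + 1) (8 (2j + 1)^j))`; and `2^j (3 + D) = 2^j (4 + 16 (j+1) (2j+1)^j) ≤ j! 60^(j+1)`, from
`(2j+1)^j ≤ j! exp(2j+1)` (`Real.pow_div_factorial_le_exp`), `exp 1 < 2.7182818286`, `j + 1 ≤ 2^j`: `2^j 16 2^j e (e^2)^j ≤ 44 · 30^j`.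
`Fk_explicit`: strong induction on `k` with `SW.MuRec_identity`: `F_k E_0 = [k = 0] - ∑_{j=1}^{k} C(k,j) F_{k-j} E_j`, so for `k ≥ 1`
`m ‖F_k‖ ≤ ∑_{j=1}^{k} C(k,j) (k-j)!/m (2H^2/m)^(k-j) j! H^(j+1) = (k!/m) (2H^2/m)^k ∑_{j=1}^{k} H (m/(2H))^j ≤ k! (2H^2/m)^k`,
because `∑_{j ≥ 1} (m/(2H))^j ≤ m/H` (as `m/(2H) ≤ 1/2`).
-/

set_option autoImplicit false

namespace Pool.CG

open Finset Pool.MP_dd84fd_nt.SW

private theorem PnE_const (j : ℕ) :
    (2 : ℝ) ^ j * (3 + (1 + 2 * ((j + 1) * (8 * (2 * j + 1) ^ j)))) ≤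
      (j.factorial : ℝ) * 60 ^ (j + 1) := by
  have hf1 : (1 : ℝ) ≤ (j.factorial : ℝ) := by
    exact_mod_cast Nat.one_le_iff_ne_zero.2 (Nat.factorial_ne_zero j)
  have hf0 : (0 : ℝ) < (j.factorial : ℝ) := by linarith
  have he1 : Real.exp 1 ≤ 3 := by
    have := Real.exp_one_lt_d9
    linarith
  have he2 : Real.exp 2 ≤ 8 := by
    have h1 : Real.exp 2 = Real.exp 1 * Real.exp 1 := by
      rw [← Real.exp_add]
      norm_num
    have h2 := Real.exp_one_lt_d9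
    have h3 := Real.exp_pos 1
    rw [h1]
    nlinarith
  have h1 : ((2 * j + 1 : ℝ)) ^ j ≤ (j.factorial : ℝ) * (3 * 8 ^ j) := by
    have h2 := Real.pow_div_factorial_le_exp (2 * (j : ℝ) + 1) (by positivity) j
    rw [div_le_iff₀ hf0] at h2
    have h3 : Real.exp (2 * (j : ℝ) + 1) ≤ 3 * 8 ^ j := by
      have h4 : Real.exp (2 * (j : ℝ) + 1) = Real.exp 2 ^ j * Real.exp 1 := by
        rw [Real.exp_add, ← Real.exp_nat_mul, mul_comm (j : ℝ) 2]
      rw [h4, mul_comm]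
      exact mul_le_mul he1 (pow_le_pow_left₀ (Real.exp_pos 2).le he2 j)
        (by positivity) (by norm_num)
    calc (2 * (j : ℝ) + 1) ^ j ≤ Real.exp (2 * (j : ℝ) + 1) * (j.factorial : ℝ) := h2
      _ ≤ (3 * 8 ^ j) * (j.factorial : ℝ) := mul_le_mul_of_nonneg_right h3 hf0.le
      _ = _ := by ring
  have h2 : ((j : ℝ) + 1) ≤ 2 ^ j := by
    have : j + 1 ≤ 2 ^ j := Nat.lt_two_pow_self
    exact_mod_cast this
  have h3 : ((j : ℝ) + 1) * (2 * j + 1) ^ j ≤ 2 ^ j * ((j.factorial : ℝ) * (3 * 8 ^ j)) :=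
    mul_le_mul h2 h1 (by positivity) (by positivity)
  have h4 : (2 : ℝ) ^ j * 2 ^ j * 8 ^ j = 32 ^ j := by
    rw [← mul_pow, ← mul_pow]
    norm_num
  have h5 : (2 : ℝ) ^ j ≤ 32 ^ j := pow_le_pow_left₀ (by norm_num) (by norm_num) j
  have h6 : (32 : ℝ) ^ j ≤ 60 ^ j := pow_le_pow_left₀ (by norm_num) (by norm_num) j
  have h7 : (0 : ℝ) < 2 ^ j := by positivity
  have h8 : (0 : ℝ) < 60 ^ j := by positivity
  calc (2 : ℝ) ^ j * (3 + (1 + 2 * ((j + 1) * (8 * (2 * j + 1) ^ j))))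
      = 4 * 2 ^ j + 16 * 2 ^ j * (((j : ℝ) + 1) * (2 * j + 1) ^ j) := by ring
    _ ≤ 4 * 2 ^ j + 16 * 2 ^ j * (2 ^ j * ((j.factorial : ℝ) * (3 * 8 ^ j))) := by
        gcongr
    _ = 4 * 2 ^ j + 48 * (j.factorial : ℝ) * (2 ^ j * 2 ^ j * 8 ^ j) := by ring
    _ = 4 * 2 ^ j + 48 * (j.factorial : ℝ) * 32 ^ j := by rw [h4]
    _ ≤ 4 * ((j.factorial : ℝ) * 60 ^ j) + 48 * (j.factorial : ℝ) * 60 ^ j := by
        have h9 : (2 : ℝ) ^ j ≤ (j.factorial : ℝ) * 60 ^ j := by nlinarith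
        have h10 : 48 * (j.factorial : ℝ) * 32 ^ j ≤ 48 * (j.factorial : ℝ) * 60 ^ j :=
          mul_le_mul_of_nonneg_left h6 (by positivity)
        linarith
    _ ≤ (j.factorial : ℝ) * 60 ^ (j + 1) := by
        rw [pow_succ]
        have h11 : 0 < (j.factorial : ℝ) * 60 ^ j := by positivity
        nlinarith

theorem Ej_explicit (j q : ℕ) (χ : DirichletCharacter ℂ q) (s : ℂ) (hq : 1 ≤ q) (hχ : χ ≠ 1)
    (h1 : 1 < s.re) (h2 : s.re ≤ 2) :
    ‖LSeries (ej χ j) s‖ ≤ (j.factorial : ℝ) * (60 * ell q s.im) ^ (j + 1) := by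
  obtain ⟨D, hD⟩ : ∃ D : ℝ, D = 1 + 2 * ((j + 1) * (8 * (2 * j + 1) ^ j)) := ⟨_, rfl⟩
  have hD0 : 0 ≤ D := by rw [hD]; positivity
  have hN3 := NN_three hq s.im
  have hN3' : (3 : ℝ) ≤ NN q s.im := by exact_mod_cast hN3
  have hL0 : 0 ≤ Real.log (NN q s.im) := Real.log_nonneg (by linarith)
  have hl1 := ell_ge_one hq s.im
  have hfin := SumTools_final j hl1 hL0 (NN_log hq s.im) hD0
  have hlast : 2 ^ j * (3 + D) * ell q s.im ^ (j + 1) ≤
      (j.factorial : ℝ) * (60 * ell q s.im) ^ (j + 1) := by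
    rw [mul_pow, ← mul_assoc, hD]
    refine mul_le_mul_of_nonneg_right (PnE_const j) ?_
    have : 0 ≤ ell q s.im := by linarith
    positivity
  refine (LSeries_le χ j s (M := Real.log (NN q s.im) ^ j * (1 + Real.log (NN q s.im)) +
    D * Real.log (NN q s.im) ^ j) (E := fun _ => 0) (by positivity) tendsto_const_nhds
    (N := NN q s.im) ?_).trans (hfin.trans hlast)
  intro K hK
  rw [← Finset.sum_Ico_consecutive _ (by omega : 1 ≤ NN q s.im) hK, add_zero]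
  refine (norm_add_le _ _).trans (add_le_add ?_ ?_)
  · exact head_bound j h1.le (b := fun n => χ (n : ZMod q))
      (fun n => DirichletCharacter.norm_le_one χ _) hN3
  · have h3 := tail_bound j h1.le hN3 hK (b := fun n => χ (n : ZMod q)) (B := q)
      (fun n hn => char_sum_bound hq χ hχ hn)
    refine h3.trans ?_
    have h4 := SumTools_rem j hq (s := s) (by linarith) h2 hL0
    have h5 := NN_s hq (s := s) (by linarith) h2
    have h6 : (q : ℝ) * (Real.log (NN q s.im) ^ j / NN q s.im) ≤ Real.log (NN q s.im) ^ j := by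
      have h7 : (q : ℝ) / NN q s.im ≤ 1 := by
        refine le_trans ?_ h5
        refine div_le_div_of_nonneg_right ?_ (by linarith)
        have : 0 ≤ (q : ℝ) * ‖s‖ := by positivity
        linarith
      calc (q : ℝ) * (Real.log (NN q s.im) ^ j / NN q s.im) =
          Real.log (NN q s.im) ^ j * ((q : ℝ) / NN q s.im) := by ring
        _ ≤ Real.log (NN q s.im) ^ j * 1 := mul_le_mul_of_nonneg_left h7 (by positivity)
        _ = _ := mul_one _
    rw [hD]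
    linarith

private theorem PnE_geom (r : ℝ) (h0 : 0 ≤ r) (h1 : 2 * r ≤ 1) (k : ℕ) :
    ∑ j ∈ range k, r ^ (j + 1) ≤ 2 * r - 2 * r ^ (k + 1) := by
  induction k with
  | zero => simp
  | succ k ih =>
    rw [Finset.sum_range_succ]
    have h2 : 2 * r ^ (k + 1 + 1) ≤ r ^ (k + 1) := by
      rw [pow_succ r (k + 1)]
      have h3 : 0 ≤ r ^ (k + 1) := pow_nonneg h0 _
      nlinarith
    linarith

theorem Fk_explicit (k q : ℕ) (χ : DirichletCharacter ℂ q) (s : ℂ) (m H : ℝ) (hs : 1 < s.re)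
    (hm : 0 < m) (hmH : m ≤ H) (h0 : m ≤ ‖LSeries (ej χ 0) s‖)
    (hj : ∀ j : ℕ, 1 ≤ j → j ≤ k → ‖LSeries (ej χ j) s‖ ≤ (j.factorial : ℝ) * H ^ (j + 1)) :
    ‖LSeries (ak χ k) s‖ ≤ (k.factorial : ℝ) / m * (2 * H ^ 2 / m) ^ k := by
  have hH : 0 < H := lt_of_lt_of_le hm hmH
  obtain ⟨r, hr⟩ : ∃ r : ℝ, r = m / (2 * H) := ⟨_, rfl⟩
  obtain ⟨A, hA⟩ : ∃ A : ℝ, A = 2 * H ^ 2 / m := ⟨_, rfl⟩
  have hA0 : 0 < A := by rw [hA]; positivity
  have hr0 : 0 ≤ r := by rw [hr]; positivity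
  have hr1 : 2 * r ≤ 1 := by
    have h1 : 2 * r = m / H := by
      rw [hr]
      field_simp
    rw [h1, div_le_one hH]
    exact hmH
  have hHA : H = A * r := by
    rw [hA, hr]
    field_simp
  have hHr : 2 * H * r = m := by
    rw [hr]
    field_simp
  rw [← hA]
  induction k using Nat.strong_induction_on with
  | _ k ih =>
  have hid := MuRec_identity χ k s hs
  have hLpos : 0 < ‖LSeries (ej χ 0) s‖ := lt_of_lt_of_le hm h0
  rw [Finset.sum_range_succ'] at hid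
  simp only [Nat.choose_zero_right, Nat.cast_one, one_mul, Nat.sub_zero] at hid
  set SS1 : ℂ := ∑ j ∈ range k, (k.choose (j + 1) : ℂ) *
    (LSeries (ak χ (k - (j + 1))) s * LSeries (ej χ (j + 1)) s) with hSS
  have hF : LSeries (ak χ k) s * LSeries (ej χ 0) s = (if k = 0 then 1 else 0) - SS1 := by
    rw [← hid]
    ring
  -- the sum
  have hS : ‖SS1‖ ≤ (k.factorial : ℝ) / m * A ^ k * (H * ∑ j ∈ range k, r ^ (j + 1)) := by
    rw [hSS, Finset.mul_sum, Finset.mul_sum]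
    refine le_trans (norm_sum_le _ _) (Finset.sum_le_sum fun j hj1 => ?_)
    rw [Finset.mem_range] at hj1
    rw [norm_mul, norm_mul, Complex.norm_natCast]
    have h1 := ih (k - (j + 1)) (by omega) (fun i hi1 hi2 => hj i hi1 (by omega))
    have h2 := hj (j + 1) (by omega) (by omega)
    have h3 : ‖LSeries (ak χ (k - (j + 1))) s‖ * ‖LSeries (ej χ (j + 1)) s‖ ≤
        (((k - (j + 1)).factorial : ℝ) / m * A ^ (k - (j + 1))) *
          (((j + 1).factorial : ℝ) * H ^ (j + 1 + 1)) :=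
      mul_le_mul h1 h2 (norm_nonneg _) (by positivity)
    have h4 : ((k.choose (j + 1) : ℕ) : ℝ) * ((j + 1).factorial : ℝ) *
        ((k - (j + 1)).factorial : ℝ) = (k.factorial : ℝ) := by
      exact_mod_cast Nat.choose_mul_factorial_mul_factorial (by omega : j + 1 ≤ k)
    have h5 : A ^ k = A ^ (k - (j + 1)) * A ^ (j + 1) := by
      rw [← pow_add]
      congr 1
      omega
    have h6 : H ^ (j + 1) = A ^ (j + 1) * r ^ (j + 1) := by
      rw [← mul_pow, ← hHA]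
    calc ((k.choose (j + 1) : ℕ) : ℝ) *
        (‖LSeries (ak χ (k - (j + 1))) s‖ * ‖LSeries (ej χ (j + 1)) s‖)
        ≤ ((k.choose (j + 1) : ℕ) : ℝ) *
          ((((k - (j + 1)).factorial : ℝ) / m * A ^ (k - (j + 1))) *
          (((j + 1).factorial : ℝ) * H ^ (j + 1 + 1))) :=
          mul_le_mul_of_nonneg_left h3 (Nat.cast_nonneg _)
      _ = (((k.choose (j + 1) : ℕ) : ℝ) * ((j + 1).factorial : ℝ) *
          ((k - (j + 1)).factorial : ℝ)) / m * A ^ (k - (j + 1)) * (H ^ (j + 1) * H) := by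
          rw [pow_succ H (j + 1)]
          ring
      _ = (k.factorial : ℝ) / m * (A ^ (k - (j + 1)) * A ^ (j + 1)) * (H * r ^ (j + 1)) := by
          rw [h4, h6]
          ring
      _ = _ := by rw [← h5]
  have hg := PnE_geom r hr0 hr1 k
  have hk0 : 0 < (k.factorial : ℝ) / m * A ^ k := by
    have : (0 : ℝ) < (k.factorial : ℝ) := by exact_mod_cast Nat.factorial_pos k
    positivity
  have hmain : ‖LSeries (ak χ k) s‖ * ‖LSeries (ej χ 0) s‖ ≤
      (k.factorial : ℝ) / m * A ^ k * m := by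
    rw [← norm_mul, hF]
    rcases Nat.eq_zero_or_pos k with hk | hk
    · subst hk
      rw [if_pos rfl]
      have hz : SS1 = 0 := by
        rw [hSS]
        simp
      rw [hz, sub_zero, norm_one, pow_zero, Nat.factorial_zero, Nat.cast_one, mul_one]
      rw [one_div, inv_mul_cancel₀ hm.ne']
    · rw [if_neg (by omega), zero_sub, norm_neg]
      refine hS.trans (mul_le_mul_of_nonneg_left ?_ hk0.le)
      have h7 : H * ∑ j ∈ range k, r ^ (j + 1) ≤ H * (2 * r) := by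
        refine mul_le_mul_of_nonneg_left ?_ hH.le
        have : 0 ≤ r ^ (k + 1) := pow_nonneg hr0 _
        linarith
      refine h7.trans (le_of_eq ?_)
      rw [← hHr]
      ring
  have h8 : ‖LSeries (ak χ k) s‖ * m ≤ (k.factorial : ℝ) / m * A ^ k * m :=
    le_trans (mul_le_mul_of_nonneg_left h0 (norm_nonneg _)) hmain
  exact le_of_mul_le_mul_right h8 hm

end Pool.CG
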