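import Pool.Agent.Lib.MP_dd84fd_nt.SW.GaussAvg
import Pool.Agent.Lib.MP_dd84fd_nt.SW.Tauber

/-!
# CG-N-PnG: the Gaussian average with an explicit constant

`gauss_explicit`: copy the proof of `SW.gauss_avg` (file `SW/GaussAvg.lean`); it uses exactly this constant.
-/

set_option autoImplicit false

namespace Pool.CG

open Finset MeasureTheory Pool.MP_dd84fd_nt.SW

theorem gauss_explicit (D : ℕ) (a : ℕ → ℂ) (k : ℕ) (σ T x M : ℝ)
    (ha : ∀ n, ‖a n‖ ≤ 1) (hσ : 1 < σ) (hT : 1 ≤ T) (hx : 0 < x) (hM : 0 ≤ M)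
    (h : ∀ t : ℝ, ‖LSeries (fun n => a n * (Real.log n : ℂ) ^ k) (σ + t * Complex.I)‖ ≤
      M * Real.log (|t| + 3) ^ D) :
    ‖Dk a k σ T x‖ ≤ (D.factorial * Real.exp 2 * Real.sqrt 2) * M * Real.log (T + 3) ^ D := by
  have hL := h
  have hT0 : 0 < T := by linarith
  set f : ℕ → ℂ := fun n => a n * (Real.log n : ℂ) ^ k with hf
  have hfb : ∀ n, ‖f n‖ ≤ |Real.log n| ^ k := by
    intro n
    rw [hf]
    simp only
    rw [norm_mul, norm_pow, Complex.norm_real, Real.norm_eq_abs]
    calc ‖a n‖ * |Real.log n| ^ k ≤ 1 * |Real.log n| ^ k := by gcongr; exact ha n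
      _ = _ := one_mul _
  let F : ℕ → ℝ → ℂ := fun n t => (Real.exp (-(t ^ 2 / (2 * T ^ 2))) : ℂ) *
    (x : ℂ) ^ ((t : ℂ) * Complex.I) * LSeries.term f (σ + t * Complex.I) n
  have hxn : ∀ t : ℝ, ‖(x : ℂ) ^ ((t : ℂ) * Complex.I)‖ = 1 := by
    intro t
    rw [Complex.norm_cpow_eq_rpow_re_of_pos hx]
    simp
  have hre : ∀ t : ℝ, ((σ : ℂ) + t * Complex.I).re = σ := by
    intro t
    simp
  have hgauss : Integrable (fun t : ℝ => Real.exp (-(t ^ 2 / (2 * T ^ 2)))) := by
    have := integrable_exp_neg_mul_sq (b := 1 / (2 * T ^ 2)) (by positivity)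
    refine this.congr (Filter.Eventually.of_forall fun t => ?_)
    simp only
    congr 1
    ring
  have hnormF : ∀ n (t : ℝ), ‖F n t‖ = Real.exp (-(t ^ 2 / (2 * T ^ 2))) *
      ‖LSeries.term f (σ : ℂ) n‖ := by
    intro n t
    simp only [F]
    rw [norm_mul, norm_mul, hxn, mul_one, Complex.norm_real, Real.norm_of_nonneg (Real.exp_pos _).le]
    congr 1
    rw [LSeries.norm_term_eq, LSeries.norm_term_eq, hre]
    simp
  -- closed form of the terms
  have hterm : ∀ n (t : ℝ), F n t = LSeries.term f (σ : ℂ) n *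
      (Complex.exp (Complex.I * ((Real.log (x / n) : ℝ) : ℂ) * t) *
        (Real.exp (-(t ^ 2 / (2 * T ^ 2))) : ℂ)) := by
    intro n t
    simp only [F]
    by_cases hn : n = 0
    · subst hn
      simp
    · have hn0 : (n : ℂ) ≠ 0 := by exact_mod_cast hn
      have hnr : (0 : ℝ) < n := by
        have : 0 < n := Nat.pos_of_ne_zero hn
        exact_mod_cast this
      rw [LSeries.term_of_ne_zero hn, LSeries.term_of_ne_zero hn, Complex.cpow_add _ _ hn0]
      have e1 : (x : ℂ) ^ ((t : ℂ) * Complex.I) / (n : ℂ) ^ ((t : ℂ) * Complex.I) =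
          Complex.exp (Complex.I * ((Real.log (x / n) : ℝ) : ℂ) * t) := by
        have hxc : (x : ℂ) ≠ 0 := by exact_mod_cast hx.ne'
        rw [Complex.cpow_def_of_ne_zero hxc, Complex.cpow_def_of_ne_zero hn0, ← Complex.exp_sub]
        congr 1
        rw [Real.log_div hx.ne' hnr.ne']
        push_cast
        rw [Complex.ofReal_log hx.le]
        ring
      rw [← e1]
      have hnc : (n : ℂ) ^ ((t : ℂ) * Complex.I) ≠ 0 := by
        rw [Complex.cpow_def_of_ne_zero hn0]
        exact Complex.exp_ne_zero _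
      have hnc2 : (n : ℂ) ^ (σ : ℂ) ≠ 0 := by
        rw [Complex.cpow_def_of_ne_zero hn0]
        exact Complex.exp_ne_zero _
      field_simp
  have hFint : ∀ n, Integrable (F n) := by
    intro n
    have h1 : Integrable (fun t : ℝ => Real.exp (-(t ^ 2 / (2 * T ^ 2))) *
      ‖LSeries.term f (σ : ℂ) n‖) := hgauss.mul_const _
    refine Integrable.mono' h1 ?_ (Filter.Eventually.of_forall fun t => (hnormF n t).le)
    have h2 : F n = fun t : ℝ => LSeries.term f (σ : ℂ) n *
      (Complex.exp (Complex.I * ((Real.log (x / n) : ℝ) : ℂ) * t) *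
        (Real.exp (-(t ^ 2 / (2 * T ^ 2))) : ℂ)) := funext fun t => hterm n t
    rw [h2]
    apply Continuous.aestronglyMeasurable
    fun_prop
  have hsum0 : Summable (fun n => ‖LSeries.term f (σ : ℂ) n‖) := by
    have : LSeriesSummable f (σ : ℂ) := GaussAvg_summable (j := k) (by simpa using hσ) hfb
    exact this.norm
  have hsum : Summable (fun n => ∫ t, ‖F n t‖) := by
    have : ∀ n, ∫ t, ‖F n t‖ = (∫ t : ℝ, Real.exp (-(t ^ 2 / (2 * T ^ 2)))) *
        ‖LSeries.term f (σ : ℂ) n‖ := by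
      intro n
      simp_rw [hnormF]
      rw [integral_mul_const]
    simp_rw [this]
    exact hsum0.mul_left _
  have hHS := hasSum_integral_of_summable_integral_norm hFint hsum
  -- evaluation of the integrals
  set c : ℂ := ((Real.sqrt (2 * Real.pi * T ^ 2) : ℝ) : ℂ) with hc
  have hval : ∀ n, ∫ t, F n t = c * (a n * (Real.log n : ℂ) ^ k *
    (((n : ℝ) ^ (-σ) * Real.exp (-(T ^ 2 * Real.log (n / x) ^ 2 / 2)) : ℝ) : ℂ)) := by
    intro n
    simp_rw [hterm]
    rw [integral_const_mul, GaussAvg_fourier T _ hT0]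
    by_cases hn : n = 0
    · subst hn
      simp only [LSeries.term_zero, zero_mul, Nat.cast_zero]
      rw [Real.zero_rpow (by linarith)]
      simp
    · have hnr : (0 : ℝ) < n := by
        have : 0 < n := Nat.pos_of_ne_zero hn
        exact_mod_cast this
      rw [LSeries.term_of_ne_zero hn, hf]
      have e1 : Real.log (x / n) ^ 2 = Real.log (n / x) ^ 2 := by
        rw [← inv_div, Real.log_inv]
        ring
      rw [e1]
      have e2 : (n : ℂ) ^ (σ : ℂ) = (((n : ℝ) ^ σ : ℝ) : ℂ) := by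
        rw [Complex.ofReal_cpow hnr.le]
        simp
      rw [e2, Real.rpow_neg hnr.le]
      have : ((n : ℝ) ^ σ : ℝ) ≠ 0 := (Real.rpow_pos_of_pos hnr _).ne'
      rw [hc]
      push_cast
      field_simp
  have hDk : c * Dk a k σ T x = ∫ t, ∑' n, F n t := by
    rw [← hHS.tsum_eq]
    unfold Dk
    rw [← tsum_mul_left]
    exact tsum_congr fun n => (hval n).symm
  have htsum : ∀ t : ℝ, ∑' n, F n t = (Real.exp (-(t ^ 2 / (2 * T ^ 2))) : ℂ) *
      (x : ℂ) ^ ((t : ℂ) * Complex.I) * LSeries f (σ + t * Complex.I) := by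
    intro t
    simp only [F]
    rw [tsum_mul_left]
    rfl
  -- the bound
  have hb : ∀ t : ℝ, ‖∑' n, F n t‖ ≤ M * Real.log (T + 3) ^ D * (D.factorial * Real.exp 2) *
      Real.exp (-(t ^ 2 / (4 * T ^ 2))) := by
    intro t
    rw [htsum, norm_mul, norm_mul, hxn, mul_one, Complex.norm_real,
      Real.norm_of_nonneg (Real.exp_pos _).le]
    have hlogT : 0 ≤ Real.log (T + 3) := Real.log_nonneg (by linarith)
    have hu : 0 ≤ |t| / T := by positivity
    have g1 := GaussAvg_pow_le D (|t| / T) hu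
    have g2 := GaussAvg_log_le D T t hT
    have e1 : (|t| / T) ^ 2 / 2 = t ^ 2 / (2 * T ^ 2) := by
      rw [div_pow, sq_abs]
      field_simp
    have e2 : (|t| / T) ^ 2 / 4 = t ^ 2 / (4 * T ^ 2) := by
      rw [div_pow, sq_abs]
      field_simp
    rw [e1, e2] at g1
    calc Real.exp (-(t ^ 2 / (2 * T ^ 2))) * ‖LSeries f (σ + t * Complex.I)‖
        ≤ Real.exp (-(t ^ 2 / (2 * T ^ 2))) * (M * Real.log (|t| + 3) ^ D) := by
          gcongr
          exact hL t
      _ ≤ Real.exp (-(t ^ 2 / (2 * T ^ 2))) * (M * (Real.log (T + 3) ^ D * (1 + |t| / T) ^ D)) := by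
          gcongr
      _ = M * Real.log (T + 3) ^ D * ((1 + |t| / T) ^ D * Real.exp (-(t ^ 2 / (2 * T ^ 2)))) := by
          ring
      _ ≤ M * Real.log (T + 3) ^ D * (D.factorial * Real.exp 2 *
          Real.exp (-(t ^ 2 / (4 * T ^ 2)))) := by gcongr
      _ = _ := by ring
  have hgauss2 : Integrable (fun t : ℝ => Real.exp (-(t ^ 2 / (4 * T ^ 2)))) := by
    have := integrable_exp_neg_mul_sq (b := 1 / (4 * T ^ 2)) (by positivity)
    refine this.congr (Filter.Eventually.of_forall fun t => ?_)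
    simp only
    congr 1
    ring
  have hint2 : ∫ t : ℝ, Real.exp (-(t ^ 2 / (4 * T ^ 2))) = Real.sqrt (4 * Real.pi * T ^ 2) := by
    have h := integral_gaussian (1 / (4 * T ^ 2))
    have e : ∀ t : ℝ, Real.exp (-(t ^ 2 / (4 * T ^ 2))) = Real.exp (-(1 / (4 * T ^ 2)) * t ^ 2) := by
      intro t
      congr 1
      ring
    simp_rw [e]
    rw [h]
    congr 1
    field_simp
  have hnorm := norm_integral_le_of_norm_le (hgauss2.const_mul
    (M * Real.log (T + 3) ^ D * (D.factorial * Real.exp 2))) (Filter.Eventually.of_forall hb)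
  rw [integral_const_mul, hint2, ← hDk, norm_mul, hc, Complex.norm_real,
    Real.norm_of_nonneg (Real.sqrt_nonneg _)] at hnorm
  have hs : Real.sqrt (4 * Real.pi * T ^ 2) = Real.sqrt 2 * Real.sqrt (2 * Real.pi * T ^ 2) := by
    rw [← Real.sqrt_mul (by norm_num)]
    congr 1
    ring
  rw [hs] at hnorm
  have hpos : 0 < Real.sqrt (2 * Real.pi * T ^ 2) := Real.sqrt_pos.2 (by positivity)
  refine le_of_mul_le_mul_left (le_trans hnorm (le_of_eq ?_)) hpos
  ring

end Pool.CG
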