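import Pool.Agent.Lib.MP_c77da8_nt.CG.PnC
import Pool.Agent.Lib.MP_dd84fd_nt.SW.ThreeFour
import Pool.Agent.Lib.MP_dd84fd_nt.SW.NearOne
import Pool.Agent.Lib.MP_dd84fd_nt.SW.LowerAll

/-!
# CG-N-PnL: lower bound for `L(s, χ)`

Copy the proof of `SW.L_lower` (file `SW/LowerAll.lean`, 130 lines) with `real_char W` in place of `siegel ε` (so `Q = 1`; only the
case `χ ≠ 1`).
-/

set_option autoImplicit false

namespace Pool.CG

open Finset Pool.MP_dd84fd_nt.SW

theorem L_low (W : ℕ) (hW : 1 ≤ W) : ∃ c : ℝ, 0 < c ∧ c ≤ 1 ∧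
    ∀ (q : ℕ) (χ : DirichletCharacter ℂ q) (s : ℂ), 1 ≤ q → (∀ p : ℕ, p.Prime → p ∣ q → p ∣ W) →
    1 < s.re → s.re ≤ 2 → χ ≠ 1 → c / ell q s.im ^ 13 ≤ ‖LSeries (ej χ 0) s‖ := by
  obtain ⟨c1', hc1', h1'⟩ := L_lower_far
  obtain ⟨C2', hC2', h2'⟩ := L_near_one
  obtain ⟨c3', hc3', h3'⟩ := real_char W hW
  -- normalised constants
  set c1 : ℝ := min c1' 1 with hc1
  set c3 : ℝ := min c3' 1 with hc3
  set C2 : ℝ := max C2' 1 with hC2
  have c1pos : 0 < c1 := lt_min hc1' one_pos
  have c3pos : 0 < c3 := lt_min hc3' one_pos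
  have c1le : c1 ≤ 1 := min_le_right _ _
  have c3le : c3 ≤ 1 := min_le_right _ _
  have C2ge : 1 ≤ C2 := le_max_right _ _
  have C2pos : 0 < C2 := by linarith
  refine ⟨c1 * c3 / (8 * C2), by positivity, ?_, ?_⟩
  · rw [div_le_one (by positivity)]
    have e1 : c1 * c3 ≤ 1 * 1 := mul_le_mul c1le c3le c3pos.le zero_le_one
    linarith
  intro q χ s hq hqW hs1 hs2 hχ
  have hqR : (1 : ℝ) ≤ q := by exact_mod_cast hq
  have hq0 : (0 : ℝ) < q := by linarith
  set l : ℝ := ell q s.im with hl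
  set l0 : ℝ := ell q 0 with hl0
  have hl1 : 1 ≤ l := LowerAll_ell_one q _ hq
  have hl01 : 1 ≤ l0 := LowerAll_ell_one q _ hq
  have hl0l : l0 ≤ l := LowerAll_ell_mono q _ hq
  have hlpos : 0 < l := by linarith
  have hl0pos : 0 < l0 := by linarith
  -- the bound by `l ^ 9`
  have hpow : ∀ a b : ℕ, a ≤ b → (l ^ b)⁻¹ ≤ (l ^ a)⁻¹ := by
    intro a b hab
    have := pow_le_pow_right₀ hl1 hab
    gcongr
  by_cases hχ2 : χ ^ 2 = 1
  · -- real character
    haveI : NeZero q := ⟨by omega⟩
    obtain ⟨lam, hlam⟩ : ∃ lam : ℝ, lam = c3 := ⟨c3, rfl⟩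
    have hlampos : 0 < lam := by rw [hlam]; positivity
    have hlam1 : lam ≤ 1 := by
      rw [hlam]
      exact c3le
    have hsieg : lam ≤ ‖χ.LFunction 1‖ := by
      refine le_trans ?_ (h3' q hqW χ hχ hχ2)
      have : c3 ≤ c3' := min_le_left _ _
      rw [hlam]
      exact this
    set η : ℝ := lam / (4 * C2 * l0 ^ 2) with hη
    have hηpos : 0 < η := by positivity
    have hl02 : 1 ≤ l0 ^ 2 := one_le_pow₀ hl01
    have hη1 : η ≤ 1 := by
      rw [hη, div_le_one (by positivity)]
      nlinarith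
    by_cases ht : η ≤ |s.im|
    · refine le_trans ?_ (h1' q χ s η hq hs1 hs2 hηpos hη1 (Or.inl hχ) (Or.inr ht))
      rw [← hl]
      have hinv : (l ^ 2)⁻¹ ≤ (l0 ^ 2)⁻¹ := by
        have := pow_le_pow_left₀ hl0pos.le hl0l 2
        gcongr
      calc c1 * c3 / (8 * C2) / l ^ 13 = c1 * (lam / (8 * C2)) * (l ^ 13)⁻¹ := by
            rw [hlam]
            field_simp
        _ ≤ c1 * (lam / (4 * C2)) * (l ^ 11)⁻¹ := by
            have e1 : lam / (8 * C2) ≤ lam / (4 * C2) := by
              gcongr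
              norm_num
            have e2 := hpow 11 13 (by norm_num)
            gcongr
        _ = c1 * (lam / (4 * C2)) * ((l ^ 2)⁻¹ * (l ^ 9)⁻¹) := by
            rw [← mul_inv, ← pow_add]
        _ ≤ c1' * (lam / (4 * C2)) * ((l0 ^ 2)⁻¹ * (l ^ 9)⁻¹) := by
            have : c1 ≤ c1' := min_le_left _ _
            gcongr
        _ = c1' * η / l ^ 9 := by
            rw [hη]
            field_simp
    · rw [not_le] at ht
      have hsmall : c1 * c3 / (8 * C2) / l ^ 13 ≤ η / 2 := by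
        have hinv : (l ^ 2)⁻¹ ≤ (l0 ^ 2)⁻¹ := by
          have := pow_le_pow_left₀ hl0pos.le hl0l 2
          gcongr
        calc c1 * c3 / (8 * C2) / l ^ 13 = c1 * (lam / (8 * C2)) * (l ^ 13)⁻¹ := by
              rw [hlam]
              field_simp
          _ ≤ 1 * (lam / (8 * C2)) * (l ^ 2)⁻¹ := by
              have e2 := hpow 2 13 (by norm_num)
              gcongr
          _ ≤ 1 * (lam / (8 * C2)) * (l0 ^ 2)⁻¹ := by gcongr
          _ = η / 2 := by
              rw [hη]
              field_simp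
              ring
      by_cases hσ : η ≤ s.re - 1
      · have h4 := L_triv_lower q χ s hs1 hs2
        linarith
      · rw [not_le] at hσ
        have h5 := h2' q χ s hχ hs1 hs2 (by linarith)
        have hs : ‖s - 1‖ ≤ 2 * η := by
          calc ‖s - 1‖ ≤ |(s - 1).re| + |(s - 1).im| := Complex.norm_le_abs_re_add_abs_im _
            _ = (s.re - 1) + |s.im| := by
                rw [Complex.sub_re, Complex.sub_im, Complex.one_re, Complex.one_im, sub_zero,
                  abs_of_pos (by linarith)]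
            _ ≤ 2 * η := by linarith
        have h6 : ‖LSeries (ej χ 0) s - χ.LFunction 1‖ ≤ lam / 2 := by
          calc ‖LSeries (ej χ 0) s - χ.LFunction 1‖ ≤ C2' * ‖s - 1‖ * ell q 0 ^ 2 := h5
            _ ≤ C2 * (2 * η) * l0 ^ 2 := by
                have : C2' ≤ C2 := le_max_left _ _
                gcongr
            _ = lam / 2 := by
                rw [hη]
                field_simp
                ring
        have h7 : ‖χ.LFunction 1‖ ≤ ‖LSeries (ej χ 0) s‖ + ‖LSeries (ej χ 0) s - χ.LFunction 1‖ := by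
          have := norm_sub_le (LSeries (ej χ 0) s) (LSeries (ej χ 0) s - χ.LFunction 1)
          rw [sub_sub_cancel] at this
          exact this
        have h8 : η / 2 ≤ lam / 2 := by
          have : η ≤ lam := by
            rw [hη]
            apply div_le_self hlampos.le
            nlinarith
          linarith
        linarith
  · refine le_trans ?_ (h1' q χ s 1 hq hs1 hs2 one_pos le_rfl (Or.inl hχ) (Or.inl hχ2))
    rw [← hl]
    calc c1 * c3 / (8 * C2) / l ^ 13 = c1 * (c3 / (8 * C2)) * (l ^ 13)⁻¹ := by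
          field_simp
      _ ≤ c1 * 1 * (l ^ 9)⁻¹ := by
          have e1 : c3 / (8 * C2) ≤ 1 := by
            rw [div_le_iff₀ (by positivity)]
            nlinarith
          have e2 := hpow 9 13 (by norm_num)
          gcongr
      _ ≤ c1' * 1 * (l ^ 9)⁻¹ := by
          have : c1 ≤ c1' := min_le_left _ _
          gcongr
      _ = c1' * 1 / l ^ 9 := by rw [div_eq_mul_inv]

end Pool.CG
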