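import Pool.Agent.Lib.MP_c77da8_nt.CG.PnE
import Pool.Agent.Lib.MP_c77da8_nt.CG.PnL
import Pool.Agent.Lib.MP_c77da8_nt.CG.PnG
import Pool.Agent.Lib.MP_c77da8_nt.CG.PnT

/-!
# CG-N-PnM: sums of `μ(n) χ(n)` for moduli with prime divisors in a fixed set

`L = log X`, `k = ⌊L^(1/100)⌋` (tends to infinity with `X`), `k^100 ≤ L < (k+1)^100`, `T = exp(A k)` (`A ≥ 1` a natural number which
depends on `B` and the constants). `σ = 1 + 1/L`, `s = σ + it`, `l = ell q t ≤ (1 + log q) log(|t| + 3)`, `log q ≤ B (k+1)`.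
* `m = c/l^13`, `H = 60 l` in `Fk_explicit` (`L_low`, `Ej_explicit`): with `D = 15 k + 13`
  `‖F_k(s)‖ ≤ k! (l^13/c) (7200 l^15/c)^k = k! c⁻¹ (7200/c)^k l^D ≤ M log(|t|+3)^D`,
  `M = k! c⁻¹ (7200/c)^k (1 + log q)^D ≤ k! c⁻¹ (7200/c)^k ((B+1)(k+1))^D`.
* `gauss_explicit`: `‖Dk‖ ≤ R := D! exp 2 √2 M log(T+3)^D`, `log(T + 3) ≤ 2 A k`.
  `D! ≤ D^D ≤ (28 (k+1))^D`, `k! ≤ k^k`, so `R ≤ C1^(k+1) (k+1)^(3D + k) = C1^(k+1) (k+1)^(46 k + 39)`.
* `tauber_explicit` (`a n = μ(n) χ(n)`; `T^4 = exp(4Ak) ≤ X` and `k + 3 ≤ T` for large `X`):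
  `‖∑‖ ≤ C^(k+1) (T X R/L^k + X/T) ≤ X (C^(k+1) exp(Ak) C1^(k+1) (k+1)^(46k+39) / k^(100k) + C^(k+1) exp(-Ak))`.
  Second term: `≤ (1/2) exp(-B(k+1))` if `A` is large (`exp(Ak) ≥ 2 (C exp B)^(k+1)` for `k ≥ 1`: `A = 2 (log C + B + 1)`
  rounded up). First term: `(k+1)^(46k+39) ≤ (2k)^(47k)`, so it is at most `C2^(k+1) k^(-53k) ≤ (1/2) exp(-B(k+1))` for large `k`.
* `exp(-B(k+1)) ≤ exp(-B L^(1/100))`.
-/

set_option autoImplicit false

namespace Pool.CG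

open Finset Pool.MP_dd84fd_nt.SW

private theorem PnM_exp2 : Real.exp 2 * Real.sqrt 2 ≤ 12 := by
  have h1 : Real.exp 2 = Real.exp 1 * Real.exp 1 := by
    rw [← Real.exp_add]
    norm_num
  have h2 := Real.exp_one_lt_d9
  have h3 := Real.exp_pos 1
  have h4 : Real.sqrt 2 ≤ 3 / 2 := by
    rw [Real.sqrt_le_left (by norm_num)]
    norm_num
  have h5 : Real.exp 2 ≤ 8 := by
    rw [h1]
    nlinarith
  calc Real.exp 2 * Real.sqrt 2 ≤ 8 * (3 / 2) :=
        mul_le_mul h5 h4 (Real.sqrt_nonneg _) (by norm_num)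
    _ = 12 := by norm_num

/-- the constant in the final comparison -/
private noncomputable def PnMK (A B : ℕ) (c C : ℝ) : ℝ :=
  24 * (C * Real.exp A * Real.exp B) *
    ((7200 / c) * 28 ^ 15 * ((B : ℝ) + 1) ^ 15 * (2 * (A : ℝ)) ^ 15)

private theorem PnM_first (k A B : ℕ) (c C Q Lt L : ℝ) (hc0 : 0 < c) (hc1 : c ≤ 1) (hC : 1 ≤ C)
    (hQ0 : 0 ≤ Q) (hQ : Q ≤ ((B : ℝ) + 1) * ((k : ℝ) + 1)) (hLt0 : 0 ≤ Lt)
    (hLt : Lt ≤ 2 * (A : ℝ) * ((k : ℝ) + 1)) (hk : 1 ≤ k) (hA : 1 ≤ A)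
    (hL : (k : ℝ) ^ 100 ≤ L) (hn : PnMK A B c C * 2 ^ 50 ≤ (k : ℝ) + 1) :
    C ^ (k + 1) * (Real.exp (A * k) * (((15 * k + 13).factorial * Real.exp 2 * Real.sqrt 2) *
      ((k.factorial : ℝ) / c * (7200 / c) ^ k * Q ^ (15 * k + 13)) * Lt ^ (15 * k + 13)) / L ^ k) ≤
      Real.exp (-(B * ((k : ℝ) + 1))) / 2 := by
  obtain ⟨n, hndef⟩ : ∃ n : ℝ, n = (k : ℝ) + 1 := ⟨_, rfl⟩
  have hkR : (1 : ℝ) ≤ k := by exact_mod_cast hk
  have hAR : (1 : ℝ) ≤ A := by exact_mod_cast hA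
  have hBR : (0 : ℝ) ≤ B := Nat.cast_nonneg B
  have hn1 : 1 ≤ n := by rw [hndef]; linarith
  have hn2 : 2 ≤ n := by rw [hndef]; linarith
  have hn0 : 0 < n := by linarith
  rw [← hndef] at hQ hLt hn ⊢
  have hL0 : 0 < L := lt_of_lt_of_le (by positivity) hL
  have hD : 15 * k + 13 ≤ 15 * (k + 1) := by omega
  have h1 : ((15 * k + 13).factorial : ℝ) ≤ (28 * n) ^ (15 * (k + 1)) := by
    have h2 : ((15 * k + 13).factorial : ℝ) ≤ ((15 * k + 13 : ℕ) : ℝ) ^ (15 * k + 13) := by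
      exact_mod_cast Nat.factorial_le_pow (15 * k + 13)
    have h3 : ((15 * k + 13 : ℕ) : ℝ) ≤ 28 * n := by
      push_cast
      rw [hndef]
      linarith
    calc ((15 * k + 13).factorial : ℝ) ≤ ((15 * k + 13 : ℕ) : ℝ) ^ (15 * k + 13) := h2
      _ ≤ (28 * n) ^ (15 * k + 13) := pow_le_pow_left₀ (Nat.cast_nonneg _) h3 _
      _ ≤ (28 * n) ^ (15 * (k + 1)) := pow_le_pow_right₀ (by linarith) hD
  have h2 : (k.factorial : ℝ) ≤ n ^ (k + 1) := by
    have h3 : (k.factorial : ℝ) ≤ (k : ℝ) ^ k := by exact_mod_cast Nat.factorial_le_pow k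
    calc (k.factorial : ℝ) ≤ (k : ℝ) ^ k := h3
      _ ≤ n ^ k := pow_le_pow_left₀ (Nat.cast_nonneg _) (by rw [hndef]; linarith) _
      _ ≤ n ^ (k + 1) := pow_le_pow_right₀ hn1 (by omega)
  have h4 : 1 / c * (7200 / c) ^ k ≤ (7200 / c) ^ (k + 1) := by
    rw [pow_succ' (7200 / c)]
    refine mul_le_mul_of_nonneg_right ?_ (by positivity)
    exact div_le_div_of_nonneg_right (by norm_num) hc0.le
  have h5 : Q ^ (15 * k + 13) ≤ (((B : ℝ) + 1) * n) ^ (15 * (k + 1)) :=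
    (pow_le_pow_left₀ hQ0 hQ _).trans (pow_le_pow_right₀ (by nlinarith) hD)
  have h6 : Lt ^ (15 * k + 13) ≤ (2 * (A : ℝ) * n) ^ (15 * (k + 1)) :=
    (pow_le_pow_left₀ hLt0 hLt _).trans (pow_le_pow_right₀ (by nlinarith) hD)
  have h7 : Real.exp (A * k) ≤ Real.exp A ^ (k + 1) := by
    rw [← Real.exp_nat_mul]
    apply Real.exp_le_exp.2
    push_cast
    nlinarith
  have h8 : Real.exp (-(B * n)) / 2 = (1 / 2) * (1 / Real.exp B ^ (k + 1)) := by
    rw [← Real.exp_nat_mul, Real.exp_neg]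
    push_cast
    rw [← hndef, mul_comm n (B : ℝ)]
    field_simp
  have hR : (((15 * k + 13).factorial * Real.exp 2 * Real.sqrt 2) *
      ((k.factorial : ℝ) / c * (7200 / c) ^ k * Q ^ (15 * k + 13)) * Lt ^ (15 * k + 13)) ≤
      (12 * ((7200 / c) * 28 ^ 15 * ((B : ℝ) + 1) ^ 15 * (2 * (A : ℝ)) ^ 15) * n ^ 46) ^ (k + 1) := by
    have e1 : (((15 * k + 13).factorial * Real.exp 2 * Real.sqrt 2) *
      ((k.factorial : ℝ) / c * (7200 / c) ^ k * Q ^ (15 * k + 13)) * Lt ^ (15 * k + 13)) =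
      (((15 * k + 13).factorial : ℝ) * (Real.exp 2 * Real.sqrt 2)) *
      ((k.factorial : ℝ) * (1 / c * (7200 / c) ^ k) * Q ^ (15 * k + 13)) * Lt ^ (15 * k + 13) := by
      ring
    have e2 : (12 * ((7200 / c) * 28 ^ 15 * ((B : ℝ) + 1) ^ 15 * (2 * (A : ℝ)) ^ 15) * n ^ 46)
        ^ (k + 1) = ((28 * n) ^ (15 * (k + 1)) * 12 ^ (k + 1)) *
        (n ^ (k + 1) * (7200 / c) ^ (k + 1) * (((B : ℝ) + 1) * n) ^ (15 * (k + 1))) *
        (2 * (A : ℝ) * n) ^ (15 * (k + 1)) := by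
      rw [pow_mul, pow_mul, pow_mul, ← mul_pow, ← mul_pow, ← mul_pow, ← mul_pow, ← mul_pow]
      congr 1
      ring
    rw [e1, e2]
    have h12 : Real.exp 2 * Real.sqrt 2 ≤ 12 ^ (k + 1) := by
      refine PnM_exp2.trans ?_
      calc (12 : ℝ) = 12 ^ 1 := by norm_num
        _ ≤ 12 ^ (k + 1) := pow_le_pow_right₀ (by norm_num) (by omega)
    gcongr
  have hmain : 2 * Real.exp B ^ (k + 1) * (C ^ (k + 1) * (Real.exp (A * k) *
      (((15 * k + 13).factorial * Real.exp 2 * Real.sqrt 2) *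
      ((k.factorial : ℝ) / c * (7200 / c) ^ k * Q ^ (15 * k + 13)) * Lt ^ (15 * k + 13)))) ≤
      L ^ k := by
    have hK0 : 0 ≤ PnMK A B c C := by
      unfold PnMK
      positivity
    have h9 : PnMK A B c C * n ^ 46 ≤ (n / 2) ^ 50 := by
      have h10 : PnMK A B c C * 2 ^ 50 ≤ n ^ 4 := by
        refine hn.trans ?_
        calc n = n ^ 1 := (pow_one n).symm
          _ ≤ n ^ 4 := pow_le_pow_right₀ hn1 (by norm_num)
      rw [div_pow, le_div_iff₀ (by positivity)]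
      calc PnMK A B c C * n ^ 46 * 2 ^ 50 = (PnMK A B c C * 2 ^ 50) * n ^ 46 := by ring
        _ ≤ n ^ 4 * n ^ 46 := mul_le_mul_of_nonneg_right h10 (by positivity)
        _ = n ^ 50 := by ring
    calc 2 * Real.exp B ^ (k + 1) * (C ^ (k + 1) * (Real.exp (A * k) *
        (((15 * k + 13).factorial * Real.exp 2 * Real.sqrt 2) *
        ((k.factorial : ℝ) / c * (7200 / c) ^ k * Q ^ (15 * k + 13)) * Lt ^ (15 * k + 13))))
        ≤ 2 ^ (k + 1) * Real.exp B ^ (k + 1) * (C ^ (k + 1) * (Real.exp A ^ (k + 1) *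
          (12 * ((7200 / c) * 28 ^ 15 * ((B : ℝ) + 1) ^ 15 * (2 * (A : ℝ)) ^ 15) * n ^ 46)
          ^ (k + 1))) := by
          have h22 : (2 : ℝ) ≤ 2 ^ (k + 1) := by
            calc (2 : ℝ) = 2 ^ 1 := by norm_num
              _ ≤ 2 ^ (k + 1) := pow_le_pow_right₀ (by norm_num) (by omega)
          have hR0 : 0 ≤ (((15 * k + 13).factorial * Real.exp 2 * Real.sqrt 2) *
            ((k.factorial : ℝ) / c * (7200 / c) ^ k * Q ^ (15 * k + 13)) *
            Lt ^ (15 * k + 13)) := by positivity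
          exact mul_le_mul (mul_le_mul_of_nonneg_right h22 (by positivity))
            (mul_le_mul_of_nonneg_left (mul_le_mul h7 hR hR0 (by positivity)) (by positivity))
            (by positivity) (by positivity)
      _ = (PnMK A B c C * n ^ 46) ^ (k + 1) := by
          rw [← mul_pow, ← mul_pow, ← mul_pow, ← mul_pow]
          congr 1
          unfold PnMK
          ring
      _ ≤ ((n / 2) ^ 50) ^ (k + 1) := pow_le_pow_left₀ (by positivity) h9 _
      _ = (n / 2) ^ (50 * (k + 1)) := by rw [← pow_mul]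
      _ ≤ (n / 2) ^ (100 * k) := pow_le_pow_right₀ (by linarith) (by omega)
      _ = ((n / 2) ^ 100) ^ k := by rw [← pow_mul]
      _ ≤ ((k : ℝ) ^ 100) ^ k := by
          refine pow_le_pow_left₀ (by positivity) ?_ _
          refine pow_le_pow_left₀ (by positivity) ?_ _
          rw [hndef]
          linarith
      _ ≤ L ^ k := pow_le_pow_left₀ (by positivity) hL _
  rw [h8, ← mul_div_assoc, div_le_iff₀ (by positivity)]
  have hEB : 0 < Real.exp B ^ (k + 1) := by positivity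
  rw [show (1 : ℝ) / 2 * (1 / Real.exp B ^ (k + 1)) * L ^ k = L ^ k / (2 * Real.exp B ^ (k + 1)) by
    field_simp]
  rw [le_div_iff₀ (by positivity)]
  refine le_trans (le_of_eq ?_) hmain
  ring

private theorem PnM_second (k A B : ℕ) (C : ℝ) (hC : 1 ≤ C) (hk : 1 ≤ k)
    (hA : 1 + 2 * Real.log C + 2 * B ≤ A) :
    C ^ (k + 1) * Real.exp (-(A * k)) ≤ Real.exp (-(B * ((k : ℝ) + 1))) / 2 := by
  have hkR : (1 : ℝ) ≤ k := by exact_mod_cast hk
  have hC0 : 0 < C := by linarith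
  have hlog : 0 ≤ Real.log C := Real.log_nonneg hC
  have hB : (0 : ℝ) ≤ B := Nat.cast_nonneg B
  have h1 : C ^ (k + 1) = Real.exp ((k + 1) * Real.log C) := by
    rw [mul_comm, Real.exp_mul, Real.exp_log hC0]
    exact_mod_cast (Real.rpow_natCast C (k + 1)).symm
  have h2 : (2 : ℝ) ≤ Real.exp 1 := by
    have := Real.add_one_le_exp (1 : ℝ)
    linarith
  rw [h1, ← Real.exp_add, le_div_iff₀ (by norm_num)]
  calc Real.exp ((k + 1) * Real.log C + -(A * k)) * 2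
      ≤ Real.exp ((k + 1) * Real.log C + -(A * k)) * Real.exp 1 :=
        mul_le_mul_of_nonneg_left h2 (Real.exp_pos _).le
    _ = Real.exp ((k + 1) * Real.log C + -(A * k) + 1) := (Real.exp_add _ _).symm
    _ ≤ Real.exp (-(B * ((k : ℝ) + 1))) := by
        apply Real.exp_le_exp.2
        nlinarith [mul_le_mul_of_nonneg_right hA (show (0 : ℝ) ≤ k by linarith)]

theorem mu_strong (W B : ℕ) (hW : 1 ≤ W) : ∃ X0 : ℕ, ∀ X : ℕ, X0 ≤ X →
    ∀ (q : ℕ) (χ : DirichletCharacter ℂ q), 1 ≤ q → (∀ p : ℕ, p.Prime → p ∣ q → p ∣ W) →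
    (q : ℝ) ≤ Real.exp (B * Real.log X ^ (1 / 100 : ℝ)) → χ ≠ 1 →
    ‖∑ n ∈ Icc 1 X, ((ArithmeticFunction.moebius n : ℤ) : ℂ) * χ n‖ ≤
      X * Real.exp (-(B * Real.log X ^ (1 / 100 : ℝ))) := by
  obtain ⟨c, hc0, hc1, hlow⟩ := L_low W hW
  obtain ⟨C, hC1, hTb⟩ := tauber_explicit
  obtain ⟨A, hAdef⟩ : ∃ A : ℕ, A = ⌈1 + 2 * Real.log C + 2 * B⌉₊ := ⟨_, rfl⟩
  have hlogC : 0 ≤ Real.log C := Real.log_nonneg hC1
  have hBR : (0 : ℝ) ≤ B := Nat.cast_nonneg B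
  have hAge : 1 + 2 * Real.log C + 2 * B ≤ A := by
    rw [hAdef]
    exact Nat.le_ceil _
  have hAR : (1 : ℝ) ≤ A := by linarith
  have hA1 : 1 ≤ A := by exact_mod_cast hAR
  have hlogX : Filter.Tendsto (fun X : ℕ => Real.log X) Filter.atTop Filter.atTop :=
    Real.tendsto_log_atTop.comp (tendsto_natCast_atTop_atTop (R := ℝ))
  have hpow : Filter.Tendsto (fun X : ℕ => Real.log X ^ (1 / 100 : ℝ)) Filter.atTop Filter.atTop :=
    (tendsto_rpow_atTop (by norm_num : (0 : ℝ) < 1 / 100)).comp hlogX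
  have ev := hpow.eventually (Filter.eventually_ge_atTop (PnMK A B c C * 2 ^ 50 + 4 * A + 10))
  obtain ⟨X0, hX0⟩ := Filter.eventually_atTop.mp (ev.and (Filter.eventually_ge_atTop 3))
  refine ⟨X0, fun X hX q χ hq hqW hqX hχ => ?_⟩
  obtain ⟨e1, e2⟩ := hX0 X hX
  obtain ⟨L, hL⟩ : ∃ L : ℝ, L = Real.log X := ⟨_, rfl⟩
  rw [← hL] at e1 hqX ⊢
  have hL0 : 0 ≤ L := by
    rw [hL]
    exact Real.log_natCast_nonneg X
  obtain ⟨lam, hlam⟩ : ∃ lam : ℝ, lam = L ^ (1 / 100 : ℝ) := ⟨_, rfl⟩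
  rw [← hlam] at e1 hqX ⊢
  have hlam100 : lam ^ 100 = L := by
    rw [hlam, ← Real.rpow_natCast, ← Real.rpow_mul hL0]
    norm_num
  have hK0 : 0 ≤ PnMK A B c C := by
    unfold PnMK
    positivity
  have hK0' : 0 ≤ PnMK A B c C * 2 ^ 50 := by positivity
  obtain ⟨k, hkdef⟩ : ∃ k : ℕ, k = ⌊lam⌋₊ := ⟨_, rfl⟩
  have hlam0 : 0 ≤ lam := by linarith
  have hk1 : (k : ℝ) ≤ lam := by
    rw [hkdef]
    exact Nat.floor_le hlam0
  have hk2 : lam < k + 1 := by
    rw [hkdef]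
    exact Nat.lt_floor_add_one lam
  have hkR : (4 * A + 9 : ℝ) ≤ k := by linarith
  have hk1' : 1 ≤ k := by
    have : (1 : ℝ) ≤ k := by linarith
    exact_mod_cast this
  have hkL : (k : ℝ) ^ 100 ≤ L := by
    rw [← hlam100]
    exact pow_le_pow_left₀ (Nat.cast_nonneg _) hk1 _
  have hL1 : 1 ≤ L := le_trans (one_le_pow₀ (by linarith)) hkL
  have hLpos : 0 < L := by linarith
  have hqR : (1 : ℝ) ≤ q := by exact_mod_cast hq
  have hq0 : (0 : ℝ) < q := by linarith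
  have hlogq : 0 ≤ Real.log q := Real.log_nonneg hqR
  have hlogq2 : Real.log q ≤ B * ((k : ℝ) + 1) := by
    have h1 : Real.log q ≤ B * lam := by
      rw [Real.log_le_iff_le_exp hq0]
      exact hqX
    refine h1.trans (mul_le_mul_of_nonneg_left hk2.le hBR)
  obtain ⟨T, hT⟩ : ∃ T : ℝ, T = Real.exp (A * k) := ⟨_, rfl⟩
  have hAk : (k : ℝ) ≤ A * k := by nlinarith
  have hTk : (k : ℝ) + 3 ≤ T := by
    rw [hT]
    have h1 := Real.quadratic_le_exp_of_nonneg (show (0 : ℝ) ≤ A * k by positivity)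
    nlinarith
  have hT1 : 1 ≤ T := by
    have : (0 : ℝ) ≤ k := Nat.cast_nonneg k
    linarith
  have hT0 : 0 < T := by linarith
  have hXpos : (0 : ℝ) < X := by
    have : 0 < X := by omega
    exact_mod_cast this
  have hT4 : T ^ 4 ≤ X := by
    rw [hT, ← Real.exp_nat_mul, ← Real.exp_log hXpos, ← hL]
    apply Real.exp_le_exp.2
    refine le_trans ?_ hkL
    have h1 : (k : ℝ) ^ 2 ≤ (k : ℝ) ^ 100 := pow_le_pow_right₀ (by linarith) (by norm_num)
    push_cast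
    nlinarith
  have hlogT3 : 0 ≤ Real.log (T + 3) := Real.log_nonneg (by linarith)
  have hlogT2 : Real.log (T + 3) ≤ 2 * (A : ℝ) * ((k : ℝ) + 1) := by
    have h1 : T + 3 ≤ T ^ 2 := by
      have : (0 : ℝ) ≤ k := Nat.cast_nonneg k
      nlinarith
    calc Real.log (T + 3) ≤ Real.log (T ^ 2) := Real.log_le_log (by linarith) h1
      _ = 2 * (A * k) := by rw [Real.log_pow, hT, Real.log_exp]; norm_num
      _ ≤ 2 * (A : ℝ) * ((k : ℝ) + 1) := by nlinarith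
  obtain ⟨D, hD⟩ : ∃ D : ℕ, D = 15 * k + 13 := ⟨_, rfl⟩
  obtain ⟨M, hM⟩ : ∃ M : ℝ, M = (k.factorial : ℝ) / c * (7200 / c) ^ k *
    (1 + Real.log q) ^ (15 * k + 13) := ⟨_, rfl⟩
  have hM0 : 0 ≤ M := by
    rw [hM]
    positivity
  obtain ⟨R, hR⟩ : ∃ R : ℝ, R = ((15 * k + 13).factorial * Real.exp 2 * Real.sqrt 2) * M *
    Real.log (T + 3) ^ (15 * k + 13) := ⟨_, rfl⟩
  have hR0 : 0 ≤ R := by
    rw [hR]
    positivity
  obtain ⟨a, ha⟩ : ∃ a : ℕ → ℂ, a = fun n => ((ArithmeticFunction.moebius n : ℤ) : ℂ) * χ n :=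
    ⟨_, rfl⟩
  have hab : ∀ n, ‖a n‖ ≤ 1 := by
    intro n
    rw [ha]
    simp only
    rw [norm_mul]
    have h1 := χ.norm_le_one n
    have h2 : ‖((ArithmeticFunction.moebius n : ℤ) : ℂ)‖ ≤ 1 := by
      rw [Complex.norm_intCast]
      exact_mod_cast ArithmeticFunction.abs_moebius_le_one
    calc ‖((ArithmeticFunction.moebius n : ℤ) : ℂ)‖ * ‖χ n‖ ≤ 1 * 1 := by gcongr
      _ = 1 := one_mul _
  obtain ⟨σ, hσ⟩ : ∃ σ : ℝ, σ = 1 + 1 / L := ⟨_, rfl⟩
  have hσ1 : 1 < σ := by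
    rw [hσ]
    have : 0 < 1 / L := by positivity
    linarith
  have hσ2 : σ ≤ 2 := by
    rw [hσ]
    have : 1 / L ≤ 1 := by
      rw [div_le_one hLpos]
      exact hL1
    linarith
  have hLS : ∀ t : ℝ, ‖LSeries (fun n => a n * (Real.log n : ℂ) ^ k) (σ + t * Complex.I)‖ ≤
      M * Real.log (|t| + 3) ^ (15 * k + 13) := by
    intro t
    have him : ((σ : ℂ) + t * Complex.I).im = t := by simp
    have hre : ((σ : ℂ) + t * Complex.I).re = σ := by simp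
    have hl1 : 1 ≤ ell q t := ell_ge_one hq t
    have hl0 : 0 < ell q t := by linarith
    have hl13 : 1 ≤ ell q t ^ 13 := one_le_pow₀ hl1
    have h1 := Fk_explicit k q χ (σ + t * Complex.I) (c / ell q t ^ 13) (60 * ell q t)
      (by rw [hre]; exact hσ1) (by positivity) (by
        have : c / ell q t ^ 13 ≤ 1 := by
          rw [div_le_one (by positivity)]
          linarith
        linarith) (by
        have h2 := hlow q χ (σ + t * Complex.I) hq hqW (by rw [hre]; exact hσ1)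
          (by rw [hre]; exact hσ2) hχ
        rwa [him] at h2) (by
        intro j _ _
        have h2 := Ej_explicit j q χ (σ + t * Complex.I) hq hχ (by rw [hre]; exact hσ1)
          (by rw [hre]; exact hσ2)
        rwa [him] at h2)
    have h2 : (fun n => a n * (Real.log n : ℂ) ^ k) = ak χ k := by
      rw [ha]
      rfl
    rw [h2]
    refine h1.trans ?_
    have ht := abs_nonneg t
    have hlt : 1 ≤ Real.log (|t| + 3) := by
      rw [Real.le_log_iff_exp_le (by linarith)]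
      have := Real.exp_one_lt_d9
      linarith
    have h3 : ell q t ≤ (1 + Real.log q) * Real.log (|t| + 3) := by
      unfold ell
      rw [Real.log_mul hq0.ne' (by linarith)]
      nlinarith
    have h5 : ell q t ^ (15 * k + 13) ≤ ((1 + Real.log q) * Real.log (|t| + 3)) ^ (15 * k + 13) :=
      pow_le_pow_left₀ hl0.le h3 _
    calc (k.factorial : ℝ) / (c / ell q t ^ 13) *
          (2 * (60 * ell q t) ^ 2 / (c / ell q t ^ 13)) ^ k
        = (k.factorial : ℝ) / c * (7200 / c) ^ k * ell q t ^ (15 * k + 13) := by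
          have e3 : 2 * (60 * ell q t) ^ 2 / (c / ell q t ^ 13) = 7200 / c * ell q t ^ 15 := by
            field_simp
            ring
          rw [e3, mul_pow, ← pow_mul, pow_add, div_div_eq_mul_div]
          ring
      _ ≤ (k.factorial : ℝ) / c * (7200 / c) ^ k *
          ((1 + Real.log q) * Real.log (|t| + 3)) ^ (15 * k + 13) :=
          mul_le_mul_of_nonneg_left h5 (by positivity)
      _ = M * Real.log (|t| + 3) ^ (15 * k + 13) := by
          rw [hM, mul_pow]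
          ring
  have hfinal := hTb k a X T R hab e2 hTk hT4 hR0 (by
      intro x hx1 _
      have hx0 : 0 < x := lt_of_lt_of_le (Real.sqrt_pos.2 hXpos) hx1
      rw [← hL, ← hσ, hR]
      exact gauss_explicit (15 * k + 13) a k σ T x M hab hσ1 hT1 hx0 hM0 hLS)
  rw [← hL] at hfinal
  have hf1 := PnM_first k A B c C (1 + Real.log q) (Real.log (T + 3)) L hc0 hc1 hC1 (by linarith)
    (by
      have : (0 : ℝ) ≤ k := Nat.cast_nonneg k
      nlinarith) hlogT3 hlogT2 hk1' hA1 hkL (by linarith)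
  rw [← hM, ← hR, ← hT] at hf1
  have hf2 := PnM_second k A B C hC1 hk1' hAge
  have hTinv : 1 / T = Real.exp (-(A * k)) := by
    rw [hT, Real.exp_neg, one_div]
  rw [← hTinv] at hf2
  have hsum : ∑ n ∈ Icc 1 X, ((ArithmeticFunction.moebius n : ℤ) : ℂ) * χ n =
      ∑ n ∈ Icc 1 X, a n := by
    rw [ha]
  rw [hsum]
  calc ‖∑ n ∈ Icc 1 X, a n‖ ≤ C ^ (k + 1) * (T * X * R / L ^ k + X / T) := hfinal
    _ = X * (C ^ (k + 1) * (T * R / L ^ k) + C ^ (k + 1) * (1 / T)) := by ring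
    _ ≤ X * (Real.exp (-(B * ((k : ℝ) + 1))) / 2 + Real.exp (-(B * ((k : ℝ) + 1))) / 2) :=
        mul_le_mul_of_nonneg_left (add_le_add hf1 hf2) hXpos.le
    _ = X * Real.exp (-(B * ((k : ℝ) + 1))) := by ring
    _ ≤ X * Real.exp (-(B * lam)) := by
        refine mul_le_mul_of_nonneg_left (Real.exp_le_exp.2 ?_) hXpos.le
        have := mul_le_mul_of_nonneg_left hk2.le hBR
        linarith

end Pool.CG
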