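import Pool.Agent.Lib.MP_c77da8_nt.CG.PnA
import Pool.Agent.Lib.MP_dd84fd_nt.SW.SWPsi
import Pool.Agent.Lib.MP_dd84fd_nt.SW.PNT

/-!
# CG-N-PnP: the prime number theorem in progressions for moduli with prime divisors in a fixed set

The proof of `SW.sw_psi` (file `SW/SWPsi.lean`; copy the private lemmas) with `la_strong W (B+1)` and `pnt 3`:
`|φ(q) S - X| ≤ φ(q) X exp(-(B+1) u) + X/(log X)^3 + q log X`, `u = (log X)^(1/100)`, `φ(q) ≤ q ≤ exp(B u)`: divide by `φ(q)`:
the three terms are at most `(X/φ(q)) exp(-u)`, `(X/φ(q))/(log X)^3`, `(1/φ(q)) exp(B u) log X`, each `≤ (1/3) X/(φ(q) (log X)^2)`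
for large `X`.
-/

set_option autoImplicit false

namespace Pool.CG

open Finset Pool.MP_dd84fd_nt.SW

/-- the prime powers not coprime to `r` contribute little -/
private theorem PnP_noncoprime (X r : ℕ) (hX : 1 ≤ X) (hr : 1 ≤ r) :
    ∑ n ∈ (Icc 1 X).filter (fun n => ¬ Nat.Coprime n r), ArithmeticFunction.vonMangoldt n ≤
      r * Real.log X := by
  classical
  set F := ((Icc 1 X).filter (fun n => ¬ Nat.Coprime n r)).filter (fun n => IsPrimePow n) with hF
  have h1 : ∑ n ∈ (Icc 1 X).filter (fun n => ¬ Nat.Coprime n r),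
      ArithmeticFunction.vonMangoldt n = ∑ n ∈ F, ArithmeticFunction.vonMangoldt n := by
    rw [hF, sum_filter (fun n => IsPrimePow n)]
    apply sum_congr rfl
    intro n _
    split_ifs with h
    · rfl
    · rw [ArithmeticFunction.vonMangoldt_apply, if_neg h]
  have hmap : ∀ n ∈ F, n.minFac ∈ r.primeFactors := by
    intro n hn
    rw [hF, mem_filter, mem_filter, mem_Icc] at hn
    obtain ⟨⟨⟨h2, h3⟩, h4⟩, h5⟩ := hn
    rw [isPrimePow_nat_iff] at h5
    obtain ⟨p, k, hp, hk, rfl⟩ := h5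
    rw [Nat.Prime.pow_minFac hp (by omega)]
    rw [Nat.mem_primeFactors]
    refine ⟨hp, ?_, by omega⟩
    by_contra hcon
    apply h4
    exact Nat.Coprime.pow_left k ((Nat.Prime.coprime_iff_not_dvd hp).2 hcon)
  rw [h1, ← sum_fiberwise_of_maps_to hmap]
  have h2 : ∀ p ∈ r.primeFactors, ∑ n ∈ F.filter (fun n => n.minFac = p),
      ArithmeticFunction.vonMangoldt n ≤ Real.log X := by
    intro p hp
    have hpp : p.Prime := Nat.prime_of_mem_primeFactors hp
    have h3 : ∀ n ∈ F.filter (fun n => n.minFac = p),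
        ArithmeticFunction.vonMangoldt n = Real.log p := by
      intro n hn
      rw [mem_filter, hF, mem_filter] at hn
      rw [ArithmeticFunction.vonMangoldt_apply, if_pos hn.1.2, hn.2]
    rw [sum_congr rfl h3, sum_const, nsmul_eq_mul]
    have h4 : (F.filter (fun n => n.minFac = p)) ⊆ (Icc 1 (Nat.log p X)).image (fun k => p ^ k) := by
      intro n hn
      rw [mem_filter, hF, mem_filter, mem_filter, mem_Icc] at hn
      obtain ⟨⟨⟨⟨h5, h6⟩, h7⟩, h8⟩, h9⟩ := hn
      rw [isPrimePow_nat_iff] at h8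
      obtain ⟨p', k, hp', hk, rfl⟩ := h8
      rw [Nat.Prime.pow_minFac hp' (by omega)] at h9
      subst h9
      rw [mem_image]
      refine ⟨k, ?_, rfl⟩
      rw [mem_Icc]
      exact ⟨hk, Nat.le_log_of_pow_le hp'.one_lt h6⟩
    have h5 : (F.filter (fun n => n.minFac = p)).card ≤ Nat.log p X := by
      refine (card_le_card h4).trans (card_image_le.trans ?_)
      rw [Nat.card_Icc, Nat.add_sub_cancel]
    have h6 : ((Nat.log p X : ℕ) : ℝ) * Real.log p ≤ Real.log X := by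
      rw [← Real.log_pow]
      apply Real.log_le_log
      · have := hpp.pos
        positivity
      · exact_mod_cast Nat.pow_log_le_self p (by omega)
    calc ((F.filter (fun n => n.minFac = p)).card : ℝ) * Real.log p ≤
        ((Nat.log p X : ℕ) : ℝ) * Real.log p := by
          apply mul_le_mul_of_nonneg_right _ (Real.log_natCast_nonneg p)
          exact_mod_cast h5
      _ ≤ _ := h6
  refine (sum_le_sum h2).trans ?_
  rw [sum_const, nsmul_eq_mul]
  apply mul_le_mul_of_nonneg_right _ (Real.log_natCast_nonneg X)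
  have h3 : r.primeFactors.card ≤ r := by
    have h4 : r.primeFactors ⊆ Icc 1 r := by
      intro p hp
      rw [mem_Icc]
      exact ⟨(Nat.prime_of_mem_primeFactors hp).pos,
        Nat.le_of_dvd hr (Nat.dvd_of_mem_primeFactors hp)⟩
    have h5 := card_le_card h4
    rwa [Nat.card_Icc, Nat.add_sub_cancel] at h5
  exact_mod_cast h3

/-- orthogonality -/
private theorem PnP_orth (X r c : ℕ) [NeZero r] (hc : Nat.Coprime c r) :
    (Nat.totient r : ℂ) * ((∑ n ∈ (Icc 1 X).filter (fun n => n ≡ c [MOD r]),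
      ArithmeticFunction.vonMangoldt n : ℝ) : ℂ) =
      ∑ χ : DirichletCharacter ℂ r, χ ((c : ZMod r)⁻¹) *
        ∑ n ∈ Icc 1 X, (ArithmeticFunction.vonMangoldt n : ℂ) * χ n := by
  have hu : IsUnit ((c : ℕ) : ZMod r) := (ZMod.isUnit_iff_coprime c r).2 hc
  have h1 : ∑ χ : DirichletCharacter ℂ r, χ ((c : ZMod r)⁻¹) *
        ∑ n ∈ Icc 1 X, (ArithmeticFunction.vonMangoldt n : ℂ) * χ n =
      ∑ n ∈ Icc 1 X, (ArithmeticFunction.vonMangoldt n : ℂ) *
        ∑ χ : DirichletCharacter ℂ r, χ ((c : ZMod r)⁻¹) * χ ((n : ℕ) : ZMod r) := by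
    simp only [mul_sum]
    rw [sum_comm]
    apply sum_congr rfl
    intro n _
    apply sum_congr rfl
    intro χ _
    ring
  rw [h1]
  push_cast
  rw [sum_filter, mul_sum]
  apply sum_congr rfl
  intro n _
  rw [DirichletCharacter.sum_char_inv_mul_char_eq ℂ hu]
  by_cases h : n ≡ c [MOD r]
  · rw [if_pos h, if_pos ((ZMod.natCast_eq_natCast_iff _ _ _).2 h.symm)]
    ring
  · rw [if_neg h, if_neg (fun h' => h ((ZMod.natCast_eq_natCast_iff _ _ _).1 h').symm)]
    ring

private theorem PnP_principal (X r : ℕ) :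
    ∑ n ∈ Icc 1 X, (ArithmeticFunction.vonMangoldt n : ℂ) * (1 : DirichletCharacter ℂ r) n =
      ((∑ n ∈ Icc 1 X, ArithmeticFunction.vonMangoldt n -
        ∑ n ∈ (Icc 1 X).filter (fun n => ¬ Nat.Coprime n r),
          ArithmeticFunction.vonMangoldt n : ℝ) : ℂ) := by
  classical
  rw [sum_filter, ← sum_sub_distrib]
  push_cast
  apply sum_congr rfl
  intro n _
  by_cases h : Nat.Coprime n r
  · rw [MulChar.one_apply ((ZMod.isUnit_iff_coprime n r).2 h), if_neg (not_not.2 h)]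
    push_cast
    ring
  · rw [MulChar.map_nonunit _ (fun h' => h ((ZMod.isUnit_iff_coprime n r).1 h')), if_pos h]
    ring

private theorem PnP_card (r : ℕ) [NeZero r] :
    Fintype.card (DirichletCharacter ℂ r) = Nat.totient r := by
  rw [← Nat.card_eq_fintype_card]
  exact DirichletCharacter.card_eq_totient_of_hasEnoughRootsOfUnity ℂ r

private theorem PnP_ev (B : ℕ) : ∃ X3 : ℕ, ∀ X : ℕ, X3 ≤ X → 3 ≤ Real.log X ∧
    3 * Real.log X ^ 2 ≤ Real.exp (Real.log X ^ (1 / 100 : ℝ)) ∧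
    3 * Real.log X ^ 3 * Real.exp (B * Real.log X ^ (1 / 100 : ℝ)) ≤ X := by
  have hlog : Filter.Tendsto (fun X : ℕ => Real.log X) Filter.atTop Filter.atTop :=
    Real.tendsto_log_atTop.comp tendsto_natCast_atTop_atTop
  have hu : Filter.Tendsto (fun X : ℕ => Real.log X ^ (1 / 100 : ℝ)) Filter.atTop Filter.atTop :=
    (tendsto_rpow_atTop (by norm_num)).comp hlog
  have h1 : ∀ᶠ u : ℝ in Filter.atTop, ‖u ^ 200‖ ≤ 1 / 3 * ‖Real.exp u‖ :=
    (Real.isLittleO_pow_exp_atTop (n := 200)).bound (by norm_num)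
  have h2 : ∀ᶠ u : ℝ in Filter.atTop, ‖u ^ 3‖ ≤ 1 / 24 * ‖Real.exp u‖ :=
    (Real.isLittleO_pow_exp_atTop (n := 3)).bound (by norm_num)
  have hhalf : Filter.Tendsto (fun X : ℕ => Real.log X / 2) Filter.atTop Filter.atTop :=
    hlog.atTop_div_const (by norm_num)
  have e1 := hu.eventually h1
  have e2 := hhalf.eventually h2
  have e3 := hu.eventually_ge_atTop (2 * (B : ℝ) + 1)
  have e4 := hlog.eventually_ge_atTop 3
  have e5 : ∀ᶠ X : ℕ in Filter.atTop, 1 ≤ X := Filter.eventually_ge_atTop 1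
  obtain ⟨X3, hX3⟩ := Filter.eventually_atTop.1 (e1.and (e2.and (e3.and (e4.and e5))))
  refine ⟨X3, fun X hX => ?_⟩
  obtain ⟨f1, f2, f3, f4, f5⟩ := hX3 X hX
  have hX0 : (0 : ℝ) < X := by exact_mod_cast f5
  set L := Real.log X with hL
  set u := L ^ (1 / 100 : ℝ) with hu'
  have hL0 : 0 < L := by linarith
  have huL : u ^ 100 = L := by
    rw [hu', ← Real.rpow_natCast, ← Real.rpow_mul hL0.le]
    norm_num
  have hB : (0 : ℝ) ≤ B := Nat.cast_nonneg B
  have hu1 : 1 ≤ u := by linarith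
  rw [Real.norm_of_nonneg (by positivity), Real.norm_of_nonneg (Real.exp_pos _).le] at f1 f2
  have g1 : u ^ 200 = L ^ 2 := by
    rw [← huL]; ring
  rw [g1] at f1
  have hBu : B * u ≤ L / 2 := by
    have h3 : u ^ 2 ≤ u ^ 100 := pow_le_pow_right₀ hu1 (by norm_num)
    rw [huL] at h3
    nlinarith
  refine ⟨f4, by linarith, ?_⟩
  have h4 : 3 * L ^ 3 ≤ Real.exp (L / 2) := by
    have h5 : (L / 2) ^ 3 = L ^ 3 / 8 := by ring
    rw [h5] at f2
    linarith
  have h6 : Real.exp (B * u) ≤ Real.exp (L / 2) := Real.exp_le_exp.2 hBu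
  calc 3 * L ^ 3 * Real.exp (B * u) ≤ Real.exp (L / 2) * Real.exp (L / 2) :=
        mul_le_mul h4 h6 (Real.exp_pos _).le (Real.exp_pos _).le
    _ = Real.exp L := by rw [← Real.exp_add]; ring_nf
    _ = X := Real.exp_log hX0

theorem psi_strong (W B : ℕ) (hW : 1 ≤ W) : ∃ X0 : ℕ, ∀ X : ℕ, X0 ≤ X →
    ∀ q c : ℕ, 1 ≤ q → (∀ p : ℕ, p.Prime → p ∣ q → p ∣ W) →
    (q : ℝ) ≤ Real.exp (B * Real.log X ^ (1 / 100 : ℝ)) → Nat.Coprime c q →
    |∑ n ∈ (Icc 1 X).filter (fun n => n ≡ c [MOD q]), ArithmeticFunction.vonMangoldt n -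
      X / (Nat.totient q : ℝ)| ≤ X / ((Nat.totient q : ℝ) * Real.log X ^ 2) := by
  classical
  obtain ⟨X1, hX1⟩ := la_strong W (B + 1) hW
  obtain ⟨X2, hX2⟩ := pnt 3
  obtain ⟨X3, hX3⟩ := PnP_ev B
  refine ⟨max (max X1 X2) (max X3 1), ?_⟩
  intro X hX r c hr hrW hrL hc
  have hXX1 : X1 ≤ X := ((le_max_left _ _).trans (le_max_left _ _)).trans hX
  have hXX2 : X2 ≤ X := ((le_max_right _ _).trans (le_max_left _ _)).trans hX
  have hXX3 : X3 ≤ X := ((le_max_left _ _).trans (le_max_right _ _)).trans hX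
  have hXone : 1 ≤ X := ((le_max_right _ _).trans (le_max_right _ _)).trans hX
  obtain ⟨hL3, hLu, hLX⟩ := hX3 X hXX3
  have hX0 : (0 : ℝ) < X := by exact_mod_cast hXone
  set L := Real.log X with hL
  have hL0 : 0 < L := by linarith
  set u := L ^ (1 / 100 : ℝ) with hu
  have hu0 : 0 ≤ u := Real.rpow_nonneg hL0.le _
  have hne : NeZero r := ⟨by omega⟩
  have hphi1 : 1 ≤ Nat.totient r := Nat.totient_pos.2 hr
  have hphi : (1 : ℝ) ≤ Nat.totient r := by exact_mod_cast hphi1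
  have hphi0 : (0 : ℝ) < Nat.totient r := by linarith
  have hphir : (Nat.totient r : ℝ) ≤ r := by exact_mod_cast Nat.totient_le r
  set Sx := ∑ n ∈ (Icc 1 X).filter (fun n => n ≡ c [MOD r]), ArithmeticFunction.vonMangoldt n
    with hSx
  have horth := PnP_orth X r c hc
  rw [← hSx] at horth
  set N0 := ∑ n ∈ (Icc 1 X).filter (fun n => ¬ Nat.Coprime n r),
    ArithmeticFunction.vonMangoldt n with hN0
  have hN0a : N0 ≤ r * L := PnP_noncoprime X r hXone hr
  have hN0b : 0 ≤ N0 := sum_nonneg (fun _ _ => ArithmeticFunction.vonMangoldt_nonneg)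
  set Ψ := ∑ n ∈ Icc 1 X, ArithmeticFunction.vonMangoldt n with hΨ
  have hpnt : |Ψ - X| ≤ X / L ^ 3 := hX2 X hXX2
  -- split the characters
  have hcu : IsUnit ((c : ZMod r)⁻¹) := by
    have hu : IsUnit ((c : ℕ) : ZMod r) := (ZMod.isUnit_iff_coprime c r).2 hc
    obtain ⟨u, hu'⟩ := hu
    rw [← hu', ZMod.inv_coe_unit]
    exact u⁻¹.isUnit
  rw [← add_sum_erase _ _ (mem_univ (1 : DirichletCharacter ℂ r)), PnP_principal,
    MulChar.one_apply hcu, one_mul, ← hΨ, ← hN0, Complex.ofReal_sub] at horth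
  have hrL' : (r : ℝ) ≤ Real.exp (((B + 1 : ℕ) : ℝ) * u) := by
    refine hrL.trans (Real.exp_le_exp.2 ?_)
    push_cast
    nlinarith
  have hrest : ‖∑ χ ∈ (univ : Finset (DirichletCharacter ℂ r)).erase 1, χ ((c : ZMod r)⁻¹) *
      ∑ n ∈ Icc 1 X, (ArithmeticFunction.vonMangoldt n : ℂ) * χ n‖ ≤
      Nat.totient r * (X * Real.exp (-(((B + 1 : ℕ) : ℝ) * u))) := by
    calc _ ≤ ∑ χ ∈ (univ : Finset (DirichletCharacter ℂ r)).erase 1,
          X * Real.exp (-(((B + 1 : ℕ) : ℝ) * u)) := by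
          refine (norm_sum_le _ _).trans (sum_le_sum (fun χ hχ => ?_))
          rw [norm_mul]
          have h1 := hX1 X hXX1 r χ hr hrW hrL' (ne_of_mem_erase hχ)
          have h2 := DirichletCharacter.norm_le_one χ ((c : ZMod r)⁻¹)
          calc _ ≤ 1 * (X * Real.exp (-(((B + 1 : ℕ) : ℝ) * u))) :=
                mul_le_mul h2 h1 (norm_nonneg _) zero_le_one
            _ = _ := one_mul _
      _ = (((univ : Finset (DirichletCharacter ℂ r)).erase 1).card : ℝ) *
          (X * Real.exp (-(((B + 1 : ℕ) : ℝ) * u))) := by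
          rw [sum_const, nsmul_eq_mul]
      _ ≤ _ := by
          apply mul_le_mul_of_nonneg_right _ (by positivity)
          have h1 : ((univ : Finset (DirichletCharacter ℂ r)).erase 1).card ≤ Nat.totient r := by
            rw [← PnP_card r, ← card_univ]
            exact card_erase_le
          exact_mod_cast h1
  have hmain : |Nat.totient r * Sx - X| ≤
      Nat.totient r * (X * Real.exp (-(((B + 1 : ℕ) : ℝ) * u))) + X / L ^ 3 + r * L := by
    have h1 : ‖((Nat.totient r * Sx - (Ψ - N0) : ℝ) : ℂ)‖ ≤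
        Nat.totient r * (X * Real.exp (-(((B + 1 : ℕ) : ℝ) * u))) := by
      have h2 : ((Nat.totient r * Sx - (Ψ - N0) : ℝ) : ℂ) =
          ∑ χ ∈ (univ : Finset (DirichletCharacter ℂ r)).erase 1, χ ((c : ZMod r)⁻¹) *
            ∑ n ∈ Icc 1 X, (ArithmeticFunction.vonMangoldt n : ℂ) * χ n := by
        rw [Complex.ofReal_sub, Complex.ofReal_mul, Complex.ofReal_natCast, Complex.ofReal_sub,
          horth]
        ring
      rw [h2]
      exact hrest
    rw [Complex.norm_real, Real.norm_eq_abs] at h1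
    rw [abs_le] at h1 hpnt ⊢
    constructor <;> linarith [h1.1, h1.2, hpnt.1, hpnt.2]
  -- the three terms
  have t1 : Nat.totient r * (X * Real.exp (-(((B + 1 : ℕ) : ℝ) * u))) ≤ 1 / 3 * (X / L ^ 2) := by
    have h1 : Real.exp (-(((B + 1 : ℕ) : ℝ) * u)) = (Real.exp (B * u))⁻¹ * (Real.exp u)⁻¹ := by
      rw [← Real.exp_neg, ← Real.exp_neg, ← Real.exp_add]
      congr 1
      push_cast
      ring
    have h2 : (Nat.totient r : ℝ) * (Real.exp (B * u))⁻¹ ≤ 1 := by
      rw [← div_eq_mul_inv, div_le_one (Real.exp_pos _)]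
      exact hphir.trans hrL
    have h3 : (Real.exp u)⁻¹ ≤ 1 / 3 * (1 / L ^ 2) := by
      rw [inv_eq_one_div, div_le_iff₀ (Real.exp_pos _)]
      have h4 : 1 / 3 * (1 / L ^ 2) * Real.exp u ≥ 1 / 3 * (1 / L ^ 2) * (3 * L ^ 2) :=
        mul_le_mul_of_nonneg_left hLu (by positivity)
      have h5 : 1 / 3 * (1 / L ^ 2) * (3 * L ^ 2) = 1 := by
        field_simp
      linarith
    rw [h1]
    calc (Nat.totient r : ℝ) * (X * ((Real.exp (B * u))⁻¹ * (Real.exp u)⁻¹)) =
        ((Nat.totient r : ℝ) * (Real.exp (B * u))⁻¹) * (X * (Real.exp u)⁻¹) := by ring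
      _ ≤ 1 * (X * (1 / 3 * (1 / L ^ 2))) := by
          apply mul_le_mul h2 (mul_le_mul_of_nonneg_left h3 hX0.le) (by positivity) (by norm_num)
      _ = _ := by ring
  have t2 : X / L ^ 3 ≤ 1 / 3 * (X / L ^ 2) := by
    rw [pow_succ, ← div_div]
    have h2 : 0 ≤ X / L ^ 2 := by positivity
    have h3 : X / L ^ 2 / L ≤ X / L ^ 2 / 3 := div_le_div_of_nonneg_left h2 (by norm_num) hL3
    linarith
  have t3 : (r : ℝ) * L ≤ 1 / 3 * (X / L ^ 2) := by
    rw [← mul_div_assoc, le_div_iff₀ (by positivity)]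
    have h2 : (r : ℝ) * L ^ 3 ≤ Real.exp (B * u) * L ^ 3 :=
      mul_le_mul_of_nonneg_right hrL (by positivity)
    nlinarith
  have hfin : Sx - X / Nat.totient r = (Nat.totient r * Sx - X) / Nat.totient r := by
    field_simp
  rw [hfin, abs_div, abs_of_pos hphi0, mul_comm (Nat.totient r : ℝ) (L ^ 2), ← div_div]
  apply div_le_div_of_nonneg_right _ hphi0.le
  linarith

end Pool.CG
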