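import Pool.Agent.Lib.MP_c77da8_nt.CG.Defs

/-!
# CG-SDefs: the Selberg weight and the arithmetic objects of half N
Paper: `/team-store/CG_paper.md`, sections 2-4.
-/

set_option autoImplicit false

namespace Pool.CG

open Finset

noncomputable section

section Sieve

variable {P : Type} [Fintype P] [DecidableEq P]

/-- product of a set of primes -/
def nm (v : P → ℕ) (a : Finset P) : ℕ := ∏ p ∈ a, v p

/-- `x_p = 1/(p - 1)` -/
def xw (v : P → ℕ) (p : P) : ℝ := 1 / ((v p : ℝ) - 1)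

/-- `V = ∑_{nm a ≤ R} ∏_{p ∈ a} 1/(p-1)` -/
def VV (v : P → ℕ) (R : ℕ) : ℝ :=
  ∑ a ∈ univ.filter (fun a : Finset P => nm v a ≤ R), ∏ p ∈ a, xw v p

/-- the Selberg weight as a function of the set `ξ` of the primes which divide the number -/
def Lam (v : P → ℕ) (R : ℕ) (ξ : Finset P) : ℝ :=
  (∑ a ∈ univ.filter (fun a : Finset P => nm v a ≤ R), ∏ p ∈ a, if p ∈ ξ then (-1 : ℝ) else xw v p) / VV v R

/-- the coefficients of `Lam^2` -/
def tau (v : P → ℕ) (R : ℕ) (D : Finset P) : ℝ :=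
  ∑ ξ ∈ D.powerset, (-1 : ℝ) ^ (D \ ξ).card * Lam v R ξ ^ 2

end Sieve

/-! ### The arithmetic side -/

/-- the primes in `(w, R]` -/
def Pr (w R : ℕ) : Finset ℕ := (Icc 1 R).filter fun p => p.Prime ∧ w < p

/-- the values of the primes -/
def vp (w R : ℕ) (p : {p // p ∈ Pr w R}) : ℕ := p.1

/-- the primes in `(w, R]` which divide `a` -/
def xi (w R a : ℕ) : Finset {p // p ∈ Pr w R} := univ.filter fun p => p.1 ∣ a

/-- the majorant at the number `a` -/
def nuw (w R a : ℕ) : ℝ := VV (vp w R) R * Lam (vp w R) R (xi w R a) ^ 2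

/-- the local densities: `1/p` if `B` is not empty and all `A i`, `i ∈ B`, are congruent modulo `p` -/
def rho {I : Type} (A : I → ℕ) (p : ℕ) (B : Finset I) : ℝ :=
  open Classical in
  if B = ∅ then 1 else if ∀ i ∈ B, ∀ j ∈ B, A i ≡ A j [MOD p] then 1 / (p : ℝ) else 0

/-- the sum of `1/p` over the bad primes: `w < p ≤ R` and two of the `A i` are congruent modulo `p` -/
def bad {I : Type} (A : I → ℕ) (w R : ℕ) : ℝ :=
  open Classical in
  ∑ p ∈ (Pr w R).filter (fun p => ∃ i j, i ≠ j ∧ A i ≡ A j [MOD p]), 1 / (p : ℝ)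

/-- product of the primes `≤ w` -/
def Wp (w : ℕ) : ℕ := ∏ p ∈ (Icc 1 w).filter Nat.Prime, p

/-- the multiplier `m(z) = ∏_l q_l ^ (M z_0 + z_(l+1))` -/
def mz {r : ℕ} (q : Fin (r + 1) → ℕ) (M : ℕ) (z : Fin (r + 2) → ZMod M) : ℕ :=
  ∏ l : Fin (r + 1), q l ^ (M * (z 0).val + (z l.succ).val)

/-- the number `W m(z) n - 1` -/
def La {r : ℕ} (q : Fin (r + 1) → ℕ) (M w n : ℕ) (z : Fin (r + 2) → ZMod M) : ℕ :=
  Wp w * mz q M z * n - 1

/-- the majorant on `(ℤ/M)^(r+2)` for fixed `n` -/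
def nu {r : ℕ} (q : Fin (r + 1) → ℕ) (M w R n : ℕ) (z : Fin (r + 2) → ZMod M) : ℝ :=
  nuw w R (La q M w n z)

/-- the weighted primes on `(ℤ/M)^(r+2)` for fixed `n`, in the box `z_i < M/2` -/
def fw {r : ℕ} (q : Fin (r + 1) → ℕ) (M w R n : ℕ) (z : Fin (r + 2) → ZMod M) : ℝ :=
  open Classical in
  if (La q M w n z).Prime ∧ ∀ i, 2 * (z i).val < M then VV (vp w R) R else 0

/-- the level of the sieve -/
def Rt (t N : ℕ) : ℕ := ⌊(N : ℝ) ^ (1 / (16 * (t : ℝ)))⌋₊

/-- the condition on two random points `y ω`, `y' ω` of `(ℤ/M)^(r+2)`: they rarely coincide, and the distribution of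
`(y, y')` is invariant under the translations of `y` in the direction of the coordinate `1` -/
def PairOK {r M : ℕ} [NeZero M] {Ω : Type} [Fintype Ω] (y y' : Ω → Fin (r + 2) → ZMod M) : Prop :=
  open Classical in
  ((univ.filter fun ω => y ω = y' ω).card : ℝ) * (M : ℝ) ^ (r + 1) ≤ Fintype.card Ω ∧
    ∀ (c : ZMod M) (F : (Fin (r + 2) → ZMod M) → (Fin (r + 2) → ZMod M) → ℝ),
      av (fun ω => F (y ω + Pi.single 1 c) (y' ω)) = av (fun ω => F (y ω) (y' ω))

end

end Pool.CG
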