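import Pool.Agent.Lib.MP_c77da8_nt.CG.Swap

/-!
# CG-Step: one step of the Gowers-Cauchy-Schwarz inequality (paper 1.4)

PROOF.  `swap_cs` with `A = ∏_{T ⊆ S} a_i(mix T x x', y)`, `A' = ∏_{T ⊆ S} w_i(mix T x x', y)` (`|A| ≤ A'` by
`Finset.abs_prod` and `Finset.prod_le_prod`) and `B` = the rest, i.e.
`B = ∏_{T ⊆ S} F(mix T ..) * ∏_{l ∈ S} ∏_{T ⊆ S - l} w_l(mix T ..) * ∏_{l ∈ (S0 - S) - i} ∏_{T ⊆ S} a_l(mix T ..)`.
All sets `T` in `A, A', B` do not contain `i`, so `B` does not depend on `x'_i` (`mix_update_right_not_mem`), and `A, A'` do not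
depend on `x_i, x'_i` (`Ind.mix_left`, `Ind.mix_right`).  Since `i ∉ T`: `mix T (x[i:=x'_i]) x' = mix (insert i T) x x'`
(`mix_double`), and the subsets of `insert i S` are the `T` and the `insert i T`, `T ⊆ S`
(`Finset.prod_powerset_insert`, or `Finset.powerset_insert` + `Finset.prod_union` + `prod_image`), hence
`B(x,x',y) B(x[i:=x'_i],x',y)` = product over the subsets of `insert i S` of `F`, times
`∏_{l ∈ S} ∏_{T ⊆ (insert i S) - l} w_l` (use `(insert i S).erase l = insert i (S.erase l)` for `l ∈ S`), times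
`∏_{l ∈ S0 - insert i S} ∏_{T ⊆ insert i S} a_l`.  Together with `A'` (= the factor `l = i` of the second product, as
`(insert i S).erase i = S`) this is the integrand of `Phi F a w S0 (insert i S)`.
-/

set_option autoImplicit false

namespace Pool.CG

open Finset

variable {K X Y : Type} [Fintype K] [DecidableEq K] [Fintype X] [Fintype Y]

/-- the integrand of `Phi` -/
noncomputable def phiFun (F : (K → X) → Y → ℝ) (a w : K → (K → X) → Y → ℝ) (S0 S : Finset K) (x x' : K → X) (y : Y) : ℝ :=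
  (∏ T ∈ S.powerset, F (mix T x x') y) *
    (∏ l ∈ S, ∏ T ∈ (S.erase l).powerset, w l (mix T x x') y) *
    ∏ l ∈ S0 \ S, ∏ T ∈ S.powerset, a l (mix T x x') y

noncomputable def Phi (F : (K → X) → Y → ℝ) (a w : K → (K → X) → Y → ℝ) (S0 S : Finset K) : ℝ :=
  av (fun z : (K → X) × (K → X) × Y => phiFun F a w S0 S z.1 z.2.1 z.2.2)

theorem phi_step (F : (K → X) → Y → ℝ) (a w : K → (K → X) → Y → ℝ) (S0 S : Finset K) (i : K) (hi0 : i ∈ S0)
    (hiS : i ∉ S) (ha : ∀ x y, |a i x y| ≤ w i x y) (hai : ∀ y, Ind i (fun x => a i x y))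
    (hwi : ∀ y, Ind i (fun x => w i x y)) :
    (Phi F a w S0 S) ^ 2 ≤
      av (fun z : (K → X) × (K → X) × Y => ∏ T ∈ S.powerset, w i (mix T z.1 z.2.1) z.2.2) *
        Phi F a w S0 (insert i S) := by
  classical
  have hT : ∀ T ∈ S.powerset, i ∉ T := fun T hT h => hiS (Finset.mem_powerset.1 hT h)
  have hTe : ∀ l, ∀ T ∈ (S.erase l).powerset, i ∉ T := fun l T hT h =>
    hiS (Finset.mem_of_mem_erase (Finset.mem_powerset.1 hT h))
  have himem : i ∈ S0 \ S := Finset.mem_sdiff.2 ⟨hi0, hiS⟩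
  -- the three functions
  have key := swap_cs (Y := Y) i
    (fun x x' y => ∏ T ∈ S.powerset, a i (mix T x x') y)
    (fun x x' y => ∏ T ∈ S.powerset, w i (mix T x x') y)
    (fun x x' y => (∏ T ∈ S.powerset, F (mix T x x') y) *
      (∏ l ∈ S, ∏ T ∈ (S.erase l).powerset, w l (mix T x x') y) *
      ∏ l ∈ (S0 \ S).erase i, ∏ T ∈ S.powerset, a l (mix T x x') y)
    (fun x x' y => by
      rw [Finset.abs_prod]
      exact Finset.prod_le_prod (fun T _ => abs_nonneg _) (fun T _ => ha _ y))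
    (fun x x' y v => Finset.prod_congr rfl fun T _ => (hai y).mix_left T x x' v)
    (fun x x' y v => Finset.prod_congr rfl fun T _ => (hwi y).mix_left T x x' v)
    (fun x x' y v => Finset.prod_congr rfl fun T _ => (hwi y).mix_right T x x' v)
    (fun x x' y v => by
      have e1 : ∏ T ∈ S.powerset, F (mix T x (Function.update x' i v)) y =
          ∏ T ∈ S.powerset, F (mix T x x') y :=
        Finset.prod_congr rfl fun T h => by rw [mix_update_right_not_mem (hT T h)]
      have e2 : ∏ l ∈ S, ∏ T ∈ (S.erase l).powerset, w l (mix T x (Function.update x' i v)) y =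
          ∏ l ∈ S, ∏ T ∈ (S.erase l).powerset, w l (mix T x x') y :=
        Finset.prod_congr rfl fun l _ => Finset.prod_congr rfl fun T h => by
          rw [mix_update_right_not_mem (hTe l T h)]
      have e3 : ∏ l ∈ (S0 \ S).erase i, ∏ T ∈ S.powerset,
          a l (mix T x (Function.update x' i v)) y =
          ∏ l ∈ (S0 \ S).erase i, ∏ T ∈ S.powerset, a l (mix T x x') y :=
        Finset.prod_congr rfl fun l _ => Finset.prod_congr rfl fun T h => by
          rw [mix_update_right_not_mem (hT T h)]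
      rw [e1, e2, e3])
  have hleft : Phi F a w S0 S = av (fun z : (K → X) × (K → X) × Y =>
      (∏ T ∈ S.powerset, a i (mix T z.1 z.2.1) z.2.2) *
      ((∏ T ∈ S.powerset, F (mix T z.1 z.2.1) z.2.2) *
      (∏ l ∈ S, ∏ T ∈ (S.erase l).powerset, w l (mix T z.1 z.2.1) z.2.2) *
      ∏ l ∈ (S0 \ S).erase i, ∏ T ∈ S.powerset, a l (mix T z.1 z.2.1) z.2.2)) := by
    unfold Phi
    refine av_congr fun z => ?_
    unfold phiFun
    rw [← Finset.mul_prod_erase (S0 \ S)
      (fun l => ∏ T ∈ S.powerset, a l (mix T z.1 z.2.1) z.2.2) himem]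
    ring
  have hright : Phi F a w S0 (insert i S) = av (fun z : (K → X) × (K → X) × Y =>
      (∏ T ∈ S.powerset, w i (mix T z.1 z.2.1) z.2.2) *
      (((∏ T ∈ S.powerset, F (mix T z.1 z.2.1) z.2.2) *
      (∏ l ∈ S, ∏ T ∈ (S.erase l).powerset, w l (mix T z.1 z.2.1) z.2.2) *
      ∏ l ∈ (S0 \ S).erase i, ∏ T ∈ S.powerset, a l (mix T z.1 z.2.1) z.2.2) *
      ((∏ T ∈ S.powerset, F (mix T (Function.update z.1 i (z.2.1 i)) z.2.1) z.2.2) *
      (∏ l ∈ S, ∏ T ∈ (S.erase l).powerset,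
        w l (mix T (Function.update z.1 i (z.2.1 i)) z.2.1) z.2.2) *
      ∏ l ∈ (S0 \ S).erase i, ∏ T ∈ S.powerset,
        a l (mix T (Function.update z.1 i (z.2.1 i)) z.2.1) z.2.2))) := by
    unfold Phi
    refine av_congr fun z => ?_
    unfold phiFun
    have e1 : ∏ T ∈ S.powerset, F (mix T (Function.update z.1 i (z.2.1 i)) z.2.1) z.2.2 =
        ∏ T ∈ S.powerset, F (mix (insert i T) z.1 z.2.1) z.2.2 :=
      Finset.prod_congr rfl fun T h => by rw [mix_double (hT T h)]
    have e2 : ∏ l ∈ S, ∏ T ∈ (S.erase l).powerset,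
        w l (mix T (Function.update z.1 i (z.2.1 i)) z.2.1) z.2.2 =
        ∏ l ∈ S, ∏ T ∈ (S.erase l).powerset, w l (mix (insert i T) z.1 z.2.1) z.2.2 :=
      Finset.prod_congr rfl fun l _ => Finset.prod_congr rfl fun T h => by
        rw [mix_double (hTe l T h)]
    have e3 : ∏ l ∈ (S0 \ S).erase i, ∏ T ∈ S.powerset,
        a l (mix T (Function.update z.1 i (z.2.1 i)) z.2.1) z.2.2 =
        ∏ l ∈ (S0 \ S).erase i, ∏ T ∈ S.powerset, a l (mix (insert i T) z.1 z.2.1) z.2.2 :=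
      Finset.prod_congr rfl fun l _ => Finset.prod_congr rfl fun T h => by
        rw [mix_double (hT T h)]
    have f1 : ∏ T ∈ (insert i S).powerset, F (mix T z.1 z.2.1) z.2.2 =
        (∏ T ∈ S.powerset, F (mix T z.1 z.2.1) z.2.2) *
          ∏ T ∈ S.powerset, F (mix (insert i T) z.1 z.2.1) z.2.2 :=
      Finset.prod_powerset_insert hiS (fun T => F (mix T z.1 z.2.1) z.2.2)
    have f2 : ∏ l ∈ insert i S, ∏ T ∈ ((insert i S).erase l).powerset,
        w l (mix T z.1 z.2.1) z.2.2 =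
        (∏ T ∈ S.powerset, w i (mix T z.1 z.2.1) z.2.2) *
        ((∏ l ∈ S, ∏ T ∈ (S.erase l).powerset, w l (mix T z.1 z.2.1) z.2.2) *
        ∏ l ∈ S, ∏ T ∈ (S.erase l).powerset, w l (mix (insert i T) z.1 z.2.1) z.2.2) := by
      rw [Finset.prod_insert hiS, Finset.erase_insert hiS, ← Finset.prod_mul_distrib]
      congr 1
      refine Finset.prod_congr rfl fun l hl => ?_
      have hne : i ≠ l := fun h => hiS (h ▸ hl)
      rw [Finset.erase_insert_of_ne hne]
      have hni : i ∉ S.erase l := fun h => hiS (Finset.mem_of_mem_erase h)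
      exact Finset.prod_powerset_insert hni (fun T => w l (mix T z.1 z.2.1) z.2.2)
    have f3 : ∏ l ∈ S0 \ insert i S, ∏ T ∈ (insert i S).powerset, a l (mix T z.1 z.2.1) z.2.2 =
        (∏ l ∈ (S0 \ S).erase i, ∏ T ∈ S.powerset, a l (mix T z.1 z.2.1) z.2.2) *
        ∏ l ∈ (S0 \ S).erase i, ∏ T ∈ S.powerset, a l (mix (insert i T) z.1 z.2.1) z.2.2 := by
      rw [Finset.sdiff_insert, ← Finset.prod_mul_distrib]
      refine Finset.prod_congr rfl fun l _ => ?_
      exact Finset.prod_powerset_insert hiS (fun T => a l (mix T z.1 z.2.1) z.2.2)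
    rw [e1, e2, e3, f1, f2, f3]
    ring
  rw [hleft, hright]
  exact key

end Pool.CG
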