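import Pool.Agent.Lib.MP_c77da8_nt.CG.GCS
import Pool.Agent.Lib.MP_c77da8_nt.CG.LFw

/-!
# CG-Strong: the strong linear forms condition (paper 1.5)

PROOF.  `n = |K| - 1`, `η` with `η ≤ 1` and `2^(2^n) · 2^(2^|K|) · η ≤ τ^(2^n)` (so that also `η ≤ τ` .. if needed).
Apply `gcs` with `Y = X`, `S0 = univ.erase j`, `F x y = ν_j(x) - 1`, `a_i(x,y) = a_i(x) b_i(x[j := y])`,
`w_i = wAB ν A B j i`: `|a_i(x,y)| ≤ w_i(x,y)`; both do not depend on `x_i` for `i ≠ j` (`Ind.update`); the averages of the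
products of the `w_i` are `≤ 1 + η ≤ 2` (`lf_w`).  `Phi F a w S0 ∅` is the average in question (`mix_empty`; the variable `x'`
is a dummy: `av_prod`, `av_snd`-type lemma; if `X` is empty everything is `0`).  `Phi F a w S0 S0` is the average in `lf_phi`
(`S0 \ S0 = ∅`).  So `|..|^(2^n) ≤ 2^(2^n) · 2^(2^|K|) η ≤ τ^(2^n)`, and `pow_le_pow_left` gives the claim.
-/

set_option autoImplicit false

namespace Pool.CG

open Finset

theorem strong (K : Type) [Fintype K] [DecidableEq K] (τ : ℝ) (hτ : 0 < τ) : ∃ η : ℝ, 0 < η ∧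
    ∀ (X : Type) [Fintype X] (ν : K → (K → X) → ℝ), (∀ i x, 0 ≤ ν i x) → (∀ i, Ind i (ν i)) → LF η ν →
    ∀ (j : K) (A B : Finset K) (a b : K → (K → X) → ℝ), (∀ i, Ind i (a i)) → (∀ i, Ind i (b i)) →
      (∀ i x, |a i x| ≤ nuA ν A i x) → (∀ i x, |b i x| ≤ nuA ν B i x) →
      |av (fun z : (K → X) × X =>
        (ν j z.1 - 1) * ∏ i ∈ univ.erase j, (a i z.1 * b i (Function.update z.1 j z.2)))| ≤ τ := by
  set n : ℕ := Fintype.card K - 1 with hn
  set C : ℝ := 2 ^ (2 ^ n) * 2 ^ (2 ^ Fintype.card K) with hC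
  have hC0 : 0 < C := by positivity
  refine ⟨min 1 (τ ^ (2 ^ n) / C), lt_min one_pos (by positivity), ?_⟩
  set η : ℝ := min 1 (τ ^ (2 ^ n) / C) with hη
  have hη1 : η ≤ 1 := min_le_left _ _
  have hη2 : C * η ≤ τ ^ (2 ^ n) := by
    have h := min_le_right (1 : ℝ) (τ ^ (2 ^ n) / C)
    rw [← hη, le_div_iff₀ hC0] at h
    linarith
  intro X _ ν hν hInd hLF j A B a b ha hb haA hbB
  rcases isEmpty_or_nonempty X with hX | hX
  · have : IsEmpty (K → X) := ⟨fun x => hX.elim (x j)⟩
    simp only [av, univ_eq_empty, sum_empty, zero_div, abs_zero]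
    exact hτ.le
  have hcard : (univ.erase j : Finset K).card = n := by
    rw [card_erase_of_mem (mem_univ j), card_univ]
  have hne : ∀ i ∈ (univ.erase j : Finset K), i ≠ j := fun i hi => (mem_erase.1 hi).1
  have hgcs := gcs (K := K) (X := X) (Y := X) (fun x _ => ν j x - 1)
    (fun i x y => a i x * b i (Function.update x j y)) (wAB ν A B j) (univ.erase j)
    (fun i _ x y => by
      rw [abs_mul]
      exact mul_le_mul (haA i x) (hbB i _) (abs_nonneg _) (nuA_nonneg hν A i x))
    (fun i hi y => (ha i).mul (Ind.update (hne i hi) (hb i) y))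
    (fun i hi y => (nuA_ind hInd A i).mul (Ind.update (hne i hi) (nuA_ind hInd B i) y))
    (fun i hi S hS => (lf_w η ν hLF hInd j i (hne i hi) A B S hS).trans (by linarith))
  have h1 : Phi (K := K) (X := X) (Y := X) (fun x _ => ν j x - 1)
      (fun i x y => a i x * b i (Function.update x j y)) (wAB ν A B j) (univ.erase j) ∅ =
      av (fun z : (K → X) × X =>
        (ν j z.1 - 1) * ∏ i ∈ univ.erase j, (a i z.1 * b i (Function.update z.1 j z.2))) := by
    unfold Phi phiFun
    simp only [powerset_empty, prod_singleton, mix_empty, prod_empty, mul_one, sdiff_empty]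
    rw [av_prod, av_prod]
    refine av_congr fun x => ?_
    exact av_snd (Ω := K → X) (fun y : X =>
      (ν j x - 1) * ∏ i ∈ univ.erase j, (a i x * b i (Function.update x j y)))
  have h2 : |Phi (K := K) (X := X) (Y := X) (fun x _ => ν j x - 1)
      (fun i x y => a i x * b i (Function.update x j y)) (wAB ν A B j) (univ.erase j)
        (univ.erase j)| ≤ 2 ^ (2 ^ Fintype.card K) * η := by
    unfold Phi phiFun
    simp only [sdiff_self, Finset.bot_eq_empty, prod_empty, mul_one]
    exact lf_phi η ν hLF hInd j A B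
  rw [h1, hcard] at hgcs
  have h3 : |av (fun z : (K → X) × X =>
        (ν j z.1 - 1) * ∏ i ∈ univ.erase j, (a i z.1 * b i (Function.update z.1 j z.2)))| ^ (2 ^ n)
      ≤ τ ^ (2 ^ n) := by
    refine hgcs.trans (le_trans ?_ hη2)
    rw [hC, mul_assoc]
    exact mul_le_mul_of_nonneg_left h2 (by positivity)
  exact (pow_le_pow_iff_left₀ (abs_nonneg _) hτ.le (by positivity)).1 h3

end Pool.CG
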