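import Pool.Agent.Lib.MP_c77da8_nt.CG.Basic

/-!
# CG-Swap: the Cauchy-Schwarz swap lemma (paper 1.3)

PROOF.  Put `PB(x,x',y) = av_u B(x[i:=u], x', y)`.  `A` does not depend on `x_i`, so (replace `x_i` by an independent
variable, `av_update` after `av_prod`) `av A B = av A·PB`.  `|av A·PB| ≤ av A'·|PB|`, and `(av A'|PB|)² ≤ av A' · av A' (PB)²`
(`av_weight_cs`).  Finally `(PB)² = av_u av_u' B(x[i:=u],x',y) B(x[i:=u'],x',y)`, and on the right hand side of the claim
replace `x_i` by `u` and `x'_i` by `u'` (two uses of `av_update`; `A'` does not depend on `x_i, x'_i`, `B` not on `x'_i`):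
`av A' B(x,x',y) B(x[i:=x'_i],x',y) = av_{x,x',y} A' av_u av_u' B(x[i:=u],x',y) B(x[i:=u'],x',y)`
(`Function.update_idem`, `Function.update_self`).  So the two sides agree.
-/

set_option autoImplicit false

namespace Pool.CG

open Finset

variable {K X Y : Type} [Fintype K] [DecidableEq K] [Fintype X] [Fintype Y]

theorem swap_cs (i : K) (A A' B : (K → X) → (K → X) → Y → ℝ)
    (hA' : ∀ x x' y, |A x x' y| ≤ A' x x' y)
    (hA1 : ∀ x x' y v, A (Function.update x i v) x' y = A x x' y)
    (hA'1 : ∀ x x' y v, A' (Function.update x i v) x' y = A' x x' y)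
    (hA'2 : ∀ x x' y v, A' x (Function.update x' i v) y = A' x x' y)
    (hB : ∀ x x' y v, B x (Function.update x' i v) y = B x x' y) :
    (av (fun z : (K → X) × (K → X) × Y => A z.1 z.2.1 z.2.2 * B z.1 z.2.1 z.2.2)) ^ 2 ≤
      av (fun z : (K → X) × (K → X) × Y => A' z.1 z.2.1 z.2.2) *
        av (fun z : (K → X) × (K → X) × Y => A' z.1 z.2.1 z.2.2 *
          (B z.1 z.2.1 z.2.2 * B (Function.update z.1 i (z.2.1 i)) z.2.1 z.2.2)) := by
  set PB : (K → X) → (K → X) → Y → ℝ := fun x x' y =>
    av (fun u : X => B (Function.update x i u) x' y) with hPB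
  have hs2 : ∀ G : (K → X) × (K → X) × Y → ℝ,
      av G = av (fun w : (K → X) × Y => av (fun x : K → X => G (x, w))) := fun G => by
    rw [av_prod, av_comm]
  have hs3 : ∀ G : (K → X) × (K → X) × Y → ℝ,
      av G = av (fun y : Y => av (fun x' : K → X => av (fun x : K → X => G (x, x', y)))) :=
    fun G => by rw [hs2, av_prod, av_comm]
  have h1 : av (fun z : (K → X) × (K → X) × Y => A z.1 z.2.1 z.2.2 * B z.1 z.2.1 z.2.2) =
      av (fun z : (K → X) × (K → X) × Y => A z.1 z.2.1 z.2.2 * PB z.1 z.2.1 z.2.2) := by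
    rw [hs2 (fun z => A z.1 z.2.1 z.2.2 * B z.1 z.2.1 z.2.2),
      hs2 (fun z => A z.1 z.2.1 z.2.2 * PB z.1 z.2.1 z.2.2)]
    refine av_congr fun w => ?_
    rw [av_update i (fun x => A x w.1 w.2 * B x w.1 w.2)]
    refine av_congr fun x => ?_
    change av (fun u : X => A (Function.update x i u) w.1 w.2 * B (Function.update x i u) w.1 w.2) =
      A x w.1 w.2 * av (fun u : X => B (Function.update x i u) w.1 w.2)
    rw [← av_const_mul]
    refine av_congr fun u => ?_
    rw [hA1]
  have h2 : av (fun z : (K → X) × (K → X) × Y => A' z.1 z.2.1 z.2.2 * (PB z.1 z.2.1 z.2.2) ^ 2) =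
      av (fun z : (K → X) × (K → X) × Y => A' z.1 z.2.1 z.2.2 *
          (B z.1 z.2.1 z.2.2 * B (Function.update z.1 i (z.2.1 i)) z.2.1 z.2.2)) := by
    rw [hs3 (fun z => A' z.1 z.2.1 z.2.2 * (PB z.1 z.2.1 z.2.2) ^ 2),
      hs3 (fun z => A' z.1 z.2.1 z.2.2 *
          (B z.1 z.2.1 z.2.2 * B (Function.update z.1 i (z.2.1 i)) z.2.1 z.2.2))]
    refine av_congr fun y => ?_
    rw [av_update i (fun x' : K → X => av (fun x : K → X => A' x x' y *
      (B x x' y * B (Function.update x i (x' i)) x' y)))]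
    refine av_congr fun x' => ?_
    rw [av_comm]
    have e1 : ∀ x : K → X, av (fun v : X => A' x (Function.update x' i v) y *
        (B x (Function.update x' i v) y * B (Function.update x i (Function.update x' i v i))
          (Function.update x' i v) y)) =
        av (fun v : X => A' x x' y * (B x x' y * B (Function.update x i v) x' y)) :=
      fun x => av_congr fun v => by rw [Function.update_self, hA'2, hB, hB]
    rw [av_congr e1, av_update i (fun x : K → X => av (fun v : X => A' x x' y *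
      (B x x' y * B (Function.update x i v) x' y)))]
    refine av_congr fun x => ?_
    change A' x x' y * (av (fun u : X => B (Function.update x i u) x' y)) ^ 2 = _
    rw [sq, ← av_mul_const, ← av_const_mul]
    refine av_congr fun u => ?_
    rw [← av_const_mul, ← av_const_mul]
    refine av_congr fun v => ?_
    rw [hA'1, Function.update_idem]
  have hA'0 : ∀ z : (K → X) × (K → X) × Y, 0 ≤ A' z.1 z.2.1 z.2.2 := fun z =>
    le_trans (abs_nonneg _) (hA' z.1 z.2.1 z.2.2)
  have h3 : |av (fun z : (K → X) × (K → X) × Y => A z.1 z.2.1 z.2.2 * PB z.1 z.2.1 z.2.2)| ≤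
      av (fun z : (K → X) × (K → X) × Y => A' z.1 z.2.1 z.2.2 * |PB z.1 z.2.1 z.2.2|) :=
    abs_av_le_of fun z => by
      rw [abs_mul]
      exact mul_le_mul_of_nonneg_right (hA' _ _ _) (abs_nonneg _)
  have h4 := av_weight_cs (w := fun z : (K → X) × (K → X) × Y => A' z.1 z.2.1 z.2.2)
    (F := fun z => |PB z.1 z.2.1 z.2.2|) hA'0
  simp only [sq_abs] at h4
  rw [h1, ← h2, ← sq_abs]
  exact le_trans (pow_le_pow_left₀ (abs_nonneg _) h3 2) h4

end Pool.CG
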