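import Pool.Agent.Lib.MP_c77da8_nt.CG.Orth

/-!
# CG-N-Tau: the coefficients of `Lam^2`

`tau_inv`: Moebius inversion on finite sets (`∑_{ξ ⊆ D ⊆ ζ} (-1)^|D \ ξ| = [ξ = ζ]`).
`tau_sum_le`: for `D0 ⊆ sᶜ`: `tau(D0 ∪ b) = ∑_{ξ ⊆ D0} ∑_{u ⊆ b} (-1)^(|D0 \ ξ| + |b \ u|) Lam(ξ ∪ u)^2`; exchange the sums:
`∑_{D0 ⊇ ξ, D0 ⊆ sᶜ} (-1)^|D0 \ ξ| ∏_{p ∈ D0} 1/v_p = ∏_{p ∈ ξ} 1/v_p ∏_{p ∈ sᶜ \ ξ} (1 - 1/v_p)`. So the sum is
`∑_{u ⊆ b} (-1)^|b \ u| E Lam(ξ ∪ u)^2`, `≤ 2^|b| 4^|s| / V` in absolute value by `orth_le`. `tau_sum_eq`: `s = b = ∅`.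
-/

set_option autoImplicit false

namespace Pool.CG

open Finset

variable {P : Type} [Fintype P] [DecidableEq P]

/-- the Moebius transform on finite sets -/
private def mb (F : Finset P → ℝ) (D : Finset P) : ℝ :=
  ∑ ξ ∈ D.powerset, (-1 : ℝ) ^ (D \ ξ).card * F ξ

private theorem tau_eq_mb (v : P → ℕ) (R : ℕ) (D : Finset P) :
    tau v R D = mb (fun ξ => Lam v R ξ ^ 2) D := rfl

private theorem mb_insert (F : Finset P → ℝ) (D : Finset P) (q : P) (hq : q ∉ D) :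
    mb F (insert q D) = mb (fun ξ => F (insert q ξ)) D - mb F D := by
  unfold mb
  rw [Finset.sum_powerset_insert hq]
  have h1 : ∀ ξ ∈ D.powerset, (-1 : ℝ) ^ (insert q D \ ξ).card * F ξ =
      -((-1 : ℝ) ^ (D \ ξ).card * F ξ) := by
    intro ξ hξ
    have hqξ : q ∉ ξ := fun h => hq (Finset.mem_powerset.1 hξ h)
    have hqc : q ∉ D \ ξ := fun h => hq (Finset.mem_sdiff.1 h).1
    rw [Finset.insert_sdiff_of_notMem D hqξ, Finset.card_insert_of_notMem hqc, pow_succ]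
    ring
  have h2 : ∀ ξ ∈ D.powerset, (-1 : ℝ) ^ (insert q D \ insert q ξ).card * F (insert q ξ) =
      (-1 : ℝ) ^ (D \ ξ).card * F (insert q ξ) := by
    intro ξ hξ
    have hqξ : q ∉ ξ := fun h => hq (Finset.mem_powerset.1 hξ h)
    have hsd : insert q D \ insert q ξ = D \ ξ := by
      rw [Finset.insert_sdiff_insert, Finset.sdiff_insert_of_notMem hq]
    rw [hsd]
  rw [Finset.sum_congr rfl h1, Finset.sum_congr rfl h2, Finset.sum_neg_distrib]
  ring

private theorem mb_empty (F : Finset P → ℝ) : mb F ∅ = F ∅ := by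
  unfold mb
  rw [Finset.powerset_empty, Finset.sum_singleton, Finset.sdiff_self, Finset.card_empty, pow_zero,
    one_mul]

private theorem mb_inv (c : Finset P) : ∀ F : Finset P → ℝ, ∑ D ∈ c.powerset, mb F D = F c := by
  induction c using Finset.induction_on with
  | empty =>
    intro F
    rw [Finset.powerset_empty, Finset.sum_singleton, mb_empty]
  | insert q c hq ih =>
    intro F
    rw [Finset.sum_powerset_insert hq]
    have h1 : ∀ D ∈ c.powerset, mb F (insert q D) = mb (fun ξ => F (insert q ξ)) D - mb F D :=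
      fun D hD => mb_insert F D q fun h => hq (Finset.mem_powerset.1 hD h)
    rw [Finset.sum_congr rfl h1, Finset.sum_sub_distrib, ih, ih]
    ring

private theorem mb_w (w : P → ℝ) (c : Finset P) : ∀ G : Finset P → ℝ,
    ∑ D ∈ c.powerset, mb G D * ∏ p ∈ D, w p =
      ∑ ξ ∈ c.powerset, (∏ p ∈ ξ, w p) * (∏ p ∈ c \ ξ, (1 - w p)) * G ξ := by
  induction c using Finset.induction_on with
  | empty =>
    intro G
    rw [Finset.powerset_empty, Finset.sum_singleton, Finset.sum_singleton, mb_empty]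
    simp
  | insert q c hq ih =>
    intro G
    rw [Finset.sum_powerset_insert hq, Finset.sum_powerset_insert hq]
    have h1 : ∀ D ∈ c.powerset, mb G (insert q D) * ∏ p ∈ insert q D, w p =
        w q * (mb (fun ξ => G (insert q ξ)) D * ∏ p ∈ D, w p) -
          w q * (mb G D * ∏ p ∈ D, w p) := by
      intro D hD
      have hqD : q ∉ D := fun h => hq (Finset.mem_powerset.1 hD h)
      rw [mb_insert G D q hqD, Finset.prod_insert hqD]
      ring
    have h2 : ∀ ξ ∈ c.powerset, (∏ p ∈ ξ, w p) * (∏ p ∈ insert q c \ ξ, (1 - w p)) * G ξ =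
        (1 - w q) * ((∏ p ∈ ξ, w p) * (∏ p ∈ c \ ξ, (1 - w p)) * G ξ) := by
      intro ξ hξ
      have hqξ : q ∉ ξ := fun h => hq (Finset.mem_powerset.1 hξ h)
      have hqc : q ∉ c \ ξ := fun h => hq (Finset.mem_sdiff.1 h).1
      rw [Finset.insert_sdiff_of_notMem c hqξ, Finset.prod_insert hqc]
      ring
    have h3 : ∀ ξ ∈ c.powerset, (∏ p ∈ insert q ξ, w p) *
        (∏ p ∈ insert q c \ insert q ξ, (1 - w p)) * G (insert q ξ) =
        w q * ((∏ p ∈ ξ, w p) * (∏ p ∈ c \ ξ, (1 - w p)) * G (insert q ξ)) := by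
      intro ξ hξ
      have hqξ : q ∉ ξ := fun h => hq (Finset.mem_powerset.1 hξ h)
      have hsd : insert q c \ insert q ξ = c \ ξ := by
        rw [Finset.insert_sdiff_insert, Finset.sdiff_insert_of_notMem hq]
      rw [hsd, Finset.prod_insert hqξ]
      ring
    rw [Finset.sum_congr rfl h1, Finset.sum_congr rfl h2, Finset.sum_congr rfl h3,
      Finset.sum_sub_distrib, ← Finset.mul_sum, ← Finset.mul_sum, ← Finset.mul_sum,
      ← Finset.mul_sum, ih, ih]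
    ring

private theorem mb_union (b : Finset P) (D : Finset P) : Disjoint D b → ∀ F : Finset P → ℝ,
    mb F (D ∪ b) = mb (fun ξ => mb (fun u => F (ξ ∪ u)) b) D := by
  induction D using Finset.induction_on with
  | empty =>
    intro _ F
    rw [Finset.empty_union, mb_empty]
    simp only [Finset.empty_union]
  | insert q D hq ih =>
    intro hd F
    rw [Finset.disjoint_insert_left] at hd
    obtain ⟨hqb, hd⟩ := hd
    have hqu : q ∉ D ∪ b := by
      rw [Finset.mem_union]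
      exact fun h => h.elim hq hqb
    rw [Finset.insert_union, mb_insert F (D ∪ b) q hqu,
      mb_insert (fun ξ => mb (fun u => F (ξ ∪ u)) b) D q hq, ih hd, ih hd]
    simp only [Finset.insert_union]

private theorem inv_mem (v : P → ℕ) (hv : ∀ p, 2 ≤ v p) (p : P) :
    0 ≤ 1 / (v p : ℝ) ∧ 0 ≤ 1 - 1 / (v p : ℝ) := by
  have h : (2 : ℝ) ≤ (v p : ℝ) := by exact_mod_cast hv p
  refine ⟨by positivity, ?_⟩
  rw [sub_nonneg, div_le_one (by linarith)]
  linarith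

theorem tau_inv (v : P → ℕ) (R : ℕ) (ξ : Finset P) : Lam v R ξ ^ 2 = ∑ D ∈ ξ.powerset, tau v R D := by
  simp only [tau_eq_mb]
  exact (mb_inv ξ fun ξ => Lam v R ξ ^ 2).symm

theorem tau_sum_le (v : P → ℕ) (hv : ∀ p, 2 ≤ v p) (R : ℕ) (hR : 1 ≤ R) (s b : Finset P) (hb : b ⊆ s) :
    |∑ D0 ∈ (univ \ s).powerset, tau v R (D0 ∪ b) * ∏ p ∈ D0, 1 / (v p : ℝ)| ≤ 8 ^ s.card / VV v R := by
  have hV := VV_pos v hv R hR
  have h1 : ∀ D0 ∈ (univ \ s).powerset, tau v R (D0 ∪ b) * ∏ p ∈ D0, 1 / (v p : ℝ) =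
      mb (fun ξ => mb (fun u => Lam v R (ξ ∪ u) ^ 2) b) D0 * ∏ p ∈ D0, 1 / (v p : ℝ) := by
    intro D0 hD
    rw [Finset.mem_powerset] at hD
    have hd : Disjoint D0 b :=
      Finset.disjoint_left.2 fun p hp hp' => (Finset.mem_sdiff.1 (hD hp)).2 (hb hp')
    rw [tau_eq_mb, mb_union b D0 hd]
  rw [Finset.sum_congr rfl h1, mb_w (fun p => 1 / (v p : ℝ))]
  have h2 : ∑ ξ ∈ (univ \ s).powerset, (∏ p ∈ ξ, 1 / (v p : ℝ)) *
      (∏ p ∈ (univ \ s) \ ξ, (1 - 1 / (v p : ℝ))) * mb (fun u => Lam v R (ξ ∪ u) ^ 2) b =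
      ∑ u ∈ b.powerset, (-1 : ℝ) ^ (b \ u).card *
        ∑ ξ ∈ (univ \ s).powerset, (∏ p ∈ ξ, 1 / (v p : ℝ)) *
          (∏ p ∈ (univ \ s) \ ξ, (1 - 1 / (v p : ℝ))) * Lam v R (ξ ∪ u) ^ 2 := by
    unfold mb
    simp only [Finset.mul_sum]
    rw [Finset.sum_comm]
    refine Finset.sum_congr rfl fun u _ => Finset.sum_congr rfl fun ξ _ => ?_
    ring
  rw [h2]
  refine (Finset.abs_sum_le_sum_abs _ _).trans ?_
  have h3 : ∀ u ∈ b.powerset, |(-1 : ℝ) ^ (b \ u).card *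
        ∑ ξ ∈ (univ \ s).powerset, (∏ p ∈ ξ, 1 / (v p : ℝ)) *
          (∏ p ∈ (univ \ s) \ ξ, (1 - 1 / (v p : ℝ))) * Lam v R (ξ ∪ u) ^ 2| ≤
      4 ^ s.card / VV v R := by
    intro u hu
    rw [Finset.mem_powerset] at hu
    rw [abs_mul, abs_pow, abs_neg, abs_one, one_pow, one_mul, abs_of_nonneg]
    · exact orth_le v hv R hR s u (hu.trans hb)
    · refine Finset.sum_nonneg fun ξ _ => mul_nonneg (mul_nonneg ?_ ?_) (sq_nonneg _)
      · exact Finset.prod_nonneg fun p _ => (inv_mem v hv p).1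
      · exact Finset.prod_nonneg fun p _ => (inv_mem v hv p).2
  refine (Finset.sum_le_sum h3).trans ?_
  rw [Finset.sum_const, Finset.card_powerset, nsmul_eq_mul, Nat.cast_pow, Nat.cast_ofNat,
    ← mul_div_assoc]
  refine div_le_div_of_nonneg_right ?_ hV.le
  calc (2 : ℝ) ^ b.card * 4 ^ s.card ≤ 2 ^ s.card * 4 ^ s.card := by
        refine mul_le_mul_of_nonneg_right ?_ (by positivity)
        exact pow_le_pow_right₀ (by norm_num) (Finset.card_le_card hb)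
    _ = 8 ^ s.card := by
        rw [← mul_pow]
        norm_num

theorem tau_sum_eq (v : P → ℕ) (hv : ∀ p, 2 ≤ v p) (R : ℕ) (hR : 1 ≤ R) :
    ∑ D : Finset P, tau v R D * ∏ p ∈ D, 1 / (v p : ℝ) = 1 / VV v R := by
  have h := mb_w (fun p => 1 / (v p : ℝ)) (univ : Finset P) (fun ξ => Lam v R ξ ^ 2)
  rw [Finset.powerset_univ] at h
  simp only [tau_eq_mb]
  rw [h]
  exact orth_eq v hv R hR

end Pool.CG
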