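import Pool.Agent.Lib.MP_c77da8_nt.CG.Basic

/-!
# CG-Test: the test functions (paper 1.9), part 1

`phiU u z = |G| av_x [psi 0 x = z] ∏_{i ≠ 0} u_i(x)`.

PROOFS.  `psi_equi`: `psi 0 x = ∑_i i x_i`, the coefficient of `x_1` is 1; `[psi 0 x = z]`: replace `x_1` by an independent
variable `u` (`av_update 1`): `psi 0 (update x 1 u) = psi 0 x + (u - x_1)`, for each `x` exactly one `u` is good; so
`|G| av_x av_u [..] = |G| av_x (1/|G|) = 1`.
`av_phiU`: `av_z F(z) |G| av_x [psi 0 x = z] ∏ = av_x ∑_z F(z) [psi 0 x = z] ∏ = av_x F(psi 0 x) ∏` (`av z = (∑_z)/|G|`, exchange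
the sums, `Finset.sum_ite_eq`).
`phiU_nonneg`, `phiU_le_one`: `0 ≤ ∏ u_i ≤ 1` and `psi_equi`.
`phiU_psi`: `phiU u' (psi 0 x) = |G| av_v [psi 0 v = 0] ∏_{i≠0} u'_i(x + v)` (substitute `x' = x + v`, `psi 0` is additive).
`one_mem`: `u = 1` and `psi_equi`.
-/

set_option autoImplicit false

namespace Pool.CG

open Finset

variable {G : Type} [AddCommGroup G] [Fintype G] [DecidableEq G] {k : ℕ}

noncomputable def phiU (u : Fin (k + 2) → (Fin (k + 2) → G) → ℝ) (z : G) : ℝ :=
  (Fintype.card G : ℝ) * av (fun x : Fin (k + 2) → G => if psi 0 x = z then ∏ i ∈ univ.erase 0, u i x else 0)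

/-- the functions `u` which are allowed -/
def Good (u : Fin (k + 2) → (Fin (k + 2) → G) → ℝ) : Prop := (∀ i x, 0 ≤ u i x ∧ u i x ≤ 1) ∧ ∀ i, Ind i (u i)

/-- the set of test functions -/
def TestF (G : Type) [AddCommGroup G] [Fintype G] [DecidableEq G] (k : ℕ) : Set (G → ℝ) :=
  {φ | ∃ u : Fin (k + 2) → (Fin (k + 2) → G) → ℝ, Good u ∧ φ = phiU u}

theorem psi_add (j : Fin (k + 2)) (x v : Fin (k + 2) → G) : psi j (x + v) = psi j x + psi j v := by
  unfold psi
  rw [← sum_add_distrib]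
  refine sum_congr rfl fun i _ => ?_
  rw [Pi.add_apply, smul_add]

theorem psi_ind (j : Fin (k + 2)) (F : G → ℝ) : Ind j (fun x : Fin (k + 2) → G => F (psi j x)) := by
  intro x v
  show F (psi j (Function.update x j v)) = F (psi j x)
  congr 1
  unfold psi
  refine sum_congr rfl fun i _ => ?_
  by_cases h : i = j
  · rw [h, sub_self, zero_smul, zero_smul]
  · rw [Function.update_of_ne h]

private theorem psi_update_one (x : Fin (k + 2) → G) (u : G) :
    psi 0 (Function.update x 1 u) = psi 0 x + (u - x 1) := by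
  have h1 : (1 : Fin (k + 2)) ∈ (univ : Finset (Fin (k + 2))) := mem_univ _
  unfold psi
  rw [← add_sum_erase _ _ h1, ← add_sum_erase _ (fun i : Fin (k + 2) =>
    (((i : ℕ) : ℤ) - (((0 : Fin (k + 2)) : ℕ) : ℤ)) • x i) h1]
  have h2 : ∑ i ∈ univ.erase (1 : Fin (k + 2)),
      (((i : ℕ) : ℤ) - (((0 : Fin (k + 2)) : ℕ) : ℤ)) • Function.update x 1 u i =
      ∑ i ∈ univ.erase (1 : Fin (k + 2)),
      (((i : ℕ) : ℤ) - (((0 : Fin (k + 2)) : ℕ) : ℤ)) • x i := by
    refine sum_congr rfl fun i hi => ?_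
    rw [Function.update_of_ne (ne_of_mem_erase hi)]
  rw [h2, Function.update_self]
  have h3 : (((1 : Fin (k + 2)) : ℕ) : ℤ) - (((0 : Fin (k + 2)) : ℕ) : ℤ) = 1 := by
    simp
  rw [h3, one_smul, one_smul]
  abel

theorem psi_equi (z : G) :
    (Fintype.card G : ℝ) * av (fun x : Fin (k + 2) → G => if psi 0 x = z then (1 : ℝ) else 0) = 1 := by
  have hG : (Fintype.card G : ℝ) ≠ 0 := by
    have : Nonempty G := ⟨0⟩
    exact_mod_cast Fintype.card_ne_zero
  have hne : Nonempty (Fin (k + 2) → G) := ⟨fun _ => 0⟩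
  rw [av_update (1 : Fin (k + 2))]
  have h1 : ∀ x : Fin (k + 2) → G, av (fun u : G =>
      if psi 0 (Function.update x 1 u) = z then (1 : ℝ) else 0) = 1 / (Fintype.card G : ℝ) := by
    intro x
    unfold av
    congr 1
    have h2 : ∀ u : G, (if psi 0 (Function.update x 1 u) = z then (1 : ℝ) else 0) =
        if z - psi 0 x + x 1 = u then (1 : ℝ) else 0 := by
      intro u
      rw [psi_update_one]
      refine if_congr ?_ rfl rfl
      constructor
      · intro h
        rw [← h]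
        abel
      · intro h
        rw [← h]
        abel
    rw [sum_congr rfl fun u _ => h2 u, sum_ite_eq]
    simp
  rw [av_congr h1, av_const]
  field_simp

theorem av_phiU (F : G → ℝ) (u : Fin (k + 2) → (Fin (k + 2) → G) → ℝ) :
    av (fun z => F z * phiU u z) = av (fun x : Fin (k + 2) → G => F (psi 0 x) * ∏ i ∈ univ.erase 0, u i x) := by
  have hG : (Fintype.card G : ℝ) ≠ 0 := by
    have : Nonempty G := ⟨0⟩
    exact_mod_cast Fintype.card_ne_zero
  have h1 : ∀ z : G, F z * phiU u z = (Fintype.card G : ℝ) * av (fun x : Fin (k + 2) → G =>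
      if psi 0 x = z then F z * ∏ i ∈ univ.erase 0, u i x else 0) := by
    intro z
    unfold phiU
    rw [mul_left_comm, ← av_const_mul]
    congr 1
    refine av_congr fun x => ?_
    split_ifs
    · rfl
    · rw [mul_zero]
  rw [av_congr h1, av_const_mul, av_comm]
  rw [← av_const_mul]
  refine av_congr fun x => ?_
  unfold av
  rw [sum_ite_eq]
  simp only [mem_univ, if_true]
  field_simp

theorem phiU_nonneg {u : Fin (k + 2) → (Fin (k + 2) → G) → ℝ} (hu : Good u) (z : G) : 0 ≤ phiU u z := by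
  unfold phiU
  refine mul_nonneg (Nat.cast_nonneg _) (av_nonneg fun x => ?_)
  split_ifs
  · exact prod_nonneg fun i _ => (hu.1 i x).1
  · exact le_rfl

theorem phiU_le_one {u : Fin (k + 2) → (Fin (k + 2) → G) → ℝ} (hu : Good u) (z : G) : phiU u z ≤ 1 := by
  rw [← psi_equi (k := k) z]
  unfold phiU
  refine mul_le_mul_of_nonneg_left (av_mono fun x => ?_) (Nat.cast_nonneg _)
  split_ifs
  · exact prod_le_one (fun i _ => (hu.1 i x).1) (fun i _ => (hu.1 i x).2)
  · exact le_rfl

theorem phiU_psi (u : Fin (k + 2) → (Fin (k + 2) → G) → ℝ) (x : Fin (k + 2) → G) :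
    phiU u (psi 0 x) = (Fintype.card G : ℝ) * av (fun v : Fin (k + 2) → G =>
      if psi 0 v = 0 then ∏ i ∈ univ.erase 0, u i (x + v) else 0) := by
  unfold phiU
  rw [← av_equiv (Equiv.addLeft x) (fun y : Fin (k + 2) → G =>
    if psi 0 y = psi 0 x then ∏ i ∈ univ.erase 0, u i y else 0)]
  congr 1
  refine av_congr fun v => ?_
  have e : (Equiv.addLeft x) v = x + v := rfl
  rw [e, psi_add]
  refine if_congr ?_ rfl rfl
  constructor
  · intro h
    exact left_eq_add.1 h.symm
  · intro h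
    rw [h, add_zero]

theorem one_mem : (fun _ : G => (1 : ℝ)) ∈ TestF G k := by
  refine ⟨fun _ _ => 1, ⟨fun _ _ => ⟨zero_le_one, le_rfl⟩, fun _ => fun _ _ => rfl⟩, ?_⟩
  funext z
  unfold phiU
  simp only [prod_const_one]
  exact (psi_equi z).symm

end Pool.CG
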